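import Pool.Agent.H1.BranchDefs

set_option autoImplicit false
set_option linter.all false

namespace Pool.Agent.H1.Branch

abbrev W (n : ℕ) : Type := Fin n → Fin 2

def ini {n : ℕ} (w : W (n + 1)) : W n := fun i => w i.castSucc

/-- finitary automorphisms of the binary tree -/
def FA : Subgroup (∀ n, Equiv.Perm (W n)) where
  carrier := {g | (∀ n (w : W (n + 1)), ini (g (n + 1) w) = g n (ini w)) ∧
    ∃ N, ∀ n, N ≤ n → ∀ w : W (n + 1), g (n + 1) w (Fin.last n) = w (Fin.last n)}
  mul_mem' := by
    rintro a b ⟨ha, N, hN⟩ ⟨hb, M, hM⟩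
    refine ⟨fun n w => ?_, max N M, fun n hn w => ?_⟩
    · rw [Pi.mul_apply, Pi.mul_apply, Equiv.Perm.mul_apply, Equiv.Perm.mul_apply, ha, hb]
    · rw [Pi.mul_apply, Equiv.Perm.mul_apply, hN n (le_trans (le_max_left _ _) hn),
        hM n (le_trans (le_max_right _ _) hn)]
  one_mem' := ⟨fun n w => rfl, 0, fun n _ w => rfl⟩
  inv_mem' := by
    rintro a ⟨ha, N, hN⟩
    refine ⟨fun n w => ?_, N, fun n hn w => ?_⟩
    · rw [Pi.inv_apply, Pi.inv_apply]
      have h1 := ha n ((a (n + 1))⁻¹ w)
      have h2 : a (n + 1) ((a (n + 1))⁻¹ w) = w := (a (n + 1)).apply_symm_apply w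
      rw [h2] at h1
      rw [h1]
      exact ((a n).symm_apply_apply _).symm
    · rw [Pi.inv_apply]
      have h1 := hN n hn ((a (n + 1))⁻¹ w)
      have h2 : a (n + 1) ((a (n + 1))⁻¹ w) = w := (a (n + 1)).apply_symm_apply w
      rw [h2] at h1
      exact h1.symm

theorem sign_trivial {n : ℕ} (p : Equiv.Perm (W (n + 1))) (p' : Equiv.Perm (W n))
    (h1 : ∀ w, ini (p w) = p' (ini w)) (h2 : ∀ w, p w (Fin.last n) = w (Fin.last n)) :
    Equiv.Perm.sign p = 1 := by
  let e : W (n + 1) ≃ Fin 2 × W n :=
    { toFun := fun w => (w (Fin.last n), ini w)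
      invFun := fun x => Fin.snoc (α := fun _ => Fin 2) x.2 x.1
      left_inv := by
        intro w
        show Fin.snoc (α := fun _ => Fin 2) (ini w) (w (Fin.last n)) = w
        exact Fin.snoc_init_self w
      right_inv := by
        rintro ⟨b, v⟩
        simp only [Fin.snoc_last, Prod.mk.injEq, true_and]
        funext i
        simp [ini] }
  have h3 : (e.symm.trans p).trans e = Equiv.prodCongrRight (fun _ : Fin 2 => p') := by
    ext x
    · simp only [Equiv.trans_apply]
      show ((p (e.symm x)) (Fin.last n)).val = _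
      rw [h2]
      have : e (e.symm x) = x := e.apply_symm_apply x
      have h4 : (e (e.symm x)).1 = x.1 := by rw [this]
      exact congrArg Fin.val h4
    · rename_i i
      simp only [Equiv.trans_apply]
      show ((ini (p (e.symm x))) i).val = _
      rw [h1]
      have : e (e.symm x) = x := e.apply_symm_apply x
      have h4 : ini (e.symm x) = x.2 := congrArg Prod.snd this
      rw [h4]
      rfl
  rw [← Equiv.Perm.sign_symm_trans_trans p e, h3, Equiv.Perm.sign_prodCongrRight]
  simp

/-- the sign on level `n + 1` -/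
def sg (n : ℕ) : FA →* ℤˣ :=
  (Equiv.Perm.sign).comp ((Pi.evalMonoidHom (fun n => Equiv.Perm (W n)) (n + 1)).comp FA.subtype)

theorem sg_apply (n : ℕ) (g : FA) : sg n g = Equiv.Perm.sign (g.1 (n + 1)) := rfl

theorem sg_finite (g : FA) : ∃ N, ∀ n, N ≤ n → sg n g = 1 := by
  obtain ⟨h1, N, hN⟩ := g.2
  exact ⟨N, fun n hn => sign_trivial _ _ (h1 n) (hN n hn)⟩

open Classical in
/-- product of the signs over the levels in `S` -/
noncomputable def phi (S : Set ℕ) : FA →* ℤˣ where
  toFun g := ∏ᶠ n, (if n ∈ S then sg n g else 1)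
  map_one' := by simp
  map_mul' := by
    intro a b
    have fin : ∀ g : FA, (Function.mulSupport (fun n => if n ∈ S then sg n g else 1)).Finite := by
      intro g
      obtain ⟨N, hN⟩ := sg_finite g
      refine (Set.finite_lt_nat N).subset ?_
      intro n hn
      rw [Function.mem_mulSupport] at hn
      by_contra hc
      apply hn
      split_ifs
      · exact hN n (not_lt.1 hc)
      · rfl
    rw [← finprod_mul_distrib (fin a) (fin b)]
    refine finprod_congr (fun n => ?_)
    split_ifs
    · rw [map_mul]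
    · rw [mul_one]

/-- flip of the entry `n` of words whose entries before `n` vanish -/
def fl (n k : ℕ) (w : W k) : W k :=
  fun i => if (i.val = n ∧ ∀ j : Fin k, j.val < n → w j = 0) then w i + 1 else w i

theorem fl_ne {n k : ℕ} (w : W k) (i : Fin k) (h : i.val ≠ n) : fl n k w i = w i := by
  unfold fl
  rw [if_neg (fun hc => h hc.1)]

theorem fl_invol (n k : ℕ) : Function.Involutive (fl n k) := by
  intro w
  have h1 : (∀ j : Fin k, j.val < n → fl n k w j = 0) ↔ (∀ j : Fin k, j.val < n → w j = 0) := by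
    refine forall_congr' (fun j => ?_)
    refine imp_congr_right (fun hj => ?_)
    rw [fl_ne w j hj.ne]
  funext i
  by_cases hi : i.val = n ∧ ∀ j : Fin k, j.val < n → w j = 0
  · have hi' : i.val = n ∧ ∀ j : Fin k, j.val < n → fl n k w j = 0 := ⟨hi.1, h1.2 hi.2⟩
    have e1 : fl n k (fl n k w) i = fl n k w i + 1 := if_pos hi'
    have e2 : fl n k w i = w i + 1 := by
      unfold fl
      rw [if_pos hi]
    rw [e1, e2]
    have : ∀ x : Fin 2, x + 1 + 1 = x := by decide
    exact this _
  · have hi' : ¬ (i.val = n ∧ ∀ j : Fin k, j.val < n → fl n k w j = 0) := fun hc => hi ⟨hc.1, h1.1 hc.2⟩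
    have e1 : fl n k (fl n k w) i = fl n k w i := if_neg hi'
    have e2 : fl n k w i = w i := by
      unfold fl
      rw [if_neg hi]
    rw [e1, e2]

/-- the elementary finitary automorphism -/
def el (n : ℕ) : FA :=
  ⟨fun k => (fl_invol n k).toPerm, by
    refine ⟨fun k w => ?_, n + 1, fun k hk w => ?_⟩
    · funext i
      show fl n (k + 1) w i.castSucc = fl n k (ini w) i
      unfold fl
      have h : (i.castSucc.val = n ∧ ∀ j : Fin (k + 1), j.val < n → w j = 0) ↔
          (i.val = n ∧ ∀ j : Fin k, j.val < n → ini w j = 0) := by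
        constructor
        · rintro ⟨h1, h2⟩
          exact ⟨h1, fun j hj => h2 j.castSucc hj⟩
        · rintro ⟨h1, h2⟩
          refine ⟨h1, fun j hj => ?_⟩
          have hj' : j.val < k := by
            have := i.isLt
            omega
          exact h2 ⟨j.val, hj'⟩ hj
      simp only [h]
      rfl
    · show fl n (k + 1) w (Fin.last k) = w (Fin.last k)
      apply fl_ne
      simp only [Fin.val_last]
      omega⟩

theorem el_apply (n k : ℕ) (w : W k) : (el n).1 k w = fl n k w := rfl

theorem el_low {n k : ℕ} (h : k ≤ n) : (el n).1 k = 1 := by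
  ext1 w
  rw [el_apply]
  funext i
  rw [fl_ne]
  · rfl
  · have := i.isLt
    omega

theorem sg_el_ne {n m : ℕ} (h : m ≠ n) : sg m (el n) = 1 := by
  rcases lt_or_gt_of_ne h with h | h
  · rw [sg_apply, el_low (by omega), map_one]
  · obtain ⟨h1, -⟩ := (el n).2
    apply sign_trivial _ ((el n).1 m) (h1 m)
    intro w
    rw [el_apply, fl_ne]
    simp only [Fin.val_last]
    omega

theorem sg_el (n : ℕ) : sg n (el n) = -1 := by
  rw [sg_apply]
  have h : (el n).1 (n + 1) = Equiv.swap (fun _ => 0) (fun i => if i = Fin.last n then 1 else 0) := by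
    ext1 w
    rw [el_apply]
    by_cases h0 : ∀ j : Fin (n + 1), j.val < n → w j = 0
    · have h2 : w (Fin.last n) = 0 ∨ w (Fin.last n) = 1 := by
        have : ∀ x : Fin 2, x = 0 ∨ x = 1 := by decide
        exact this _
      rcases h2 with h2 | h2
      · have hw : w = fun _ => 0 := by
          funext i
          rcases Fin.eq_castSucc_or_eq_last i with ⟨j, rfl⟩ | rfl
          · exact h0 _ (by simp)
          · exact h2
        rw [hw, Equiv.swap_apply_left]
        funext i
        unfold fl
        by_cases hi : i = Fin.last n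
        · subst hi
          simp
        · have : i.val ≠ n := fun hc => hi (Fin.ext hc)
          simp [hi, this]
      · have hw : w = fun i => if i = Fin.last n then 1 else 0 := by
          funext i
          rcases Fin.eq_castSucc_or_eq_last i with ⟨j, rfl⟩ | rfl
          · rw [h0 _ (by simp), if_neg (Fin.castSucc_lt_last j).ne]
          · rw [h2, if_pos rfl]
        rw [hw, Equiv.swap_apply_right]
        funext i
        unfold fl
        by_cases hi : i = Fin.last n
        · subst hi
          have h5 : ∀ j : Fin (n + 1), j.val < n → (if j = Fin.last n then (1 : Fin 2) else 0) = 0 := by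
            intro j hj
            rw [if_neg (fun hc => by rw [hc] at hj; simp at hj)]
          rw [if_pos ⟨by simp, h5⟩]
          simp only [if_true]
          decide
        · have : i.val ≠ n := fun hc => hi (Fin.ext hc)
          simp [hi, this]
    · rw [Equiv.swap_apply_of_ne_of_ne]
      · funext i
        unfold fl
        rw [if_neg (fun hc => h0 hc.2)]
      · rintro rfl
        exact h0 (fun _ _ => rfl)
      · rintro rfl
        apply h0
        intro j hj
        simp only
        rw [if_neg (fun hc => by rw [hc] at hj; simp at hj)]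
  rw [h, Equiv.Perm.sign_swap]
  intro hc
  have := congrFun hc (Fin.last n)
  simp at this

theorem phi_el {S : Set ℕ} {n : ℕ} (h : n ∈ S) : phi S (el n) = -1 := by
  classical
  show ∏ᶠ m, (if m ∈ S then sg m (el n) else 1) = -1
  rw [finprod_eq_single _ n]
  · rw [if_pos h, sg_el]
  · intro m hm
    split_ifs
    · exact sg_el_ne hm
    · rfl

theorem phi_el' {S : Set ℕ} {n : ℕ} (h : n ∉ S) : phi S (el n) = 1 := by
  classical
  show ∏ᶠ m, (if m ∈ S then sg m (el n) else 1) = 1
  rw [finprod_eq_single _ n]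
  · rw [if_neg h]
  · intro m hm
    split_ifs
    · exact sg_el_ne hm
    · rfl

/-- evaluation on level `k` -/
def ev (k : ℕ) : FA →* Equiv.Perm (W k) :=
  (Pi.evalMonoidHom (fun n => Equiv.Perm (W n)) k).comp FA.subtype

theorem ev_apply (k : ℕ) (g : FA) : ev k g = g.1 k := rfl

theorem ev_mono {k : ℕ} {g : FA} (h : ev (k + 1) g = 1) : ev k g = 1 := by
  ext1 w
  obtain ⟨h1, -⟩ := g.2
  have h2 := h1 k (Fin.snoc (α := fun _ => Fin 2) w 0)
  rw [← ev_apply, h] at h2
  have h3 : ini (Fin.snoc (α := fun _ => Fin 2) w 0) = w := by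
    funext i
    simp [ini]
  rw [ev_apply]
  simp only [Equiv.Perm.one_apply] at h2 ⊢
  rw [h3] at h2
  exact h2.symm

/-- the normal T-sequences -/
noncomputable def TS (S : Set ℕ) (k : ℕ) : Subgroup FA := (ev k).ker ⊓ (phi S).ker

theorem ts_isNormal (S : Set ℕ) : IsNormalTSeq (TS S) := by
  refine ⟨fun n => ?_, fun n => ?_, fun n => ?_, ?_⟩
  · intro g hg
    obtain ⟨h1, h2⟩ := Subgroup.mem_inf.1 hg
    exact Subgroup.mem_inf.2 ⟨MonoidHom.mem_ker.2 (ev_mono (MonoidHom.mem_ker.1 h1)), h2⟩
  · unfold TS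
    infer_instance
  · unfold TS
    infer_instance
  · rw [eq_bot_iff]
    intro g hg
    rw [Subgroup.mem_bot]
    apply Subtype.ext
    funext k
    exact MonoidHom.mem_ker.1 (Subgroup.mem_inf.1 (Subgroup.mem_iInf.1 hg k)).1

theorem ts_inequiv {S T : Set ℕ} (h : ∀ k, ∃ n, k ≤ n ∧ n ∈ S ∧ n ∉ T) : ¬ SeqEquiv (TS S) (TS T) := by
  rintro ⟨h1, -⟩
  obtain ⟨k, hk⟩ := h1 0
  obtain ⟨n, hn, hS, hT⟩ := h k
  have h2 : el n ∈ TS T k :=
    Subgroup.mem_inf.2 ⟨MonoidHom.mem_ker.2 (el_low hn), MonoidHom.mem_ker.2 (phi_el' hT)⟩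
  have h3 := MonoidHom.mem_ker.1 (Subgroup.mem_inf.1 (hk h2)).2
  rw [phi_el hS] at h3
  exact absurd h3 (by decide)

def SS (i : ℕ) : Set ℕ := {n | (Nat.unpair n).1 = i}

theorem ss_spec {i j : ℕ} (h : i ≠ j) (k : ℕ) : ∃ n, k ≤ n ∧ n ∈ SS i ∧ n ∉ SS j := by
  refine ⟨Nat.pair i k, Nat.right_le_pair i k, ?_, ?_⟩
  · show (Nat.unpair (Nat.pair i k)).1 = i
    rw [Nat.unpair_pair]
  · show ¬ (Nat.unpair (Nat.pair i k)).1 = j
    rw [Nat.unpair_pair]
    exact h

end Pool.Agent.H1.Branch
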