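import Pool.Agent.H1.BranchA

set_option autoImplicit false
set_option linter.all false

namespace Pool.Agent.H1.Branch

/-- the action on the binary tree -/
def actFA : TreeAction FA (fun _ => 2) where
  act := fun n => ev n
  compat := fun n g w => g.2.1 n w

def pre {n k : ℕ} (h : n ≤ k) (w : W k) : W n := fun i => w (Fin.castLE h i)

theorem pre_succ {n k : ℕ} (h : n ≤ k) (w : W (k + 1)) : pre (Nat.le_succ_of_le h) w = pre h (ini w) := rfl

theorem pre_self {n : ℕ} (h : n ≤ n) (w : W n) : pre h w = w := rfl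

theorem pre_act (g : FA) {n k : ℕ} (h : n ≤ k) (w : W k) : pre h (g.1 k w) = g.1 n (pre h w) := by
  induction k with
  | zero =>
    obtain rfl : n = 0 := by omega
    rfl
  | succ k ih =>
    rcases Nat.lt_or_ge k n with h1 | h1
    · obtain rfl : n = k + 1 := by omega
      rfl
    · rw [pre_succ h1, pre_succ h1, g.2.1 k w, ih h1]

theorem ev_mono' {n k : ℕ} (h : k ≤ n) {g : FA} (hg : ev n g = 1) : ev k g = 1 := by
  induction n with
  | zero =>
    obtain rfl : k = 0 := by omega
    exact hg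
  | succ n ih =>
    rcases Nat.lt_or_ge n k with h1 | h1
    · obtain rfl : k = n + 1 := by omega
      exact hg
    · exact ih h1 (ev_mono hg)

/-- translation -/
def tr (c : ℕ → Fin 2) (N : ℕ) (hc : ∀ i, N ≤ i → c i = 0) : FA :=
  ⟨fun k => Equiv.addRight (fun i : Fin k => c i), by
    refine ⟨fun k w => rfl, N, fun k hk w => ?_⟩
    show w (Fin.last k) + c (Fin.last k).val = w (Fin.last k)
    rw [hc _ (by simpa using hk), add_zero]⟩

theorem trans_FA (n : ℕ) (v w : Vert (fun _ => 2) n) : ∃ g : FA, actFA.act n g v = w := by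
  refine ⟨tr (fun i => if h : i < n then (w ⟨i, h⟩ : Fin 2) - (v ⟨i, h⟩ : Fin 2) else 0) n
    (fun i hi => dif_neg (not_lt.2 hi)), ?_⟩
  funext i
  show (v i : Fin 2) + (if h : i.val < n then (w ⟨i, h⟩ : Fin 2) - (v ⟨i, h⟩ : Fin 2) else 0) = w i
  rw [dif_pos i.isLt]
  exact add_sub_cancel (v i : Fin 2) (w i : Fin 2)

section Restr

variable (g : FA) {n : ℕ} (hg : ev n g = 1) (A : Finset (W n))

def PP {n : ℕ} (A : Finset (W n)) (k : ℕ) (w : W k) : Prop := ∃ h : n ≤ k, pre h w ∈ A

include hg in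
theorem PP_iff (k : ℕ) (w : W k) : PP A k (g.1 k w) ↔ PP A k w := by
  unfold PP
  refine exists_congr (fun h => ?_)
  rw [pre_act]
  have : g.1 n (pre h w) = pre h w := by
    have h1 : ev n g (pre h w) = pre h w := by rw [hg]; rfl
    exact h1
  rw [this]

open Classical in
/-- the permutation acting as `g` below `A` and trivially elsewhere -/
noncomputable def rp (k : ℕ) : Equiv.Perm (W k) :=
  Equiv.Perm.ofSubtype ((g.1 k).subtypePerm (p := PP A k) (PP_iff g hg A k))

theorem rp_pos {k : ℕ} {w : W k} (h : PP A k w) : rp g hg A k w = g.1 k w := by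
  classical
  unfold rp
  rw [Equiv.Perm.ofSubtype_apply_of_mem _ h]
  rfl

theorem rp_neg {k : ℕ} {w : W k} (h : ¬ PP A k w) : rp g hg A k w = w := by
  classical
  unfold rp
  rw [Equiv.Perm.ofSubtype_apply_of_not_mem _ h]

theorem rp_mem : (fun k => rp g hg A k) ∈ FA := by
  obtain ⟨N, hN⟩ := g.2.2
  refine ⟨fun k w => ?_, N, fun k hk w => ?_⟩
  · rcases Nat.lt_or_ge k n with h | h
    · have h1 : ¬ PP A k (ini w) := fun ⟨h2, _⟩ => by omega
      rw [rp_neg g hg A h1]
      by_cases h3 : PP A (k + 1) w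
      · obtain ⟨h4, h5⟩ := h3
        obtain rfl : n = k + 1 := by omega
        rw [rp_pos g hg A ⟨h4, h5⟩]
        have : g.1 (k + 1) w = w := by
          have h1 : ev (k + 1) g w = w := by rw [hg]; rfl
          exact h1
        rw [this]
      · rw [rp_neg g hg A h3]
    · by_cases h3 : PP A (k + 1) w
      · have h4 : PP A k (ini w) := by
          obtain ⟨h5, h6⟩ := h3
          exact ⟨h, h6⟩
        rw [rp_pos g hg A h3, rp_pos g hg A h4]
        exact g.2.1 k w
      · have h4 : ¬ PP A k (ini w) := by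
          rintro ⟨h5, h6⟩
          exact h3 ⟨Nat.le_succ_of_le h5, h6⟩
        rw [rp_neg g hg A h3, rp_neg g hg A h4]
  · by_cases h3 : PP A (k + 1) w
    · rw [rp_pos g hg A h3]
      exact hN k hk w
    · rw [rp_neg g hg A h3]

noncomputable def rr : FA := ⟨fun k => rp g hg A k, rp_mem g hg A⟩

end Restr

theorem rr_single (g : FA) {n : ℕ} (hg : ev n g = 1) (v : W n) :
    rr g hg {v} ∈ actFA.rist (v : Vert (fun _ => 2) n) := by
  intro k w hw
  show rp g hg {v} k w = w
  apply rp_neg
  rintro ⟨h, h1⟩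
  apply hw
  refine ⟨h, fun i => ?_⟩
  rw [Finset.mem_singleton] at h1
  exact congrFun h1 i

theorem rr_insert (g : FA) {n : ℕ} (hg : ev n g = 1) (v : W n) (A : Finset (W n)) (hv : v ∉ A) :
    rr g hg (insert v A) = rr g hg A * rr g hg {v} := by
  classical
  apply Subtype.ext
  funext k
  ext1 w
  show rp g hg (insert v A) k w = rp g hg A k (rp g hg {v} k w)
  by_cases h1 : PP {v} k w
  · have h2 : PP (insert v A) k w := by
      obtain ⟨h, h3⟩ := h1
      exact ⟨h, Finset.mem_insert.2 (Or.inl (Finset.mem_singleton.1 h3))⟩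
    have h3 : ¬ PP A k (g.1 k w) := by
      rw [PP_iff g hg A k w]
      rintro ⟨h, h4⟩
      obtain ⟨h', h5⟩ := h1
      rw [Finset.mem_singleton] at h5
      rw [h5] at h4
      exact hv h4
    rw [rp_pos g hg _ h2, rp_pos g hg _ h1, rp_neg g hg _ h3]
  · rw [rp_neg g hg _ h1]
    by_cases h2 : PP A k w
    · have h3 : PP (insert v A) k w := by
        obtain ⟨h, h3⟩ := h2
        exact ⟨h, Finset.mem_insert.2 (Or.inr h3)⟩
      rw [rp_pos g hg _ h2, rp_pos g hg _ h3]
    · have h3 : ¬ PP (insert v A) k w := by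
        rintro ⟨h, h3⟩
        rcases Finset.mem_insert.1 h3 with h4 | h4
        · exact h1 ⟨h, Finset.mem_singleton.2 h4⟩
        · exact h2 ⟨h, h4⟩
      rw [rp_neg g hg _ h2, rp_neg g hg _ h3]

theorem rr_mem (g : FA) {n : ℕ} (hg : ev n g = 1) (A : Finset (W n)) :
    rr g hg A ∈ actFA.ristLevel n := by
  classical
  induction A using Finset.induction_on with
  | empty =>
    have : rr g hg ∅ = 1 := by
      apply Subtype.ext
      funext k
      ext1 w
      show rp g hg ∅ k w = w
      apply rp_neg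
      rintro ⟨h, h1⟩
      simp at h1
    rw [this]
    exact Subgroup.one_mem _
  | insert v A hv ih =>
    rw [rr_insert g hg v A hv]
    refine Subgroup.mul_mem _ ih ?_
    exact (le_iSup (fun v : Vert (fun _ => 2) n => actFA.rist v) v) (rr_single g hg v)

theorem stab_le (n : ℕ) : (ev n).ker ≤ actFA.ristLevel n := by
  intro g hg
  rw [MonoidHom.mem_ker] at hg
  have h : rr g hg Finset.univ = g := by
    apply Subtype.ext
    funext k
    ext1 w
    show rp g hg Finset.univ k w = g.1 k w
    by_cases h1 : n ≤ k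
    · exact rp_pos g hg _ ⟨h1, Finset.mem_univ _⟩
    · rw [rp_neg g hg _ (fun ⟨h2, _⟩ => h1 h2)]
      have h3 := ev_mono' (le_of_not_ge h1) hg
      have h4 : ev k g w = w := by rw [h3]; rfl
      exact h4.symm
  rw [← h]
  exact rr_mem g hg _

theorem isBranch_FA : IsBranchGroup FA := by
  refine ⟨fun _ => 2, fun _ => le_rfl, actFA, ?_, trans_FA, fun n => ?_⟩
  · intro g hg
    apply Subtype.ext
    funext k
    exact hg k
  · exact Subgroup.finiteIndex_of_le (stab_le n)

end Pool.Agent.H1.Branch
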