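import Mathlib

set_option autoImplicit false

namespace Pool.Agent.H1.Branch

/-- The vertices of level `n` of the spherically homogeneous rooted tree with branching
sequence `m`: sequences `(w_0, ..., w_{n-1})` with `w_i` in `{0, ..., m_i - 1}`. -/
abbrev Vert (m : ℕ → ℕ) (n : ℕ) : Type := (i : Fin n) → Fin (m i)

/-- The parent (in level `n`) of a vertex of level `n + 1`: delete the last entry. -/
def parent {m : ℕ → ℕ} {n : ℕ} (w : Vert m (n + 1)) : Vert m n := fun i => w i.castSucc

/-- `w` lies in the subtree rooted at `v` (possibly `w = v`): `v` is an initial segment of `w`. -/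
def Below {m : ℕ → ℕ} {n k : ℕ} (v : Vert m n) (w : Vert m k) : Prop :=
  ∃ h : n ≤ k, ∀ i : Fin n, w (Fin.castLE h i) = v i

/-- An action of the group `G` on the rooted tree with branching sequence `m`: actions on all
levels which are compatible with taking parents. -/
structure TreeAction (G : Type) [Group G] (m : ℕ → ℕ) where
  act : ∀ n : ℕ, G →* Equiv.Perm (Vert m n)
  compat : ∀ (n : ℕ) (g : G) (w : Vert m (n + 1)), parent (act (n + 1) g w) = act n g (parent w)

variable {G : Type} [Group G] {m : ℕ → ℕ}

/-- The rigid stabiliser of the vertex `v`: the elements which fix every vertex outside the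
subtree rooted at `v`. -/
def TreeAction.rist (A : TreeAction G m) {n : ℕ} (v : Vert m n) : Subgroup G where
  carrier := {g | ∀ (k : ℕ) (w : Vert m k), ¬ Below v w → A.act k g w = w}
  mul_mem' := by
    intro a b ha hb k w hw
    rw [map_mul, Equiv.Perm.mul_apply, hb k w hw, ha k w hw]
  one_mem' := by
    intro k w _
    rw [map_one, Equiv.Perm.one_apply]
  inv_mem' := by
    intro a ha k w hw
    rw [map_inv, Equiv.Perm.inv_eq_iff_eq, ha k w hw]

/-- The rigid stabiliser of level `n`: the subgroup generated by the rigid stabilisers of the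
vertices of level `n`. -/
def TreeAction.ristLevel (A : TreeAction G m) (n : ℕ) : Subgroup G := ⨆ v : Vert m n, A.rist v

/-- `G` is a branch group: it has a faithful action on a spherically homogeneous rooted tree
(all `m i` at least two) which is transitive on every level and such that the rigid stabilisers
of all levels have finite index. -/
def IsBranchGroup (G : Type) [Group G] : Prop :=
  ∃ m : ℕ → ℕ, (∀ i, 2 ≤ m i) ∧ ∃ A : TreeAction G m,
    (∀ g : G, (∀ n, A.act n g = 1) → g = 1) ∧
    (∀ (n : ℕ) (v w : Vert m n), ∃ g : G, A.act n g v = w) ∧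
    ∀ n : ℕ, (A.ristLevel n).FiniteIndex

/-- `M` is a normal T-sequence of `L`: a descending sequence of normal subgroups of finite index
with trivial intersection. -/
structure IsNormalTSeq {L : Type} [Group L] (M : ℕ → Subgroup L) : Prop where
  anti : ∀ n, M (n + 1) ≤ M n
  normal : ∀ n, (M n).Normal
  finiteIndex : ∀ n, (M n).FiniteIndex
  inter : ⨅ n, M n = ⊥

/-- Equivalence of T-sequences: each term of either sequence contains some term of the other. -/
def SeqEquiv {L : Type} [Group L] (M N : ℕ → Subgroup L) : Prop :=
  (∀ n, ∃ k, N k ≤ M n) ∧ (∀ k, ∃ n, M n ≤ N k)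

end Pool.Agent.H1.Branch
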