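import Mathlib

open MeasureTheory ProbabilityTheory

namespace EntPow

/-- Differential entropy `h(X) = -∫ f log f` of a random vector `X` in `ℝ^d` with density `f` with
respect to Lebesgue measure. -/
noncomputable def diffEntropy {Ω : Type} [MeasurableSpace Ω] (P : Measure Ω) {d : ℕ}
    (X : Ω → (Fin d → ℝ)) : ℝ :=
  - ∫ x, (pdf X P volume x).toReal * Real.log (pdf X P volume x).toReal

/-- `X` has a density with respect to Lebesgue measure and its differential entropy is finite. -/
def HasFiniteEntropy {Ω : Type} [MeasurableSpace Ω] (P : Measure Ω) {d : ℕ}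
    (X : Ω → (Fin d → ℝ)) : Prop :=
  HasPDF X P volume ∧
    Integrable (fun x => (pdf X P volume x).toReal * Real.log (pdf X P volume x).toReal) volume

/-- The entropy power `N(X) = exp((2/d) h(X))`. -/
noncomputable def entropyPower {Ω : Type} [MeasurableSpace Ω] (P : Measure Ω) {d : ℕ}
    (X : Ω → (Fin d → ℝ)) : ℝ :=
  Real.exp (2 / (d : ℝ) * diffEntropy P X)

/-- `Γ_d(n)`: all vectors `(N(∑_{i ∈ S} X_i))_S`, indexed by the nonempty subsets `S` of `[n]`,
for `X_1, …, X_n` independent random vectors in `ℝ^d` such that every subset sum has a density and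
finite differential entropy. -/
def GammaD (d n : ℕ) : Set ({S : Finset (Fin n) // S.Nonempty} → ℝ) :=
  {v | ∃ (Ω : Type) (_ : MeasurableSpace Ω) (P : Measure Ω) (_ : IsProbabilityMeasure P)
      (X : Fin n → Ω → (Fin d → ℝ)),
      (∀ i, Measurable (X i)) ∧ iIndepFun X P ∧
      (∀ S : Finset (Fin n), S.Nonempty → HasFiniteEntropy P (∑ i ∈ S, X i)) ∧
      ∀ S : {S : Finset (Fin n) // S.Nonempty}, v S = entropyPower P (∑ i ∈ S.1, X i)}

/-- The entropy power region `Γ(n) = ⋃_{d ≥ 1} Γ_d(n)`. -/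
def Gamma (n : ℕ) : Set ({S : Finset (Fin n) // S.Nonempty} → ℝ) :=
  {v | ∃ d : ℕ, 1 ≤ d ∧ v ∈ GammaD d n}

section
variable {Ω : Type} [MeasurableSpace Ω] {P : Measure Ω} [IsProbabilityMeasure P] {d : ℕ}

lemma pdf_pos_ae (W : Ω → (Fin d → ℝ)) [hW : HasPDF W P volume] :
    ∀ᵐ ω ∂P, 0 < (pdf W P volume (W ω)).toReal := by
  have hm : AEMeasurable W P := HasPDF.aemeasurable' volume
  have hac : P.map W ≪ volume := HasPDF.absolutelyContinuous
  haveI : (P.map W).HaveLebesgueDecomposition volume := HasPDF.haveLebesgueDecomposition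
  have h1 : ∀ᵐ x ∂(P.map W), 0 < (P.map W).rnDeriv volume x :=
    Measure.rnDeriv_pos hac
  have h2 : ∀ᵐ x ∂(P.map W), pdf W P volume x < ⊤ := hac.ae_le pdf.ae_lt_top
  have h3 := ae_of_ae_map hm h1
  have h4 := ae_of_ae_map hm h2
  filter_upwards [h3, h4] with ω a b
  exact ENNReal.toReal_pos a.ne' b.ne

lemma integral_log (W : Ω → (Fin d → ℝ)) (hW : HasFiniteEntropy P W) :
    Integrable (fun ω => Real.log (pdf W P volume (W ω)).toReal) P ∧
      ∫ ω, Real.log (pdf W P volume (W ω)).toReal ∂P = - diffEntropy P W := by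
  haveI := hW.1
  have hm : AEStronglyMeasurable (fun x => Real.log (pdf W P volume x).toReal) volume :=
    ((Real.measurable_log.comp (measurable_pdf W P volume).ennreal_toReal)).aestronglyMeasurable
  constructor
  · exact (pdf.integrable_pdf_smul_iff hm).1 hW.2
  · rw [diffEntropy, neg_neg]
    exact (pdf.integral_pdf_smul hm).symm

/-- the key integral is at most one -/
lemma key_lintegral (X Y Z : Ω → (Fin d → ℝ)) (hX : Measurable X) (hY : Measurable Y)
    (hZ : Measurable Z) [HasPDF X P volume] [HasPDF Y P volume] [HasPDF Z P volume]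
    (hXYZ : IndepFun X (fun ω => (Y ω, Z ω)) P) (hYZ : IndepFun Y Z P)
    (hYXZ : IndepFun Y (X + Z) P) (hXYpZ : IndepFun X (Y + Z) P)
    (hXZ : IndepFun X Z P) :
    ∫⁻ ω, pdf (X + Z) P volume (X ω + Z ω) * pdf (Y + Z) P volume (Y ω + Z ω) *
      (pdf (X + (Y + Z)) P volume (X ω + Y ω + Z ω))⁻¹ * (pdf Z P volume (Z ω))⁻¹ ∂P ≤ 1 := by
  haveI : HasPDF (X + Z) P volume := hXZ.add_hasPDF
  haveI : HasPDF (Y + Z) P volume := hYZ.add_hasPDF
  haveI : HasPDF (X + (Y + Z)) P volume := hXYpZ.add_hasPDF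
  set a := pdf (X + Z) P volume with ha
  set b := pdf (Y + Z) P volume with hb
  set s := pdf (X + (Y + Z)) P volume with hs
  set k := pdf Z P volume with hk
  set f := pdf X P volume with hf
  set g := pdf Y P volume with hg
  have ma : Measurable a := measurable_pdf _ _ _
  have mb : Measurable b := measurable_pdf _ _ _
  have ms : Measurable s := measurable_pdf _ _ _
  have mk : Measurable k := measurable_pdf _ _ _
  have mf : Measurable f := measurable_pdf _ _ _
  have mg : Measurable g := measurable_pdf _ _ _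
  -- joint law
  have hlaw : P.map (fun ω => (X ω, (Y ω, Z ω))) = (P.map X).prod ((P.map Y).prod (P.map Z)) := by
    rw [(indepFun_iff_map_prod_eq_prod_map_map hX.aemeasurable (hY.prodMk hZ).aemeasurable).1 hXYZ,
      (indepFun_iff_map_prod_eq_prod_map_map hY.aemeasurable hZ.aemeasurable).1 hYZ]
  set T : (Fin d → ℝ) × ((Fin d → ℝ) × (Fin d → ℝ)) → ENNReal := fun q =>
    a (q.1 + q.2.2) * b (q.2.1 + q.2.2) * (s (q.1 + q.2.1 + q.2.2))⁻¹ * (k q.2.2)⁻¹ with hT
  have mT : Measurable T := by
    rw [hT]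
    fun_prop
  have h1 : ∫⁻ ω, a (X ω + Z ω) * b (Y ω + Z ω) * (s (X ω + Y ω + Z ω))⁻¹ * (k (Z ω))⁻¹ ∂P =
      ∫⁻ q, T q ∂((P.map X).prod ((P.map Y).prod (P.map Z))) := by
    rw [← hlaw, lintegral_map mT (hX.prodMk (hY.prodMk hZ))]
  rw [h1, lintegral_prod _ mT.aemeasurable]
  have h2 : ∀ x, ∫⁻ q, T (x, q) ∂((P.map Y).prod (P.map Z)) =
      ∫⁻ y, ∫⁻ z, T (x, (y, z)) ∂(P.map Z) ∂(P.map Y) := by
    intro x
    exact lintegral_prod (fun q => T (x, q)) (mT.comp measurable_prodMk_left).aemeasurable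
  simp_rw [h2]
  have eX : P.map X = volume.withDensity f := map_eq_withDensity_pdf X P volume
  have eY : P.map Y = volume.withDensity g := map_eq_withDensity_pdf Y P volume
  have eZ : P.map Z = volume.withDensity k := map_eq_withDensity_pdf Z P volume
  -- inner bound
  have h3 : ∀ x y, ∫⁻ z, T (x, (y, z)) ∂(P.map Z) ≤
      ∫⁻ w, a (-y + w) * b (-x + w) * (s w)⁻¹ := by
    intro x y
    have mTz : Measurable fun z => T (x, (y, z)) :=
      mT.comp (measurable_const.prodMk (measurable_const.prodMk measurable_id))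
    rw [eZ, lintegral_withDensity_eq_lintegral_mul _ mk mTz]
    calc ∫⁻ z, (k * fun z => T (x, (y, z))) z
        ≤ ∫⁻ z, a (x + z) * b (y + z) * (s (x + y + z))⁻¹ := by
          refine lintegral_mono fun z => ?_
          simp only [Pi.mul_apply, hT]
          calc k z * (a (x + z) * b (y + z) * (s (x + y + z))⁻¹ * (k z)⁻¹)
              = (a (x + z) * b (y + z) * (s (x + y + z))⁻¹) * (k z * (k z)⁻¹) := by ring
            _ ≤ (a (x + z) * b (y + z) * (s (x + y + z))⁻¹) * 1 := by
              gcongr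
              exact ENNReal.mul_inv_le_one _
            _ = _ := mul_one _
      _ = ∫⁻ z, (fun w => a (-y + w) * b (-x + w) * (s w)⁻¹) (z + (x + y)) := by
          refine lintegral_congr fun z => ?_
          have e1 : -y + (z + (x + y)) = x + z := by abel
          have e2 : -x + (z + (x + y)) = y + z := by abel
          have e3 : z + (x + y) = x + y + z := by abel
          change _ = a (-y + (z + (x + y))) * b (-x + (z + (x + y))) * (s (z + (x + y)))⁻¹
          rw [e1, e2, e3]
      _ = _ := lintegral_add_right_eq_self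
          (fun w => a (-y + w) * b (-x + w) * (s w)⁻¹) (x + y)
  -- outer
  have mG : Measurable fun q : (Fin d → ℝ) × (Fin d → ℝ) × (Fin d → ℝ) =>
      a (-q.2.1 + q.2.2) * b (-q.1 + q.2.2) * (s q.2.2)⁻¹ := by fun_prop
  calc ∫⁻ x, ∫⁻ y, ∫⁻ z, T (x, (y, z)) ∂(P.map Z) ∂(P.map Y) ∂(P.map X)
      ≤ ∫⁻ x, ∫⁻ y, (∫⁻ w, a (-y + w) * b (-x + w) * (s w)⁻¹) ∂(P.map Y) ∂(P.map X) :=
        lintegral_mono fun x => lintegral_mono fun y => h3 x y
    _ = ∫⁻ x, (∫⁻ w, (∫⁻ y, a (-y + w) * b (-x + w) * (s w)⁻¹ ∂(P.map Y))) ∂(P.map X) := by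
        refine lintegral_congr fun x => ?_
        have hm : Measurable (Function.uncurry fun (y w : Fin d → ℝ) =>
            a (-y + w) * b (-x + w) * (s w)⁻¹) := by
          unfold Function.uncurry
          fun_prop
        exact lintegral_lintegral_swap hm.aemeasurable
    _ = ∫⁻ x, (∫⁻ w, (g ⋆ₗ a) w * (b (-x + w) * (s w)⁻¹)) ∂(P.map X) := by
        refine lintegral_congr fun x => lintegral_congr fun w => ?_
        rw [eY, lintegral_withDensity_eq_lintegral_mul _ mg (by fun_prop), lconvolution_def,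
          ← lintegral_mul_const _ (by fun_prop)]
        refine lintegral_congr fun y => ?_
        simp only [Pi.mul_apply]
        ring
    _ = ∫⁻ w, (∫⁻ x, (g ⋆ₗ a) w * (b (-x + w) * (s w)⁻¹) ∂(P.map X)) := by
        have hc : Measurable (g ⋆ₗ a) := measurable_lconvolution volume mg ma
        have hm : Measurable (Function.uncurry fun (x w : Fin d → ℝ) =>
            (g ⋆ₗ a) w * (b (-x + w) * (s w)⁻¹)) := by
          unfold Function.uncurry
          fun_prop
        exact lintegral_lintegral_swap hm.aemeasurable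
    _ = ∫⁻ w, (g ⋆ₗ a) w * (f ⋆ₗ b) w * (s w)⁻¹ := by
        refine lintegral_congr fun w => ?_
        rw [eX, lintegral_withDensity_eq_lintegral_mul _ mf (by fun_prop), lconvolution_def (f := f)]
        rw [mul_assoc, ← lintegral_mul_const _ (by fun_prop), ← lintegral_const_mul _ (by fun_prop)]
        refine lintegral_congr fun x => ?_
        simp only [Pi.mul_apply]
        ring
    _ = ∫⁻ w, s w * s w * (s w)⁻¹ := by
        have e1 : s =ᵐ[volume] f ⋆ₗ b := hXYpZ.pdf_add_eq_lconvolution_pdf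
        have e2 : pdf (Y + (X + Z)) P volume =ᵐ[volume] g ⋆ₗ a :=
          hYXZ.pdf_add_eq_lconvolution_pdf
        have e3 : Y + (X + Z) = X + (Y + Z) := by abel
        rw [e3] at e2
        refine lintegral_congr_ae ?_
        filter_upwards [e1, e2] with w h4 h5
        rw [← h4, ← h5]
    _ ≤ ∫⁻ w, s w := by
        refine lintegral_mono fun w => ?_
        calc s w * s w * (s w)⁻¹ = s w * (s w * (s w)⁻¹) := mul_assoc _ _ _
          _ ≤ s w * 1 := by gcongr; exact ENNReal.mul_inv_le_one _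
          _ = s w := mul_one _
    _ = 1 := by
        rw [hs, pdf.lintegral_eq_measure_univ, measure_univ]

end

end EntPow
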