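import Pool.Agent.H1.EpA

open MeasureTheory ProbabilityTheory

namespace EntPow

section
variable {Ω : Type} [MeasurableSpace Ω] {P : Measure Ω} [IsProbabilityMeasure P] {d : ℕ}

theorem submod (X Y Z : Ω → (Fin d → ℝ)) (hX : Measurable X) (hY : Measurable Y)
    (hZ : Measurable Z) (fX : HasPDF X P volume) (fY : HasPDF Y P volume)
    (hXYZ : IndepFun X (fun ω => (Y ω, Z ω)) P) (hYZ : IndepFun Y Z P)
    (hYXZ : IndepFun Y (X + Z) P) (hXYpZ : IndepFun X (Y + Z) P)
    (hXZ : IndepFun X Z P)
    (h1 : HasFiniteEntropy P (X + Z)) (h2 : HasFiniteEntropy P (Y + Z))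
    (h3 : HasFiniteEntropy P (X + (Y + Z))) (h4 : HasFiniteEntropy P Z) :
    diffEntropy P (X + (Y + Z)) + diffEntropy P Z ≤
      diffEntropy P (X + Z) + diffEntropy P (Y + Z) := by
  haveI := h4.1
  haveI := h1.1
  haveI := h2.1
  haveI := h3.1
  obtain ⟨iA, eA⟩ := integral_log (X + Z) h1
  obtain ⟨iB, eB⟩ := integral_log (Y + Z) h2
  obtain ⟨iC, eC⟩ := integral_log (X + (Y + Z)) h3
  obtain ⟨iD, eD⟩ := integral_log Z h4
  have pA := pdf_pos_ae (P := P) (X + Z)
  have pB := pdf_pos_ae (P := P) (Y + Z)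
  have pC := pdf_pos_ae (P := P) (X + (Y + Z))
  have pD := pdf_pos_ae (P := P) Z
  set T : Ω → ENNReal := fun ω =>
    pdf (X + Z) P volume (X ω + Z ω) * pdf (Y + Z) P volume (Y ω + Z ω) *
      (pdf (X + (Y + Z)) P volume (X ω + Y ω + Z ω))⁻¹ * (pdf Z P volume (Z ω))⁻¹ with hT
  have hTle : ∫⁻ ω, T ω ∂P ≤ 1 := key_lintegral X Y Z hX hY hZ hXYZ hYZ hYXZ hXYpZ hXZ
  have mT : Measurable T := by
    have ma : Measurable (pdf (X + Z) P volume) := measurable_pdf _ _ _
    have mb : Measurable (pdf (Y + Z) P volume) := measurable_pdf _ _ _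
    have ms : Measurable (pdf (X + (Y + Z)) P volume) := measurable_pdf _ _ _
    have mk : Measurable (pdf Z P volume) := measurable_pdf _ _ _
    rw [hT]
    fun_prop
  have hTfin : ∫⁻ ω, T ω ∂P ≠ ⊤ := ne_top_of_le_ne_top ENNReal.one_ne_top hTle
  have iT : Integrable (fun ω => (T ω).toReal) P :=
    integrable_toReal_of_lintegral_ne_top mT.aemeasurable hTfin
  have eT : ∫ ω, (T ω).toReal ∂P ≤ 1 := by
    rw [integral_toReal mT.aemeasurable (ae_lt_top mT hTfin)]
    exact ENNReal.toReal_mono ENNReal.one_ne_top hTle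
  have key : ∀ᵐ ω ∂P,
      Real.log (pdf (X + Z) P volume ((X + Z) ω)).toReal +
        Real.log (pdf (Y + Z) P volume ((Y + Z) ω)).toReal -
        Real.log (pdf (X + (Y + Z)) P volume ((X + (Y + Z)) ω)).toReal -
        Real.log (pdf Z P volume (Z ω)).toReal ≤ (T ω).toReal - 1 := by
    filter_upwards [pA, pB, pC, pD] with ω a b c e
    have hx : X ω + Y ω + Z ω = (X + (Y + Z)) ω := by
      simp only [Pi.add_apply]; abel
    have hTr : (T ω).toReal = (pdf (X + Z) P volume ((X + Z) ω)).toReal *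
        (pdf (Y + Z) P volume ((Y + Z) ω)).toReal *
        ((pdf (X + (Y + Z)) P volume ((X + (Y + Z)) ω)).toReal)⁻¹ *
        ((pdf Z P volume (Z ω)).toReal)⁻¹ := by
      rw [hT]
      simp only [ENNReal.toReal_mul, ENNReal.toReal_inv, hx]
      rfl
    have hpos : 0 < (T ω).toReal := by rw [hTr]; positivity
    have hl := Real.log_le_sub_one_of_pos hpos
    rw [hTr, Real.log_mul (by positivity) (by positivity), Real.log_mul (by positivity) (by positivity),
      Real.log_mul (by positivity) (by positivity), Real.log_inv, Real.log_inv, ← hTr] at hl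
    linarith
  have hint := integral_mono_ae (((iA.add iB).sub iC).sub iD) (iT.sub (integrable_const 1)) key
  have e1 : ∫ ω, (Real.log (pdf (X + Z) P volume ((X + Z) ω)).toReal +
        Real.log (pdf (Y + Z) P volume ((Y + Z) ω)).toReal -
        Real.log (pdf (X + (Y + Z)) P volume ((X + (Y + Z)) ω)).toReal -
        Real.log (pdf Z P volume (Z ω)).toReal) ∂P =
      - diffEntropy P (X + Z) - diffEntropy P (Y + Z) + diffEntropy P (X + (Y + Z)) +
        diffEntropy P Z := by
    have iAB : Integrable (fun ω => Real.log (pdf (X + Z) P volume ((X + Z) ω)).toReal +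
        Real.log (pdf (Y + Z) P volume ((Y + Z) ω)).toReal) P := iA.add iB
    have iABC : Integrable (fun ω => Real.log (pdf (X + Z) P volume ((X + Z) ω)).toReal +
        Real.log (pdf (Y + Z) P volume ((Y + Z) ω)).toReal -
        Real.log (pdf (X + (Y + Z)) P volume ((X + (Y + Z)) ω)).toReal) P := iAB.sub iC
    rw [integral_sub iABC iD, integral_sub iAB iC, integral_add iA iB, eA, eB, eC, eD]
    ring
  have e2 : ∫ ω, ((T ω).toReal - 1) ∂P ≤ 0 := by
    rw [integral_sub iT (integrable_const 1)]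
    simp only [integral_const, probReal_univ, smul_eq_mul, mul_one]
    linarith
  have h5 := hint.trans e2
  have h6 := e1 ▸ h5
  linarith

end

end EntPow
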