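import Pool.Agent.H1.EpB

open MeasureTheory ProbabilityTheory

namespace EntPow

/-- the constraint coming from submodularity of entropy -/
theorem gamma_constraint {n : ℕ} {i j k : Fin n} (hij : i ≠ j) (hik : i ≠ k) (hjk : j ≠ k)
    (A B C D : {S : Finset (Fin n) // S.Nonempty}) (hA : A.1 = {i, j, k}) (hB : B.1 = {k})
    (hC : C.1 = {i, k}) (hD : D.1 = {j, k}) {v : {S : Finset (Fin n) // S.Nonempty} → ℝ}
    (hv : v ∈ Gamma n) : v A * v B ≤ v C * v D := by
  obtain ⟨d, _, Ω, mΩ, P, hP, X, hm, hind, hfin, hval⟩ := hv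
  have sA : ∑ l ∈ A.1, X l = X i + (X j + X k) := by
    rw [hA, Finset.sum_insert (by simp [hij, hik]), Finset.sum_pair hjk]
  have sB : ∑ l ∈ B.1, X l = X k := by rw [hB, Finset.sum_singleton]
  have sC : ∑ l ∈ C.1, X l = X i + X k := by rw [hC, Finset.sum_pair hik]
  have sD : ∑ l ∈ D.1, X l = X j + X k := by rw [hD, Finset.sum_pair hjk]
  have fA := hfin A.1 A.2
  have fB := hfin B.1 B.2
  have fC := hfin C.1 C.2
  have fD := hfin D.1 D.2
  have fi := hfin {i} (Finset.singleton_nonempty i)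
  have fj := hfin {j} (Finset.singleton_nonempty j)
  rw [Finset.sum_singleton] at fi fj
  rw [sA] at fA
  rw [sB] at fB
  rw [sC] at fC
  rw [sD] at fD
  have key := submod (X i) (X j) (X k) (hm i) (hm j) (hm k) fi.1 fj.1
    (hind.indepFun_prodMk hm j k i hij.symm hik.symm).symm (hind.indepFun hjk)
    (hind.indepFun_add_left hm i k j hij hjk.symm).symm
    (hind.indepFun_add_left hm j k i hij.symm hik.symm).symm
    (hind.indepFun hik) fC fD fA fB
  rw [hval A, hval B, hval C, hval D, sA, sB, sC, sD]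
  unfold entropyPower
  rw [← Real.exp_add, ← Real.exp_add]
  apply Real.exp_le_exp.2
  have h2 : (0 : ℝ) ≤ 2 / (d : ℝ) := by positivity
  nlinarith [mul_le_mul_of_nonneg_left key h2]

theorem not_convex_of {n : ℕ} {i j k : Fin n} (hij : i ≠ j) (hik : i ≠ k) (hjk : j ≠ k)
    (A B C D : {S : Finset (Fin n) // S.Nonempty}) (hA : A.1 = {i, j, k}) (hB : B.1 = {k})
    (hC : C.1 = {i, k}) (hD : D.1 = {j, k}) {v w : {S : Finset (Fin n) // S.Nonempty} → ℝ}
    (hv : v ∈ Gamma n) (hw : w ∈ Gamma n) (vA : 1 ≤ v A) (vB : 1 ≤ v B)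
    (vC : v C ≤ (21 / 20) ^ 2) (vD : v D ≤ (21 / 20) ^ 2) (wA : 1 ≤ w A) (wB : 0 ≤ w B)
    (wC0 : 0 ≤ w C) (vC0 : 0 ≤ v C)
    (wC : w C ≤ (1 / 5) ^ 2) (wD : w D ≤ (11 / 20) ^ 2) : ¬ Convex ℝ (closure (Gamma n)) := by
  intro hconv
  have hcl : closure (Gamma n) ⊆ {u | u A * u B ≤ u C * u D} := by
    refine closure_minimal ?_ ?_
    · intro u hu
      exact gamma_constraint hij hik hjk A B C D hA hB hC hD hu
    · exact isClosed_le (by fun_prop) (by fun_prop)
  have hmid : (1 / 2 : ℝ) • v + (1 / 2 : ℝ) • w ∈ closure (Gamma n) :=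
    hconv (subset_closure hv) (subset_closure hw) (by norm_num) (by norm_num) (by norm_num)
  have h := hcl hmid
  simp only [Set.mem_setOf_eq, Pi.add_apply, Pi.smul_apply, smul_eq_mul] at h
  have a1 : 1 ≤ 1 / 2 * v A + 1 / 2 * w A := by linarith
  have a2 : 1 / 2 ≤ 1 / 2 * v B + 1 / 2 * w B := by linarith
  have a3 : 1 / 2 * v C + 1 / 2 * w C ≤ 23 / 40 := by
    have : ((21 : ℝ) / 20) ^ 2 / 2 + (1 / 5) ^ 2 / 2 ≤ 23 / 40 := by norm_num
    linarith
  have a4 : 1 / 2 * v D + 1 / 2 * w D ≤ 29 / 40 := by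
    have : ((21 : ℝ) / 20) ^ 2 / 2 + (11 / 20) ^ 2 / 2 ≤ 29 / 40 := by norm_num
    linarith
  have a5 : 0 ≤ 1 / 2 * v C + 1 / 2 * w C := by linarith
  have b1 : (1 : ℝ) * (1 / 2) ≤ (1 / 2 * v A + 1 / 2 * w A) * (1 / 2 * v B + 1 / 2 * w B) :=
    mul_le_mul a1 a2 (by norm_num) (by linarith)
  have b2 : (1 / 2 * v C + 1 / 2 * w C) * (1 / 2 * v D + 1 / 2 * w D) ≤
      (1 / 2 * v C + 1 / 2 * w C) * (29 / 40) := mul_le_mul_of_nonneg_left a4 a5
  have b3 : (1 / 2 * v C + 1 / 2 * w C) * (29 / 40) ≤ 23 / 40 * (29 / 40) :=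
    mul_le_mul_of_nonneg_right a3 (by norm_num)
  norm_num at b3 b1
  linarith

section
variable {Ω : Type} [MeasurableSpace Ω] {P : Measure Ω} [IsProbabilityMeasure P] {d : ℕ}

/-- the density is bounded by `M` -/
def BD (P : Measure Ω) (W : Ω → (Fin d → ℝ)) (M : ENNReal) : Prop :=
  P.map W ≤ M • (volume : Measure (Fin d → ℝ))

lemma BD_add {W U : Ω → (Fin d → ℝ)} (hW : Measurable W) (hU : Measurable U)
    (hind : IndepFun W U P) {M : ENNReal} (h : BD P W M) : BD P (W + U) M := by
  haveI : IsProbabilityMeasure (P.map W) := Measure.isProbabilityMeasure_map hW.aemeasurable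
  haveI : IsProbabilityMeasure (P.map U) := Measure.isProbabilityMeasure_map hU.aemeasurable
  unfold BD
  rw [Measure.le_iff]
  intro s hs
  have h1 : P.map (W + U) = ((P.map W).prod (P.map U)).map (fun p => p.1 + p.2) := by
    rw [← (indepFun_iff_map_prod_eq_prod_map_map hW.aemeasurable hU.aemeasurable).1 hind,
      Measure.map_map (by fun_prop) (hW.prodMk hU)]
    rfl
  rw [h1, Measure.map_apply (by fun_prop) hs, Measure.prod_apply_symm (by
    exact (measurable_fst.add measurable_snd) hs)]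
  calc ∫⁻ y, (P.map W) ((fun x => (x, y)) ⁻¹' ((fun p : (Fin d → ℝ) × (Fin d → ℝ) => p.1 + p.2) ⁻¹' s))
        ∂(P.map U) ≤ ∫⁻ _y, M * volume s ∂(P.map U) := by
        refine lintegral_mono fun y => ?_
        refine (h _).trans ?_
        rw [Measure.smul_apply, smul_eq_mul]
        have e : volume ((fun x => (x, y)) ⁻¹'
            ((fun p : (Fin d → ℝ) × (Fin d → ℝ) => p.1 + p.2) ⁻¹' s)) = volume s :=
          measure_preimage_add_right volume y s
        rw [e]
    _ = (M • (volume : Measure (Fin d → ℝ))) s := by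
        rw [lintegral_const, measure_univ, mul_one, Measure.smul_apply, smul_eq_mul]

lemma hasPDF_of_BD {W : Ω → (Fin d → ℝ)} (hW : Measurable W) {M : ENNReal} (h : BD P W M) :
    HasPDF W P volume := by
  rw [hasPDF_iff_of_aemeasurable hW.aemeasurable]
  exact ⟨inferInstance, Measure.absolutelyContinuous_of_le_smul h⟩

lemma pdf_le_of_BD {W : Ω → (Fin d → ℝ)} (hW : Measurable W) {M : ENNReal} (h : BD P W M) :
    ∀ᵐ x, pdf W P volume x ≤ M := by
  haveI := hasPDF_of_BD hW h
  refine ae_le_of_forall_setLIntegral_le_of_sigmaFinite (g := fun _ => M) (measurable_pdf _ _ _) ?_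
  intro s hs _
  rw [← map_eq_setLIntegral_pdf W P volume hs, setLIntegral_const]
  exact h s

lemma pdf_zero_off {W : Ω → (Fin d → ℝ)} (hW : Measurable W) [HasPDF W P volume]
    {B : Set (Fin d → ℝ)} (hB : MeasurableSet B) (h : ∀ᵐ ω ∂P, W ω ∈ B) :
    ∀ᵐ x, x ∉ B → pdf W P volume x = 0 := by
  have h1 : ∫⁻ x in Bᶜ, pdf W P volume x = 0 := by
    rw [← map_eq_setLIntegral_pdf W P volume hB.compl, Measure.map_apply hW hB.compl]
    exact h
  rw [lintegral_eq_zero_iff (measurable_pdf _ _ _)] at h1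
  rw [Filter.EventuallyEq, ae_restrict_iff' hB.compl] at h1
  exact h1

lemma hasFiniteEntropy_of {W : Ω → (Fin d → ℝ)} (hW : Measurable W) {M : ENNReal} (hM : M ≠ ⊤)
    (h : BD P W M) {B : Set (Fin d → ℝ)} (hB : MeasurableSet B) (hBf : volume B ≠ ⊤)
    (hs : ∀ᵐ ω ∂P, W ω ∈ B) : HasFiniteEntropy P W := by
  haveI := hasPDF_of_BD hW h
  refine ⟨inferInstance, ?_⟩
  have h1 := pdf_le_of_BD hW h
  have h2 := pdf_zero_off hW hB hs
  set φ : (Fin d → ℝ) → ℝ := fun x =>
    (pdf W P volume x).toReal * Real.log (pdf W P volume x).toReal with hφ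
  have mφ : Measurable φ := by
    have := (measurable_pdf W P volume).ennreal_toReal
    exact this.mul (Real.measurable_log.comp this)
  obtain ⟨C, hC⟩ : ∃ C : ℝ, ∀ p ∈ Set.Icc (0 : ℝ) M.toReal, |p * Real.log p| ≤ C := by
    obtain ⟨C, hC⟩ := (isCompact_Icc (a := (0 : ℝ)) (b := M.toReal)).exists_bound_of_continuousOn
      (f := fun p => p * Real.log p) Real.continuous_mul_log.continuousOn
    exact ⟨C, hC⟩
  have i1 : IntegrableOn φ B := by
    refine Measure.integrableOn_of_bounded (M := C) hBf mφ.aestronglyMeasurable ?_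
    refine ae_restrict_of_ae ?_
    filter_upwards [h1] with x hx
    rw [Real.norm_eq_abs]
    exact hC _ ⟨ENNReal.toReal_nonneg, ENNReal.toReal_mono hM hx⟩
  have i2 : IntegrableOn φ Bᶜ := by
    have : (fun _ => (0 : ℝ)) =ᵐ[volume.restrict Bᶜ] φ := by
      rw [Filter.EventuallyEq, ae_restrict_iff' hB.compl]
      filter_upwards [h2] with x hx hxB
      rw [hφ]
      simp only [hx hxB, ENNReal.toReal_zero, zero_mul]
    exact (integrable_zero _ _ _).congr this
  have := i1.union i2
  rwa [Set.union_compl_self, integrableOn_univ] at this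

lemma entropy_nonneg {W : Ω → (Fin d → ℝ)} (hW : Measurable W) (h : BD P W 1) :
    0 ≤ diffEntropy P W := by
  unfold diffEntropy
  rw [neg_nonneg]
  refine integral_nonpos_of_ae ?_
  filter_upwards [pdf_le_of_BD hW h] with x hx
  have h1 : (pdf W P volume x).toReal ≤ 1 := by
    have := ENNReal.toReal_mono ENNReal.one_ne_top hx
    simpa using this
  exact mul_nonpos_of_nonneg_of_nonpos ENNReal.toReal_nonneg
    (Real.log_nonpos ENNReal.toReal_nonneg h1)

lemma entropy_le {W : Ω → (Fin d → ℝ)} (hW : Measurable W) (hf : HasFiniteEntropy P W)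
    {B : Set (Fin d → ℝ)} (hB : MeasurableSet B) {V : ℝ} (hV : 0 < V)
    (hBV : volume B ≤ ENNReal.ofReal V) (hs : ∀ᵐ ω ∂P, W ω ∈ B) :
    diffEntropy P W ≤ Real.log V := by
  haveI := hf.1
  have h2 := pdf_zero_off hW hB hs
  have hBf : volume B ≠ ⊤ := ne_top_of_le_ne_top ENNReal.ofReal_ne_top hBV
  set p : (Fin d → ℝ) → ℝ := fun x => (pdf W P volume x).toReal with hp
  have p0 : ∀ x, 0 ≤ p x := fun x => ENNReal.toReal_nonneg
  have hpf : ∫⁻ x, pdf W P volume x = 1 := by
    rw [pdf.lintegral_eq_measure_univ, measure_univ]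
  have ip : Integrable p := integrable_toReal_of_lintegral_ne_top
    (measurable_pdf _ _ _).aemeasurable (by rw [hpf]; exact ENNReal.one_ne_top)
  have ep : ∫ x, p x = 1 := by
    rw [hp, integral_toReal (measurable_pdf _ _ _).aemeasurable pdf.ae_lt_top, hpf]
    rfl
  have iφ : Integrable (fun x => p x * Real.log (p x)) := hf.2
  have iB : Integrable (B.indicator (fun _ => 1 / V)) :=
    (integrable_indicator_iff hB).2 (integrableOn_const hBf)
  have eB : ∫ x, B.indicator (fun _ => 1 / V) x ≤ 1 := by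
    rw [integral_indicator hB, setIntegral_const, smul_eq_mul]
    have : volume.real B ≤ V := by
      rw [Measure.real]
      have := ENNReal.toReal_mono ENNReal.ofReal_ne_top hBV
      rwa [ENNReal.toReal_ofReal hV.le] at this
    calc volume.real B * (1 / V) ≤ V * (1 / V) := by gcongr
      _ = 1 := by field_simp
  have key : ∀ᵐ x, -(p x * Real.log (p x)) - Real.log V * p x ≤
      B.indicator (fun _ => 1 / V) x - p x := by
    filter_upwards [h2] with x hx
    by_cases hxB : x ∈ B
    · rw [Set.indicator_of_mem hxB]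
      rcases (p0 x).eq_or_lt with h0 | h0
      · rw [← h0]
        have : 0 < 1 / V := by positivity
        simp only [zero_mul, mul_zero, neg_zero, sub_zero]
        exact this.le
      · have h3 := Real.log_le_sub_one_of_pos (x := 1 / (p x * V)) (by positivity)
        rw [one_div, Real.log_inv, Real.log_mul h0.ne' hV.ne'] at h3
        have h4 := mul_le_mul_of_nonneg_left h3 (p0 x)
        have h5 : p x * ((p x * V)⁻¹ - 1) = 1 / V - p x := by field_simp
        rw [h5] at h4
        linarith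
    · rw [Set.indicator_of_notMem hxB]
      have h0 : p x = 0 := by rw [hp]; simp only [hx hxB, ENNReal.toReal_zero]
      rw [h0]
      simp
  have i1 : Integrable (fun x => -(p x * Real.log (p x))) := iφ.neg
  have i2 : Integrable (fun x => Real.log V * p x) := ip.const_mul _
  have hint := integral_mono_ae (i1.sub i2) (iB.sub ip) key
  have e1 : ∫ x, (-(p x * Real.log (p x)) - Real.log V * p x) = diffEntropy P W - Real.log V := by
    rw [integral_sub i1 i2, integral_neg, integral_const_mul, ep, mul_one]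
    rfl
  have e2 : ∫ x, (B.indicator (fun _ => 1 / V) x - p x) ≤ 0 := by
    rw [integral_sub iB ip, ep]
    linarith
  have h6 : ∫ x, (-(p x * Real.log (p x)) - Real.log V * p x) ≤ 0 := hint.trans e2
  rw [e1] at h6
  linarith

end

end EntPow
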