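import Pool.Agent.H1.EpC

open MeasureTheory ProbabilityTheory

namespace EntPow

abbrev E1 := Fin 1 → ℝ

def bx (a b : ℝ) : Set E1 := Set.pi Set.univ (fun _ => Set.Ico a b)

lemma mem_bx {a b : ℝ} {x : E1} : x ∈ bx a b ↔ a ≤ x 0 ∧ x 0 < b := by
  unfold bx
  rw [Set.mem_pi]
  constructor
  · intro h
    exact h 0 (Set.mem_univ _)
  · intro h i _
    rw [Subsingleton.elim i 0]
    exact h

lemma meas_bx (a b : ℝ) : MeasurableSet (bx a b) :=
  MeasurableSet.univ_pi fun _ => measurableSet_Ico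

lemma vol_bx (a b : ℝ) : volume (bx a b) = ENNReal.ofReal (b - a) := by
  unfold bx
  rw [Real.volume_pi_Ico]
  simp

noncomputable def u (a b : ℝ) : Measure E1 :=
  (ENNReal.ofReal (b - a))⁻¹ • (volume : Measure E1).restrict (bx a b)

lemma u_prob {a b : ℝ} (h : a < b) : IsProbabilityMeasure (u a b) := by
  constructor
  unfold u
  rw [Measure.smul_apply, Measure.restrict_apply_univ, vol_bx, smul_eq_mul]
  exact ENNReal.inv_mul_cancel (by simpa using h) ENNReal.ofReal_ne_top

lemma u_le (a b : ℝ) : u a b ≤ (ENNReal.ofReal (b - a))⁻¹ • (volume : Measure E1) := by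
  unfold u
  rw [Measure.le_iff]
  intro s _
  rw [Measure.smul_apply, Measure.smul_apply, smul_eq_mul, smul_eq_mul]
  gcongr
  exact Measure.restrict_le_self

lemma u_compl (a b : ℝ) : u a b (bx a b)ᶜ = 0 := by
  unfold u
  rw [Measure.smul_apply, Measure.restrict_apply (meas_bx a b).compl, Set.compl_inter_self,
    measure_empty, smul_zero]

lemma bx_mono {a b a' b' : ℝ} (h1 : a' ≤ a) (h2 : b ≤ b') : bx a b ⊆ bx a' b' := by
  intro x hx
  rw [mem_bx] at hx ⊢
  exact ⟨h1.trans hx.1, hx.2.trans_le h2⟩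

/-- constant vector -/
def cst (c : ℝ) : E1 := fun _ => c

lemma shift (F : E1 → ENNReal) (hF : Measurable F) (c δ : ℝ) :
    ∫⁻ x, F x ∂(u c (c + δ)) = ∫⁻ x, F (x + cst c) ∂(u 0 δ) := by
  unfold u
  rw [lintegral_smul_measure, lintegral_smul_measure]
  have e0 : c + δ - c = δ - 0 := by ring
  rw [e0]
  congr 1
  rw [← lintegral_indicator (meas_bx _ _), ← lintegral_indicator (meas_bx _ _),
    ← lintegral_add_right_eq_self ((bx c (c + δ)).indicator fun x => F x) (cst c)]
  refine lintegral_congr fun x => ?_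
  have h : (x + cst c ∈ bx c (c + δ)) ↔ x ∈ bx 0 δ := by
    rw [mem_bx, mem_bx]
    simp only [Pi.add_apply, cst]
    constructor
    · rintro ⟨a, b⟩; constructor <;> linarith
    · rintro ⟨a, b⟩; constructor <;> linarith
  by_cases hx : x ∈ bx 0 δ
  · rw [Set.indicator_of_mem hx, Set.indicator_of_mem (h.2 hx)]
  · rw [Set.indicator_of_notMem hx, Set.indicator_of_notMem (fun h' => hx (h.1 h'))]

/-- the mixture law -/
noncomputable def um (δ : ℝ) : Measure E1 :=
  (2 : ENNReal)⁻¹ • u 0 δ + (2 : ENNReal)⁻¹ • u (1 / 2) (1 / 2 + δ)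

lemma um_prob {δ : ℝ} (h : 0 < δ) : IsProbabilityMeasure (um δ) := by
  haveI := u_prob h
  haveI : IsProbabilityMeasure (u (1 / 2) (1 / 2 + δ)) := u_prob (by linarith)
  constructor
  unfold um
  rw [Measure.add_apply, Measure.smul_apply, Measure.smul_apply, measure_univ, measure_univ]
  simp only [smul_eq_mul, mul_one]
  exact ENNReal.inv_two_add_inv_two

/-- the convolution of the mixture with the uniform law on `[0,1/2)` has density at most one -/
lemma conv_le {δ : ℝ} (hδ : 0 < δ) {s : Set E1} (hs : MeasurableSet s) :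
    ∫⁻ x, u 0 (1 / 2) (Prod.mk x ⁻¹' ((fun p : E1 × E1 => p.1 + p.2) ⁻¹' s)) ∂(um δ) ≤
      volume s := by
  haveI := u_prob hδ
  haveI : IsProbabilityMeasure (u 0 (1 / 2)) := u_prob (by norm_num)
  set F : E1 → ENNReal := fun x =>
    u 0 (1 / 2) (Prod.mk x ⁻¹' ((fun p : E1 × E1 => p.1 + p.2) ⁻¹' s)) with hF
  have hm : MeasurableSet ((fun p : E1 × E1 => p.1 + p.2) ⁻¹' s) :=
    (measurable_fst.add measurable_snd) hs
  have mF : Measurable F := measurable_measure_prodMk_left hm
  have hFx : ∀ x, F x = 2 * volume ({y | x + y ∈ s} ∩ bx 0 (1 / 2)) := by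
    intro x
    rw [hF]
    unfold u
    simp only
    rw [Measure.smul_apply, Measure.restrict_apply (measurable_prodMk_left hm), smul_eq_mul]
    have e1 : (ENNReal.ofReal (1 / 2 - 0))⁻¹ = 2 := by
      rw [sub_zero, one_div, ENNReal.ofReal_inv_of_pos two_pos, inv_inv]
      simp
    rw [e1]
    rfl
  have h22 : ∀ t : ENNReal, (2 : ENNReal)⁻¹ * (2 * t) = t := by
    intro t
    rw [← mul_assoc, ENNReal.inv_mul_cancel two_ne_zero ENNReal.ofNat_ne_top, one_mul]
  unfold um
  rw [lintegral_add_measure, lintegral_smul_measure, lintegral_smul_measure, shift F mF,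
    smul_eq_mul, smul_eq_mul, ← lintegral_const_mul _ mF,
    ← lintegral_const_mul _ (by fun_prop), ← lintegral_add_left (by fun_prop)]
  calc _ ≤ ∫⁻ _x : E1, volume s ∂(u 0 δ) := by
        refine lintegral_mono fun x => ?_
        simp only [hFx, h22]
        have hA : MeasurableSet {y : E1 | x + y ∈ s} := (measurable_const_add x) hs
        have e2 : volume ({y : E1 | x + cst (1 / 2) + y ∈ s} ∩ bx 0 (1 / 2)) =
            volume ({y : E1 | x + y ∈ s} ∩ bx (1 / 2) 1) := by
          rw [← measure_preimage_add_right volume (cst (1 / 2))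
            ({y : E1 | x + y ∈ s} ∩ bx (1 / 2) 1)]
          congr 1
          ext y
          simp only [Set.mem_inter_iff, Set.mem_setOf_eq, Set.mem_preimage, mem_bx, Pi.add_apply,
            cst]
          have e3 : x + cst (1 / 2) + y = x + (y + cst (1 / 2)) := by abel
          rw [e3]
          constructor
          · rintro ⟨a, b, c⟩
            exact ⟨a, by linarith, by linarith⟩
          · rintro ⟨a, b, c⟩
            exact ⟨a, by linarith, by linarith⟩
        rw [e2, ← measure_union ?_ (hA.inter (meas_bx _ _))]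
        · calc _ ≤ volume {y : E1 | x + y ∈ s} := by
                apply measure_mono
                intro y hy
                rcases hy with hy | hy
                · exact hy.1
                · exact hy.1
            _ = volume s := measure_preimage_add volume x s
        · rw [Set.disjoint_left]
          rintro y ⟨_, h1⟩ ⟨_, h2⟩
          rw [mem_bx] at h1 h2
          linarith
    _ = volume s := by rw [lintegral_const, measure_univ, mul_one]

section
variable {n : ℕ} (μ : Fin n → Measure E1) [hμ : ∀ i, IsProbabilityMeasure (μ i)]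

/-- coordinates -/
def Xc (n : ℕ) (i : Fin n) : (Fin n → E1) → E1 := fun ω => ω i

lemma Xc_meas (i : Fin n) : Measurable (Xc n i) := measurable_pi_apply i

lemma Xc_map (i : Fin n) : (Measure.pi μ).map (Xc n i) = μ i :=
  (measurePreserving_eval μ i).map_eq

lemma Xc_indep : iIndepFun (Xc n) (Measure.pi μ) :=
  iIndepFun_pi (X := fun _ x => x) (fun _ => aemeasurable_id)

lemma Xc_mem {i : Fin n} {B : Set E1} (hB : MeasurableSet B) (h : μ i Bᶜ = 0) :
    ∀ᵐ ω ∂(Measure.pi μ), Xc n i ω ∈ B := by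
  have : (Measure.pi μ).map (Xc n i) Bᶜ = 0 := by rw [Xc_map, h]
  rw [Measure.map_apply (Xc_meas i) hB.compl] at this
  exact this

lemma sum_fin (hle : ∀ i, μ i ≤ (20 : ENNReal) • (volume : Measure E1))
    (hsup : ∀ i, μ i (bx 0 1)ᶜ = 0) (S : Finset (Fin n)) (hS : S.Nonempty) :
    HasFiniteEntropy (Measure.pi μ) (∑ i ∈ S, Xc n i) := by
  classical
  obtain ⟨i, hi⟩ := hS
  have hm : ∀ T : Finset (Fin n), Measurable (∑ i ∈ T, Xc n i) := by
    intro T
    have h0 := Finset.measurable_sum T (f := fun i ω => Xc n i ω) fun i _ => Xc_meas i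
    have e0 : (∑ i ∈ T, Xc n i) = fun ω => ∑ i ∈ T, Xc n i ω := by
      funext ω
      rw [Finset.sum_apply]
    rw [e0]
    exact h0
  have e1 : ∑ j ∈ S, Xc n j = Xc n i + ∑ j ∈ S.erase i, Xc n j :=
    (Finset.add_sum_erase S _ hi).symm
  have hbd : BD (Measure.pi μ) (∑ j ∈ S, Xc n j) 20 := by
    rw [e1]
    refine BD_add (Xc_meas i) (hm _) ?_ ?_
    · exact ((Xc_indep μ).indepFun_finset_sum_of_notMem (fun i => Xc_meas i)
        (Finset.notMem_erase i S)).symm
    · unfold BD
      rw [Xc_map]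
      exact hle i
  have hae : ∀ᵐ ω ∂(Measure.pi μ), ∀ i, Xc n i ω ∈ bx 0 1 :=
    ae_all_iff.2 fun i => Xc_mem μ (meas_bx 0 1) (hsup i)
  refine hasFiniteEntropy_of (hm S) (by norm_num) hbd (meas_bx 0 (S.card + 1))
    (by rw [vol_bx]; exact ENNReal.ofReal_ne_top) ?_
  filter_upwards [hae] with ω hω
  rw [mem_bx, Finset.sum_apply, Finset.sum_apply]
  constructor
  · exact Finset.sum_nonneg fun j _ => (mem_bx.1 (hω j)).1
  · have : ∑ j ∈ S, Xc n j ω 0 ≤ ∑ j ∈ S, (1 : ℝ) :=
      Finset.sum_le_sum fun j _ => (mem_bx.1 (hω j)).2.le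
    rw [Finset.sum_const, nsmul_eq_mul, mul_one] at this
    linarith

lemma mem_gamma (hle : ∀ i, μ i ≤ (20 : ENNReal) • (volume : Measure E1))
    (hsup : ∀ i, μ i (bx 0 1)ᶜ = 0) :
    (fun S : {S : Finset (Fin n) // S.Nonempty} =>
      entropyPower (Measure.pi μ) (∑ i ∈ S.1, Xc n i)) ∈ Gamma n := by
  refine ⟨1, le_rfl, (Fin n → E1), inferInstance, Measure.pi μ, inferInstance, Xc n,
    Xc_meas, Xc_indep μ, sum_fin μ hle hsup, fun S => rfl⟩

end

lemma ep_ge {Ω : Type} [MeasurableSpace Ω] {P : Measure Ω} {W : Ω → E1}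
    (h : 0 ≤ diffEntropy P W) : 1 ≤ entropyPower P W := by
  unfold entropyPower
  rw [Nat.cast_one]
  exact Real.one_le_exp (by linarith)

lemma ep_le {Ω : Type} [MeasurableSpace Ω] {P : Measure Ω} {W : Ω → E1} {V : ℝ} (hV : 0 < V)
    (h : diffEntropy P W ≤ Real.log V) : entropyPower P W ≤ V ^ 2 := by
  unfold entropyPower
  rw [Nat.cast_one]
  calc Real.exp (2 / 1 * diffEntropy P W) ≤ Real.exp (Real.log V + Real.log V) :=
        Real.exp_le_exp.2 (by linarith)
    _ = V ^ 2 := by rw [Real.exp_add, Real.exp_log hV, sq]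

lemma ep_pos {Ω : Type} [MeasurableSpace Ω] {P : Measure Ω} {W : Ω → E1} :
    0 ≤ entropyPower P W := (Real.exp_pos _).le

end EntPow
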