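import Pool.Agent.H1.EpD

open MeasureTheory ProbabilityTheory

namespace EntPow

section gen
variable {n : ℕ} (μ : Fin n → Measure E1) [hμ : ∀ i, IsProbabilityMeasure (μ i)]

lemma pair_ind {i j : Fin n} (h : i ≠ j) : IndepFun (Xc n i) (Xc n j) (Measure.pi μ) :=
  (Xc_indep μ).indepFun h

lemma pair_sum_ind {i j k : Fin n} (hik : i ≠ k) (hjk : j ≠ k) :
    IndepFun (Xc n i + Xc n j) (Xc n k) (Measure.pi μ) :=
  (Xc_indep μ).indepFun_add_left (fun i => Xc_meas i) i j k hik hjk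

end gen

lemma u_le20 {a b : ℝ} (h : 1 / 20 ≤ b - a) : u a b ≤ (20 : ENNReal) • (volume : Measure E1) := by
  refine (u_le a b).trans ?_
  rw [Measure.le_iff]
  intro s _
  rw [Measure.smul_apply, Measure.smul_apply, smul_eq_mul, smul_eq_mul]
  gcongr
  rw [ENNReal.inv_le_iff_inv_le]
  have : (20 : ENNReal)⁻¹ = ENNReal.ofReal (1 / 20) := by
    rw [one_div, ENNReal.ofReal_inv_of_pos (by norm_num)]
    simp
  rw [this]
  exact ENNReal.ofReal_le_ofReal h

lemma um_le20 : um (1 / 20) ≤ (20 : ENNReal) • (volume : Measure E1) := by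
  rw [Measure.le_iff]
  intro s hs
  unfold um
  rw [Measure.add_apply, Measure.smul_apply, Measure.smul_apply, smul_eq_mul, smul_eq_mul]
  have h1 := u_le20 (a := 0) (b := 1 / 20) (by norm_num) s
  have h2 := u_le20 (a := 1 / 2) (b := 1 / 2 + 1 / 20) (by norm_num) s
  calc (2 : ENNReal)⁻¹ * u 0 (1 / 20) s + 2⁻¹ * u (1 / 2) (1 / 2 + 1 / 20) s
      ≤ (2 : ENNReal)⁻¹ * ((20 : ENNReal) • (volume : Measure E1)) s +
        2⁻¹ * ((20 : ENNReal) • (volume : Measure E1)) s := by gcongr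
    _ = (2⁻¹ + 2⁻¹) * ((20 : ENNReal) • (volume : Measure E1)) s := by rw [add_mul]
    _ = _ := by rw [ENNReal.inv_two_add_inv_two, one_mul]

lemma u_sup {a b : ℝ} (h1 : 0 ≤ a) (h2 : b ≤ 1) : u a b (bx 0 1)ᶜ = 0 :=
  measure_mono_null (Set.compl_subset_compl.2 (bx_mono h1 h2)) (u_compl a b)

lemma um_compl (δ : ℝ) : um δ (bx 0 δ ∪ bx (1 / 2) (1 / 2 + δ))ᶜ = 0 := by
  unfold um
  rw [Measure.add_apply, Measure.smul_apply, Measure.smul_apply,
    measure_mono_null (Set.compl_subset_compl.2 Set.subset_union_left) (u_compl 0 δ),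
    measure_mono_null (Set.compl_subset_compl.2 Set.subset_union_right)
      (u_compl (1 / 2) (1 / 2 + δ))]
  simp

lemma um_sup : um (1 / 20) (bx 0 1)ᶜ = 0 := by
  refine measure_mono_null (Set.compl_subset_compl.2 ?_) (um_compl (1 / 20))
  exact Set.union_subset (bx_mono le_rfl (by norm_num)) (bx_mono (by norm_num) (by norm_num))

section
variable {n : ℕ} (i j k : Fin n)

noncomputable def mv (l : Fin n) : Measure E1 := if l = k then u 0 1 else u 0 (1 / 20)

noncomputable def mw (l : Fin n) : Measure E1 :=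
  if l = i then um (1 / 20) else if l = j then u 0 (1 / 2) else u 0 (1 / 20)

lemma mv_prob (l : Fin n) : IsProbabilityMeasure (mv k l) := by
  unfold mv
  split_ifs
  · exact u_prob (by norm_num)
  · exact u_prob (by norm_num)

lemma mw_prob (l : Fin n) : IsProbabilityMeasure (mw i j l) := by
  unfold mw
  split_ifs
  · exact um_prob (by norm_num)
  · exact u_prob (by norm_num)
  · exact u_prob (by norm_num)

lemma mv_le (l : Fin n) : mv k l ≤ (20 : ENNReal) • (volume : Measure E1) := by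
  unfold mv
  split_ifs
  · exact u_le20 (by norm_num)
  · exact u_le20 (by norm_num)

lemma mw_le (l : Fin n) : mw i j l ≤ (20 : ENNReal) • (volume : Measure E1) := by
  unfold mw
  split_ifs
  · exact um_le20
  · exact u_le20 (by norm_num)
  · exact u_le20 (by norm_num)

lemma mv_sup (l : Fin n) : mv k l (bx 0 1)ᶜ = 0 := by
  unfold mv
  split_ifs
  · exact u_sup le_rfl le_rfl
  · exact u_sup le_rfl (by norm_num)

lemma mw_sup (l : Fin n) : mw i j l (bx 0 1)ᶜ = 0 := by
  unfold mw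
  split_ifs
  · exact um_sup
  · exact u_sup le_rfl (by norm_num)
  · exact u_sup le_rfl (by norm_num)

noncomputable def vv (n : ℕ) (k : Fin n) : {S : Finset (Fin n) // S.Nonempty} → ℝ := fun S =>
  entropyPower (Measure.pi (mv k)) (∑ i ∈ S.1, Xc n i)

noncomputable def ww (n : ℕ) (i j : Fin n) : {S : Finset (Fin n) // S.Nonempty} → ℝ := fun S =>
  entropyPower (Measure.pi (mw i j)) (∑ i ∈ S.1, Xc n i)

lemma vv_mem : vv n k ∈ Gamma n := by
  haveI := mv_prob (n := n) k
  exact mem_gamma (mv k) (mv_le k) (mv_sup k)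

lemma ww_mem : ww n i j ∈ Gamma n := by
  haveI := mw_prob (n := n) i j
  exact mem_gamma (mw i j) (mw_le i j) (mw_sup i j)

variable {i j k}
variable (hij : i ≠ j) (hik : i ≠ k) (hjk : j ≠ k)
  (A B C D : {S : Finset (Fin n) // S.Nonempty}) (hA : A.1 = {i, j, k}) (hB : B.1 = {k})
    (hC : C.1 = {i, k}) (hD : D.1 = {j, k})

include hB in
lemma vB_ge : 1 ≤ vv n k B := by
  haveI := mv_prob (n := n) k
  unfold vv
  rw [hB, Finset.sum_singleton]
  refine ep_ge (entropy_nonneg (Xc_meas k) ?_)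
  unfold BD
  rw [Xc_map]
  unfold mv
  rw [if_pos rfl]
  refine (u_le 0 1).trans ?_
  simp

include hij hik hjk hA in
lemma vA_ge : 1 ≤ vv n k A := by
  haveI := mv_prob (n := n) k
  unfold vv
  have e : ∑ l ∈ A.1, Xc n l = Xc n k + (Xc n i + Xc n j) := by
    rw [hA, Finset.sum_insert (by simp [hij, hik]), Finset.sum_pair hjk]
    abel
  rw [e]
  refine ep_ge (entropy_nonneg ((Xc_meas k).add ((Xc_meas i).add (Xc_meas j))) ?_)
  refine BD_add (Xc_meas k) ((Xc_meas i).add (Xc_meas j))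
    (pair_sum_ind (mv k) hik hjk).symm ?_
  unfold BD
  rw [Xc_map]
  unfold mv
  rw [if_pos rfl]
  refine (u_le 0 1).trans ?_
  simp

lemma v_pair {l : Fin n} (hl : l ≠ k) (E : {S : Finset (Fin n) // S.Nonempty})
    (hE : E.1 = {l, k}) : vv n k E ≤ (21 / 20) ^ 2 := by
  haveI := mv_prob (n := n) k
  unfold vv
  have e : ∑ m ∈ E.1, Xc n m = Xc n l + Xc n k := by
    rw [hE, Finset.sum_pair hl]
  have hf := sum_fin (mv k) (mv_le k) (mv_sup k) E.1 E.2
  rw [e] at hf ⊢
  refine ep_le (by norm_num) (entropy_le ((Xc_meas l).add (Xc_meas k)) hf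
    (meas_bx 0 (21 / 20)) (by norm_num) (by rw [vol_bx]; simp) ?_)
  have h1 : ∀ᵐ ω ∂(Measure.pi (mv k)), Xc n l ω ∈ bx 0 (1 / 20) :=
    Xc_mem (mv k) (meas_bx _ _) (by unfold mv; rw [if_neg hl]; exact u_compl _ _)
  have h2 : ∀ᵐ ω ∂(Measure.pi (mv k)), Xc n k ω ∈ bx 0 1 :=
    Xc_mem (mv k) (meas_bx _ _) (by unfold mv; rw [if_pos rfl]; exact u_compl _ _)
  filter_upwards [h1, h2] with ω a b
  rw [mem_bx] at a b ⊢
  simp only [Pi.add_apply]
  constructor
  · linarith [a.1, b.1]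
  · linarith [a.2, b.2]

include hij hik hjk hA in
lemma wA_ge : 1 ≤ ww n i j A := by
  haveI := mw_prob (n := n) i j
  unfold ww
  have e : ∑ l ∈ A.1, Xc n l = (Xc n i + Xc n j) + Xc n k := by
    rw [hA, Finset.sum_insert (by simp [hij, hik]), Finset.sum_pair hjk]
    abel
  rw [e]
  refine ep_ge (entropy_nonneg (((Xc_meas i).add (Xc_meas j)).add (Xc_meas k)) ?_)
  refine BD_add ((Xc_meas i).add (Xc_meas j)) (Xc_meas k)
    (pair_sum_ind (mw i j) hik hjk) ?_
  unfold BD
  rw [Measure.le_iff]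
  intro s hs
  have h1 : (Measure.pi (mw i j)).map (Xc n i + Xc n j) =
      ((um (1 / 20)).prod (u 0 (1 / 2))).map (fun p => p.1 + p.2) := by
    have h2 := (indepFun_iff_map_prod_eq_prod_map_map (Xc_meas i).aemeasurable
      (Xc_meas j).aemeasurable).1 (pair_ind (mw i j) hij)
    rw [Xc_map, Xc_map] at h2
    have h3 : mw i j i = um (1 / 20) := by unfold mw; rw [if_pos rfl]
    have h4 : mw i j j = u 0 (1 / 2) := by unfold mw; rw [if_neg hij.symm, if_pos rfl]
    rw [h3, h4] at h2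
    rw [← h2, Measure.map_map (by fun_prop) ((Xc_meas i).prodMk (Xc_meas j))]
    rfl
  haveI : IsProbabilityMeasure (um (1 / 20)) := um_prob (by norm_num)
  haveI : IsProbabilityMeasure (u 0 (1 / 2)) := u_prob (by norm_num)
  rw [h1, Measure.map_apply (by fun_prop) hs, Measure.prod_apply (by
    exact (measurable_fst.add measurable_snd) hs)]
  refine (conv_le (by norm_num) hs).trans ?_
  rw [Measure.smul_apply, one_smul]

include hik hjk hC in
lemma wC_le : ww n i j C ≤ (1 / 5) ^ 2 := by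
  haveI := mw_prob (n := n) i j
  unfold ww
  have e : ∑ m ∈ C.1, Xc n m = Xc n i + Xc n k := by
    rw [hC, Finset.sum_pair hik]
  have hf := sum_fin (mw i j) (mw_le i j) (mw_sup i j) C.1 C.2
  rw [e] at hf ⊢
  refine ep_le (by norm_num) (entropy_le ((Xc_meas i).add (Xc_meas k)) hf
    ((meas_bx 0 (1 / 10)).union (meas_bx (1 / 2) (3 / 5))) (by norm_num) ?_ ?_)
  · refine (measure_union_le _ _).trans ?_
    rw [vol_bx, vol_bx, ← ENNReal.ofReal_add (by norm_num) (by norm_num)]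
    exact ENNReal.ofReal_le_ofReal (by norm_num)
  have h1 : ∀ᵐ ω ∂(Measure.pi (mw i j)), Xc n i ω ∈ bx 0 (1 / 20) ∪ bx (1 / 2) (1 / 2 + 1 / 20) :=
    Xc_mem (mw i j) ((meas_bx _ _).union (meas_bx _ _))
      (by unfold mw; rw [if_pos rfl]; exact um_compl _)
  have h2 : ∀ᵐ ω ∂(Measure.pi (mw i j)), Xc n k ω ∈ bx 0 (1 / 20) :=
    Xc_mem (mw i j) (meas_bx _ _)
      (by unfold mw; rw [if_neg hik.symm, if_neg hjk.symm]; exact u_compl _ _)
  filter_upwards [h1, h2] with ω a b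
  rcases a with a | a
  · left
    rw [mem_bx] at a b ⊢
    simp only [Pi.add_apply]
    constructor
    · linarith [a.1, b.1]
    · linarith [a.2, b.2]
  · right
    rw [mem_bx] at a b ⊢
    simp only [Pi.add_apply]
    constructor
    · linarith [a.1, b.1]
    · linarith [a.2, b.2]

include hij hik hjk hD in
lemma wD_le : ww n i j D ≤ (11 / 20) ^ 2 := by
  haveI := mw_prob (n := n) i j
  unfold ww
  have e : ∑ m ∈ D.1, Xc n m = Xc n j + Xc n k := by
    rw [hD, Finset.sum_pair hjk]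
  have hf := sum_fin (mw i j) (mw_le i j) (mw_sup i j) D.1 D.2
  rw [e] at hf ⊢
  refine ep_le (by norm_num) (entropy_le ((Xc_meas j).add (Xc_meas k)) hf
    (meas_bx 0 (11 / 20)) (by norm_num) (by rw [vol_bx]; simp) ?_)
  have h1 : ∀ᵐ ω ∂(Measure.pi (mw i j)), Xc n j ω ∈ bx 0 (1 / 2) :=
    Xc_mem (mw i j) (meas_bx _ _)
      (by unfold mw; rw [if_neg hij.symm, if_pos rfl]; exact u_compl _ _)
  have h2 : ∀ᵐ ω ∂(Measure.pi (mw i j)), Xc n k ω ∈ bx 0 (1 / 20) :=
    Xc_mem (mw i j) (meas_bx _ _)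
      (by unfold mw; rw [if_neg hik.symm, if_neg hjk.symm]; exact u_compl _ _)
  filter_upwards [h1, h2] with ω a b
  rw [mem_bx] at a b ⊢
  simp only [Pi.add_apply]
  constructor
  · linarith [a.1, b.1]
  · linarith [a.2, b.2]

end

theorem not_convex {n : ℕ} (hn : 3 ≤ n) : ¬ Convex ℝ (closure (Gamma n)) := by
  set i : Fin n := ⟨0, by omega⟩ with hi
  set j : Fin n := ⟨1, by omega⟩ with hj
  set k : Fin n := ⟨2, by omega⟩ with hk
  have hij : i ≠ j := by rw [hi, hj]; simp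
  have hik : i ≠ k := by rw [hi, hk]; simp
  have hjk : j ≠ k := by rw [hj, hk]; simp
  let A : {S : Finset (Fin n) // S.Nonempty} := ⟨{i, j, k}, Finset.insert_nonempty _ _⟩
  let B : {S : Finset (Fin n) // S.Nonempty} := ⟨{k}, Finset.singleton_nonempty _⟩
  let C : {S : Finset (Fin n) // S.Nonempty} := ⟨{i, k}, Finset.insert_nonempty _ _⟩
  let D : {S : Finset (Fin n) // S.Nonempty} := ⟨{j, k}, Finset.insert_nonempty _ _⟩
  exact not_convex_of hij hik hjk A B C D rfl rfl rfl rfl (vv_mem k) (ww_mem i j)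
    (vA_ge hij hik hjk A rfl) (vB_ge B rfl) (v_pair hik C rfl) (v_pair hjk D rfl)
    (wA_ge hij hik hjk A rfl) ep_pos ep_pos ep_pos (wC_le hik hjk C rfl)
    (wD_le hij hik hjk D rfl)

end EntPow
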