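import Pool.Agent.H1.FurDefs

open MvPowerSeries

namespace FurDiag

abbrev M2 := MvPowerSeries (Fin 2) ℚ

/-- the monomial exponent (i,j) -/
noncomputable def ex (i j : ℕ) : Fin 2 →₀ ℕ := Finsupp.single 0 i + Finsupp.single 1 j

@[simp] lemma ex_zero (i j : ℕ) : ex i j 0 = i := by simp [ex]
@[simp] lemma ex_one (i j : ℕ) : ex i j 1 = j := by simp [ex]

lemma eq_ex (e : Fin 2 →₀ ℕ) : e = ex (e 0) (e 1) := by
  ext i
  fin_cases i <;> simp

lemma ext2 {R S : M2} (h : ∀ i j, coeff (ex i j) R = coeff (ex i j) S) : R = S := by
  ext e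
  rw [eq_ex e]
  exact h _ _

noncomputable def xx : M2 := X 0
noncomputable def yy : M2 := X 1

lemma hs : PowerSeries.HasSubst (xx * yy) := by
  apply PowerSeries.HasSubst.of_constantCoeff_zero
  simp [xx]

noncomputable def th : PowerSeries ℚ →ₐ[ℚ] M2 := PowerSeries.substAlgHom hs

lemma xy_pow (n : ℕ) : (xx * yy) ^ n = monomial (ex n n) (1 : ℚ) := by
  rw [mul_pow, xx, yy, X_pow_eq, X_pow_eq, monomial_mul_monomial, one_mul]
  rfl

lemma coeff_th (F : PowerSeries ℚ) (i j : ℕ) :
    coeff (ex i j) (th F) = if i = j then PowerSeries.coeff i F else 0 := by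
  rw [th, PowerSeries.coe_substAlgHom, PowerSeries.coeff_subst hs]
  rw [finsum_eq_single _ i]
  · rw [xy_pow, coeff_monomial]
    by_cases h : i = j
    · subst h
      simp
    · rw [if_neg, if_neg h]
      · simp
      · intro h2
        apply h
        have := congrArg (fun e => e 1) h2
        simpa using this.symm
  · intro n hn
    rw [xy_pow, coeff_monomial, if_neg]
    · simp
    · intro h2
      apply hn
      have := congrArg (fun e => e 0) h2
      simpa using this.symm

lemma th_X : th PowerSeries.X = xx * yy := by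
  rw [th]
  exact PowerSeries.substAlgHom_X hs

lemma th_coe (p : Polynomial ℚ) : th (p : PowerSeries ℚ) = Polynomial.aeval (xx * yy) p := by
  rw [th]
  exact PowerSeries.substAlgHom_coe hs p

lemma cc_th (F : PowerSeries ℚ) : constantCoeff (th F) = PowerSeries.constantCoeff F := by
  have := coeff_th F 0 0
  have h0 : ex 0 0 = 0 := by simp [ex]
  rw [h0] at this
  simpa using this

/-- weight bound -/
def GE (s c : ℤ) (R : M2) : Prop := ∀ i j : ℕ, s * ((j : ℤ) - i) < c → coeff (ex i j) R = 0

lemma GE.mono {s c d : ℤ} {R : M2} (h : GE s c R) (hd : d ≤ c) : GE s d R :=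
  fun i j hij => h i j (by linarith)

lemma GE.add {s c : ℤ} {R S : M2} (hR : GE s c R) (hS : GE s c S) : GE s c (R + S) := by
  intro i j h
  rw [map_add, hR i j h, hS i j h, add_zero]

lemma GE.mul {s c d : ℤ} {R S : M2} (hR : GE s c R) (hS : GE s d S) : GE s (c + d) (R * S) := by
  intro i j h
  rw [coeff_mul]
  apply Finset.sum_eq_zero
  rintro ⟨a, b⟩ hab
  rw [Finset.HasAntidiagonal.mem_antidiagonal] at hab
  have h0 := congrArg (fun e => e 0) hab
  have h1 := congrArg (fun e => e 1) hab
  simp only [Finsupp.add_apply, ex_zero, ex_one] at h0 h1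
  by_cases hc : s * ((a 1 : ℤ) - a 0) < c
  · have := hR (a 0) (a 1) hc
    rw [← eq_ex] at this
    simp [this]
  · have hd : s * ((b 1 : ℤ) - b 0) < d := by
      push Not at hc
      have : s * ((j : ℤ) - i) = s * ((a 1 : ℤ) - a 0) + s * ((b 1 : ℤ) - b 0) := by
        rw [← h0, ← h1]
        push_cast
        ring
      linarith
    have := hS (b 0) (b 1) hd
    rw [← eq_ex] at this
    simp [this]

lemma GE.one {s : ℤ} : GE s 0 (1 : M2) := by
  intro i j h
  rw [coeff_one, if_neg]
  intro h0
  have h1 := congrArg (fun e => e 0) h0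
  have h2 := congrArg (fun e => e 1) h0
  simp at h1 h2
  subst h1 h2
  simp at h

lemma GE.th (s : ℤ) (F : PowerSeries ℚ) : GE s 0 (th F) := by
  intro i j h
  rw [coeff_th, if_neg]
  rintro rfl
  simp at h

lemma GE.neg {s c : ℤ} {R : M2} (hR : GE s c R) : GE s c (-R) := by
  intro i j h
  rw [map_neg, hR i j h, neg_zero]

lemma GE.sub {s c : ℤ} {R S : M2} (hR : GE s c R) (hS : GE s c S) : GE s c (R - S) := by
  rw [sub_eq_add_neg]
  exact hR.add hS.neg

lemma GE.yy : GE 1 1 yy := by
  intro i j h
  rw [FurDiag.yy, coeff_X, if_neg]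
  intro h0
  have h1 := congrArg (fun e => e 0) h0
  have h2 := congrArg (fun e => e 1) h0
  simp at h1 h2
  subst h1 h2
  simp at h

lemma GE.xx : GE (-1) 1 xx := by
  intro i j h
  rw [FurDiag.xx, coeff_X, if_neg]
  intro h0
  have h1 := congrArg (fun e => e 0) h0
  have h2 := congrArg (fun e => e 1) h0
  simp at h1 h2
  subst h1 h2
  simp at h

lemma GE.inv {s : ℤ} {R : M2} (hR : GE s 0 R) : GE s 0 R⁻¹ := by
  have key : ∀ n i j : ℕ, i + j = n → s * ((j : ℤ) - i) < 0 → coeff (ex i j) R⁻¹ = 0 := by
    intro n
    induction n using Nat.strong_induction_on with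
    | _ n ih =>
      intro i j hn h
      rw [coeff_inv]
      split_ifs with h0
      · exfalso
        have h1 := congrArg (fun e => e 0) h0
        have h2 := congrArg (fun e => e 1) h0
        simp at h1 h2
        subst h1 h2
        simp at h
      · rw [mul_eq_zero]
        right
        apply Finset.sum_eq_zero
        rintro ⟨a, b⟩ hab
        rw [Finset.HasAntidiagonal.mem_antidiagonal] at hab
        have h0 := congrArg (fun e => e 0) hab
        have h1 := congrArg (fun e => e 1) hab
        simp only [Finsupp.add_apply, ex_zero, ex_one] at h0 h1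
        split_ifs with hlt
        · by_cases hc : s * ((a 1 : ℤ) - a 0) < 0
          · have := hR (a 0) (a 1) hc
            rw [← eq_ex] at this
            simp [this]
          · have hd : s * ((b 1 : ℤ) - b 0) < 0 := by
              push Not at hc
              have : s * ((j : ℤ) - i) = s * ((a 1 : ℤ) - a 0) + s * ((b 1 : ℤ) - b 0) := by
                rw [← h0, ← h1]
                push_cast
                ring
              linarith
            have hlt2 : b 0 + b 1 < n := by
              rcases lt_iff_le_and_ne.1 hlt with ⟨hle, hne⟩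
              have hle0 := hle 0
              have hle1 := hle 1
              simp only [ex_zero, ex_one] at hle0 hle1
              by_contra hcon
              apply hne
              have e0 : b 0 = i := by omega
              have e1 : b 1 = j := by omega
              rw [eq_ex b, e0, e1]
            have := ih _ hlt2 (b 0) (b 1) rfl hd
            rw [← eq_ex] at this
            simp [this]
        · rfl
  exact fun i j h => key _ i j rfl h

/-- diagonal vanishes when weight is positive -/
lemma GE.diag0 {s : ℤ} {R : M2} (h : GE s 1 R) (n : ℕ) : coeff (ex n n) R = 0 :=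
  h n n (by simp)

end FurDiag
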