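import Pool.Agent.H1.FurA

open MvPowerSeries

namespace FurDiag

/-- polynomials inside power series -/
noncomputable def Pol : Subring M2 := (MvPolynomial.coeToMvPowerSeries.ringHom (σ := Fin 2) (R := ℚ)).range

lemma mem_Pol {R : M2} : R ∈ Pol ↔ ∃ P : MvPolynomial (Fin 2) ℚ, (P : M2) = R := by
  rw [Pol, RingHom.mem_range]
  rfl

lemma xx_mem : xx ∈ Pol := mem_Pol.2 ⟨MvPolynomial.X 0, by simp [xx]⟩
lemma yy_mem : yy ∈ Pol := mem_Pol.2 ⟨MvPolynomial.X 1, by simp [yy]⟩

lemma C_mem (a : ℚ) : (C a : M2) ∈ Pol := mem_Pol.2 ⟨MvPolynomial.C a, by simp⟩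

lemma th_mem (p : Polynomial ℚ) : th (p : PowerSeries ℚ) ∈ Pol := by
  rw [th_coe, Polynomial.aeval_eq_sum_range]
  apply Subring.sum_mem
  intro i _
  rw [MvPowerSeries.smul_eq_C_mul]
  exact Subring.mul_mem _ (C_mem _) (Subring.pow_mem _ (Subring.mul_mem _ xx_mem yy_mem) _)

lemma rat_iff {R : M2} : IsRat R ↔ ∃ P Q : M2, P ∈ Pol ∧ Q ∈ Pol ∧ constantCoeff Q ≠ 0 ∧ Q * R = P := by
  constructor
  · rintro ⟨P, Q, hQ, h⟩
    refine ⟨P, Q, mem_Pol.2 ⟨P, rfl⟩, mem_Pol.2 ⟨Q, rfl⟩, ?_, h⟩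
    rw [← coeff_zero_eq_constantCoeff_apply, MvPolynomial.coeff_coe]
    exact hQ
  · rintro ⟨P, Q, hP, hQ, h0, h⟩
    obtain ⟨p, rfl⟩ := mem_Pol.1 hP
    obtain ⟨q, rfl⟩ := mem_Pol.1 hQ
    refine ⟨p, q, ?_, h⟩
    rw [← coeff_zero_eq_constantCoeff_apply, MvPolynomial.coeff_coe] at h0
    exact h0

lemma rat_pol {R : M2} (h : R ∈ Pol) : IsRat R :=
  rat_iff.2 ⟨R, 1, h, Subring.one_mem _, by simp, by simp⟩

lemma rat_inv {R : M2} (h : R ∈ Pol) (h0 : constantCoeff R ≠ 0) : IsRat R⁻¹ :=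
  rat_iff.2 ⟨1, R, Subring.one_mem _, h, h0, MvPowerSeries.mul_inv_cancel R h0⟩

lemma rat_mul {R S : M2} (hR : IsRat R) (hS : IsRat S) : IsRat (R * S) := by
  obtain ⟨P, Q, hP, hQ, h0, h⟩ := rat_iff.1 hR
  obtain ⟨P', Q', hP', hQ', h0', h'⟩ := rat_iff.1 hS
  refine rat_iff.2 ⟨P * P', Q * Q', Subring.mul_mem _ hP hP', Subring.mul_mem _ hQ hQ', ?_, ?_⟩
  · rw [map_mul]
    exact mul_ne_zero h0 h0'
  · rw [← h, ← h']
    ring

lemma rat_add {R S : M2} (hR : IsRat R) (hS : IsRat S) : IsRat (R + S) := by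
  obtain ⟨P, Q, hP, hQ, h0, h⟩ := rat_iff.1 hR
  obtain ⟨P', Q', hP', hQ', h0', h'⟩ := rat_iff.1 hS
  refine rat_iff.2 ⟨P * Q' + Q * P', Q * Q', Subring.add_mem _ (Subring.mul_mem _ hP hQ')
    (Subring.mul_mem _ hQ hP'), Subring.mul_mem _ hQ hQ', ?_, ?_⟩
  · rw [map_mul]
    exact mul_ne_zero h0 h0'
  · rw [← h, ← h']
    ring

noncomputable def EE : Polynomial (PowerSeries ℚ) →+* M2 :=
  Polynomial.eval₂RingHom (th : PowerSeries ℚ →+* M2) yy

@[simp] lemma EE_C (F : PowerSeries ℚ) : EE (Polynomial.C F) = th F := by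
  simp [EE]

@[simp] lemma EE_X : EE Polynomial.X = yy := by
  simp [EE]

lemma EE_GE (P : Polynomial (PowerSeries ℚ)) : GE 1 0 (EE P) := by
  induction P using Polynomial.induction_on' with
  | add p q hp hq =>
    rw [map_add]
    exact hp.add hq
  | monomial n a =>
    rw [← Polynomial.C_mul_X_pow_eq_monomial, map_mul, map_pow, EE_C, EE_X]
    have h1 : GE 1 0 (yy ^ n) := by
      induction n with
      | zero => simpa using GE.one
      | succ n ih =>
        rw [pow_succ]
        have := ih.mul (GE.yy.mono (by norm_num : (0 : ℤ) ≤ 1))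
        simpa using this
    have := (GE.th 1 a).mul h1
    simpa using this

lemma EE_cc (P : Polynomial (PowerSeries ℚ)) :
    constantCoeff (EE P) = PowerSeries.constantCoeff (P.coeff 0) := by
  induction P using Polynomial.induction_on' with
  | add p q hp hq =>
    rw [map_add, map_add, hp, hq, Polynomial.coeff_add, map_add]
  | monomial n a =>
    rw [← Polynomial.C_mul_X_pow_eq_monomial, map_mul, map_pow, EE_C, EE_X, map_mul, map_pow, cc_th]
    rcases Nat.eq_zero_or_pos n with hn | hn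
    · subst hn
      simp
    · rw [yy, constantCoeff_X, zero_pow hn.ne']
      rw [Polynomial.coeff_C_mul_X_pow, if_neg hn.ne]
      simp

noncomputable abbrev up (Q : Polynomial (Polynomial ℚ)) : Polynomial (PowerSeries ℚ) :=
  Q.map (Polynomial.coeToPowerSeries.ringHom (R := ℚ))

lemma EE_up_mem (Q : Polynomial (Polynomial ℚ)) : EE (up Q) ∈ Pol := by
  induction Q using Polynomial.induction_on' with
  | add p q hp hq =>
    rw [up, Polynomial.map_add, map_add]
    exact Subring.add_mem _ hp hq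
  | monomial n a =>
    rw [up, Polynomial.map_monomial, ← Polynomial.C_mul_X_pow_eq_monomial, map_mul, map_pow, EE_C, EE_X]
    exact Subring.mul_mem _ (th_mem a) (Subring.pow_mem _ yy_mem _)

lemma yy_cancel {R S : M2} (h : yy * R = yy * S) : R = S := by
  have hy : yy ≠ 0 := by
    rw [yy]
    intro h0
    have := congrArg (coeff (Finsupp.single 1 1)) h0
    rw [coeff_index_single_self_X] at this
    simp at this
  exact mul_left_cancel₀ hy h

theorem furst (Q : Polynomial (Polynomial ℚ)) (G : PowerSeries ℚ)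
    (hG0 : PowerSeries.constantCoeff G = 0)
    (hQ : Q.eval₂ (Polynomial.coeToPowerSeries.ringHom (R := ℚ)) G = 0)
    (h1 : (Q.coeff 1).coeff 0 ≠ 0) :
    ∃ R, IsRat R ∧ ∀ n, coeff (ex n n) R = PowerSeries.coeff n G := by
  obtain ⟨G1, hG1⟩ := PowerSeries.X_dvd_iff.2 hG0
  have hroot : (up Q).IsRoot G := by
    rw [Polynomial.IsRoot, up, Polynomial.eval_map]
    exact hQ
  obtain ⟨H, hH⟩ := Polynomial.dvd_iff_isRoot.2 hroot
  set W : M2 := xx * th G1 with hW
  have hthG : th G = yy * W := by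
    rw [hG1, map_mul, th_X, hW]
    ring
  set h := EE H with hh
  set h' := EE (Polynomial.derivative H) with hh'
  have e1 : EE (up Q) = yy * ((1 - W) * h) := by
    rw [hH, map_mul, map_sub, EE_X, EE_C, hthG, ← hh]
    ring
  -- the constant coefficient of Q.coeff 0
  have hc0 : PowerSeries.constantCoeff ((up Q).coeff 0) = 0 := by
    rw [hH, Polynomial.mul_coeff_zero]
    simp [hG0]
  obtain ⟨c1, hc1⟩ : ∃ c1 : Polynomial ℚ, Q.coeff 0 = Polynomial.X * c1 := by
    apply Polynomial.X_dvd_iff.2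
    have : (up Q).coeff 0 = ((Q.coeff 0 : Polynomial ℚ) : PowerSeries ℚ) := by
      rw [up, Polynomial.coeff_map]
      rfl
    rw [this] at hc0
    simpa using hc0
  have e2 : EE (up Q) = yy * (xx * th (c1 : PowerSeries ℚ) + EE (up Q.divX)) := by
    have hd : up Q = up Q.divX * Polynomial.X + Polynomial.C ((Q.coeff 0 : Polynomial ℚ) : PowerSeries ℚ) := by
      have := congrArg up (Polynomial.divX_mul_X_add Q)
      rw [← this, up, Polynomial.map_add, Polynomial.map_mul, Polynomial.map_X, Polynomial.map_C]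
      rfl
    rw [hd, map_add, map_mul, EE_X, EE_C, hc1, Polynomial.coe_mul, Polynomial.coe_X, map_mul, th_X]
    ring
  set q1 := (1 - W) * h with hq1
  have e3 : q1 = xx * th (c1 : PowerSeries ℚ) + EE (up Q.divX) := yy_cancel (e1.symm.trans e2)
  have hq1mem : q1 ∈ Pol := by
    rw [e3]
    exact Subring.add_mem _ (Subring.mul_mem _ xx_mem (th_mem _)) (EE_up_mem _)
  have hq1cc : constantCoeff q1 ≠ 0 := by
    rw [e3, map_add, map_mul, xx, constantCoeff_X, zero_mul, zero_add, EE_cc, up, Polynomial.coeff_map,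
      Polynomial.coeff_divX]
    simpa using h1
  have hhcc : constantCoeff h ≠ 0 := by
    intro h0
    apply hq1cc
    rw [hq1, map_mul, h0, mul_zero]
  have hWcc : constantCoeff (1 - W) ≠ 0 := by
    rw [hW, map_sub, map_mul, xx, constantCoeff_X]
    simp
  have e4 : EE (up (Polynomial.derivative Q)) = h + yy * (1 - W) * h' := by
    rw [up, ← Polynomial.derivative_map, ← up, hH, Polynomial.derivative_mul, map_add, map_mul, map_mul]
    rw [Polynomial.derivative_sub, Polynomial.derivative_X, Polynomial.derivative_C, sub_zero, map_one,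
      one_mul, map_sub, EE_X, EE_C, hthG, ← hh, ← hh']
    ring
  refine ⟨yy * EE (up (Polynomial.derivative Q)) * q1⁻¹,
    rat_mul (rat_pol (Subring.mul_mem _ yy_mem (EE_up_mem _))) (rat_inv hq1mem hq1cc), ?_⟩
  set T := (1 - W)⁻¹ with hT
  have hT1 : T = 1 + W * T := by
    have := MvPowerSeries.mul_inv_cancel (1 - W) hWcc
    rw [← hT] at this
    linear_combination this
  have hhi : h * h⁻¹ = 1 := MvPowerSeries.mul_inv_cancel h hhcc
  have hTi : (1 - W) * T = 1 := MvPowerSeries.mul_inv_cancel (1 - W) hWcc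
  have e5 : yy * EE (up (Polynomial.derivative Q)) * q1⁻¹
      = yy + (th G + (th G * (W * T) + yy * yy * h' * h⁻¹)) := by
    rw [hq1, MvPowerSeries.mul_inv_rev, ← hT, e4]
    have a1 : yy * (h + yy * (1 - W) * h') * (h⁻¹ * T) = yy * T + yy * yy * h' * h⁻¹ := by
      linear_combination (yy * T) * hhi + (yy * yy * h' * h⁻¹) * hTi
    rw [a1]
    have a2 : yy * T = yy + (th G + th G * (W * T)) := by
      rw [hthG]
      linear_combination yy * hT1 + yy * W * hT1
    rw [a2]
    ring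
  intro n
  rw [e5, map_add, map_add, map_add]
  have z1 : coeff (ex n n) yy = 0 := GE.yy.diag0 n
  have gW : GE (-1) 1 W := by
    rw [hW]
    have := GE.xx.mul (GE.th (-1) G1)
    simpa using this
  have gT : GE (-1) 0 T := by
    rw [hT]
    exact GE.inv (GE.one.sub (gW.mono (by norm_num)))
  have z2 : coeff (ex n n) (th G * (W * T)) = 0 := by
    have := (GE.th (-1) G).mul (gW.mul gT)
    exact GE.diag0 (s := -1) (by simpa using this) n
  have z3 : coeff (ex n n) (yy * yy * h' * h⁻¹) = 0 := by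
    have := ((GE.yy.mul GE.yy).mul (EE_GE (Polynomial.derivative H))).mul (EE_GE H).inv
    exact GE.diag0 (s := 1) (this.mono (by norm_num)) n
  rw [z1, z2, z3, coeff_th]
  simp

end FurDiag
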