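import Pool.Agent.H1.FurB

open PowerSeries

namespace FurDiag

noncomputable abbrev cc : Polynomial ℚ →+* PowerSeries ℚ := Polynomial.coeToPowerSeries.ringHom (R := ℚ)

lemma exists_min (F : PowerSeries ℚ) : ∀ n : ℕ, ∀ P : Polynomial (Polynomial ℚ), P.natDegree = n →
    P ≠ 0 → P.eval₂ cc F = 0 →
    ∃ P' : Polynomial (Polynomial ℚ), P'.eval₂ cc F = 0 ∧ (Polynomial.derivative P').eval₂ cc F ≠ 0 := by
  intro n
  induction n using Nat.strong_induction_on with
  | _ n ih =>
    intro P hn hP hPF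
    by_cases hd : (Polynomial.derivative P).eval₂ cc F = 0
    · by_cases h0 : P.natDegree = 0
      · exfalso
        apply hP
        rw [Polynomial.eq_C_of_natDegree_eq_zero h0] at hPF ⊢
        rw [Polynomial.eval₂_C] at hPF
        have : (P.coeff 0 : PowerSeries ℚ) = ((0 : Polynomial ℚ) : PowerSeries ℚ) := by
          rw [Polynomial.coe_zero]
          exact hPF
        rw [Polynomial.coe_injective _ this, Polynomial.C_0]
      · have hlt := Polynomial.natDegree_derivative_lt h0
        have hne : Polynomial.derivative P ≠ 0 := by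
          intro h
          exact h0 (Polynomial.derivative_eq_zero.1 h)
        exact ih _ (hn ▸ hlt) _ rfl hne hd
    · exact ⟨P, hPF, hd⟩

lemma X_pow_dvd_coe {n : ℕ} {p : Polynomial ℚ} (h : (X : PowerSeries ℚ) ^ n ∣ (p : PowerSeries ℚ)) :
    Polynomial.X ^ n ∣ p := by
  rw [Polynomial.X_pow_dvd_iff]
  rw [PowerSeries.X_pow_dvd_iff] at h
  intro d hd
  have := h d hd
  rwa [Polynomial.coeff_coe] at this

lemma exists_order {D : PowerSeries ℚ} (hD : D ≠ 0) :
    ∃ (k : ℕ) (D1 : PowerSeries ℚ), D = X ^ k * D1 ∧ constantCoeff D1 ≠ 0 := by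
  have hfin : FiniteMultiplicity (X : PowerSeries ℚ) D := by
    apply FiniteMultiplicity.of_prime_left PowerSeries.X_prime hD
  obtain ⟨c, hc, hnd⟩ := hfin.exists_eq_pow_mul_and_not_dvd
  refine ⟨_, c, hc, ?_⟩
  intro h
  exact hnd (PowerSeries.X_dvd_iff.2 h)

theorem reduce (F : PowerSeries ℚ) (hF : IsAlg F) :
    ∃ (k : ℕ) (A : Polynomial ℚ) (G : PowerSeries ℚ) (Q : Polynomial (Polynomial ℚ)),
      F = (A : PowerSeries ℚ) + X ^ k * G ∧ constantCoeff G = 0 ∧ Q.eval₂ cc G = 0 ∧
      (Q.coeff 1).coeff 0 ≠ 0 := by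
  obtain ⟨P0, hP0, hP0F⟩ := hF
  obtain ⟨P, hPF, hPd⟩ := exists_min F _ P0 rfl hP0 hP0F
  obtain ⟨k, D1, hD, hD1⟩ := exists_order hPd
  set A := trunc (k + 1) F with hA
  obtain ⟨G1, hG1⟩ : (X : PowerSeries ℚ) ^ (k + 1) ∣ F - (A : PowerSeries ℚ) := by
    rw [PowerSeries.X_pow_dvd_iff]
    intro m hm
    rw [map_sub, Polynomial.coeff_coe, hA, coeff_trunc, if_pos hm, sub_self]
  set G := X * G1 with hG
  have hFA : F = (A : PowerSeries ℚ) + X ^ k * G := by
    rw [hG]
    linear_combination hG1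
  have hG0 : constantCoeff G = 0 := by rw [hG]; simp
  set Pm := P.map cc with hPm
  have hPmF : Pm.eval F = 0 := by rw [hPm, Polynomial.eval_map]; exact hPF
  have hPmd : (Polynomial.derivative Pm).eval F = X ^ k * D1 := by
    rw [hPm, Polynomial.derivative_map, Polynomial.eval_map]; exact hD
  obtain ⟨K, hK⟩ := Polynomial.binomExpansion Pm (A : PowerSeries ℚ) (X ^ k * G)
  obtain ⟨K', hK'⟩ := Polynomial.evalSubFactor (Polynomial.derivative Pm) F (A : PowerSeries ℚ)
  rw [← hFA, hPmF] at hK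
  rw [hPmd] at hK'
  have hdA : (Polynomial.derivative Pm).eval (A : PowerSeries ℚ) = X ^ k * (D1 - K' * G) := by
    have : F - (A : PowerSeries ℚ) = X ^ k * G := by rw [hFA]; ring
    rw [this] at hK'
    linear_combination -hK'
  rw [hdA] at hK
  have hPA : Pm.eval (A : PowerSeries ℚ) = X ^ (2 * k) * (-((D1 - K' * G) * G + K * G ^ 2)) := by
    rw [pow_mul', ]
    linear_combination -hK
  -- transfer to polynomials
  have t0 : ((P.eval A : Polynomial ℚ) : PowerSeries ℚ) = Pm.eval (A : PowerSeries ℚ) := by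
    rw [hPm, Polynomial.eval_map]
    exact (Polynomial.eval₂_at_apply cc A).symm
  have t1 : (((Polynomial.derivative P).eval A : Polynomial ℚ) : PowerSeries ℚ)
      = (Polynomial.derivative Pm).eval (A : PowerSeries ℚ) := by
    rw [hPm, Polynomial.derivative_map, Polynomial.eval_map]
    exact (Polynomial.eval₂_at_apply cc A).symm
  have d0 : Polynomial.X ^ (2 * k) ∣ P.eval A := by
    apply X_pow_dvd_coe
    rw [t0, hPA]
    exact Dvd.intro _ rfl
  have d1 : Polynomial.X ^ k ∣ (Polynomial.derivative P).eval A := by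
    apply X_pow_dvd_coe
    rw [t1, hdA]
    exact Dvd.intro _ rfl
  set Pt : Polynomial (Polynomial ℚ) :=
    (Polynomial.taylor A P).comp (Polynomial.C (Polynomial.X ^ k) * Polynomial.X) with hPt
  have hco : ∀ i, Pt.coeff i = (Polynomial.taylor A P).coeff i * (Polynomial.X ^ k) ^ i := by
    intro i
    rw [hPt, Polynomial.comp_C_mul_X_coeff]
  obtain ⟨Q, hQ⟩ : Polynomial.C (Polynomial.X ^ (2 * k)) ∣ Pt := by
    rw [Polynomial.C_dvd_iff_dvd_coeff]
    intro i
    rw [hco]
    rcases i with _ | _ | i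
    · rw [Polynomial.taylor_coeff_zero]
      exact Dvd.dvd.mul_right d0 _
    · rw [zero_add, Polynomial.taylor_coeff_one, pow_one, two_mul, pow_add]
      exact mul_dvd_mul_right d1 _
    · apply Dvd.dvd.mul_left
      rw [← pow_mul]
      apply pow_dvd_pow
      nlinarith
  refine ⟨k, A, G, Q, hFA, hG0, ?_, ?_⟩
  · have h1 : Pt.eval₂ cc G = 0 := by
      rw [hPt, Polynomial.taylor_apply, Polynomial.eval₂_comp, Polynomial.eval₂_comp]
      rw [Polynomial.eval₂_add, Polynomial.eval₂_X, Polynomial.eval₂_C, Polynomial.eval₂_mul,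
        Polynomial.eval₂_C, Polynomial.eval₂_X, map_pow]
      have : cc Polynomial.X = (X : PowerSeries ℚ) := by
        exact Polynomial.coe_X
      rw [this]
      have e : (X : PowerSeries ℚ) ^ k * G + cc A = F := by
        rw [hFA]
        change _ + (A : PowerSeries ℚ) = _
        ring
      rw [e]
      exact hPF
    rw [hQ, Polynomial.eval₂_mul, Polynomial.eval₂_C, map_pow] at h1
    have : cc Polynomial.X = (X : PowerSeries ℚ) := Polynomial.coe_X
    rw [this] at h1
    rcases mul_eq_zero.1 h1 with h | h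
    · exact absurd h (pow_ne_zero _ PowerSeries.X_ne_zero)
    · exact h
  · have h1 := hco 1
    rw [hQ, Polynomial.coeff_C_mul, Polynomial.taylor_coeff_one, pow_one] at h1
    have h2 := congrArg (fun p : Polynomial ℚ => (p : PowerSeries ℚ)) h1
    simp only [Polynomial.coe_mul, Polynomial.coe_pow, Polynomial.coe_X] at h2
    rw [t1, hdA] at h2
    have h3 : (X : PowerSeries ℚ) ^ (2 * k) * ((Q.coeff 1 : Polynomial ℚ) : PowerSeries ℚ)
        = X ^ (2 * k) * (D1 - K' * G) := by
      rw [h2]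
      ring
    have h4 := mul_left_cancel₀ (pow_ne_zero _ PowerSeries.X_ne_zero) h3
    intro h5
    apply hD1
    have h6 := congrArg (fun p => constantCoeff p) h4
    simp only [map_sub, map_mul, hG0, mul_zero, sub_zero] at h6
    rw [← h6]
    simpa using h5

end FurDiag
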