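import Pool.Agent.H1.FurC

open MvPowerSeries

namespace FurDiag

lemma growth_aux {R : M2} {P Q : MvPolynomial (Fin 2) ℚ} (h : (Q : M2) * R = P) {q B S : ℚ}
    (hq : 0 < q) (hqd : q = |MvPolynomial.coeff 0 Q|) (hB0 : 0 ≤ B) (hS0 : 0 ≤ S)
    (hPb : ∀ e, |P.coeff e| ≤ B * q)
    (hSb : ∀ e : Fin 2 →₀ ℕ, ∑ p ∈ Finset.HasAntidiagonal.antidiagonal e, |Q.coeff p.1| ≤ S * q) :
    ∀ n i j : ℕ, i + j = n → |coeff (ex i j) R| ≤ B * (1 + S) ^ n := by
  have hA1 : 1 ≤ 1 + S := by linarith
  intro n
  induction n using Nat.strong_induction_on with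
  | _ n ih =>
    intro i j hn
    have hc := congrArg (coeff (ex i j)) h
    rw [coeff_mul, MvPolynomial.coeff_coe] at hc
    have hmem : ((0 : Fin 2 →₀ ℕ), ex i j) ∈ Finset.HasAntidiagonal.antidiagonal (ex i j) := by
      rw [Finset.HasAntidiagonal.mem_antidiagonal, zero_add]
    rw [← Finset.add_sum_erase _ _ hmem] at hc
    simp only [MvPolynomial.coeff_coe] at hc
    have hc2 : MvPolynomial.coeff 0 Q * coeff (ex i j) R = P.coeff (ex i j)
        - ∑ x ∈ (Finset.HasAntidiagonal.antidiagonal (ex i j)).erase (0, ex i j), Q.coeff x.1 * coeff x.2 R := by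
      linear_combination hc
    have hc3 : q * |coeff (ex i j) R| ≤ B * q + ∑ x ∈ (Finset.HasAntidiagonal.antidiagonal (ex i j)).erase (0, ex i j),
        |Q.coeff x.1 * coeff x.2 R| := by
      have e1 : q * |coeff (ex i j) R| = |MvPolynomial.coeff 0 Q * coeff (ex i j) R| := by
        rw [abs_mul, ← hqd]
      rw [e1, hc2]
      refine (abs_sub _ _).trans ?_
      exact add_le_add (hPb _) (Finset.abs_sum_le_sum_abs _ _)
    rcases Nat.eq_zero_or_pos n with h0 | hpos
    · subst h0
      have hi : i = 0 := by omega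
      have hj : j = 0 := by omega
      subst hi hj
      have : (Finset.HasAntidiagonal.antidiagonal (ex 0 0)).erase (0, ex 0 0) = ∅ := by
        ext ⟨a, b⟩
        simp only [Finset.mem_erase, Finset.HasAntidiagonal.mem_antidiagonal, Finset.notMem_empty,
          iff_false, not_and]
        intro h1 h2
        apply h1
        have e0 : ex 0 0 = 0 := by simp [ex]
        rw [e0] at h2 ⊢
        rw [add_eq_zero] at h2
        rw [h2.1, h2.2]
      rw [this, Finset.sum_empty, add_zero] at hc3
      simp only [pow_zero, mul_one]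
      nlinarith
    · obtain ⟨m, rfl⟩ : ∃ m, n = m + 1 := ⟨n - 1, by omega⟩
      have hsum : ∑ x ∈ (Finset.HasAntidiagonal.antidiagonal (ex i j)).erase (0, ex i j), |Q.coeff x.1 * coeff x.2 R|
          ≤ (B * (1 + S) ^ m) * (S * q) := by
        calc ∑ x ∈ (Finset.HasAntidiagonal.antidiagonal (ex i j)).erase (0, ex i j), |Q.coeff x.1 * coeff x.2 R|
            ≤ ∑ x ∈ (Finset.HasAntidiagonal.antidiagonal (ex i j)).erase (0, ex i j),
                (B * (1 + S) ^ m) * |Q.coeff x.1| := by
              apply Finset.sum_le_sum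
              rintro ⟨a, b⟩ hab
              rw [Finset.mem_erase, Finset.HasAntidiagonal.mem_antidiagonal] at hab
              obtain ⟨hne, hab⟩ := hab
              have h0 := congrArg (fun e => e 0) hab
              have h1 := congrArg (fun e => e 1) hab
              simp only [Finsupp.add_apply, ex_zero, ex_one] at h0 h1
              have hlt : b 0 + b 1 ≤ m := by
                by_contra hcon
                apply hne
                have a0 : a 0 = 0 := by omega
                have a1 : a 1 = 0 := by omega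
                have ha : a = 0 := by
                  rw [eq_ex a, a0, a1]
                  simp [ex]
                rw [ha] at hab ⊢
                rw [zero_add] at hab
                exact Prod.ext rfl hab
              have hb := ih (b 0 + b 1) (by omega) (b 0) (b 1) rfl
              rw [← eq_ex] at hb
              rw [abs_mul, mul_comm]
              apply mul_le_mul_of_nonneg_right _ (abs_nonneg _)
              refine hb.trans ?_
              exact mul_le_mul_of_nonneg_left (pow_le_pow_right₀ hA1 hlt) hB0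
          _ ≤ ∑ x ∈ Finset.HasAntidiagonal.antidiagonal (ex i j), (B * (1 + S) ^ m) * |Q.coeff x.1| := by
              apply Finset.sum_le_sum_of_subset_of_nonneg (Finset.erase_subset _ _)
              intro x _ _
              positivity
          _ = (B * (1 + S) ^ m) * ∑ x ∈ Finset.HasAntidiagonal.antidiagonal (ex i j), |Q.coeff x.1| := by
              rw [Finset.mul_sum]
          _ ≤ (B * (1 + S) ^ m) * (S * q) := by
              apply mul_le_mul_of_nonneg_left (hSb _)
              positivity
      have h5 : q * |coeff (ex i j) R| ≤ q * (B * (1 + S) ^ (m + 1)) := by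
        have hpm : (1 : ℚ) ≤ (1 + S) ^ m := one_le_pow₀ hA1
        have : B * q ≤ B * (1 + S) ^ m * q := by
          have : B * 1 ≤ B * (1 + S) ^ m := mul_le_mul_of_nonneg_left hpm hB0
          nlinarith
        calc q * |coeff (ex i j) R| ≤ B * q + (B * (1 + S) ^ m) * (S * q) := hc3.trans (by linarith)
          _ ≤ B * (1 + S) ^ m * q + (B * (1 + S) ^ m) * (S * q) := by linarith
          _ = q * (B * (1 + S) ^ (m + 1)) := by rw [pow_succ]; ring
      exact le_of_mul_le_mul_left h5 hq

/-- exponential growth of the coefficients of a rational series -/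
lemma growth {R : M2} (hR : IsRat R) : ∃ C A : ℚ, 0 ≤ C ∧ 1 ≤ A ∧
    ∀ i j : ℕ, |coeff (ex i j) R| ≤ C * A ^ (i + j) := by
  obtain ⟨P, Q, hQ0, h⟩ := hR
  have hq : (0 : ℚ) < |MvPolynomial.constantCoeff Q| := abs_pos.2 hQ0
  set q := |MvPolynomial.constantCoeff Q| with hqd
  set B := (∑ a ∈ P.support, |P.coeff a|) / q with hB
  set S := (∑ a ∈ Q.support, |Q.coeff a|) / q with hS
  have hB0 : 0 ≤ B := div_nonneg (Finset.sum_nonneg fun _ _ => abs_nonneg _) hq.le
  have hS0 : 0 ≤ S := div_nonneg (Finset.sum_nonneg fun _ _ => abs_nonneg _) hq.le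
  refine ⟨B, 1 + S, hB0, by linarith, ?_⟩
  have hA1 : 1 ≤ 1 + S := by linarith
  have hPb : ∀ e, |P.coeff e| ≤ B * q := by
    intro e
    rw [hB, div_mul_cancel₀ _ hq.ne']
    by_cases he : e ∈ P.support
    · exact Finset.single_le_sum (f := fun a => |P.coeff a|) (fun _ _ => abs_nonneg _) he
    · rw [MvPolynomial.notMem_support_iff.1 he, abs_zero]
      exact Finset.sum_nonneg fun _ _ => abs_nonneg _
  have hSb : ∀ e : Fin 2 →₀ ℕ, ∑ p ∈ Finset.HasAntidiagonal.antidiagonal e, |Q.coeff p.1| ≤ S * q := by
    intro e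
    rw [hS, div_mul_cancel₀ _ hq.ne']
    have hinj : Set.InjOn (fun p : (Fin 2 →₀ ℕ) × (Fin 2 →₀ ℕ) => p.1) (Finset.HasAntidiagonal.antidiagonal e) := by
      rintro ⟨a, b⟩ h1 ⟨a', b'⟩ h2 h3
      simp only [Finset.mem_coe, Finset.HasAntidiagonal.mem_antidiagonal] at h1 h2 h3
      subst h3
      rw [← h2] at h1
      rw [add_left_cancel h1]
    have := Finset.sum_image (f := fun a => |Q.coeff a|) hinj
    rw [← this]
    rw [← Finset.sum_filter_ne_zero]
    apply Finset.sum_le_sum_of_subset_of_nonneg
    · intro x hx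
      rw [Finset.mem_filter] at hx
      rw [MvPolynomial.mem_support_iff]
      intro h0
      apply hx.2
      rw [h0, abs_zero]
    · intro _ _ _
      exact abs_nonneg _
  intro i j
  exact growth_aux h hq (by rw [hqd]; rfl) hB0 hS0 hPb hSb _ i j rfl

/-- the dominating series: `A^(i+j)` off the diagonal and `0` on it -/
noncomputable def UU (A : ℚ) : M2 := fun e => A ^ (e 0 + e 1)

lemma coeff_UU (A : ℚ) (i j : ℕ) : coeff (ex i j) (UU A) = A ^ (i + j) := by
  rw [coeff_apply]
  simp [UU]

lemma coeff_mul_xx (R : M2) (i j : ℕ) :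
    coeff (ex i j) (R * xx) = if i = 0 then 0 else coeff (ex (i - 1) j) R := by
  rw [xx, X_def, coeff_mul_monomial]
  by_cases hi : i = 0
  · rw [if_neg, if_pos hi]
    intro hle
    have := hle 0
    simp at this
    omega
  · rw [if_pos, if_neg hi, mul_one]
    · congr 2
      rw [eq_ex (ex i j - Finsupp.single 0 1)]
      simp
    · rw [Finsupp.single_le_iff]
      simp
      omega

lemma coeff_mul_yy (R : M2) (i j : ℕ) :
    coeff (ex i j) (R * yy) = if j = 0 then 0 else coeff (ex i (j - 1)) R := by
  rw [yy, X_def, coeff_mul_monomial]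
  by_cases hi : j = 0
  · rw [if_neg, if_pos hi]
    intro hle
    have := hle 1
    simp at this
    omega
  · rw [if_pos, if_neg hi, mul_one]
    · congr 2
      rw [eq_ex (ex i j - Finsupp.single 1 1)]
      simp
    · rw [Finsupp.single_le_iff]
      simp
      omega

lemma coeff_one' (i j : ℕ) : coeff (ex i j) (1 : M2) = if i = 0 ∧ j = 0 then 1 else 0 := by
  rw [coeff_one]
  congr 1
  apply propext
  constructor
  · intro h
    have h1 := congrArg (fun e => e 0) h
    have h2 := congrArg (fun e => e 1) h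
    simp at h1 h2
    exact ⟨h1, h2⟩
  · rintro ⟨rfl, rfl⟩
    simp [ex]

lemma UU_eq (A : ℚ) : (1 - C A * xx) * (1 - C A * yy) * UU A = 1 := by
  set V : M2 := (1 - C A * xx) * UU A with hV
  have hVc : ∀ i j, coeff (ex i j) V = if i = 0 then A ^ j else 0 := by
    intro i j
    have : V = UU A - C A * (UU A * xx) := by rw [hV]; ring
    rw [this, map_sub, coeff_C_mul, coeff_mul_xx, coeff_UU]
    rcases i with _ | i
    · simp
    · rw [if_neg (by omega), if_neg (by omega), coeff_UU]
      have : i + 1 - 1 + j = i + j := by omega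
      rw [this]
      have : i + 1 + j = (i + j) + 1 := by omega
      rw [this, pow_succ]
      ring
  have h2 : (1 - C A * xx) * (1 - C A * yy) * UU A = V - C A * (V * yy) := by rw [hV]; ring
  rw [h2]
  apply ext2
  intro i j
  rw [map_sub, coeff_C_mul, coeff_mul_yy, hVc, hVc, coeff_one']
  rcases i with _ | i
  · rcases j with _ | j
    · simp
    · simp [pow_succ]
      ring
  · simp

/-- the dominating series is rational -/
lemma exists_dom (Cc A : ℚ) : ∃ S : M2, IsRat S ∧
    ∀ i j, coeff (ex i j) S = if i = j then 0 else Cc * A ^ (i + j) := by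
  set g : PowerSeries ℚ := PowerSeries.mk fun n => A ^ (2 * n) with hg
  have hgr : (1 - PowerSeries.C (A ^ 2) * PowerSeries.X) * g = 1 := by
    ext n
    have : (1 - PowerSeries.C (A ^ 2) * PowerSeries.X) * g
        = g - PowerSeries.C (A ^ 2) * (g * PowerSeries.X) := by ring
    rw [this, map_sub, PowerSeries.coeff_C_mul]
    rcases n with _ | n
    · simp [hg]
    · rw [PowerSeries.coeff_succ_mul_X, hg, PowerSeries.coeff_mk, PowerSeries.coeff_mk, PowerSeries.coeff_one]
      rw [if_neg (by omega)]
      rw [mul_add, pow_add]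
      ring
  have hr1 : IsRat (UU A) := by
    refine rat_iff.2 ⟨1, (1 - C A * xx) * (1 - C A * yy), Subring.one_mem _, ?_, ?_, UU_eq A⟩
    · exact Subring.mul_mem _ (Subring.sub_mem _ (Subring.one_mem _) (Subring.mul_mem _ (C_mem _) xx_mem))
        (Subring.sub_mem _ (Subring.one_mem _) (Subring.mul_mem _ (C_mem _) yy_mem))
    · simp [xx, yy]
  have hr2 : IsRat (th g) := by
    refine rat_iff.2 ⟨1, th (1 - PowerSeries.C (A ^ 2) * PowerSeries.X), Subring.one_mem _, ?_, ?_, ?_⟩
    · have : (1 - PowerSeries.C (A ^ 2) * PowerSeries.X : PowerSeries ℚ)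
          = ((1 - Polynomial.C (A ^ 2) * Polynomial.X : Polynomial ℚ) : PowerSeries ℚ) := by
        simp
      rw [this]
      exact th_mem _
    · rw [cc_th]
      simp
    · rw [← map_mul, hgr, map_one]
  refine ⟨C Cc * (UU A + C (-1) * th g), ?_, ?_⟩
  · exact rat_mul (rat_pol (C_mem _)) (rat_add hr1 (rat_mul (rat_pol (C_mem _)) hr2))
  · intro i j
    rw [coeff_C_mul, map_add, coeff_C_mul, coeff_UU, coeff_th]
    split_ifs with h
    · subst h
      rw [hg, PowerSeries.coeff_mk]
      ring
    · ring

theorem main (F : PowerSeries ℚ) (hF : IsAlg F) (hpos : ∀ n, 0 ≤ PowerSeries.coeff n F) :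
    ∃ R : MvPowerSeries (Fin 2) ℚ, IsRat R ∧ (∀ e, 0 ≤ coeff e R) ∧ diag R = F := by
  obtain ⟨k, A, G, Q, hFA, hG0, hQ, hQ1⟩ := reduce F hF
  obtain ⟨R0, hR0, hR0d⟩ := furst Q G hG0 hQ hQ1
  set R1 : M2 := th (A : PowerSeries ℚ) + th ((Polynomial.X ^ k : Polynomial ℚ) : PowerSeries ℚ) * R0 with hR1
  have hR1r : IsRat R1 := rat_add (rat_pol (th_mem _)) (rat_mul (rat_pol (th_mem _)) hR0)
  have hR1d : ∀ n, coeff (ex n n) R1 = PowerSeries.coeff n F := by
    intro n
    have e1 : th ((Polynomial.X ^ k : Polynomial ℚ) : PowerSeries ℚ) = monomial (ex k k) (1 : ℚ) := by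
      rw [← xy_pow, Polynomial.coe_pow, Polynomial.coe_X, map_pow, th_X]
    rw [hR1, map_add, e1, coeff_monomial_mul, coeff_th, if_pos rfl, hFA, map_add]
    congr 1
    rw [PowerSeries.coeff_X_pow_mul']
    by_cases hk : k ≤ n
    · rw [if_pos, if_pos hk, one_mul]
      · have : ex n n - ex k k = ex (n - k) (n - k) := by
          rw [eq_ex (ex n n - ex k k)]
          simp
        rw [this, hR0d]
      · intro i
        fin_cases i <;> simpa using hk
    · rw [if_neg, if_neg hk]
      intro hle
      have := hle 0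
      simp at this
      exact hk this
  obtain ⟨Cc, B, hC, hB, hgr⟩ := growth hR1r
  obtain ⟨S, hS, hSc⟩ := exists_dom Cc B
  refine ⟨R1 + S, rat_add hR1r hS, ?_, ?_⟩
  · intro e
    rw [eq_ex e, map_add, hSc]
    split_ifs with h
    · rw [h, hR1d, add_zero]
      exact hpos _
    · have := hgr (e 0) (e 1)
      have := abs_le.1 this
      linarith [this.1]
  · ext n
    rw [diag, PowerSeries.coeff_mk]
    change coeff (ex n n) (R1 + S) = _
    rw [map_add, hSc, if_pos rfl, add_zero, hR1d]

end FurDiag
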