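import Mathlib

namespace FurDiag

/-- A univariate power series over the rationals is algebraic over the field of
rational functions: it is a root of a nonzero polynomial whose coefficients are
polynomials in the variable. -/
def IsAlg (F : PowerSeries ℚ) : Prop :=
  ∃ P : Polynomial (Polynomial ℚ), P ≠ 0 ∧
    P.eval₂ (Polynomial.coeToPowerSeries.ringHom (R := ℚ)) F = 0

/-- A bivariate power series is rational: it is the quotient of two polynomials, the
denominator having nonzero constant term. -/
def IsRat (R : MvPowerSeries (Fin 2) ℚ) : Prop :=
  ∃ P Q : MvPolynomial (Fin 2) ℚ, MvPolynomial.constantCoeff Q ≠ 0 ∧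
    (Q : MvPowerSeries (Fin 2) ℚ) * R = (P : MvPowerSeries (Fin 2) ℚ)

/-- The diagonal of a bivariate power series. -/
noncomputable def diag (R : MvPowerSeries (Fin 2) ℚ) : PowerSeries ℚ :=
  PowerSeries.mk fun n => MvPowerSeries.coeff (Finsupp.single 0 n + Finsupp.single 1 n) R

end FurDiag
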