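import Mathlib

set_option autoImplicit false
set_option linter.all false

namespace Pool.Agent.H1.Herm

open Complex Metric Set Topology Filter

/-- differentiability along complex lines -/
def SlD {X : Type} [AddCommGroup X] [Module ℂ X] (U : Set X) (Q : X → ℂ) : Prop :=
  ∀ x y : X, ∀ t : ℂ, x + t • y ∈ U → DifferentiableAt ℂ (fun t : ℂ => Q (x + t • y)) t

theorem one_var {T : Set ℂ} (hT : IsOpen T) (hc : Convex ℝ T) (h0 : (0 : ℂ) ∈ T) {φ : ℂ → ℂ}
    (hφ : ∀ t ∈ T, DifferentiableAt ℂ φ t) (hr : ∀ x : ℝ, (x : ℂ) ∈ T → φ x = 0) :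
    ∀ t ∈ T, φ t = 0 := by
  have han : AnalyticOnNhd ℂ φ T := by
    apply DifferentiableOn.analyticOnNhd _ hT
    exact fun t ht => (hφ t ht).differentiableWithinAt
  have hfreq : ∃ᶠ z in 𝓝[≠] (0 : ℂ), φ z = 0 := by
    have h1 : Tendsto (fun x : ℝ => (x : ℂ)) (𝓝[≠] 0) (𝓝[≠] (0 : ℂ)) := by
      apply tendsto_nhdsWithin_of_tendsto_nhds_of_eventually_within
      · have : Tendsto (fun x : ℝ => (x : ℂ)) (𝓝 0) (𝓝 ((0 : ℝ) : ℂ)) :=
          Complex.continuous_ofReal.continuousAt
        rw [Complex.ofReal_zero] at this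
        exact this.mono_left nhdsWithin_le_nhds
      · filter_upwards [self_mem_nhdsWithin] with x hx
        simpa using hx
    have h2 : ∀ᶠ x : ℝ in 𝓝[≠] 0, (x : ℂ) ∈ T :=
      (h1.mono_right nhdsWithin_le_nhds).eventually (hT.mem_nhds h0)
    have h3 : ∀ᶠ x : ℝ in 𝓝[≠] 0, φ (x : ℂ) = 0 := h2.mono (fun x hx => hr x hx)
    exact h1.frequently h3.frequently
  intro t ht
  exact han.eqOn_zero_of_preconnected_of_frequently_eq_zero hc.isPreconnected h0 hfreq ht

section polar

variable {E : Type} [NormedAddCommGroup E] [NormedSpace ℂ E] [StarAddMonoid E] [StarModule ℂ E]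

def dom (Ω : Set E) : Set (E × E) := {q | q.1 ∈ Ω ∧ star q.2 ∈ Ω}

theorem polar {Ω : Set E} (ho : IsOpen Ω) (hc : Convex ℝ Ω) {Q : E × E → ℂ} (hQ : SlD (dom Ω) Q)
    (h0 : ∀ z ∈ Ω, Q (z, star z) = 0) {q : E × E} (hq : q ∈ dom Ω) : Q q = 0 := by
  obtain ⟨z, w⟩ := q
  obtain ⟨hz, hw⟩ := hq
  simp only at hz hw
  set x : E := (1 / 2 : ℂ) • (z + star w) with hx
  set y : E := (-I / 2 : ℂ) • (z - star w) with hy
  have hzx : x + I • y = z := by
    rw [hx, hy, smul_smul]
    have : I * (-I / 2) = (1 / 2 : ℂ) := by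
      rw [mul_div_assoc', mul_neg, I_mul_I]; norm_num
    rw [this, ← smul_add]
    have e : z + star w + (z - star w) = (2 : ℂ) • z := by rw [two_smul]; abel
    rw [e, smul_smul]
    norm_num
  have hwx : x + (-I) • y = star w := by
    rw [hx, hy, smul_smul]
    have : (-I) * (-I / 2) = (-(1 / 2) : ℂ) := by
      rw [mul_div_assoc', neg_mul_neg, I_mul_I]; norm_num
    rw [this, neg_smul, ← sub_eq_add_neg, ← smul_sub]
    have e : z + star w - (z - star w) = (2 : ℂ) • star w := by rw [two_smul]; abel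
    rw [e, smul_smul]
    norm_num
  let T : Set ℂ := {t | x + t • y ∈ Ω ∧ x + (star t) • y ∈ Ω}
  have hTo : IsOpen T := by
    apply IsOpen.inter
    · exact ho.preimage (by fun_prop)
    · exact ho.preimage (continuous_const.add ((continuous_star).smul continuous_const))
  have hTc : Convex ℝ T := by
    rintro s ⟨hs1, hs2⟩ t ⟨ht1, ht2⟩ α β hα hβ hαβ
    have key : ∀ s t : ℂ, x + (α • s + β • t) • y = α • (x + s • y) + β • (x + t • y) := by
      intro s t
      rw [smul_add, smul_add, add_smul]
      have : α • x + β • x = x := by rw [← add_smul, hαβ, one_smul]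
      nth_rewrite 1 [← this]
      rw [smul_assoc, smul_assoc]
      abel
    refine ⟨?_, ?_⟩
    · rw [key]
      exact hc hs1 ht1 hα hβ hαβ
    · have e : star (α • s + β • t) = α • star s + β • star t := by
        simp [star_add]
      rw [e, key]
      exact hc hs2 ht2 hα hβ hαβ
  have hIT : I ∈ T := by
    refine ⟨by rw [hzx]; exact hz, ?_⟩
    have : star I = -I := Complex.conj_I
    rw [this, hwx]
    exact hw
  have h0T : (0 : ℂ) ∈ T := by
    have h1 : x ∈ Ω := by
      have := hc hz hw (by norm_num : (0 : ℝ) ≤ 1 / 2) (by norm_num : (0 : ℝ) ≤ 1 / 2) (by norm_num)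
      rw [← smul_add] at this
      have e : ((1 / 2 : ℝ)) • (z + star w) = x := by
        rw [hx, ← Complex.coe_smul]
        norm_num
      rwa [e] at this
    refine ⟨by simpa using h1, by simpa using h1⟩
  have hmain := one_var hTo hTc h0T (φ := fun t => Q ((x, star x) + t • (y, star y))) ?_ ?_ I hIT
  · have e : (x, star x) + I • (y, star y) = (z, w) := by
      ext1
      · exact hzx
      · show star x + I • star y = w
        have := congrArg star hwx
        rw [star_star, star_add x, star_smul (-I) y] at this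
        have h2 : star (-I) = I := by
          show (starRingEnd ℂ) (-I) = I
          rw [map_neg, Complex.conj_I, neg_neg]
        rwa [h2] at this
    rwa [e] at hmain
  · intro t ht
    apply hQ
    refine ⟨ht.1, ?_⟩
    show star (star x + t • star y) ∈ Ω
    rw [star_add, star_star, star_smul, star_star]
    exact ht.2
  · intro s hs
    have e : (x, star x) + (s : ℂ) • (y, star y) = (x + (s : ℂ) • y, star (x + (s : ℂ) • y)) := by
      ext1
      · rfl
      · show star x + (s : ℂ) • star y = star (x + (s : ℂ) • y)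
        have h3 : star ((s : ℂ) • y) = (s : ℂ) • star y := by
          rw [star_smul (s : ℂ) y]
          congr 1
          exact Complex.conj_ofReal s
        rw [star_add, h3]
    show Q ((x, star x) + (s : ℂ) • (y, star y)) = 0
    rw [e]
    exact h0 _ hs.1

end polar

theorem exists_det_ne {S : Type} {m : ℕ} (v : Fin m → S → ℂ) (h : LinearIndependent ℂ v) :
    ∃ w : Fin m → S, (Matrix.of fun i j => v i (w j)).det ≠ 0 := by
  let e : S → (Fin m → ℂ) := fun s i => v i s
  have hspan : Submodule.span ℂ (Set.range e) = ⊤ := by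
    by_contra hne
    obtain ⟨f, hf, hle⟩ := Submodule.exists_le_ker_of_lt_top _ (lt_top_iff_ne_top.2 hne)
    apply hf
    let c : Fin m → ℂ := fun i => f (Pi.single i 1)
    have hfc : ∀ x : Fin m → ℂ, f x = ∑ i, c i * x i := by
      intro x
      have : x = ∑ i, x i • (Pi.single i (1 : ℂ) : Fin m → ℂ) := by
        funext j
        simp [Finset.sum_apply, Pi.single_apply]
      conv_lhs => rw [this]
      rw [map_sum]
      exact Finset.sum_congr rfl (fun i _ => by rw [map_smul, smul_eq_mul, mul_comm])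
    have hc : ∑ i, c i • v i = 0 := by
      funext s
      have h1 : e s ∈ LinearMap.ker f := hle (Submodule.subset_span ⟨s, rfl⟩)
      have h2 : f (e s) = 0 := h1
      rw [hfc] at h2
      rw [Finset.sum_apply]
      exact h2
    have h3 := Fintype.linearIndependent_iff.1 h c hc
    ext i
    simp only [LinearMap.coe_comp, LinearMap.coe_single, Function.comp_apply, LinearMap.zero_comp, LinearMap.zero_apply]
    exact h3 i
  obtain ⟨f, hf1, hf2, hf3⟩ := Submodule.exists_fun_fin_finrank_span_eq ℂ (Set.range e)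
  have hfin : Module.finrank ℂ (Submodule.span ℂ (Set.range e)) = m := by
    rw [hspan, finrank_top, Module.finrank_fin_fun]
  have hcast : ∀ j : Fin m, ∃ s, e s = f (Fin.cast hfin.symm j) := fun j => hf1 _
  choose w hw using hcast
  refine ⟨w, ?_⟩
  have hli : LinearIndependent ℂ (fun j : Fin m => e (w j)) := by
    have : (fun j : Fin m => e (w j)) = f ∘ (Fin.cast hfin.symm) := funext hw
    rw [this]
    exact hf3.comp _ (Fin.cast_injective _)
  have h4 : IsUnit (Matrix.of fun j i => e (w j) i) := by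
    rw [← Matrix.linearIndependent_rows_iff_isUnit]
    exact hli
  rw [Matrix.isUnit_iff_isUnit_det, isUnit_iff_ne_zero] at h4
  rw [← Matrix.det_transpose]
  exact h4

/-- more unknowns than equations -/
theorem exists_ker {ι : Type} [Fintype ι] {m : ℕ} (hm : Fintype.card ι < m) (A : ι → Fin m → ℂ) :
    ∃ c : Fin m → ℂ, c ≠ 0 ∧ ∀ i, ∑ j, c j * A i j = 0 := by
  let L : (Fin m → ℂ) →ₗ[ℂ] (ι → ℂ) := LinearMap.pi (fun i => ∑ j, (A i j) • LinearMap.proj j)
  have h := LinearMap.ker_ne_bot_of_finrank_lt (f := L) (by simpa using hm)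
  obtain ⟨c, hc, hne⟩ := Submodule.exists_mem_ne_zero_of_ne_bot h
  refine ⟨c, hne, fun i => ?_⟩
  have h1 : L c i = 0 := congrFun hc i
  simp only [L, LinearMap.pi_apply, LinearMap.sum_apply, LinearMap.smul_apply, LinearMap.proj_apply, smul_eq_mul] at h1
  rw [← h1]
  exact Finset.sum_congr rfl (fun j _ => mul_comm _ _)

theorem det_zero_of {m : ℕ} {A : Matrix (Fin m) (Fin m) ℂ} (c : Fin m → ℂ) (hc : c ≠ 0)
    (h : ∀ i, ∑ j, c j * A i j = 0) : A.det = 0 := by
  rw [← Matrix.exists_mulVec_eq_zero_iff]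
  refine ⟨c, hc, ?_⟩
  funext i
  rw [Matrix.mulVec, dotProduct]
  show ∑ j, A i j * c j = 0
  rw [← h i]
  exact Finset.sum_congr rfl (fun j _ => mul_comm _ _)

end Pool.Agent.H1.Herm
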