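import Mathlib

set_option autoImplicit false

namespace Pool.Agent.H1.Herm

/-- `RankLE f N`: the real-valued function `f` on `ℂᵐ` has a representation
`f z = ∑ j, ε j * |g j z|²` of length at most `N`, with `ε j = 1` or `ε j = -1` and each `g j`
holomorphic (complex-analytic) on all of `ℂᵐ`. So `RankLE f N` says that `rank f ≤ N`. -/
def RankLE {m : ℕ} (f : (Fin m → ℂ) → ℝ) (N : ℕ) : Prop :=
  ∃ M ≤ N, ∃ (ε : Fin M → ℝ) (g : Fin M → (Fin m → ℂ) → ℂ),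
    (∀ j, ε j = 1 ∨ ε j = -1) ∧ (∀ j, AnalyticOnNhd ℂ (g j) Set.univ) ∧
    ∀ z, f z = ∑ j, ε j * ‖g j z‖ ^ 2

end Pool.Agent.H1.Herm
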