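import Pool.Agent.H1.HermA
import Pool.Agent.H1.HermDefs

set_option autoImplicit false
set_option linter.all false

namespace Pool.Agent.H1.Herm

open Complex Metric Set Topology Filter

theorem diff_det {m : ℕ} {M : ℂ → Matrix (Fin m) (Fin m) ℂ} {t : ℂ}
    (h : ∀ i j, DifferentiableAt ℂ (fun t => M t i j) t) : DifferentiableAt ℂ (fun t => (M t).det) t := by
  simp only [Matrix.det_apply']
  apply DifferentiableAt.fun_sum
  intro σ _
  apply DifferentiableAt.const_mul
  exact DifferentiableAt.fun_finsetProd (fun i _ => h _ _)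

variable {m k : ℕ}

theorem line_diff {g : (Fin m → ℂ) → ℂ} (hg : AnalyticOnNhd ℂ g univ) (x y : Fin m → ℂ) (t : ℂ) :
    DifferentiableAt ℂ (fun t : ℂ => g (x + t • y)) t := by
  have h1 := (hg (x + t • y) (mem_univ _)).differentiableAt
  exact DifferentiableAt.comp t h1 (by fun_prop)

theorem line_diff_conj {g : (Fin m → ℂ) → ℂ} (hg : AnalyticOnNhd ℂ g univ) (x y : Fin m → ℂ) (t : ℂ) :
    DifferentiableAt ℂ (fun t : ℂ => star (g (star (x + t • y)))) t := by
  have h1 := (line_diff hg (star x) (star y) (star t)).conj_conj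
  have h2 : star (star t) = t := star_star t
  have h3 : (starRingEnd ℂ) (star t) = t := h2
  rw [h3] at h1
  refine h1.congr_of_eventuallyEq (Eventually.of_forall (fun s => ?_))
  show star (g (star (x + s • y))) = (starRingEnd ℂ) (g (star x + ((starRingEnd ℂ) s) • star y))
  rw [star_add, star_smul s y]
  rfl

theorem hyp_det {p : (Fin (m + 1) → ℂ) → ℝ}
    (hH : ∀ φ : (Fin m → ℂ) →ᵃ[ℂ] (Fin (m + 1) → ℂ), Function.Injective φ → RankLE (p ∘ φ) k)
    {a : Fin (m + 1) → ℂ} {r : ℝ} {P : (Fin (m + 1) → ℂ) × (Fin (m + 1) → ℂ) → ℂ}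
    (hP : SlD (dom (ball a r)) P) (hPp : ∀ z ∈ ball a r, P (z, star z) = p z)
    (l : (Fin (m + 1) → ℂ) →ₗ[ℂ] ℂ) (hl : l ≠ 0) (c : ℂ) (z w : Fin (k + 1) → (Fin (m + 1) → ℂ))
    (hz : ∀ i, l (z i) = c ∧ z i ∈ ball a r) (hw : ∀ i, l (w i) = c ∧ w i ∈ ball a r) :
    (Matrix.of fun i j => P (z i, star (w j))).det = 0 := by
  have hfr : Module.finrank ℂ (LinearMap.ker l) = m := by
    have h1 := LinearMap.finrank_range_add_finrank_ker l
    have h2 : LinearMap.range l = ⊤ := LinearMap.range_eq_top.2 (LinearMap.surjective hl)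
    rw [h2, finrank_top, Module.finrank_self, Module.finrank_fin_fun] at h1
    omega
  let e : (Fin m → ℂ) ≃ₗ[ℂ] LinearMap.ker l := LinearEquiv.ofFinrankEq _ _ (by rw [hfr, Module.finrank_fin_fun])
  let L : (Fin m → ℂ) →ₗ[ℂ] (Fin (m + 1) → ℂ) := (LinearMap.ker l).subtype.comp e.toLinearMap
  have hLinj : Function.Injective L := (Subtype.val_injective).comp e.injective
  let φ : (Fin m → ℂ) →ᵃ[ℂ] (Fin (m + 1) → ℂ) :=
    { toFun := fun u => z 0 + L u
      linear := L
      map_vadd' := fun u v => by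
        simp only [vadd_eq_add, map_add]
        abel }
  have hφ : ∀ u, φ u = z 0 + L u := fun u => rfl
  have hφinj : Function.Injective φ := by
    intro u v huv
    rw [hφ, hφ] at huv
    exact hLinj (add_left_cancel huv)
  obtain ⟨M, hM, ε, g, hε, hg, hrep⟩ := hH φ hφinj
  have hLc : Continuous L := LinearMap.continuous_of_finiteDimensional L
  let Ω : Set (Fin m → ℂ) := {u | φ u ∈ ball a r}
  have hΩo : IsOpen Ω := isOpen_ball.preimage (continuous_const.add hLc)
  have hΩc : Convex ℝ Ω := by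
    intro u hu v hv α β hα hβ hαβ
    have e1 : φ (α • u + β • v) = α • φ u + β • φ v := by
      rw [hφ, hφ, hφ, map_add, LinearMap.map_smul_of_tower, LinearMap.map_smul_of_tower, smul_add, smul_add]
      have : α • z 0 + β • z 0 = z 0 := by rw [← add_smul, hαβ, one_smul]
      nth_rewrite 1 [← this]
      abel
    show φ _ ∈ ball a r
    rw [e1]
    exact (convex_ball a r) hu hv hα hβ hαβ
  have key : ∀ u ∈ Ω, ∀ v ∈ Ω, P (φ u, star (φ v)) = ∑ j, (ε j : ℂ) * g j u * star (g j v) := by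
    intro u hu v hv
    have hpol := polar hΩo hΩc (Q := fun q => P (φ q.1, star (φ (star q.2))) -
      ∑ j, (ε j : ℂ) * g j q.1 * star (g j (star q.2))) ?_ ?_ (q := (u, star v)) ⟨hu, by
        show star (star v) ∈ Ω
        rwa [star_star]⟩
    · simp only [star_star] at hpol
      exact sub_eq_zero.1 hpol
    · rintro ⟨x1, x2⟩ ⟨y1, y2⟩ t ht
      apply DifferentiableAt.fun_sub
      · have h1 := hP (φ x1, star (φ (star x2))) (L y1, star (L (star y2))) t
        have e1 : ∀ s : ℂ, φ (x1 + s • y1) = φ x1 + s • L y1 := by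
          intro s
          rw [hφ, hφ, map_add, map_smul, add_assoc]
        have e2 : ∀ s : ℂ, star (φ (star (x2 + s • y2))) = star (φ (star x2)) + s • star (L (star y2)) := by
          intro s
          rw [hφ, hφ, star_add x2, star_smul s y2, map_add, map_smul, star_add, star_add, star_add,
            star_smul (star s), star_star, add_assoc]
        have h2 := h1 (by
          refine ⟨?_, ?_⟩
          · show φ x1 + t • L y1 ∈ ball a r
            rw [← e1]
            exact ht.1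
          · show star (star (φ (star x2)) + t • star (L (star y2))) ∈ ball a r
            rw [← e2, star_star]
            exact ht.2)
        refine h2.congr_of_eventuallyEq (Eventually.of_forall (fun s => ?_))
        show P (φ (x1 + s • y1), star (φ (star (x2 + s • y2)))) = _
        rw [e1, e2]
        rfl
      · apply DifferentiableAt.fun_sum
        intro j _
        apply DifferentiableAt.fun_mul
        · apply DifferentiableAt.const_mul
          exact line_diff (hg j) x1 y1 t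
        · exact line_diff_conj (hg j) x2 y2 t
    · intro u hu
      simp only [star_star]
      rw [hPp _ hu, sub_eq_zero]
      have h1 : p (φ u) = ∑ j, ε j * ‖g j u‖ ^ 2 := hrep u
      rw [h1]
      push_cast
      apply Finset.sum_congr rfl
      intro j _
      rw [mul_assoc]
      congr 1
      have := Complex.mul_conj' (g j u)
      exact this.symm
  have hpre : ∀ x : Fin (m + 1) → ℂ, l x = c → ∃ u, φ u = x := by
    intro x hx
    have hmem : x - z 0 ∈ LinearMap.ker l := by
      rw [LinearMap.mem_ker, map_sub, hx, (hz 0).1, sub_self]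
    refine ⟨e.symm ⟨x - z 0, hmem⟩, ?_⟩
    rw [hφ]
    show z 0 + ((e (e.symm ⟨x - z 0, hmem⟩) : LinearMap.ker l) : Fin (m + 1) → ℂ) = x
    rw [e.apply_symm_apply]
    simp
  choose u hu using fun i => hpre (z i) (hz i).1
  choose v hv using fun i => hpre (w i) (hw i).1
  obtain ⟨d, hd, hd2⟩ := exists_ker (ι := Fin M) (m := k + 1) (by rw [Fintype.card_fin]; omega)
    (fun l j => star (g l (v j)))
  apply det_zero_of d hd
  intro i
  have h1 : ∀ j, P (z i, star (w j)) = ∑ l, (ε l : ℂ) * g l (u i) * star (g l (v j)) := by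
    intro j
    rw [← hu, ← hv]
    exact key _ (by show φ (u i) ∈ ball a r; rw [hu]; exact (hz i).2) _ (by show φ (v j) ∈ ball a r; rw [hv]; exact (hw j).2)
  show ∑ j, d j * P (z i, star (w j)) = 0
  simp only [h1, Finset.mul_sum]
  rw [Finset.sum_comm]
  apply Finset.sum_eq_zero
  intro l _
  have h2 : ∀ j, d j * ((ε l : ℂ) * g l (u i) * star (g l (v j))) = ((ε l : ℂ) * g l (u i)) * (d j * star (g l (v j))) :=
    fun j => by ring
  simp only [h2]
  rw [← Finset.mul_sum, hd2, mul_zero]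

/-- polarisation in the hyperplane -/
theorem pair_det {p : (Fin (m + 1) → ℂ) → ℝ}
    (hH : ∀ φ : (Fin m → ℂ) →ᵃ[ℂ] (Fin (m + 1) → ℂ), Function.Injective φ → RankLE (p ∘ φ) k)
    {a : Fin (m + 1) → ℂ} {r : ℝ} (hr : 0 < r) {P : (Fin (m + 1) → ℂ) × (Fin (m + 1) → ℂ) → ℂ}
    (hP : SlD (dom (ball a r)) P) (hPp : ∀ z ∈ ball a r, P (z, star z) = p z)
    (l : ℂ → (Fin (m + 1) → ℂ) →ₗ[ℂ] ℂ) (hl : ∀ s, l s ≠ 0) (c : ℂ → ℂ)
    (z w y x : Fin (k + 1) → (Fin (m + 1) → ℂ))
    (hz : ∀ i, z i ∈ ball a (r / 8)) (hw : ∀ i, w i ∈ ball a (r / 8))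
    (hy : ∀ i, ‖y i‖ ≤ r / 4) (hx : ∀ i, ‖x i‖ ≤ r / 4)
    (hlz : ∀ s i, l s (z i + s • y i) = c s) (hlw : ∀ s i, l s (w i + (s - 1) • x i) = c s) :
    (Matrix.of fun i j => P (z i, star (w j))).det = 0 := by
  have hb1 : ∀ (s : ℂ), ‖s‖ < 3 / 2 → ∀ i, z i + s • y i ∈ ball a r := by
    intro s hs i
    rw [mem_ball, dist_eq_norm]
    have h1 : ‖z i - a‖ < r / 8 := by rw [← dist_eq_norm]; exact hz i
    calc ‖z i + s • y i - a‖ = ‖(z i - a) + s • y i‖ := by congr 1; abel
      _ ≤ ‖z i - a‖ + ‖s • y i‖ := norm_add_le _ _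
      _ = ‖z i - a‖ + ‖s‖ * ‖y i‖ := by rw [norm_smul]
      _ < r := by nlinarith [norm_nonneg s, norm_nonneg (y i), hy i]
  have hb2 : ∀ (s : ℂ), ‖s‖ < 3 / 2 → ∀ i, w i + (s - 1) • x i ∈ ball a r := by
    intro s hs i
    rw [mem_ball, dist_eq_norm]
    have h1 : ‖w i - a‖ < r / 8 := by rw [← dist_eq_norm]; exact hw i
    have h2 : ‖s - 1‖ < 5 / 2 := by
      calc ‖s - 1‖ ≤ ‖s‖ + ‖(1 : ℂ)‖ := norm_sub_le _ _
        _ < 5 / 2 := by rw [norm_one]; linarith
    calc ‖w i + (s - 1) • x i - a‖ = ‖(w i - a) + (s - 1) • x i‖ := by congr 1; abel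
      _ ≤ ‖w i - a‖ + ‖(s - 1) • x i‖ := norm_add_le _ _
      _ = ‖w i - a‖ + ‖s - 1‖ * ‖x i‖ := by rw [norm_smul]
      _ < r := by nlinarith [norm_nonneg (s - 1), norm_nonneg (x i), hx i]
  have hpol := polar (E := ℂ) (Ω := ball (0 : ℂ) (3 / 2)) isOpen_ball (convex_ball _ _)
    (Q := fun q => (Matrix.of fun i j => P (z i + q.1 • y i, star (w j + (star q.2 - 1) • x j))).det) ?_ ?_
    (q := ((0 : ℂ), (1 : ℂ))) ?_
  · simpa using hpol
  · rintro ⟨s1, s2⟩ ⟨t1, t2⟩ t ht
    apply diff_det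
    intro i j
    have h1 := hP (z i + s1 • y i, star (w j) + (s2 - 1) • star (x j)) (t1 • y i, t2 • star (x j)) t
    have e1 : ∀ s : ℂ, z i + (s1 + s • t1) • y i = z i + s1 • y i + s • (t1 • y i) := by
      intro s
      rw [add_smul, smul_assoc, add_assoc]
    have e2 : ∀ s : ℂ, star (w j + (star (s2 + s • t2) - 1) • x j) =
        star (w j) + (s2 - 1) • star (x j) + s • (t2 • star (x j)) := by
      intro s
      rw [star_add, star_smul, star_sub, star_star, star_one, smul_smul, add_assoc, ← add_smul]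
      congr 2
      rw [smul_eq_mul]
      ring
    have h2 := h1 (by
      refine ⟨?_, ?_⟩
      · show z i + s1 • y i + t • (t1 • y i) ∈ ball a r
        rw [← e1]
        exact hb1 _ (by simpa using ht.1) i
      · show star (star (w j) + (s2 - 1) • star (x j) + t • (t2 • star (x j))) ∈ ball a r
        rw [← e2, star_star]
        exact hb2 _ (by simpa using ht.2) j)
    refine h2.congr_of_eventuallyEq (Eventually.of_forall (fun s => ?_))
    show P (z i + (s1 + s • t1) • y i, star (w j + (star (s2 + s • t2) - 1) • x j)) = _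
    rw [e1, e2]
    rfl
  · intro s hs
    have hs' : ‖s‖ < 3 / 2 := by simpa using hs
    simp only [star_star]
    exact hyp_det hH hP hPp (l s) (hl s) (c s) (fun i => z i + s • y i) (fun i => w i + (s - 1) • x i)
      (fun i => ⟨hlz s i, hb1 s hs' i⟩) (fun i => ⟨hlw s i, hb2 s hs' i⟩)
  · refine ⟨?_, ?_⟩
    · simp
    · show star (1 : ℂ) ∈ ball (0 : ℂ) (3 / 2)
      rw [star_one, mem_ball, dist_zero_right, norm_one]
      norm_num

theorem coord_det {p : (Fin (m + 1) → ℂ) → ℝ}
    (hH : ∀ φ : (Fin m → ℂ) →ᵃ[ℂ] (Fin (m + 1) → ℂ), Function.Injective φ → RankLE (p ∘ φ) k)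
    {a : Fin (m + 1) → ℂ} {r : ℝ} (hr : 0 < r) {P : (Fin (m + 1) → ℂ) × (Fin (m + 1) → ℂ) → ℂ}
    (hP : SlD (dom (ball a r)) P) (hPp : ∀ z ∈ ball a r, P (z, star z) = p z)
    (e e' : Fin (m + 1)) (b b' : ℂ)
    (z w : Fin (k + 1) → (Fin (m + 1) → ℂ))
    (hz : ∀ i, z i ∈ ball a (r / 8) ∧ z i e = b) (hw : ∀ i, w i ∈ ball a (r / 8) ∧ w i e' = b') :
    (Matrix.of fun i j => P (z i, star (w j))).det = 0 := by
  have hco : ∀ (x : Fin (m + 1) → ℂ), x ∈ ball a (r / 8) → ∀ i, ‖x i - a i‖ < r / 8 := by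
    intro x hx i
    have h1 : ‖x - a‖ < r / 8 := by rw [← dist_eq_norm]; exact hx
    exact (norm_le_pi_norm (x - a) i).trans_lt h1
  by_cases hee : e = e'
  · subst hee
    have hbb : ‖b' - b‖ ≤ r / 4 := by
      have h1 := hco _ (hz 0).1 e
      have h2 := hco _ (hw 0).1 e
      rw [(hz 0).2] at h1
      rw [(hw 0).2] at h2
      calc ‖b' - b‖ = ‖(b' - a e) - (b - a e)‖ := by congr 1; ring
        _ ≤ ‖b' - a e‖ + ‖b - a e‖ := norm_sub_le _ _
        _ ≤ r / 4 := by linarith
    have hnorm : ‖(Pi.single e (b' - b) : Fin (m + 1) → ℂ)‖ ≤ r / 4 := by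
      rw [pi_norm_le_iff_of_nonneg (by positivity)]
      intro i
      by_cases h : i = e
      · subst h; simpa using hbb
      · rw [Pi.single_eq_of_ne h, norm_zero]; positivity
    refine pair_det hH hr hP hPp (fun _ => LinearMap.proj e) (fun _ h => ?_) (fun s => b + s * (b' - b)) z w
      (fun _ => Pi.single e (b' - b)) (fun _ => Pi.single e (b' - b)) (fun i => (hz i).1) (fun i => (hw i).1)
      (fun _ => hnorm) (fun _ => hnorm) ?_ ?_
    · have := congrArg (fun f : (Fin (m + 1) → ℂ) →ₗ[ℂ] ℂ => f (Pi.single e 1)) h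
      simp at this
    · intro s i
      simp [(hz i).2]
    · intro s i
      simp [(hw i).2]
      ring
  · have hb : ∀ i, ‖z i e' - b'‖ ≤ r / 4 := by
      intro i
      have h1 := hco _ (hz i).1 e'
      have h2 := hco _ (hw 0).1 e'
      rw [(hw 0).2] at h2
      calc ‖z i e' - b'‖ = ‖(z i e' - a e') - (b' - a e')‖ := by congr 1; ring
        _ ≤ ‖z i e' - a e'‖ + ‖b' - a e'‖ := norm_sub_le _ _
        _ ≤ r / 4 := by linarith
    have hb' : ∀ i, ‖w i e - b‖ ≤ r / 4 := by
      intro i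
      have h1 := hco _ (hw i).1 e
      have h2 := hco _ (hz 0).1 e
      rw [(hz 0).2] at h2
      calc ‖w i e - b‖ = ‖(w i e - a e) - (b - a e)‖ := by congr 1; ring
        _ ≤ ‖w i e - a e‖ + ‖b - a e‖ := norm_sub_le _ _
        _ ≤ r / 4 := by linarith
    let v : ℂ → Fin (m + 1) → ℂ := fun t i => if i = e ∨ i = e' then t else 0
    have hv : ∀ t, ‖v t‖ ≤ ‖t‖ := by
      intro t
      rw [pi_norm_le_iff_of_nonneg (norm_nonneg _)]
      intro i
      show ‖if i = e ∨ i = e' then t else 0‖ ≤ _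
      split_ifs
      · exact le_rfl
      · rw [norm_zero]; exact norm_nonneg _
    have hve : ∀ t, v t e = t := fun t => if_pos (Or.inl rfl)
    have hve' : ∀ t, v t e' = t := fun t => if_pos (Or.inr rfl)
    refine pair_det hH hr hP hPp (fun s => (1 - s) • LinearMap.proj e + s • LinearMap.proj e') (fun s h => ?_)
      (fun s => (1 - s) * b + s * b') z w
      (fun i => v (-(z i e' - b'))) (fun i => v (w i e - b)) (fun i => (hz i).1) (fun i => (hw i).1)
      (fun i => (hv _).trans (by rw [norm_neg]; exact hb i)) (fun i => (hv _).trans (hb' i)) ?_ ?_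
    · have h1 := congrArg (fun f : (Fin (m + 1) → ℂ) →ₗ[ℂ] ℂ => f (Pi.single e 1)) h
      have h2 := congrArg (fun f : (Fin (m + 1) → ℂ) →ₗ[ℂ] ℂ => f (Pi.single e' 1)) h
      simp [Pi.single_eq_of_ne hee, Pi.single_eq_of_ne (Ne.symm hee)] at h1 h2
      rw [h2] at h1
      simp at h1
    · intro s i
      simp only [LinearMap.add_apply, LinearMap.smul_apply, LinearMap.proj_apply, Pi.add_apply, Pi.smul_apply,
        smul_eq_mul, hve, hve', (hz i).2]
      ring
    · intro s i
      simp only [LinearMap.add_apply, LinearMap.smul_apply, LinearMap.proj_apply, Pi.add_apply, Pi.smul_apply,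
        smul_eq_mul, hve, hve', (hw i).2]
      ring

end Pool.Agent.H1.Herm
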