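import Pool.Agent.H1.HermB

set_option autoImplicit false
set_option linter.all false

namespace Pool.Agent.H1.Herm

open Complex Metric Set Topology Filter

variable {n : ℕ}

def DEP (𝓕 : Set ((Fin n → ℂ) → ℂ)) (S : Set (Fin n → ℂ)) (K : ℕ) : Prop :=
  ∀ z : Fin (K + 1) → (Fin n → ℂ), (∀ i, z i ∈ S) → ∃ c : Fin (K + 1) → ℂ, c ≠ 0 ∧ ∀ f ∈ 𝓕, ∑ i, c i * f (z i) = 0

theorem dep_span {𝓕 : Set ((Fin n → ℂ) → ℂ)} {S : Set (Fin n → ℂ)} {K : ℕ} (h : DEP 𝓕 S K)
    (z : Fin (K + 1) → (Fin n → ℂ)) (hz : ∀ i, z i ∈ S) : ∃ c : Fin (K + 1) → ℂ, c ≠ 0 ∧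
      ∀ f ∈ Submodule.span ℂ 𝓕, ∑ i, c i * f (z i) = 0 := by
  obtain ⟨c, hc, h1⟩ := h z hz
  refine ⟨c, hc, fun f hf => ?_⟩
  induction hf using Submodule.span_induction with
  | mem f hf => exact h1 f hf
  | zero => simp
  | add f g _ _ h2 h3 =>
    have : ∀ i, c i * (f + g) (z i) = c i * f (z i) + c i * g (z i) := fun i => by
      rw [Pi.add_apply]; ring
    rw [Finset.sum_congr rfl (fun i _ => this i), Finset.sum_add_distrib, h2, h3, add_zero]
  | smul t f _ h2 =>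
    have : ∀ i, c i * (t • f) (z i) = t * (c i * f (z i)) := fun i => by
      rw [Pi.smul_apply, smul_eq_mul]; ring
    rw [Finset.sum_congr rfl (fun i _ => this i), ← Finset.mul_sum, h2, mul_zero]

theorem minor {𝓕 : Set ((Fin n → ℂ) → ℂ)} {S : Set (Fin n → ℂ)} {K : ℕ} (h : DEP 𝓕 S K)
    (f : Fin (K + 1) → ((Fin n → ℂ) → ℂ)) (hf : ∀ i, f i ∈ Submodule.span ℂ 𝓕)
    (z : Fin (K + 1) → (Fin n → ℂ)) (hz : ∀ i, z i ∈ S) :
    (Matrix.of fun i j => f i (z j)).det = 0 := by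
  obtain ⟨c, hc, h1⟩ := dep_span h z hz
  exact det_zero_of c hc (fun i => h1 (f i) (hf i))

theorem snoc_det {r : ℕ} (f : Fin r → ((Fin n → ℂ) → ℂ)) (g : (Fin n → ℂ) → ℂ) (z : Fin r → (Fin n → ℂ))
    (y : Fin n → ℂ) (hg : ∀ j, g (z j) = 0) :
    (Matrix.of fun i j : Fin (r + 1) => (Fin.snoc f g : Fin (r + 1) → ((Fin n → ℂ) → ℂ)) i
      ((Fin.snoc z y : Fin (r + 1) → (Fin n → ℂ)) j)).det = (Matrix.of fun i j => f i (z j)).det * g y := by
  rw [Matrix.det_succ_row _ (Fin.last r), Fin.sum_univ_castSucc]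
  have h1 : ∀ j : Fin r, (Matrix.of fun i j : Fin (r + 1) => (Fin.snoc f g : Fin (r + 1) → ((Fin n → ℂ) → ℂ)) i
      ((Fin.snoc z y : Fin (r + 1) → (Fin n → ℂ)) j)) (Fin.last r) j.castSucc = 0 := by
    intro j
    simp [hg]
  have h2 : (Matrix.of fun i j : Fin (r + 1) => (Fin.snoc f g : Fin (r + 1) → ((Fin n → ℂ) → ℂ)) i
      ((Fin.snoc z y : Fin (r + 1) → (Fin n → ℂ)) j)) (Fin.last r) (Fin.last r) = g y := by
    simp
  have h3 : (Matrix.of fun i j : Fin (r + 1) => (Fin.snoc f g : Fin (r + 1) → ((Fin n → ℂ) → ℂ)) i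
      ((Fin.snoc z y : Fin (r + 1) → (Fin n → ℂ)) j)).submatrix (Fin.last r).succAbove (Fin.last r).succAbove =
      Matrix.of fun i j => f i (z j) := by
    ext i j
    simp
  rw [h2, h3, Finset.sum_eq_zero (fun j _ => by rw [h1]; ring), zero_add]
  have h4 : ((-1 : ℂ)) ^ ((Fin.last r : ℕ) + (Fin.last r : ℕ)) = 1 := by
    rw [← two_mul, pow_mul]; norm_num
  rw [h4]
  ring

theorem nat_step {Q : ℕ → Prop} (h0 : Q 0) {K : ℕ} (hK : ¬ Q (K + 1)) : ∃ r ≤ K, Q r ∧ ¬ Q (r + 1) := by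
  by_contra hcon
  push Not at hcon
  have : ∀ r, r ≤ K + 1 → Q r := by
    intro r
    induction r with
    | zero => intro _; exact h0
    | succ r ih => intro hr; exact hcon r (by omega) (ih (by omega))
  exact hK (this _ le_rfl)

theorem sep_of_dep {𝓕 : Set ((Fin n → ℂ) → ℂ)} {S : Set (Fin n → ℂ)} {K : ℕ} (h : DEP 𝓕 S K) :
    ∃ Z : Finset (Fin n → ℂ), (∀ z ∈ Z, z ∈ S) ∧ Z.card ≤ K ∧
      ∀ f ∈ Submodule.span ℂ 𝓕, (∀ z ∈ Z, f z = 0) → ∀ y ∈ S, f y = 0 := by
  classical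
  let Q : ℕ → Prop := fun r => ∃ (z : Fin r → (Fin n → ℂ)) (f : Fin r → ((Fin n → ℂ) → ℂ)),
    (∀ j, z j ∈ S) ∧ (∀ i, f i ∈ Submodule.span ℂ 𝓕) ∧ (Matrix.of fun i j => f i (z j)).det ≠ 0
  have h0 : Q 0 := ⟨Fin.elim0, Fin.elim0, fun j => j.elim0, fun j => j.elim0, by simp⟩
  have hK : ¬ Q (K + 1) := fun ⟨z, f, h1, h2, h3⟩ => h3 (minor h f h2 z h1)
  obtain ⟨r, hr, ⟨z, f, h1, h2, h3⟩, h4⟩ := nat_step h0 hK
  refine ⟨Finset.univ.image z, ?_, ?_, ?_⟩
  · intro x hx
    rw [Finset.mem_image] at hx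
    obtain ⟨j, _, rfl⟩ := hx
    exact h1 j
  · exact Finset.card_image_le.trans (by simpa using hr)
  · intro g hg hgz y hy
    by_contra hne
    apply h4
    refine ⟨Fin.snoc z y, Fin.snoc f g, ?_, ?_, ?_⟩
    · intro j
      refine Fin.lastCases ?_ (fun j => ?_) j
      · simpa using hy
      · simpa using h1 j
    · intro j
      refine Fin.lastCases ?_ (fun j => ?_) j
      · simpa using hg
      · simpa using h2 j
    · rw [snoc_det f g z y (fun j => hgz _ (Finset.mem_image_of_mem _ (Finset.mem_univ j)))]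
      exact mul_ne_zero h3 hne

theorem span_analytic {𝓕 : Set ((Fin n → ℂ) → ℂ)} {U : Set (Fin n → ℂ)}
    (hF : ∀ f ∈ 𝓕, AnalyticOnNhd ℂ f U) {f : (Fin n → ℂ) → ℂ} (hf : f ∈ Submodule.span ℂ 𝓕) :
    AnalyticOnNhd ℂ f U := by
  induction hf using Submodule.span_induction with
  | mem f hf => exact hF f hf
  | zero => exact analyticOnNhd_const
  | add f g _ _ h2 h3 => exact h2.add h3
  | smul t f _ h2 => exact (analyticOnNhd_const (v := t)).smul h2

theorem sep_ball {a : Fin n → ℂ} {ρ : ℝ} (hρ : 0 < ρ) {i0 i1 : Fin n} (hne : i0 ≠ i1)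
    {𝓕 : Set ((Fin n → ℂ) → ℂ)} (hF : ∀ f ∈ 𝓕, AnalyticOnNhd ℂ f (ball a ρ)) {K : ℕ}
    (hd0 : ∀ b, DEP 𝓕 {z | z ∈ ball a ρ ∧ z i0 = b} K) (hd1 : ∀ b, DEP 𝓕 {z | z ∈ ball a ρ ∧ z i1 = b} K) :
    ∃ Z : Finset (Fin n → ℂ), (∀ z ∈ Z, z ∈ ball a ρ) ∧ Z.card ≤ K * K ∧
      ∀ f ∈ Submodule.span ℂ 𝓕, (∀ z ∈ Z, f z = 0) → ∀ y ∈ ball a ρ, f y = 0 := by
  classical
  let Q : ℕ → Prop := fun r => ∃ b : ℂ, ‖b - a i1‖ < ρ ∧ ∃ (z : Fin r → (Fin n → ℂ)) (f : Fin r → ((Fin n → ℂ) → ℂ)),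
    (∀ j, z j ∈ ball a ρ ∧ z j i1 = b) ∧ (∀ i, f i ∈ Submodule.span ℂ 𝓕) ∧ (Matrix.of fun i j => f i (z j)).det ≠ 0
  have h0 : Q 0 := ⟨a i1, by simpa using hρ, Fin.elim0, Fin.elim0, fun j => j.elim0, fun j => j.elim0, by simp⟩
  have hK : ¬ Q (K + 1) := fun ⟨b, hb, z, f, h1, h2, h3⟩ => h3 (minor (hd1 b) f h2 z h1)
  obtain ⟨r, hr, ⟨b0, hb0, z, f, h1, h2, h3⟩, h4⟩ := nat_step h0 hK
  have hsl := fun j => sep_of_dep (hd0 (z j i0))
  choose Zj hZ1 hZ2 hZ3 using hsl
  refine ⟨Finset.univ.biUnion Zj, ?_, ?_, ?_⟩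
  · intro x hx
    rw [Finset.mem_biUnion] at hx
    obtain ⟨j, _, hx⟩ := hx
    exact (hZ1 j x hx).1
  · refine Finset.card_biUnion_le.trans ?_
    calc ∑ j : Fin r, (Zj j).card ≤ ∑ j : Fin r, K := Finset.sum_le_sum (fun j _ => hZ2 j)
      _ = r * K := by simp
      _ ≤ K * K := Nat.mul_le_mul_right _ hr
  · intro g hg hgz
    have hgl : ∀ j, ∀ y ∈ ball a ρ, y i0 = z j i0 → g y = 0 := by
      intro j y hy hyi
      exact hZ3 j g hg (fun x hx => hgz x (Finset.mem_biUnion.2 ⟨j, Finset.mem_univ _, hx⟩)) y ⟨hy, hyi⟩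
    have hupd : ∀ (x : Fin n → ℂ), x ∈ ball a ρ → ∀ b : ℂ, ‖b - a i1‖ < ρ → Function.update x i1 b ∈ ball a ρ := by
      intro x hx b hb
      rw [mem_ball, dist_pi_lt_iff hρ]
      intro i
      by_cases h : i = i1
      · subst h
        rw [Function.update_self, dist_eq_norm]
        exact hb
      · rw [Function.update_of_ne h]
        exact (dist_pi_lt_iff hρ).1 hx i
    let Dt : ℂ → ℂ := fun b => (Matrix.of fun i j => f i (Function.update (z j) i1 b)).det
    have hself : ∀ j, Function.update (z j) i1 b0 = z j := by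
      intro j
      rw [← (h1 j).2, Function.update_eq_self]
    have hDt0 : Dt b0 ≠ 0 := by
      show (Matrix.of fun i j => f i (Function.update (z j) i1 b0)).det ≠ 0
      simp only [hself]
      exact h3
    have hDtc : ContinuousAt Dt b0 := by
      apply DifferentiableAt.continuousAt (𝕜 := ℂ)
      apply diff_det
      intro i j
      show DifferentiableAt ℂ (fun b => f i (Function.update (z j) i1 b)) b0
      have e1 : (fun b => f i (Function.update (z j) i1 b)) = f i ∘ (fun b : ℂ => Function.update (z j) i1 b) := rfl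
      rw [e1]
      apply DifferentiableAt.comp
      · rw [hself]
        exact (span_analytic hF (h2 i) (z j) (h1 j).1).differentiableAt
      · rw [differentiableAt_pi]
        intro l
        by_cases h : l = i1
        · subst h
          simp only [Function.update_self]
          exact differentiableAt_id
        · simp only [Function.update_of_ne h]
          exact differentiableAt_const _
    have hDt1 : ∀ᶠ b in 𝓝 b0, Dt b ≠ 0 ∧ ‖b - a i1‖ < ρ := by
      apply (hDtc.eventually_ne hDt0).and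
      have : ContinuousAt (fun b : ℂ => ‖b - a i1‖) b0 := by fun_prop
      exact this.eventually_lt continuousAt_const hb0
    have hkey : ∀ y ∈ ball a ρ, Dt (y i1) ≠ 0 → g y = 0 := by
      intro y hy hD
      by_contra hne'
      apply h4
      have hyb : ‖y i1 - a i1‖ < ρ := by
        have := (dist_pi_lt_iff hρ).1 hy i1
        rwa [dist_eq_norm] at this
      refine ⟨y i1, hyb, Fin.snoc (fun j => Function.update (z j) i1 (y i1)) y, Fin.snoc f g, ?_, ?_, ?_⟩
      · intro j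
        refine Fin.lastCases ?_ (fun j => ?_) j
        · simpa using hy
        · simpa using hupd (z j) (h1 j).1 _ hyb
      · intro j
        refine Fin.lastCases ?_ (fun j => ?_) j
        · simpa using hg
        · simpa using h2 j
      · rw [snoc_det f g (fun j => Function.update (z j) i1 (y i1)) y (fun j => ?_)]
        · exact mul_ne_zero hD hne'
        · apply hgl j _ (hupd (z j) (h1 j).1 _ hyb)
          rw [Function.update_of_ne hne]
    let y0 : Fin n → ℂ := Function.update a i1 b0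
    have hy0 : y0 ∈ ball a ρ := hupd a (mem_ball_self hρ) b0 hb0
    have hev : g =ᶠ[𝓝 y0] 0 := by
      have h5 : Tendsto (fun y : Fin n → ℂ => y i1) (𝓝 y0) (𝓝 b0) := by
        have : ContinuousAt (fun y : Fin n → ℂ => y i1) y0 := (continuous_apply i1).continuousAt
        have e : y0 i1 = b0 := Function.update_self _ _ _
        rw [← e]
        exact this
      filter_upwards [h5.eventually hDt1, isOpen_ball.mem_nhds hy0] with y hy1 hy2
      exact hkey y hy2 hy1.1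
    exact (span_analytic hF hg).eqOn_zero_of_preconnected_of_eventuallyEq_zero (convex_ball a ρ).isPreconnected hy0 hev

theorem border {r : ℕ} {A : Matrix (Fin (r + 1)) (Fin (r + 1)) ℂ} (hA : A.det = 0)
    (hM : (Matrix.of fun i j : Fin r => A i.castSucc j.castSucc).det ≠ 0) (α : Fin r → ℂ)
    (hα : ∀ i : Fin r, ∑ j : Fin r, A i.castSucc j.castSucc * α j = A i.castSucc (Fin.last r)) :
    A (Fin.last r) (Fin.last r) = ∑ j : Fin r, A (Fin.last r) j.castSucc * α j := by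
  obtain ⟨y, hy, h1⟩ := Matrix.exists_vecMul_eq_zero_iff.2 hA
  have h2 : ∀ j, ∑ i, y i * A i j = 0 := fun j => congrFun h1 j
  have h3 : y (Fin.last r) * (A (Fin.last r) (Fin.last r) - ∑ j : Fin r, A (Fin.last r) j.castSucc * α j) = 0 := by
    have h4 : ∑ i, y i * (A i (Fin.last r) - ∑ j : Fin r, A i j.castSucc * α j) = 0 := by
      have h5 : ∀ i, y i * (A i (Fin.last r) - ∑ j : Fin r, A i j.castSucc * α j) =
          y i * A i (Fin.last r) - ∑ j : Fin r, (y i * A i j.castSucc) * α j := by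
        intro i
        rw [mul_sub, Finset.mul_sum]
        congr 1
        exact Finset.sum_congr rfl (fun j _ => by ring)
      rw [Finset.sum_congr rfl (fun i _ => h5 i), Finset.sum_sub_distrib, h2, Finset.sum_comm, zero_sub, neg_eq_zero]
      apply Finset.sum_eq_zero
      intro j _
      rw [← Finset.sum_mul, h2, zero_mul]
    rw [Fin.sum_univ_castSucc] at h4
    have h6 : ∀ i : Fin r, y i.castSucc * (A i.castSucc (Fin.last r) - ∑ j : Fin r, A i.castSucc j.castSucc * α j) = 0 := by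
      intro i
      rw [hα, sub_self, mul_zero]
    rw [Finset.sum_eq_zero (fun i _ => h6 i), zero_add] at h4
    exact h4
  rcases mul_eq_zero.1 h3 with h4 | h4
  · exfalso
    apply hM
    rw [← Matrix.exists_vecMul_eq_zero_iff]
    refine ⟨fun i => y i.castSucc, ?_, ?_⟩
    · intro h5
      apply hy
      funext i
      refine Fin.lastCases ?_ (fun j => ?_) i
      · exact h4
      · exact congrFun h5 j
    · funext j
      have := h2 j.castSucc
      rw [Fin.sum_univ_castSucc, h4, zero_mul, add_zero] at this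
      exact this
  · exact sub_eq_zero.1 h4

end Pool.Agent.H1.Herm
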