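import Pool.Agent.H1.HermX

set_option autoImplicit false
set_option linter.all false

namespace Pool.Agent.H1.Herm

open Complex Metric Set Topology Filter

section cont

variable {n : ℕ} {p : (Fin n → ℂ) → ℝ}

def Rep (p : (Fin n → ℂ) → ℝ) (x : Fin n → ℂ) (δ : ℝ) : Prop :=
  ∃ (s : ℕ) (F G : Fin s → ((Fin n → ℂ) → ℂ)), (∀ j, AnalyticOnNhd ℂ (F j) (ball x δ)) ∧
    (∀ j, AnalyticOnNhd ℂ (G j) (ball x δ)) ∧ ∀ z ∈ ball x δ, (p z : ℂ) = ∑ j, F j z * star (G j z)

theorem Rep.mono {x y : Fin n → ℂ} {δ δ' : ℝ} (h : Rep p x δ) (hs : ball y δ' ⊆ ball x δ) : Rep p y δ' := by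
  obtain ⟨s, F, G, h1, h2, h3⟩ := h
  exact ⟨s, F, G, fun j => (h1 j).mono hs, fun j => (h2 j).mono hs, fun z hz => h3 z (hs hz)⟩

theorem Rep.swap {x : Fin n → ℂ} {δ : ℝ} (h : Rep p x δ) : Rep p x δ := by
  obtain ⟨s, F, G, h1, h2, h3⟩ := h
  refine ⟨s, G, F, h2, h1, fun z hz => ?_⟩
  have := congrArg star (h3 z hz)
  rw [star_sum] at this
  have e : star (p z : ℂ) = p z := Complex.conj_ofReal _
  rw [e] at this
  rw [this]
  apply Finset.sum_congr rfl
  intro j _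
  rw [star_mul', star_star, mul_comm]

theorem uniform (h : ∀ x, ∃ δ > 0, Rep p x δ) (R : ℝ) : ∃ δ > 0, ∀ x ∈ closedBall (0 : Fin n → ℂ) R, Rep p x δ := by
  choose δ hδ hrep using h
  obtain ⟨ε, hε, h1⟩ := lebesgue_number_lemma_of_metric (isCompact_closedBall (0 : Fin n → ℂ) R)
    (c := fun x => ball x (δ x)) (fun x => isOpen_ball) (fun x _ => mem_iUnion.2 ⟨x, mem_ball_self (hδ x)⟩)
  refine ⟨ε, hε, fun x hx => ?_⟩
  obtain ⟨y, hy⟩ := h1 x hx
  exact (hrep y).mono hy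

theorem ldiff {g : (Fin n → ℂ) → ℂ} {x y : Fin n → ℂ} {t : ℂ} (hg : AnalyticAt ℂ g (x + t • y)) :
    DifferentiableAt ℂ (fun t : ℂ => g (x + t • y)) t :=
  DifferentiableAt.comp t hg.differentiableAt (by fun_prop)

theorem ldiff_conj {g : (Fin n → ℂ) → ℂ} {x y : Fin n → ℂ} {t : ℂ} (hg : AnalyticAt ℂ g (star (x + t • y))) :
    DifferentiableAt ℂ (fun t : ℂ => star (g (star (x + t • y)))) t := by
  rw [star_add, star_smul t y] at hg
  have h1 := (ldiff (x := star x) (y := star y) (t := star t) hg).conj_conj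
  have h3 : (starRingEnd ℂ) (star t) = t := star_star t
  rw [h3] at h1
  refine h1.congr_of_eventuallyEq (Eventually.of_forall (fun s => ?_))
  show star (g (star (x + s • y))) = (starRingEnd ℂ) (g (star x + ((starRingEnd ℂ) s) • star y))
  rw [star_add, star_smul s y]
  rfl

/-- two representations of the same function polarise -/
theorem polar_rep {O : Set (Fin n → ℂ)} (ho : IsOpen O) (hc : Convex ℝ O) {s s' : ℕ}
    {F G : Fin s → ((Fin n → ℂ) → ℂ)} {F' G' : Fin s' → ((Fin n → ℂ) → ℂ)}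
    (hF : ∀ j, AnalyticOnNhd ℂ (F j) O) (hG : ∀ j, AnalyticOnNhd ℂ (G j) O)
    (hF' : ∀ j, AnalyticOnNhd ℂ (F' j) O) (hG' : ∀ j, AnalyticOnNhd ℂ (G' j) O)
    (h : ∀ z ∈ O, ∑ j, F j z * star (G j z) = ∑ j, F' j z * star (G' j z)) {z w : Fin n → ℂ}
    (hz : z ∈ O) (hw : w ∈ O) : ∑ j, F j z * star (G j w) = ∑ j, F' j z * star (G' j w) := by
  have h1 := polar ho hc (Q := fun q => ∑ j, F j q.1 * star (G j (star q.2)) - ∑ j, F' j q.1 * star (G' j (star q.2)))
    ?_ ?_ (q := (z, star w)) ⟨hz, by show star (star w) ∈ _; rwa [star_star]⟩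
  · simp only [star_star] at h1
    exact sub_eq_zero.1 h1
  · rintro ⟨x1, x2⟩ ⟨y1, y2⟩ t ht
    apply DifferentiableAt.fun_sub
    · apply DifferentiableAt.fun_sum
      intro j _
      exact DifferentiableAt.fun_mul (ldiff (hF j _ ht.1)) (ldiff_conj (hG j _ ht.2))
    · apply DifferentiableAt.fun_sum
      intro j _
      exact DifferentiableAt.fun_mul (ldiff (hF' j _ ht.1)) (ldiff_conj (hG' j _ ht.2))
  · intro z hz
    simp only [star_star]
    rw [h z hz, sub_self]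

theorem comb_analytic {s : ℕ} {G : Fin s → ((Fin n → ℂ) → ℂ)} {U : Set (Fin n → ℂ)}
    (hG : ∀ j, AnalyticOnNhd ℂ (G j) U) (c : Fin s → ℂ) : AnalyticOnNhd ℂ (fun z => ∑ j, c j * G j z) U := by
  have : (fun z => ∑ j, c j * G j z) = ∑ j, (fun z => c j * G j z) := by
    funext z
    rw [Finset.sum_apply]
  rw [this]
  apply Finset.analyticOnNhd_sum
  intro j _
  exact analyticOnNhd_const.mul (hG j)

theorem Indep.open' {s : ℕ} {G : Fin s → ((Fin n → ℂ) → ℂ)} {U O : Set (Fin n → ℂ)} (hU : IsPreconnected U)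
    (hG : ∀ j, AnalyticOnNhd ℂ (G j) U) (h : Indep G U) (ho : IsOpen O) (hOU : O ⊆ U) {x : Fin n → ℂ} (hx : x ∈ O) :
    Indep G O := by
  intro c hc
  apply h c
  intro z hz
  exact (comb_analytic hG c).eqOn_zero_of_preconnected_of_eventuallyEq_zero hU (hOU hx)
    (by filter_upwards [ho.mem_nhds hx] with y hy using hc y hy) hz

theorem ext1 {t : ℝ} {s : ℕ} {F G : Fin s → ((Fin n → ℂ) → ℂ)}
    (hF : ∀ j, AnalyticOnNhd ℂ (F j) (ball 0 t)) (hG : ∀ j, AnalyticOnNhd ℂ (G j) (ball 0 t))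
    (hp : ∀ z ∈ ball (0 : Fin n → ℂ) t, (p z : ℂ) = ∑ j, F j z * star (G j z)) (hI : Indep G (ball 0 t))
    {x : Fin n → ℂ} (hx : x ∈ ball (0 : Fin n → ℂ) t) {δ : ℝ} (hδ : 0 < δ) (hr : Rep p x δ) :
    ∃ E : Fin s → ((Fin n → ℂ) → ℂ), (∀ j, AnalyticOnNhd ℂ (E j) (ball x δ)) ∧
      ∀ j, ∀ z ∈ ball (0 : Fin n → ℂ) t, z ∈ ball x δ → E j z = F j z := by
  obtain ⟨s', F', G', hF', hG', hp'⟩ := hr
  set O : Set (Fin n → ℂ) := ball 0 t ∩ ball x δ with hO
  have hOo : IsOpen O := isOpen_ball.inter isOpen_ball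
  have hOc : Convex ℝ O := (convex_ball _ _).inter (convex_ball _ _)
  have hxO : x ∈ O := ⟨hx, mem_ball_self hδ⟩
  have hIO : Indep G O := hI.open' (convex_ball _ _).isPreconnected hG hOo inter_subset_left hxO
  let v : Fin s → O → ℂ := fun j w => G j w.1
  have hv : LinearIndependent ℂ v := by
    rw [Fintype.linearIndependent_iff]
    intro c hc j
    have h1 := hIO c (fun z hz => by
      have := congrFun hc ⟨z, hz⟩
      rw [Finset.sum_apply] at this
      exact this)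
    exact congrFun h1 j
  obtain ⟨w, hw⟩ := exists_det_ne v hv
  set N : Matrix (Fin s) (Fin s) ℂ := Matrix.of fun j l => star (G j (w l).1) with hN
  have hNdet : IsUnit N.det := by
    have e : N = (Matrix.of fun i j => v i (w j)).map (starRingEnd ℂ) := rfl
    rw [e, ← RingHom.mapMatrix_apply, ← RingHom.map_det, isUnit_iff_ne_zero]
    intro h0
    exact hw ((map_eq_zero (starRingEnd ℂ)).1 h0)
  have hpol : ∀ z ∈ O, ∀ l, ∑ j, F j z * N j l = ∑ i, star (G' i (w l).1) * F' i z := by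
    intro z hz l
    have h1 := polar_rep hOo hOc (fun j => (hF j).mono inter_subset_left) (fun j => (hG j).mono inter_subset_left)
      (fun j => (hF' j).mono inter_subset_right) (fun j => (hG' j).mono inter_subset_right)
      (fun z hz => by rw [← hp z hz.1, hp' z hz.2]) hz (w l).2
    show ∑ j, F j z * star (G j (w l).1) = _
    rw [h1]
    exact Finset.sum_congr rfl (fun i _ => mul_comm _ _)
  refine ⟨fun j z => ∑ l, N⁻¹ l j * ∑ i, star (G' i (w l).1) * F' i z, ?_, ?_⟩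
  · intro j
    exact comb_analytic (G := fun l z => ∑ i, star (G' i (w l).1) * F' i z)
      (fun l => comb_analytic hF' (fun i => star (G' i (w l).1))) (fun l => N⁻¹ l j)
  · intro j z hz1 hz2
    have h2 : ∀ l, ∑ i, star (G' i (w l).1) * F' i z = ∑ i, F i z * N i l := fun l => (hpol z ⟨hz1, hz2⟩ l).symm
    simp only [h2, Finset.mul_sum]
    rw [Finset.sum_comm]
    have h3 : ∀ i, ∑ l, N⁻¹ l j * (F i z * N i l) = F i z * (N * N⁻¹) i j := by
      intro i
      rw [Matrix.mul_apply, Finset.mul_sum]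
      exact Finset.sum_congr rfl (fun l _ => by ring)
    simp only [h3]
    rw [Matrix.mul_nonsing_inv _ hNdet]
    simp [Matrix.one_apply]

theorem glue {ι : Type} (U : ι → Set (Fin n → ℂ)) (E : ι → (Fin n → ℂ) → ℂ)
    (hc : ∀ i j, ∀ z ∈ U i, z ∈ U j → E i z = E j z) : ∃ H : (Fin n → ℂ) → ℂ, ∀ i, ∀ z ∈ U i, H z = E i z := by
  classical
  refine ⟨fun z => if h : ∃ i, z ∈ U i then E h.choose z else 0, fun i z hz => ?_⟩
  have h : ∃ i, z ∈ U i := ⟨i, hz⟩
  simp only [dif_pos h]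
  exact hc _ _ z h.choose_spec hz

theorem glue_analytic {ι : Type} {U : ι → Set (Fin n → ℂ)} (ho : ∀ i, IsOpen (U i)) {E : ι → (Fin n → ℂ) → ℂ}
    (hE : ∀ i, AnalyticOnNhd ℂ (E i) (U i)) {H : (Fin n → ℂ) → ℂ} (hH : ∀ i, ∀ z ∈ U i, H z = E i z) {z : Fin n → ℂ}
    (hz : ∃ i, z ∈ U i) : AnalyticAt ℂ H z := by
  obtain ⟨i, hi⟩ := hz
  refine (hE i z hi).congr ?_
  filter_upwards [(ho i).mem_nhds hi] with y hy
  exact (hH i y hy).symm

theorem ext_step {t : ℝ} (ht : 0 < t) {s : ℕ} {F G : Fin s → ((Fin n → ℂ) → ℂ)}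
    (hF : ∀ j, AnalyticOnNhd ℂ (F j) (ball 0 t)) (hG : ∀ j, AnalyticOnNhd ℂ (G j) (ball 0 t))
    (hp : ∀ z ∈ ball (0 : Fin n → ℂ) t, (p z : ℂ) = ∑ j, F j z * star (G j z)) (hI : Indep G (ball 0 t))
    {δ : ℝ} (hδ : 0 < δ) (hr : ∀ x ∈ ball (0 : Fin n → ℂ) t, Rep p x δ) :
    ∃ E : Fin s → ((Fin n → ℂ) → ℂ), (∀ j, AnalyticOnNhd ℂ (E j) (ball 0 (t + δ / 2))) ∧
      ∀ j, ∀ z ∈ ball (0 : Fin n → ℂ) t, E j z = F j z := by
  have h1 := fun x : {x // x ∈ ball (0 : Fin n → ℂ) t} => ext1 hF hG hp hI x.2 hδ (hr x.1 x.2)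
  choose E hE1 hE2 using h1
  let U : Option {x // x ∈ ball (0 : Fin n → ℂ) t} → Set (Fin n → ℂ) := fun o => o.elim (ball 0 t) (fun x => ball x.1 (δ / 2))
  let EE : Fin s → Option {x // x ∈ ball (0 : Fin n → ℂ) t} → (Fin n → ℂ) → ℂ := fun j o => o.elim (F j) (fun x => E x j)
  have hUo : ∀ o, IsOpen (U o) := by
    rintro (_ | x)
    · exact isOpen_ball
    · exact isOpen_ball
  have hsub : ∀ x : {x // x ∈ ball (0 : Fin n → ℂ) t}, ball x.1 (δ / 2) ⊆ ball x.1 δ := fun x =>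
    ball_subset_ball (by linarith)
  have hEE : ∀ j o, AnalyticOnNhd ℂ (EE j o) (U o) := by
    rintro j (_ | x)
    · exact hF j
    · exact (hE1 x j).mono (hsub x)
  have hcomp : ∀ j o o', ∀ z ∈ U o, z ∈ U o' → EE j o z = EE j o' z := by
    rintro j (_ | x) (_ | y) z hz1 hz2
    · rfl
    · exact (hE2 y j z hz1 (hsub y hz2)).symm
    · exact hE2 x j z hz2 (hsub x hz1)
    · show E x j z = E y j z
      have hxy : dist x.1 y.1 < δ := by
        have e1 : dist z x.1 < δ / 2 := hz1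
        have e2 : dist z y.1 < δ / 2 := hz2
        calc dist x.1 y.1 ≤ dist x.1 z + dist z y.1 := dist_triangle _ _ _
          _ < δ := by rw [dist_comm x.1 z]; linarith
      have hev : E x j =ᶠ[𝓝 x.1] E y j := by
        filter_upwards [isOpen_ball.mem_nhds x.2, isOpen_ball.mem_nhds (mem_ball_self hδ : x.1 ∈ ball x.1 δ),
          isOpen_ball.mem_nhds (show x.1 ∈ ball y.1 δ from hxy)] with u hu1 hu2 hu3
        rw [hE2 x j u hu1 hu2, hE2 y j u hu1 hu3]
      have hW : IsPreconnected (ball x.1 δ ∩ ball y.1 δ) := ((convex_ball _ _).inter (convex_ball _ _)).isPreconnected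
      exact ((hE1 x j).mono inter_subset_left).eqOn_of_preconnected_of_eventuallyEq
        ((hE1 y j).mono inter_subset_right) hW ⟨mem_ball_self hδ, hxy⟩ hev ⟨hsub x hz1, hsub y hz2⟩
  choose H hH using fun j => glue U (EE j) (hcomp j)
  refine ⟨H, fun j z hz => ?_, fun j z hz => hH j none z hz⟩
  apply glue_analytic hUo (hEE j) (hH j)
  by_cases hzt : z ∈ ball (0 : Fin n → ℂ) t
  · exact ⟨none, hzt⟩
  · rw [mem_ball, dist_zero_right] at hz hzt
    push Not at hzt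
    have hzpos : 0 < ‖z‖ := lt_of_lt_of_le ht hzt
    obtain ⟨u, hu1, hu2⟩ : ∃ u, max 0 (‖z‖ - δ / 2) < u ∧ u < t :=
      exists_between (max_lt ht (by linarith))
    have hu0 : 0 < u := lt_of_le_of_lt (le_max_left _ _) hu1
    have hu3 : ‖z‖ - δ / 2 < u := lt_of_le_of_lt (le_max_right _ _) hu1
    let x : Fin n → ℂ := (u / ‖z‖) • z
    have hxn : ‖x‖ = u := by
      rw [norm_smul, Real.norm_of_nonneg (by positivity), div_mul_cancel₀ _ hzpos.ne']
    have hxb : x ∈ ball (0 : Fin n → ℂ) t := by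
      rw [mem_ball, dist_zero_right, hxn]
      exact hu2
    refine ⟨some ⟨x, hxb⟩, ?_⟩
    show dist z x < δ / 2
    rw [dist_eq_norm]
    have e : z - x = (1 - u / ‖z‖) • z := by rw [sub_smul, one_smul]
    have h5 : u / ‖z‖ ≤ 1 := by rw [div_le_one hzpos]; linarith
    rw [e, norm_smul, Real.norm_of_nonneg (by linarith), sub_mul, one_mul, div_mul_cancel₀ _ hzpos.ne']
    linarith

theorem real_identity {t t' : ℝ} (ht : 0 < t) (htt : t ≤ t') (hpa : AnalyticOnNhd ℝ p univ) {s : ℕ}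
    {F G : Fin s → ((Fin n → ℂ) → ℂ)}
    (hF : ∀ j, AnalyticOnNhd ℂ (F j) (ball 0 t')) (hG : ∀ j, AnalyticOnNhd ℂ (G j) (ball 0 t'))
    (hp : ∀ z ∈ ball (0 : Fin n → ℂ) t, (p z : ℂ) = ∑ j, F j z * star (G j z)) :
    ∀ z ∈ ball (0 : Fin n → ℂ) t', (p z : ℂ) = ∑ j, F j z * star (G j z) := by
  have h1 : AnalyticOnNhd ℝ (fun z => (p z : ℂ)) (ball (0 : Fin n → ℂ) t') := fun z _ =>
    AnalyticAt.comp' (Complex.ofRealCLM.analyticAt _) (hpa z (mem_univ _))
  have h2 : AnalyticOnNhd ℝ (fun z => ∑ j, F j z * star (G j z)) (ball (0 : Fin n → ℂ) t') := by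
    intro z hz
    have e : (fun z => ∑ j, F j z * star (G j z)) = ∑ j, (fun z => F j z * star (G j z)) := by
      funext z
      rw [Finset.sum_apply]
    rw [e]
    apply Finset.analyticAt_sum
    intro j _
    apply AnalyticAt.mul
    · exact (hF j z hz).restrictScalars
    · exact AnalyticAt.comp' (Complex.conjCLE.toContinuousLinearMap.analyticAt _) ((hG j z hz).restrictScalars)
  intro z hz
  refine h1.eqOn_of_preconnected_of_eventuallyEq h2 (convex_ball _ _).isPreconnected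
    (mem_ball_self (lt_of_lt_of_le ht htt)) ?_ hz
  filter_upwards [isOpen_ball.mem_nhds (mem_ball_self ht : (0 : Fin n → ℂ) ∈ ball 0 t)] with y hy
  exact hp y hy

theorem ext_ball (hpa : AnalyticOnNhd ℝ p univ) (hloc : ∀ x, ∃ δ > 0, Rep p x δ) {t0 : ℝ} (ht0 : 0 < t0) {s : ℕ}
    {F0 G0 : Fin s → ((Fin n → ℂ) → ℂ)}
    (hF0 : ∀ j, AnalyticOnNhd ℂ (F0 j) (ball 0 t0)) (hG0 : ∀ j, AnalyticOnNhd ℂ (G0 j) (ball 0 t0))
    (hp0 : ∀ z ∈ ball (0 : Fin n → ℂ) t0, (p z : ℂ) = ∑ j, F0 j z * star (G0 j z))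
    (hIF : Indep F0 (ball 0 t0)) (hIG : Indep G0 (ball 0 t0)) (R : ℝ) (hR : t0 ≤ R) :
    ∃ F G : Fin s → ((Fin n → ℂ) → ℂ), (∀ j, AnalyticOnNhd ℂ (F j) (ball 0 R)) ∧
      (∀ j, AnalyticOnNhd ℂ (G j) (ball 0 R)) ∧ (∀ j, ∀ z ∈ ball (0 : Fin n → ℂ) t0, F j z = F0 j z) ∧
      (∀ j, ∀ z ∈ ball (0 : Fin n → ℂ) t0, G j z = G0 j z) := by
  obtain ⟨δ, hδ, hrep⟩ := uniform hloc R
  have key : ∀ i : ℕ, ∃ F G : Fin s → ((Fin n → ℂ) → ℂ), (∀ j, AnalyticOnNhd ℂ (F j) (ball 0 (min (t0 + i * (δ / 2)) R))) ∧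
      (∀ j, AnalyticOnNhd ℂ (G j) (ball 0 (min (t0 + i * (δ / 2)) R))) ∧
      (∀ j, ∀ z ∈ ball (0 : Fin n → ℂ) t0, F j z = F0 j z) ∧
      (∀ j, ∀ z ∈ ball (0 : Fin n → ℂ) t0, G j z = G0 j z) := by
    intro i
    induction i with
    | zero =>
      refine ⟨F0, G0, ?_, ?_, fun _ _ _ => rfl, fun _ _ _ => rfl⟩
      · intro j
        exact (hF0 j).mono (ball_subset_ball ((min_le_left _ _).trans (by simp)))
      · intro j
        exact (hG0 j).mono (ball_subset_ball ((min_le_left _ _).trans (by simp)))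
    | succ i ih =>
      obtain ⟨F, G, hF, hG, hFF, hGG⟩ := ih
      set t := min (t0 + i * (δ / 2)) R with htdef
      have ht0t : t0 ≤ t := le_min (by have : 0 ≤ (i : ℝ) * (δ / 2) := by positivity
                                       linarith) hR
      have ht : 0 < t := lt_of_lt_of_le ht0 ht0t
      have htR : t ≤ R := min_le_right _ _
      have hsub0 : ball (0 : Fin n → ℂ) t0 ⊆ ball 0 t := ball_subset_ball ht0t
      have hpt : ∀ z ∈ ball (0 : Fin n → ℂ) t, (p z : ℂ) = ∑ j, F j z * star (G j z) := by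
        apply real_identity ht0 ht0t hpa hF hG
        intro z hz
        rw [hp0 z hz]
        exact Finset.sum_congr rfl (fun j _ => by rw [hFF j z hz, hGG j z hz])
      have hpt' : ∀ z ∈ ball (0 : Fin n → ℂ) t, (p z : ℂ) = ∑ j, G j z * star (F j z) := by
        intro z hz
        have := congrArg star (hpt z hz)
        rw [star_sum] at this
        have e : star (p z : ℂ) = p z := Complex.conj_ofReal _
        rw [e] at this
        rw [this]
        apply Finset.sum_congr rfl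
        intro j _
        rw [star_mul', star_star, mul_comm]
      have hIG' : Indep G (ball 0 t) := by
        intro c hc
        apply hIG c
        intro z hz
        rw [← hc z (hsub0 hz)]
        exact Finset.sum_congr rfl (fun j _ => by rw [hGG j z hz])
      have hIF' : Indep F (ball 0 t) := by
        intro c hc
        apply hIF c
        intro z hz
        rw [← hc z (hsub0 hz)]
        exact Finset.sum_congr rfl (fun j _ => by rw [hFF j z hz])
      have hrep' : ∀ x ∈ ball (0 : Fin n → ℂ) t, Rep p x δ := by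
        intro x hx
        apply hrep
        rw [mem_closedBall]
        exact (le_of_lt hx).trans htR
      obtain ⟨E, hE1, hE2⟩ := ext_step ht hF hG hpt hIG' hδ hrep'
      obtain ⟨E', hE1', hE2'⟩ := ext_step ht hG hF hpt' hIF' hδ hrep'
      have hle : min (t0 + ((i + 1 : ℕ) : ℝ) * (δ / 2)) R ≤ t + δ / 2 := by
        rw [htdef]
        push_cast
        rcases le_total (t0 + (i : ℝ) * (δ / 2)) R with h | h
        · rw [min_eq_left h]
          exact (min_le_left _ _).trans (by linarith)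
        · rw [min_eq_right h]
          exact (min_le_right _ _).trans (by linarith)
      refine ⟨E, E', fun j => (hE1 j).mono (ball_subset_ball hle), fun j => (hE1' j).mono (ball_subset_ball hle), ?_, ?_⟩
      · intro j z hz
        rw [hE2 j z (hsub0 hz), hFF j z hz]
      · intro j z hz
        rw [hE2' j z (hsub0 hz), hGG j z hz]
  obtain ⟨i, hi⟩ := exists_nat_gt ((R - t0) / (δ / 2))
  obtain ⟨F, G, h1, h2, h3, h4⟩ := key i
  have h5 : min (t0 + i * (δ / 2)) R = R := by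
    apply min_eq_right
    rw [div_lt_iff₀ (by positivity)] at hi
    linarith
  rw [h5] at h1 h2
  exact ⟨F, G, h1, h2, h3, h4⟩

theorem entire {t0 : ℝ} (ht0 : 0 < t0) {F0 : (Fin n → ℂ) → ℂ}
    (h : ∀ i : ℕ, ∃ F : (Fin n → ℂ) → ℂ, AnalyticOnNhd ℂ F (ball 0 (t0 + i)) ∧ ∀ z ∈ ball (0 : Fin n → ℂ) t0, F z = F0 z) :
    ∃ F : (Fin n → ℂ) → ℂ, AnalyticOnNhd ℂ F univ ∧ ∀ z ∈ ball (0 : Fin n → ℂ) t0, F z = F0 z := by
  choose E hE1 hE2 using h
  have hcomp : ∀ i j : ℕ, ∀ z ∈ ball (0 : Fin n → ℂ) (t0 + i), z ∈ ball (0 : Fin n → ℂ) (t0 + j) → E i z = E j z := by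
    intro i j z hz1 hz2
    have hpre : IsPreconnected (ball (0 : Fin n → ℂ) (t0 + i) ∩ ball 0 (t0 + j)) :=
      ((convex_ball _ _).inter (convex_ball _ _)).isPreconnected
    refine ((hE1 i).mono inter_subset_left).eqOn_of_preconnected_of_eventuallyEq
      ((hE1 j).mono inter_subset_right) hpre (z₀ := 0) ⟨mem_ball_self (by positivity), mem_ball_self (by positivity)⟩ ?_ ⟨hz1, hz2⟩
    filter_upwards [isOpen_ball.mem_nhds (mem_ball_self ht0 : (0 : Fin n → ℂ) ∈ ball 0 t0)] with y hy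
    rw [hE2 i y hy, hE2 j y hy]
  obtain ⟨H, hH⟩ := glue (fun i : ℕ => ball (0 : Fin n → ℂ) (t0 + i)) E hcomp
  refine ⟨H, fun z _ => ?_, fun z hz => ?_⟩
  · apply glue_analytic (fun i => isOpen_ball) hE1 hH
    obtain ⟨i, hi⟩ := exists_nat_gt ‖z‖
    refine ⟨i, ?_⟩
    rw [mem_ball, dist_zero_right]
    linarith
  · have hz0 : z ∈ ball (0 : Fin n → ℂ) (t0 + ((0 : ℕ) : ℝ)) := by simpa using hz
    rw [hH 0 z hz0, hE2 0 z hz]

end cont

theorem final {m k : ℕ} (hm : 1 ≤ m) {p : (Fin (m + 1) → ℂ) → ℝ} (hpa : AnalyticOnNhd ℝ p univ)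
    (hH : ∀ φ : (Fin m → ℂ) →ᵃ[ℂ] (Fin (m + 1) → ℂ), Function.Injective φ → RankLE (p ∘ φ) k) :
    RankLE p (2 * ((k * k) * (k * k))) := by
  have hloc : ∀ a, ∃ r : ℝ, 0 < r ∧ ∃ s ≤ (k * k) * (k * k), ∃ F G : Fin s → ((Fin (m + 1) → ℂ) → ℂ),
      (∀ j, AnalyticOnNhd ℂ (F j) (ball a (r / 8))) ∧ (∀ j, AnalyticOnNhd ℂ (G j) (ball a (r / 8))) ∧
      (∀ z ∈ ball a (r / 8), (p z : ℂ) = ∑ j, F j z * star (G j z)) ∧
      Indep F (ball a (r / 8)) ∧ Indep G (ball a (r / 8)) := by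
    intro a
    obtain ⟨r, hr, P, hP, hPp⟩ := exists_P (hpa a (mem_univ _))
    exact ⟨r, hr, local_rep hm hH hr hP hPp⟩
  have hloc' : ∀ x, ∃ δ > 0, Rep p x δ := by
    intro x
    obtain ⟨r, hr, s, _, F, G, h1, h2, h3, _, _⟩ := hloc x
    exact ⟨r / 8, by positivity, s, F, G, h1, h2, h3⟩
  obtain ⟨r, hr, s, hs, F0, G0, h1, h2, h3, h4, h5⟩ := hloc 0
  have ht0 : 0 < r / 8 := by positivity
  have hall := fun i : ℕ => ext_ball hpa hloc' ht0 h1 h2 h3 h4 h5 (r / 8 + i) (by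
    have : (0 : ℝ) ≤ i := Nat.cast_nonneg i
    linarith)
  choose FF GG g1 g2 g3 g4 using hall
  choose F hF1 hF2 using fun j => entire ht0 (F0 := F0 j) (fun i => ⟨FF i j, g1 i j, g3 i j⟩)
  choose G hG1 hG2 using fun j => entire ht0 (F0 := G0 j) (fun i => ⟨GG i j, g2 i j, g4 i j⟩)
  have hrepr : ∀ z, (p z : ℂ) = ∑ j, F j z * star (G j z) := by
    intro z
    apply real_identity (t := r / 8) (t' := max (r / 8) (‖z‖ + 1)) ht0 (le_max_left _ _) hpa
      (fun j => (hF1 j).mono (subset_univ _)) (fun j => (hG1 j).mono (subset_univ _))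
    · intro y hy
      rw [h3 y hy]
      exact Finset.sum_congr rfl (fun j _ => by rw [hF2 j y hy, hG2 j y hy])
    · rw [mem_ball, dist_zero_right]
      exact lt_of_lt_of_le (by linarith) (le_max_right _ _)
  refine ⟨s + s, by omega, Fin.append (fun _ => 1) (fun _ => -1),
    Fin.append (fun j z => (1 / 2 : ℂ) * (F j z + G j z)) (fun j z => (1 / 2 : ℂ) * (F j z - G j z)), ?_, ?_, ?_⟩
  · intro j
    refine Fin.addCases (fun i => ?_) (fun i => ?_) j
    · left; rw [Fin.append_left]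
    · right; rw [Fin.append_right]
  · intro j
    refine Fin.addCases (fun i => ?_) (fun i => ?_) j
    · rw [Fin.append_left]
      exact analyticOnNhd_const.mul ((hF1 i).add (hG1 i))
    · rw [Fin.append_right]
      exact analyticOnNhd_const.mul ((hF1 i).sub (hG1 i))
  · intro z
    rw [Fin.sum_univ_add]
    simp only [Fin.append_left, Fin.append_right]
    have h6 : p z = ∑ j, (F j z * star (G j z)).re := by
      have := congrArg Complex.re (hrepr z)
      rw [Complex.ofReal_re, Complex.re_sum] at this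
      exact this
    rw [h6, ← Finset.sum_add_distrib]
    apply Finset.sum_congr rfl
    intro j _
    have h7 : ∀ w : ℂ, ‖w‖ ^ 2 = w.re * w.re + w.im * w.im := fun w => by
      rw [← Complex.normSq_eq_norm_sq, Complex.normSq_apply]
    rw [norm_mul, norm_mul, mul_pow, mul_pow, h7 (F j z + G j z), h7 (F j z - G j z)]
    have h8 : ‖(1 / 2 : ℂ)‖ = 1 / 2 := by norm_num
    rw [h8]
    show (F j z * (starRingEnd ℂ) (G j z)).re = _
    rw [Complex.mul_re, Complex.conj_re, Complex.conj_im, Complex.add_re, Complex.add_im, Complex.sub_re, Complex.sub_im]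
    ring

end Pool.Agent.H1.Herm
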