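import Pool.Agent.H1.HermC

set_option autoImplicit false
set_option linter.all false

namespace Pool.Agent.H1.Herm

open Complex Metric Set Topology Filter

def Indep {n s : ℕ} (F : Fin s → ((Fin n → ℂ) → ℂ)) (U : Set (Fin n → ℂ)) : Prop :=
  ∀ c : Fin s → ℂ, (∀ z ∈ U, ∑ j, c j * F j z = 0) → c = 0

section

variable {m k : ℕ} {p : (Fin (m + 1) → ℂ) → ℝ} {a : Fin (m + 1) → ℂ} {r : ℝ}
  {P : (Fin (m + 1) → ℂ) × (Fin (m + 1) → ℂ) → ℂ}

theorem sld_of (hP : AnalyticOnNhd ℂ P (dom (ball a r))) : SlD (dom (ball a r)) P := by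
  intro x y t ht
  exact DifferentiableAt.comp t (hP _ ht).differentiableAt (by fun_prop)

theorem herm_symm (hP : AnalyticOnNhd ℂ P (dom (ball a r))) (hPp : ∀ z ∈ ball a r, P (z, star z) = p z)
    {z w : Fin (m + 1) → ℂ} (hz : z ∈ ball a r) (hw : w ∈ ball a r) :
    P (w, star z) = star (P (z, star w)) := by
  have h := polar isOpen_ball (convex_ball a r) (Q := fun q => P q - star (P (star q.2, star q.1))) ?_ ?_
    (q := (w, star z)) ⟨hw, by show star (star z) ∈ _; rwa [star_star]⟩
  · simp only [star_star] at h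
    exact sub_eq_zero.1 h
  · rintro ⟨x1, x2⟩ ⟨y1, y2⟩ t ht
    apply DifferentiableAt.fun_sub
    · exact sld_of hP _ _ _ ht
    · have h1 := sld_of hP (star x2, star x1) (star y2, star y1) (star t) (by
        refine ⟨?_, ?_⟩
        · show star x2 + star t • star y2 ∈ ball a r
          have := ht.2
          have e : star (x2 + t • y2) = star x2 + star t • star y2 := by rw [star_add, star_smul t y2]
          rw [← e]
          exact this
        · show star (star x1 + star t • star y1) ∈ ball a r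
          rw [star_add, star_smul, star_star, star_star, star_star]
          exact ht.1)
      have h2 := h1.conj_conj
      have h3 : (starRingEnd ℂ) (star t) = t := star_star t
      rw [h3] at h2
      refine h2.congr_of_eventuallyEq (Eventually.of_forall (fun s => ?_))
      show star (P (star (x2 + s • y2), star (x1 + s • y1))) = star (P (star x2 + star s • star y2, star x1 + star s • star y1))
      rw [star_add x2, star_smul s y2, star_add x1, star_smul s y1]
  · intro z hz
    simp only [star_star]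
    rw [hPp z hz]
    exact sub_eq_zero.2 (Complex.conj_ofReal _).symm

theorem sec_analytic (hP : AnalyticOnNhd ℂ P (dom (ball a r))) {w : Fin (m + 1) → ℂ} (hw : w ∈ ball a r) :
    AnalyticOnNhd ℂ (fun z => P (z, star w)) (ball a r) := by
  intro z hz
  exact (hP (z, star w) ⟨hz, by show star (star w) ∈ _; rwa [star_star]⟩).curry_left

/-- dependence from determinants -/
theorem dep_of_det {S T : Set (Fin (m + 1) → ℂ)} {N : ℕ}
    (h : ∀ z w : Fin (N + 1) → (Fin (m + 1) → ℂ), (∀ i, z i ∈ S) → (∀ i, w i ∈ T) →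
      (Matrix.of fun i j => P (z i, star (w j))).det = 0) :
    DEP {f | ∃ w ∈ T, f = fun z => P (z, star w)} S N := by
  intro z hz
  let v : Fin (N + 1) → T → ℂ := fun i w => P (z i, star w.1)
  have hv : ¬ LinearIndependent ℂ v := by
    intro hli
    obtain ⟨w, hw⟩ := exists_det_ne v hli
    exact hw (h z (fun j => (w j).1) hz (fun j => (w j).2))
  rw [Fintype.not_linearIndependent_iff] at hv
  obtain ⟨c, hc, i, hi⟩ := hv
  refine ⟨c, fun h0 => hi (congrFun h0 i), ?_⟩
  rintro f ⟨w, hw, rfl⟩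
  have := congrFun hc ⟨w, hw⟩
  rw [Finset.sum_apply] at this
  exact this

/-- a separating set gives dependence in the other variable -/
theorem dep_of_sep (hP : AnalyticOnNhd ℂ P (dom (ball a r))) (hPp : ∀ z ∈ ball a r, P (z, star z) = p z)
    {ρ : ℝ} (hρ : ρ ≤ r) {T : Set (Fin (m + 1) → ℂ)} (hT : T ⊆ ball a ρ) {K : ℕ} (Z : Finset (Fin (m + 1) → ℂ))
    (hZ1 : ∀ z ∈ Z, z ∈ ball a ρ) (hZ2 : Z.card ≤ K)
    (hZ3 : ∀ f ∈ Submodule.span ℂ {f | ∃ w ∈ T, f = fun z => P (z, star w)}, (∀ z ∈ Z, f z = 0) →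
      ∀ y ∈ ball a ρ, f y = 0) :
    DEP {f | ∃ w ∈ ball a ρ, f = fun z => P (z, star w)} T K := by
  intro w hw
  obtain ⟨c, hc, h1⟩ := exists_ker (ι := Z) (m := K + 1) (by rw [Fintype.card_coe]; omega)
    (fun z j => P (z.1, star (w j)))
  let f : (Fin (m + 1) → ℂ) → ℂ := ∑ j, c j • (fun z => P (z, star (w j)))
  have hf : ∀ z, f z = ∑ j, c j * P (z, star (w j)) := by
    intro z
    simp only [f, Finset.sum_apply, Pi.smul_apply, smul_eq_mul]
  have hfs : f ∈ Submodule.span ℂ {f | ∃ w ∈ T, f = fun z => P (z, star w)} := by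
    apply Submodule.sum_mem
    intro j _
    apply Submodule.smul_mem
    exact Submodule.subset_span ⟨w j, hw j, rfl⟩
  have h2 := hZ3 f hfs (fun z hz => by rw [hf]; exact h1 ⟨z, hz⟩)
  refine ⟨fun j => star (c j), ?_, ?_⟩
  · intro h0
    apply hc
    funext j
    have := congrFun h0 j
    simpa using this
  · rintro g ⟨z, hz, rfl⟩
    have h3 := h2 z hz
    rw [hf] at h3
    have h4 := congrArg star h3
    rw [star_sum, star_zero] at h4
    rw [← h4]
    apply Finset.sum_congr rfl
    intro j _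
    rw [star_mul']
    congr 1
    exact herm_symm hP hPp (ball_subset_ball hρ hz) (ball_subset_ball hρ (hT (hw j)))

theorem local_rep (hm : 1 ≤ m)
    (hH : ∀ φ : (Fin m → ℂ) →ᵃ[ℂ] (Fin (m + 1) → ℂ), Function.Injective φ → RankLE (p ∘ φ) k)
    (hr : 0 < r) (hP : AnalyticOnNhd ℂ P (dom (ball a r))) (hPp : ∀ z ∈ ball a r, P (z, star z) = p z) :
    ∃ s ≤ (k * k) * (k * k), ∃ F G : Fin s → ((Fin (m + 1) → ℂ) → ℂ),
      (∀ j, AnalyticOnNhd ℂ (F j) (ball a (r / 8))) ∧ (∀ j, AnalyticOnNhd ℂ (G j) (ball a (r / 8))) ∧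
      (∀ z ∈ ball a (r / 8), (p z : ℂ) = ∑ j, F j z * star (G j z)) ∧
      Indep F (ball a (r / 8)) ∧ Indep G (ball a (r / 8)) := by
  classical
  set ρ := r / 8 with hρdef
  have hρ : 0 < ρ := by positivity
  have hρr : ρ ≤ r := by rw [hρdef]; linarith
  let i0 : Fin (m + 1) := 0
  let i1 : Fin (m + 1) := Fin.last m
  have hne : i0 ≠ i1 := by
    intro h
    have := congrArg Fin.val h
    simp [i0, i1] at this
    omega
  have hP' := sld_of hP
  have hsec : ∀ w ∈ ball a ρ, AnalyticOnNhd ℂ (fun z => P (z, star w)) (ball a ρ) := fun w hw =>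
    (sec_analytic hP (ball_subset_ball hρr hw)).mono (ball_subset_ball hρr)
  -- first application
  have step1 : ∀ (e' : Fin (m + 1)) (b' : ℂ),
      DEP {f | ∃ w ∈ ball a ρ, f = fun z => P (z, star w)} {z | z ∈ ball a ρ ∧ z e' = b'} (k * k) := by
    intro e' b'
    have hd : ∀ e b, DEP {f | ∃ w ∈ {w | w ∈ ball a ρ ∧ w e' = b'}, f = fun z => P (z, star w)}
        {z | z ∈ ball a ρ ∧ z e = b} k := fun e b =>
      dep_of_det (fun z w hz hw => coord_det hH hr hP' hPp e e' b b' z w hz hw)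
    obtain ⟨Z, hZ1, hZ2, hZ3⟩ := sep_ball hρ hne (𝓕 := {f | ∃ w ∈ {w | w ∈ ball a ρ ∧ w e' = b'}, f = fun z => P (z, star w)})
      (by rintro f ⟨w, hw, rfl⟩; exact hsec w hw.1) (hd i0) (hd i1)
    exact dep_of_sep hP hPp hρr (fun w hw => hw.1) Z hZ1 hZ2 hZ3
  obtain ⟨Z, hZ1, hZ2, hZ3⟩ := sep_ball hρ hne (𝓕 := {f | ∃ w ∈ ball a ρ, f = fun z => P (z, star w)})
      (by rintro f ⟨w, hw, rfl⟩; exact hsec w hw) (step1 i0) (step1 i1)
  have step2 : DEP {f | ∃ w ∈ ball a ρ, f = fun z => P (z, star w)} (ball a ρ) ((k * k) * (k * k)) :=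
    dep_of_sep hP hPp hρr (fun w hw => hw) Z hZ1 hZ2 hZ3
  -- skeleton
  let Q : ℕ → Prop := fun s => ∃ z w : Fin s → (Fin (m + 1) → ℂ), (∀ j, z j ∈ ball a ρ) ∧ (∀ j, w j ∈ ball a ρ) ∧
    (Matrix.of fun i j => P (z i, star (w j))).det ≠ 0
  have h0 : Q 0 := ⟨Fin.elim0, Fin.elim0, fun j => j.elim0, fun j => j.elim0, by simp⟩
  have hK : ¬ Q ((k * k) * (k * k) + 1) := by
    rintro ⟨z, w, h1, h2, h3⟩
    apply h3
    have h4 := minor step2 (fun j z => P (z, star (w j))) (fun j => Submodule.subset_span ⟨w j, h2 j, rfl⟩) z h1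
    rw [← Matrix.det_transpose]
    exact h4
  obtain ⟨s, hs, ⟨z, w, hz, hw, hdet⟩, hmax⟩ := nat_step h0 hK
  set M : Matrix (Fin s) (Fin s) ℂ := Matrix.of fun i j => P (z i, star (w j)) with hM
  have hMu : IsUnit M.det := isUnit_iff_ne_zero.2 hdet
  have hker : ∀ x ∈ ball a ρ, ∀ y ∈ ball a ρ, P (x, star y) =
      ∑ j, P (x, star (w j)) * ∑ i, M⁻¹ j i * P (z i, star y) := by
    intro x hx y hy
    let A : Matrix (Fin (s + 1)) (Fin (s + 1)) ℂ := Matrix.of fun i j =>
      P ((Fin.snoc z x : Fin (s + 1) → (Fin (m + 1) → ℂ)) i, star ((Fin.snoc w y : Fin (s + 1) → (Fin (m + 1) → ℂ)) j))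
    have hA : A.det = 0 := by
      by_contra hne
      apply hmax
      refine ⟨Fin.snoc z x, Fin.snoc w y, ?_, ?_, hne⟩
      · intro j
        refine Fin.lastCases ?_ (fun j => ?_) j
        · simpa using hx
        · simpa using hz j
      · intro j
        refine Fin.lastCases ?_ (fun j => ?_) j
        · simpa using hy
        · simpa using hw j
    have e1 : (Matrix.of fun i j : Fin s => A i.castSucc j.castSucc) = M := by
      ext i j
      simp [A, M]
    have h5 := border hA (by rw [e1]; exact hdet) (fun j => ∑ i, M⁻¹ j i * P (z i, star y)) ?_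
    · simpa [A] using h5
    · intro i
      have h6 : (M * M⁻¹).mulVec (fun i => P (z i, star y)) i = P (z i, star y) := by
        rw [Matrix.mul_nonsing_inv _ hMu, Matrix.one_mulVec]
      rw [← Matrix.mulVec_mulVec] at h6
      simpa [A, Matrix.mulVec, dotProduct, M] using h6
  refine ⟨s, hs, fun j x => P (x, star (w j)), fun j x => ∑ i, star (M⁻¹ j i) * P (x, star (z i)), ?_, ?_, ?_, ?_, ?_⟩
  · exact fun j => hsec _ (hw j)
  · intro j
    have : (fun x => ∑ i, star (M⁻¹ j i) * P (x, star (z i))) = ∑ i, (fun x => star (M⁻¹ j i) * P (x, star (z i))) := by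
      funext x
      rw [Finset.sum_apply]
    show AnalyticOnNhd ℂ (fun x => ∑ i, star (M⁻¹ j i) * P (x, star (z i))) (ball a ρ)
    rw [this]
    apply Finset.analyticOnNhd_sum
    intro i _
    exact analyticOnNhd_const.mul (hsec _ (hz i))
  · intro x hx
    rw [← hPp x (ball_subset_ball hρr hx), hker x hx x hx]
    apply Finset.sum_congr rfl
    intro j _
    congr 1
    rw [star_sum]
    apply Finset.sum_congr rfl
    intro i _
    rw [star_mul', star_star]
    congr 1
    exact herm_symm hP hPp (ball_subset_ball hρr hx) (ball_subset_ball hρr (hz i))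
  · intro c hc
    by_contra hne
    apply hdet
    exact det_zero_of c hne (fun i => hc (z i) (hz i))
  · intro c hc
    funext l
    have h1 := hc (w l) (hw l)
    have h2 : ∀ j, ∑ i, star (M⁻¹ j i) * P (w l, star (z i)) = if j = l then 1 else 0 := by
      intro j
      have h3 : ∀ i, star (M⁻¹ j i) * P (w l, star (z i)) = star (M⁻¹ j i * M i l) := by
        intro i
        rw [star_mul']
        congr 1
        exact herm_symm hP hPp (ball_subset_ball hρr (hz i)) (ball_subset_ball hρr (hw l))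
      rw [Finset.sum_congr rfl (fun i _ => h3 i), ← star_sum]
      have h4 : ∑ i, M⁻¹ j i * M i l = (M⁻¹ * M) j l := (Matrix.mul_apply).symm
      rw [h4, Matrix.nonsing_inv_mul _ hMu, Matrix.one_apply]
      split_ifs <;> simp
    simp only [h2] at h1
    simpa using h1

end

end Pool.Agent.H1.Herm
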