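import Pool.Agent.H1.HermK

set_option autoImplicit false
set_option linter.all false

namespace Pool.Agent.H1.Herm

open Complex Metric Set Topology Filter ENNReal

section cplx

variable {ι : Type} [Fintype ι] [DecidableEq ι]

noncomputable def cS (q : FormalMultilinearSeries ℝ (ι → ℝ) ℂ) : FormalMultilinearSeries ℂ (ι → ℂ) ℂ :=
  fun m => ∑ φ : Fin m → ι, q m (fun i => Pi.single (φ i) 1) •
    (ContinuousMultilinearMap.mkPiAlgebra ℂ (Fin m) ℂ).compContinuousLinearMap
      (fun i => ContinuousLinearMap.proj (R := ℂ) (φ := fun _ : ι => ℂ) (φ i))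

theorem cS_apply (q : FormalMultilinearSeries ℝ (ι → ℝ) ℂ) (m : ℕ) (z : ι → ℂ) :
    cS q m (fun _ => z) = ∑ φ : Fin m → ι, q m (fun i => Pi.single (φ i) 1) * ∏ i, z (φ i) := by
  simp [cS]

theorem cS_real (q : FormalMultilinearSeries ℝ (ι → ℝ) ℂ) (m : ℕ) (y : ι → ℝ) :
    cS q m (fun _ => fun j => (y j : ℂ)) = q m (fun _ => y) := by
  rw [cS_apply]
  have hy : y = ∑ j, y j • (Pi.single j (1 : ℝ) : ι → ℝ) := by
    funext l
    simp [Finset.sum_apply, Pi.single_apply]
  conv_rhs => rw [hy]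
  rw [ContinuousMultilinearMap.map_sum (q m) (fun _ j => y j • (Pi.single j (1 : ℝ) : ι → ℝ))]
  apply Finset.sum_congr rfl
  intro φ _
  rw [ContinuousMultilinearMap.map_smul_univ]
  rw [mul_comm, Complex.real_smul]
  push_cast
  rfl

theorem cS_norm (q : FormalMultilinearSeries ℝ (ι → ℝ) ℂ) (m : ℕ) :
    ‖cS q m‖ ≤ (Fintype.card ι : ℝ) ^ m * ‖q m‖ := by
  unfold cS
  refine (norm_sum_le _ _).trans ?_
  have h1 : ∀ φ : Fin m → ι, ‖q m (fun i => Pi.single (φ i) 1) •
    (ContinuousMultilinearMap.mkPiAlgebra ℂ (Fin m) ℂ).compContinuousLinearMap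
      (fun i => ContinuousLinearMap.proj (R := ℂ) (φ := fun _ : ι => ℂ) (φ i))‖ ≤ ‖q m‖ := by
    intro φ
    rw [norm_smul]
    have h2 : ‖q m (fun i => (Pi.single (φ i) 1 : ι → ℝ))‖ ≤ ‖q m‖ := by
      refine ((q m).le_opNorm _).trans ?_
      have : ∏ i : Fin m, ‖(Pi.single (φ i) 1 : ι → ℝ)‖ ≤ 1 := by
        apply Finset.prod_le_one
        · intro i _; exact norm_nonneg _
        · intro i _
          rw [pi_norm_le_iff_of_nonneg zero_le_one]
          intro j
          by_cases h : j = φ i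
          · subst h; simp
          · rw [Pi.single_eq_of_ne h]; simp
      calc ‖q m‖ * ∏ i : Fin m, ‖(Pi.single (φ i) 1 : ι → ℝ)‖ ≤ ‖q m‖ * 1 :=
            mul_le_mul_of_nonneg_left this (norm_nonneg _)
        _ = ‖q m‖ := mul_one _
    have h3 : ‖(ContinuousMultilinearMap.mkPiAlgebra ℂ (Fin m) ℂ).compContinuousLinearMap
      (fun i => ContinuousLinearMap.proj (R := ℂ) (φ := fun _ : ι => ℂ) (φ i))‖ ≤ 1 := by
      apply ContinuousMultilinearMap.opNorm_le_bound zero_le_one
      intro z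
      rw [one_mul]
      simp only [ContinuousMultilinearMap.compContinuousLinearMap_apply, ContinuousLinearMap.proj_apply,
        ContinuousMultilinearMap.mkPiAlgebra_apply]
      rw [norm_prod]
      apply Finset.prod_le_prod
      · intro i _; exact norm_nonneg _
      · intro i _; exact norm_le_pi_norm (z i) (φ i)
    calc _ ≤ ‖q m‖ * 1 := mul_le_mul h2 h3 (norm_nonneg _) (norm_nonneg _)
      _ = ‖q m‖ := mul_one _
  refine (Finset.sum_le_sum (fun φ _ => h1 φ)).trans ?_
  rw [Finset.sum_const, Finset.card_univ, nsmul_eq_mul]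
  simp

theorem cS_radius (q : FormalMultilinearSeries ℝ (ι → ℝ) ℂ) (hq : 0 < q.radius) : 0 < (cS q).radius := by
  obtain ⟨r, hr0, hr⟩ := ENNReal.lt_iff_exists_nnreal_btwn.1 hq
  have hr0' : 0 < r := by exact_mod_cast hr0
  obtain ⟨C, hC, h⟩ := q.norm_mul_pow_le_of_lt_radius hr
  set N : NNReal := (Fintype.card ι : NNReal) + 1 with hN
  have hN0 : 0 < N := by positivity
  have h2 : ((r / N : NNReal) : ENNReal) ≤ (cS q).radius := by
    apply FormalMultilinearSeries.le_radius_of_bound _ C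
    intro m
    refine le_trans ?_ (h m)
    have h3 : ((r / N : NNReal) : ℝ) ^ m = (r : ℝ) ^ m / (N : ℝ) ^ m := by
      push_cast
      rw [div_pow]
    rw [h3]
    have h4 : (0 : ℝ) < (N : ℝ) ^ m := by positivity
    rw [mul_div_assoc', div_le_iff₀ h4]
    have h5 : (Fintype.card ι : ℝ) ^ m ≤ (N : ℝ) ^ m := by
      apply pow_le_pow_left₀ (by positivity)
      rw [hN]; push_cast; linarith
    calc ‖cS q m‖ * (r : ℝ) ^ m ≤ ((Fintype.card ι : ℝ) ^ m * ‖q m‖) * (r : ℝ) ^ m :=
          mul_le_mul_of_nonneg_right (cS_norm q m) (by positivity)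
      _ ≤ ((N : ℝ) ^ m * ‖q m‖) * (r : ℝ) ^ m := by
          apply mul_le_mul_of_nonneg_right _ (by positivity)
          exact mul_le_mul_of_nonneg_right h5 (norm_nonneg _)
      _ = ‖q m‖ * (r : ℝ) ^ m * (N : ℝ) ^ m := by ring
  refine lt_of_lt_of_le ?_ h2
  have : 0 < r / N := by positivity
  exact_mod_cast this

theorem cplx {f : (ι → ℝ) → ℂ} {c : ι → ℝ} (hf : AnalyticAt ℝ f c) :
    ∃ F : (ι → ℂ) → ℂ, AnalyticAt ℂ F (fun i => (c i : ℂ)) ∧
      ∀ᶠ x in 𝓝 c, F (fun i => (x i : ℂ)) = f x := by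
  obtain ⟨q, r, hq⟩ := hf
  have hrad : 0 < q.radius := lt_of_lt_of_le hq.r_pos hq.r_le
  have h1 := (cS q).hasFPowerSeriesOnBall (cS_radius q hrad)
  refine ⟨fun z => (cS q).sum (z - fun i => (c i : ℂ)), ?_, ?_⟩
  · have h2 : AnalyticAt ℂ (cS q).sum ((fun i => (c i : ℂ)) - fun i => (c i : ℂ)) := by
      rw [sub_self]
      exact h1.analyticAt
    exact AnalyticAt.comp' h2 (analyticAt_id.sub analyticAt_const)
  · have h3 : ∀ᶠ x in 𝓝 c, x ∈ EMetric.ball c r := EMetric.ball_mem_nhds c hq.r_pos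
    filter_upwards [h3] with x hx
    have h4 : x - c ∈ EMetric.ball (0 : ι → ℝ) r := by
      have hx' : edist x c < r := hx
      show edist (x - c) 0 < r
      rw [edist_eq_enorm_sub] at hx' ⊢
      rwa [sub_zero]
    have h5 := hq.hasSum h4
    have e : ((fun i => (x i : ℂ)) - fun i => (c i : ℂ)) = fun i => (((x - c) i : ℝ) : ℂ) := by
      funext i
      simp
    show (cS q).sum ((fun i => (x i : ℂ)) - fun i => (c i : ℂ)) = f x
    rw [e]
    unfold FormalMultilinearSeries.sum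
    have h6 : ∀ m, cS q m (fun _ => fun i => (((x - c) i : ℝ) : ℂ)) = q m (fun _ => x - c) := fun m => cS_real q m (x - c)
    simp only [h6]
    rw [h5.tsum_eq]
    congr 1
    abel

end cplx

theorem exists_P {n : ℕ} {p : (Fin n → ℂ) → ℝ} {a : Fin n → ℂ} (hp : AnalyticAt ℝ p a) :
    ∃ r : ℝ, 0 < r ∧ ∃ P : (Fin n → ℂ) × (Fin n → ℂ) → ℂ, AnalyticOnNhd ℂ P (dom (ball a r)) ∧
      ∀ z ∈ ball a r, P (z, star z) = p z := by
  let T : (Fin n ⊕ Fin n → ℝ) →L[ℝ] (Fin n → ℂ) :=
    ContinuousLinearMap.pi (fun i => (Complex.ofRealCLM.comp (ContinuousLinearMap.proj (Sum.inl i))) +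
      (I : ℂ) • (Complex.ofRealCLM.comp (ContinuousLinearMap.proj (Sum.inr i))))
  have hT : ∀ x i, T x i = (x (Sum.inl i) : ℂ) + I * (x (Sum.inr i) : ℂ) := by
    intro x i
    simp [T]
  let cc : (Fin n → ℂ) → (Fin n ⊕ Fin n → ℝ) := fun z => Sum.elim (fun i => (z i).re) (fun i => (z i).im)
  have hcc : ∀ z, T (cc z) = z := by
    intro z
    funext i
    rw [hT]
    simp only [cc, Sum.elim_inl, Sum.elim_inr]
    rw [mul_comm]
    exact Complex.re_add_im (z i)
  have hccc : Continuous cc := by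
    apply continuous_pi
    rintro (i | i)
    · exact Complex.continuous_re.comp (continuous_apply i)
    · exact Complex.continuous_im.comp (continuous_apply i)
  have hf : AnalyticAt ℝ (fun x => ((p (T x) : ℝ) : ℂ)) (cc a) := by
    have h1 : AnalyticAt ℝ (fun x => p (T x)) (cc a) := by
      have h2 : AnalyticAt ℝ p (T (cc a)) := by rw [hcc]; exact hp
      exact AnalyticAt.comp' h2 (T.analyticAt _)
    exact AnalyticAt.comp' (Complex.ofRealCLM.analyticAt _) h1
  obtain ⟨F, hF, hFf⟩ := cplx hf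
  let Lam : (Fin n → ℂ) × (Fin n → ℂ) →L[ℂ] (Fin n ⊕ Fin n → ℂ) :=
    ContinuousLinearMap.pi (fun s => Sum.elim
      (fun i => (1 / 2 : ℂ) • ((ContinuousLinearMap.proj i).comp (ContinuousLinearMap.fst ℂ _ _) +
        (ContinuousLinearMap.proj i).comp (ContinuousLinearMap.snd ℂ _ _)))
      (fun i => (-I / 2 : ℂ) • ((ContinuousLinearMap.proj i).comp (ContinuousLinearMap.fst ℂ _ _) -
        (ContinuousLinearMap.proj i).comp (ContinuousLinearMap.snd ℂ _ _))) s)
  have hLam : ∀ z : Fin n → ℂ, Lam (z, star z) = fun s => ((cc z s : ℝ) : ℂ) := by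
    intro z
    funext s
    rcases s with i | i
    · simp only [Lam, cc, ContinuousLinearMap.pi_apply, Sum.elim_inl, ContinuousLinearMap.smul_apply,
        ContinuousLinearMap.add_apply, ContinuousLinearMap.comp_apply, ContinuousLinearMap.proj_apply,
        ContinuousLinearMap.coe_fst', ContinuousLinearMap.coe_snd']
      show (1 / 2 : ℂ) * (z i + (starRingEnd ℂ) (z i)) = _
      rw [Complex.add_conj]
      push_cast
      ring
    · simp only [Lam, cc, ContinuousLinearMap.pi_apply, Sum.elim_inr, ContinuousLinearMap.smul_apply,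
        ContinuousLinearMap.sub_apply, ContinuousLinearMap.comp_apply, ContinuousLinearMap.proj_apply,
        ContinuousLinearMap.coe_fst', ContinuousLinearMap.coe_snd']
      show (-I / 2 : ℂ) * (z i - (starRingEnd ℂ) (z i)) = _
      rw [Complex.sub_conj]
      push_cast
      ring_nf
      rw [I_sq]
      ring
  have hP : AnalyticAt ℂ (fun q => F (Lam q)) (a, star a) := by
    have h1 : AnalyticAt ℂ F (Lam (a, star a)) := by rw [hLam]; exact hF
    exact AnalyticAt.comp' h1 (Lam.analyticAt _)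
  have hev1 : ∀ᶠ q in 𝓝 (a, star a), AnalyticAt ℂ (fun q => F (Lam q)) q := hP.eventually_analyticAt
  have hev2 : ∀ᶠ z in 𝓝 a, F (Lam (z, star z)) = p z := by
    have h2 : Tendsto cc (𝓝 a) (𝓝 (cc a)) := hccc.continuousAt
    filter_upwards [h2.eventually hFf] with z hz
    rw [hLam, hz, hcc]
  obtain ⟨r1, hr1, h1⟩ := Metric.eventually_nhds_iff_ball.1 hev1
  obtain ⟨r2, hr2, h2⟩ := Metric.eventually_nhds_iff_ball.1 hev2
  refine ⟨min r1 r2, lt_min hr1 hr2, fun q => F (Lam q), ?_, ?_⟩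
  · rintro ⟨z, w⟩ ⟨hz, hw⟩
    apply h1
    rw [mem_ball, Prod.dist_eq, max_lt_iff]
    refine ⟨lt_of_lt_of_le hz (min_le_left _ _), ?_⟩
    have h3 : dist w (star a) = dist (star w) a := by
      rw [dist_eq_norm, dist_eq_norm, ← norm_star, star_sub, star_star]
    show dist w (star a) < r1
    rw [h3]
    exact lt_of_lt_of_le hw (min_le_left _ _)
  · intro z hz
    exact h2 z (ball_subset_ball (min_le_right _ _) hz)

end Pool.Agent.H1.Herm
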