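import Mathlib

set_option autoImplicit false
set_option linter.all false

namespace Pool.Agent.H1.HomLog

open FirstOrder FirstOrder.Language MvPolynomial

section Defs

variable (k : Type) [Field k] (n : ℕ)

/-- Definable predicates (with all scalars as parameters). -/
def Dfn (ι : Type) (S : (ι → MvPolynomial (Fin n) k) → Prop) : Prop :=
  ∃ φ : Language.ring.Formula (ι ⊕ k), ∀ v : ι → MvPolynomial (Fin n) k,
    @Formula.Realize Language.ring _
      (FirstOrder.Ring.compatibleRingOfRing (MvPolynomial (Fin n) k)).toStructure _ φ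
      (Sum.elim v (fun a => C a)) ↔ S v

/-- Term functions. -/
def PF (ι : Type) (F : (ι → MvPolynomial (Fin n) k) → MvPolynomial (Fin n) k) : Prop :=
  ∃ t : Language.ring.Term (ι ⊕ k), ∀ v : ι → MvPolynomial (Fin n) k,
    @Term.realize Language.ring _
      (FirstOrder.Ring.compatibleRingOfRing (MvPolynomial (Fin n) k)).toStructure _
      (Sum.elim v (fun a => C a)) t = F v

end Defs

variable {k : Type} [Field k] {n : ℕ}


theorem PF.var {ι : Type} (i : ι) : PF k n ι (fun v => v i) :=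
  ⟨Term.var (Sum.inl i), fun v => rfl⟩

theorem PF.const {ι : Type} (a : k) : PF k n ι (fun _ => C a) :=
  ⟨Term.var (Sum.inr a), fun v => rfl⟩

theorem PF.add {ι : Type} {F G : (ι → (MvPolynomial (Fin n) k)) → (MvPolynomial (Fin n) k)} (hF : PF k n ι F) (hG : PF k n ι G) :
    PF k n ι (fun v => F v + G v) := by
  letI := FirstOrder.Ring.compatibleRingOfRing (MvPolynomial (Fin n) k)
  obtain ⟨s, hs⟩ := hF
  obtain ⟨t, ht⟩ := hG
  refine ⟨s + t, fun v => ?_⟩
  show _ = F v + G v
  rw [← hs v, ← ht v]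
  exact FirstOrder.Ring.realize_add s t _

theorem PF.mul {ι : Type} {F G : (ι → (MvPolynomial (Fin n) k)) → (MvPolynomial (Fin n) k)} (hF : PF k n ι F) (hG : PF k n ι G) :
    PF k n ι (fun v => F v * G v) := by
  letI := FirstOrder.Ring.compatibleRingOfRing (MvPolynomial (Fin n) k)
  obtain ⟨s, hs⟩ := hF
  obtain ⟨t, ht⟩ := hG
  refine ⟨s * t, fun v => ?_⟩
  show _ = F v * G v
  rw [← hs v, ← ht v]
  exact FirstOrder.Ring.realize_mul s t _

theorem PF.zero {ι : Type} : PF k n ι (fun _ => 0) := by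
  simpa using (PF.const (k := k) (n := n) (ι := ι) 0)

theorem PF.one {ι : Type} : PF k n ι (fun _ => 1) := by
  simpa using (PF.const (k := k) (n := n) (ι := ι) 1)

theorem PF.sub {ι : Type} {F G : (ι → (MvPolynomial (Fin n) k)) → (MvPolynomial (Fin n) k)} (hF : PF k n ι F) (hG : PF k n ι G) :
    PF k n ι (fun v => F v - G v) := by
  have h := hF.add ((PF.const (k := k) (n := n) (ι := ι) (-1)).mul hG)
  have e : (fun v => F v + C (-1) * G v) = (fun v => F v - G v) := by
    funext v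
    simp [sub_eq_add_neg]
  rwa [e] at h

theorem PF.sum {ι κ : Type} (s : Finset κ) {F : κ → (ι → (MvPolynomial (Fin n) k)) → (MvPolynomial (Fin n) k)}
    (hF : ∀ i, PF k n ι (F i)) :
    PF k n ι (fun v => ∑ i ∈ s, F i v) := by
  classical
  induction s using Finset.induction_on with
  | empty => simpa using PF.zero
  | insert a s ha ih =>
    have := (hF a).add ih
    simpa [Finset.sum_insert ha] using this

theorem PF.aeval {ι σ : Type} (p : MvPolynomial σ k) {G : σ → (ι → (MvPolynomial (Fin n) k)) → (MvPolynomial (Fin n) k)}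
    (hG : ∀ i, PF k n ι (G i)) : PF k n ι (fun v => MvPolynomial.aeval (fun i => G i v) p) := by
  induction p using MvPolynomial.induction_on with
  | C a =>
    have := PF.const (k := k) (n := n) (ι := ι) a
    simpa [MvPolynomial.algebraMap_eq] using this
  | add p q hp hq => simpa using hp.add hq
  | mul_X p i hp => simpa using hp.mul (hG i)

theorem Dfn.eq {ι : Type} {F G : (ι → (MvPolynomial (Fin n) k)) → (MvPolynomial (Fin n) k)} (hF : PF k n ι F) (hG : PF k n ι G) :
    Dfn k n ι (fun v => F v = G v) := by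
  letI := FirstOrder.Ring.compatibleRingOfRing (MvPolynomial (Fin n) k)
  obtain ⟨s, hs⟩ := hF
  obtain ⟨t, ht⟩ := hG
  refine ⟨Term.equal s t, fun v => ?_⟩
  rw [Formula.realize_equal, hs v, ht v]

theorem Dfn.imp {ι : Type} {S T : (ι → (MvPolynomial (Fin n) k)) → Prop} (hS : Dfn k n ι S) (hT : Dfn k n ι T) :
    Dfn k n ι (fun v => S v → T v) := by
  letI := FirstOrder.Ring.compatibleRingOfRing (MvPolynomial (Fin n) k)
  obtain ⟨φ, hφ⟩ := hS
  obtain ⟨ψ, hψ⟩ := hT
  refine ⟨φ.imp ψ, fun v => ?_⟩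
  rw [Formula.realize_imp, hφ, hψ]

theorem Dfn.not {ι : Type} {S : (ι → (MvPolynomial (Fin n) k)) → Prop} (hS : Dfn k n ι S) :
    Dfn k n ι (fun v => ¬ S v) := by
  letI := FirstOrder.Ring.compatibleRingOfRing (MvPolynomial (Fin n) k)
  obtain ⟨φ, hφ⟩ := hS
  refine ⟨φ.not, fun v => ?_⟩
  rw [Formula.realize_not, hφ]

theorem Dfn.congr {ι : Type} {S T : (ι → (MvPolynomial (Fin n) k)) → Prop} (hS : Dfn k n ι S) (h : ∀ v, S v ↔ T v) :
    Dfn k n ι T := by
  obtain ⟨φ, hφ⟩ := hS
  exact ⟨φ, fun v => (hφ v).trans (h v)⟩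

theorem Dfn.and {ι : Type} {S T : (ι → (MvPolynomial (Fin n) k)) → Prop} (hS : Dfn k n ι S) (hT : Dfn k n ι T) :
    Dfn k n ι (fun v => S v ∧ T v) :=
  (hS.imp hT.not).not.congr (fun v => by tauto)

theorem Dfn.or {ι : Type} {S T : (ι → (MvPolynomial (Fin n) k)) → Prop} (hS : Dfn k n ι S) (hT : Dfn k n ι T) :
    Dfn k n ι (fun v => S v ∨ T v) :=
  (hS.not.imp hT).congr (fun v => by tauto)

theorem Dfn.allT {ι κ : Type} [Finite κ] {T : (ι → (MvPolynomial (Fin n) k)) → (κ → (MvPolynomial (Fin n) k)) → Prop}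
    (hT : Dfn k n (ι ⊕ κ) (fun u => T (fun i => u (Sum.inl i)) (fun j => u (Sum.inr j)))) :
    Dfn k n ι (fun v => ∀ w : κ → (MvPolynomial (Fin n) k), T v w) := by
  letI := FirstOrder.Ring.compatibleRingOfRing (MvPolynomial (Fin n) k)
  obtain ⟨φ, hφ⟩ := hT
  refine ⟨Formula.iAlls κ (φ.relabel (fun x : (ι ⊕ κ) ⊕ k => match x with
    | Sum.inl (Sum.inl i) => (Sum.inl (Sum.inl i) : (ι ⊕ k) ⊕ κ)
    | Sum.inl (Sum.inr j) => Sum.inr j
    | Sum.inr a => Sum.inl (Sum.inr a))), fun v => ?_⟩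
  rw [Formula.realize_iAlls]
  refine forall_congr' (fun w => ?_)
  rw [Formula.realize_relabel]
  have h := hφ (Sum.elim v w)
  have e : ((fun a => Sum.elim (Sum.elim v (fun a => C a)) w a) ∘
      (fun x : (ι ⊕ κ) ⊕ k => match x with
    | Sum.inl (Sum.inl i) => (Sum.inl (Sum.inl i) : (ι ⊕ k) ⊕ κ)
    | Sum.inl (Sum.inr j) => Sum.inr j
    | Sum.inr a => Sum.inl (Sum.inr a))) =
      (Sum.elim (Sum.elim v w) (fun a : k => (C a : (MvPolynomial (Fin n) k)))) := by
    funext x
    rcases x with (x | x) | x <;> rfl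
  rw [e]
  exact h

theorem Dfn.exT {ι κ : Type} [Finite κ] {T : (ι → (MvPolynomial (Fin n) k)) → (κ → (MvPolynomial (Fin n) k)) → Prop}
    (hT : Dfn k n (ι ⊕ κ) (fun u => T (fun i => u (Sum.inl i)) (fun j => u (Sum.inr j)))) :
    Dfn k n ι (fun v => ∃ w : κ → (MvPolynomial (Fin n) k), T v w) :=
  (Dfn.allT (T := fun v w => ¬ T v w) hT.not).not.congr (fun v => by push Not; rfl)

theorem Dfn.all {ι : Type} {T : (ι → (MvPolynomial (Fin n) k)) → (MvPolynomial (Fin n) k) → Prop}
    (hT : Dfn k n (ι ⊕ Unit) (fun u => T (fun i => u (Sum.inl i)) (u (Sum.inr ())))) :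
    Dfn k n ι (fun v => ∀ w : (MvPolynomial (Fin n) k), T v w) :=
  (Dfn.allT (κ := Unit) (T := fun v w => T v (w ())) hT).congr (fun v =>
    ⟨fun h w => h (fun _ => w), fun h w => h (w ())⟩)

theorem Dfn.ex {ι : Type} {T : (ι → (MvPolynomial (Fin n) k)) → (MvPolynomial (Fin n) k) → Prop}
    (hT : Dfn k n (ι ⊕ Unit) (fun u => T (fun i => u (Sum.inl i)) (u (Sum.inr ())))) :
    Dfn k n ι (fun v => ∃ w : (MvPolynomial (Fin n) k), T v w) :=
  (Dfn.exT (κ := Unit) (T := fun v w => T v (w ())) hT).congr (fun v =>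
    ⟨fun ⟨w, h⟩ => ⟨w (), h⟩, fun ⟨w, h⟩ => ⟨fun _ => w, h⟩⟩)

theorem Dfn.allFin {ι κ : Type} [Finite κ] {T : κ → (ι → (MvPolynomial (Fin n) k)) → Prop}
    (hT : ∀ i, Dfn k n ι (T i)) : Dfn k n ι (fun v => ∀ i, T i v) := by
  classical
  cases nonempty_fintype κ
  have key : ∀ s : Finset κ, Dfn k n ι (fun v => ∀ i ∈ s, T i v) := by
    intro s
    induction s using Finset.induction_on with
    | empty => exact (Dfn.eq PF.zero PF.zero).congr (fun v => by simp)
    | insert a s ha ih => exact ((hT a).and ih).congr (fun v => by simp)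
  exact (key Finset.univ).congr (fun v => by simp)

theorem transfer {m : ℕ} (a b : Fin m → (MvPolynomial (Fin n) k))
    (h : ∀ (r : ℕ) (c : Fin r → k) (φ : FirstOrder.Language.ring.Formula (Fin m ⊕ Fin r)),
        (@FirstOrder.Language.Formula.Realize FirstOrder.Language.ring (MvPolynomial (Fin n) k)
            (FirstOrder.Ring.compatibleRingOfRing (MvPolynomial (Fin n) k)).toStructure
            (Fin m ⊕ Fin r) φ (Sum.elim a (fun i => algebraMap k (MvPolynomial (Fin n) k) (c i))) ↔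
          @FirstOrder.Language.Formula.Realize FirstOrder.Language.ring (MvPolynomial (Fin n) k)
            (FirstOrder.Ring.compatibleRingOfRing (MvPolynomial (Fin n) k)).toStructure
            (Fin m ⊕ Fin r) φ (Sum.elim b (fun i => algebraMap k (MvPolynomial (Fin n) k) (c i)))))
    {S : (Fin m → (MvPolynomial (Fin n) k)) → Prop} (hS : Dfn k n (Fin m) S) : S a ↔ S b := by
  classical
  letI := FirstOrder.Ring.compatibleRingOfRing (MvPolynomial (Fin n) k)
  obtain ⟨φ, hφ⟩ := hS
  rw [← hφ a, ← hφ b]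
  -- the finite set of parameters
  let K : Finset k := φ.freeVarFinset.biUnion (fun x => match x with
    | Sum.inl _ => ∅
    | Sum.inr c => {c})
  have hK : ∀ c : k, Sum.inr c ∈ φ.freeVarFinset → c ∈ K := by
    intro c hc
    exact Finset.mem_biUnion.2 ⟨_, hc, by simp⟩
  let e := K.equivFin
  let f : φ.freeVarFinset → (Fin m ⊕ Fin K.card) := fun x => match x with
    | ⟨Sum.inl i, _⟩ => Sum.inl i
    | ⟨Sum.inr c, hc⟩ => Sum.inr (e ⟨c, hK c hc⟩)
  let cc : Fin K.card → k := fun j => (e.symm j).1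
  have hrf : ∀ v : Fin m → (MvPolynomial (Fin n) k),
      (Formula.Realize (BoundedFormula.restrictFreeVar φ f)
        (Sum.elim v (fun i => algebraMap k (MvPolynomial (Fin n) k) (cc i))) ↔
      Formula.Realize φ (Sum.elim v (fun a => C a))) := by
    intro v
    refine BoundedFormula.realize_restrictFreeVar (Sum.elim v (fun a => C a)) ?_
    rintro ⟨x | x, hx⟩
    · rfl
    · simp only [f, cc, Sum.elim_inr, Equiv.symm_apply_apply]
      rfl
  rw [← hrf a, ← hrf b]
  exact h _ cc _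

end Pool.Agent.H1.HomLog
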