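import Mathlib

set_option autoImplicit false
set_option linter.all false

namespace Pool.Agent.H1.HomLog

open MvPolynomial

section Gen
variable {R : Type} [CommRing R]

/-- constants: zero or a unit -/
def Cst (a : R) : Prop := a = 0 ∨ ∃ w, a * w = 1

def InB (t a : R) : Prop :=
  ∀ π : R, Prime π →
    (∃ u, (t - 1 ∣ u - 1) ∧ (∀ v, v ∣ u → IsUnit v ∨ t ∣ v) ∧ u ≠ 1 ∧ π ∣ u - 1) →
    π ∣ a ∨ ∃ g, π ∣ a * g - 1

def Inj (s t : R) : Prop := ∀ b b', InB s b → InB s b' → (s - t) ∣ (b - b') → b = b'

def Idl {n : ℕ} (y c : Fin n → R) (f : R) : Prop := ∃ g : Fin n → R, f = ∑ i, g i * (y i - c i)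

theorem cst_of_isUnit {a : R} (h : IsUnit a) : Cst a := by
  obtain ⟨u, rfl⟩ := h
  exact Or.inr ⟨↑u⁻¹, by simp⟩

end Gen

variable {k : Type} [Field k] {n : ℕ}


theorem isUnit_iff_C {a : (MvPolynomial (Fin n) k)} : IsUnit a ↔ ∃ c : k, c ≠ 0 ∧ a = C c := by
  rw [isUnit_iff_eq_C_of_isReduced]
  simp [isUnit_iff_ne_zero]

theorem cst_iff {a : (MvPolynomial (Fin n) k)} : Cst a ↔ ∃ c : k, a = C c := by
  constructor
  · rintro (h | ⟨w, h⟩)
    · exact ⟨0, by simp [h]⟩
    · obtain ⟨c, -, hc⟩ := isUnit_iff_C.1 (IsUnit.of_mul_eq_one w h)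
      exact ⟨c, hc⟩
  · rintro ⟨c, rfl⟩
    by_cases hc : c = 0
    · left; simp [hc]
    · right; exact ⟨C c⁻¹, by rw [← C_mul, mul_inv_cancel₀ hc, C_1]⟩

/-- elements of the power set are powers -/
theorem eq_pow {t u : (MvPolynomial (Fin n) k)} (ht : ¬ Cst t) (h1 : t - 1 ∣ u - 1)
    (h2 : ∀ v, v ∣ u → IsUnit v ∨ t ∣ v) : ∃ m : ℕ, u = t ^ m := by
  have htu : ¬ IsUnit t := fun h => ht (cst_of_isUnit h)
  have hu : u ≠ 0 := by
    rintro rfl
    rcases h2 (t + 1) (dvd_zero _) with h | h
    · obtain ⟨c, -, hc⟩ := isUnit_iff_C.1 h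
      apply ht
      rw [cst_iff]
      exact ⟨c - 1, by rw [C_sub, ← hc, C_1]; ring⟩
    · apply htu
      have : t ∣ 1 := (dvd_add_right (dvd_refl t)).1 h
      exact isUnit_of_dvd_one this
  have hf : FiniteMultiplicity t u := FiniteMultiplicity.of_not_isUnit htu hu
  obtain ⟨w, hw, hw'⟩ := hf.exists_eq_pow_mul_and_not_dvd
  generalize multiplicity t u = m at hw
  rcases h2 w ⟨t ^ m, by rw [hw]; ring⟩ with h | h
  · obtain ⟨c, hc0, hc⟩ := isUnit_iff_C.1 h
    have h3 : t - 1 ∣ w - 1 := by
      have e : w - 1 = (u - 1) - w * (t ^ m - 1) := by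
        rw [hw]
        ring
      rw [e]
      refine dvd_sub h1 (Dvd.dvd.mul_left ?_ _)
      exact sub_one_dvd_pow_sub_one _ _
    have h4 : c = 1 := by
      by_contra hne
      have h5 : IsUnit (w - 1) := by
        rw [hc, ← C_1, ← C_sub]
        exact isUnit_iff_C.2 ⟨c - 1, sub_ne_zero.2 hne, rfl⟩
      obtain ⟨d, -, hd⟩ := isUnit_iff_C.1 (isUnit_of_dvd_unit h3 h5)
      apply ht
      rw [cst_iff]
      exact ⟨d + 1, by rw [C_add, ← hd, C_1]; ring⟩
    refine ⟨m, ?_⟩
    rw [hw, hc, h4]
    simp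
  · exact absurd h hw'

theorem inB_aeval {t : (MvPolynomial (Fin n) k)} (ht : ¬ Cst t) (g : Polynomial k) : InB t (Polynomial.aeval t g) := by
  intro π hπ ⟨u, h1, h2, h3, h4⟩
  obtain ⟨m, rfl⟩ := eq_pow ht h1 h2
  have hm : 0 < m := by
    rcases Nat.eq_zero_or_pos m with h | h
    · exact absurd (by rw [h, pow_zero]) h3
    · exact h
  have hprime : (Ideal.span {π} : Ideal (MvPolynomial (Fin n) k)).IsPrime :=
    (Ideal.span_singleton_prime hπ.ne_zero).2 hπ
  haveI : IsDomain ((MvPolynomial (Fin n) k) ⧸ (Ideal.span {π} : Ideal (MvPolynomial (Fin n) k))) := Ideal.Quotient.isDomain _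
  set q : (MvPolynomial (Fin n) k) →ₐ[k] ((MvPolynomial (Fin n) k) ⧸ (Ideal.span {π} : Ideal (MvPolynomial (Fin n) k))) := Ideal.Quotient.mkₐ k _ with hq
  have hq0 : ∀ x : (MvPolynomial (Fin n) k), q x = 0 ↔ π ∣ x := by
    intro x
    rw [hq, Ideal.Quotient.mkₐ_eq_mk, Ideal.Quotient.eq_zero_iff_mem, Ideal.mem_span_singleton]
  have hτ : (q t) ^ m = 1 := by
    have := (hq0 _).2 h4
    rw [map_sub, map_pow, map_one, sub_eq_zero] at this
    exact this
  have hint : IsIntegral k (q t) := by
    apply IsIntegral.of_pow hm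
    rw [hτ]
    exact isIntegral_one
  have hint2 : IsIntegral k (q (Polynomial.aeval t g)) := by
    rw [← Polynomial.aeval_algHom_apply]
    have : Polynomial.aeval (q t) g ∈ integralClosure k ((MvPolynomial (Fin n) k) ⧸ (Ideal.span {π} : Ideal (MvPolynomial (Fin n) k))) := by
      have h := (Polynomial.aeval (⟨q t, hint⟩ : integralClosure k ((MvPolynomial (Fin n) k) ⧸ (Ideal.span {π} : Ideal (MvPolynomial (Fin n) k)))) g).2
      have e : ((Polynomial.aeval (⟨q t, hint⟩ : integralClosure k ((MvPolynomial (Fin n) k) ⧸ (Ideal.span {π} : Ideal (MvPolynomial (Fin n) k)))) g :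
          integralClosure k ((MvPolynomial (Fin n) k) ⧸ (Ideal.span {π} : Ideal (MvPolynomial (Fin n) k)))) : ((MvPolynomial (Fin n) k) ⧸ (Ideal.span {π} : Ideal (MvPolynomial (Fin n) k)))) =
          Polynomial.aeval (q t) g := by
        rw [← Subalgebra.coe_val, ← Polynomial.aeval_algHom_apply]
        rfl
      rw [← e]
      exact h
    exact this
  by_cases h0 : q (Polynomial.aeval t g) = 0
  · left
    exact (hq0 _).1 h0
  · right
    have hun : IsUnit (q (Polynomial.aeval t g)) := IsIntegral.isUnit hint2 h0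
    obtain ⟨w, hw⟩ := hun.exists_right_inv
    obtain ⟨w', rfl⟩ := Ideal.Quotient.mkₐ_surjective k (Ideal.span {π} : Ideal (MvPolynomial (Fin n) k)) w
    refine ⟨w', (hq0 _).1 ?_⟩
    rw [map_sub, map_mul, map_one, sub_eq_zero]
    exact hw

/-- infinitely many roots of unity -/
theorem infinite_roots (K : Type) [Field K] [IsAlgClosed K] :
    Set.Infinite {ζ : K | ∃ m : ℕ, 0 < m ∧ ζ ^ m = 1} := by
  intro hfin
  classical
  obtain ⟨m, hm0, hmK, hm⟩ : ∃ m : ℕ, 0 < m ∧ (m : K) ≠ 0 ∧ hfin.toFinset.card < m := by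
    by_cases h : ((hfin.toFinset.card + 1 : ℕ) : K) = 0
    · refine ⟨hfin.toFinset.card + 2, by omega, ?_, by omega⟩
      intro h2
      push_cast at h h2
      have : (1 : K) = 0 := by linear_combination h2 - h
      exact one_ne_zero this
    · exact ⟨_, by omega, h, by omega⟩
  haveI : NeZero (m : K) := ⟨hmK⟩
  obtain ⟨ζ, hζ⟩ := HasEnoughRootsOfUnity.exists_primitiveRoot K m
  have hcard := hζ.card_nthRootsFinset
  have hsub : Polynomial.nthRootsFinset m (1 : K) ⊆ hfin.toFinset := by
    intro x hx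
    rw [Polynomial.mem_nthRootsFinset hm0] at hx
    simp only [Set.Finite.mem_toFinset]
    exact ⟨m, hm0, hx⟩
  have := Finset.card_le_card hsub
  omega

/-- specialisation of the variable `j`. -/
noncomputable def ev (K : Type) [Field K] [Algebra k K] (j : Fin n) (ζ : K) :
    (MvPolynomial (Fin n) k) →ₐ[k] MvPolynomial (Fin n) K :=
  aeval (fun i => if i = j then C ζ else X i)

theorem key (K : Type) [Field K] [Algebra k K] (hK : Infinite K) (j : Fin n) (b : (MvPolynomial (Fin n) k))
    (hinf : Set.Infinite {ζ : K | ∃ c : K, ev K j ζ b = C c}) :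
    ∃ g : Polynomial k, b = Polynomial.aeval (X j : (MvPolynomial (Fin n) k)) g := by
  classical
  set b' : (MvPolynomial (Fin n) k) := aeval (fun i => if i = j then X j else 0) b with hb'
  have heq : b = b' := by
    apply MvPolynomial.map_injective (algebraMap k K) (algebraMap k K).injective
    apply MvPolynomial.funext_set (fun i => if i = j then
      {ζ : K | ∃ c : K, ev K j ζ b = C c} else Set.univ)
    · intro i
      split_ifs
      · exact hinf
      · exact Set.infinite_univ
    · intro x hx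
      have hxj : x j ∈ {ζ : K | ∃ c : K, ev K j ζ b = C c} := by
        have := hx j (Set.mem_univ j)
        simpa using this
      obtain ⟨c, hc⟩ := hxj
      have h1 : ∀ x' : Fin n → K, x' j = x j → eval x' (map (algebraMap k K) b) = c := by
        intro x' hx'
        have e : eval x' (map (algebraMap k K) b) = eval x' (ev K j (x j) b) := by
          rw [MvPolynomial.eval_map, ← MvPolynomial.aeval_def]
          have : (MvPolynomial.aeval x' : (MvPolynomial (Fin n) k) →ₐ[k] K) =
              ((MvPolynomial.aeval x' : MvPolynomial (Fin n) K →ₐ[K] K).restrictScalars k).comp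
                (ev K j (x j)) := by
            apply MvPolynomial.algHom_ext
            intro i
            simp only [ev, aeval_X, AlgHom.comp_apply, AlgHom.restrictScalars_apply]
            by_cases hi : i = j
            · subst hi
              simp [hx']
            · simp [hi]
          rw [this]
          rfl
        rw [e, hc, eval_C]
      have h2 : eval x (map (algebraMap k K) b') =
          eval (fun i => if i = j then x j else 0) (map (algebraMap k K) b) := by
        rw [MvPolynomial.eval_map, ← MvPolynomial.aeval_def, MvPolynomial.eval_map,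
          ← MvPolynomial.aeval_def, hb']
        have : (MvPolynomial.aeval (fun i => if i = j then x j else 0) : (MvPolynomial (Fin n) k) →ₐ[k] K) =
            (MvPolynomial.aeval x : (MvPolynomial (Fin n) k) →ₐ[k] K).comp
              (aeval (fun i => if i = j then (X j : (MvPolynomial (Fin n) k)) else 0)) := by
          apply MvPolynomial.algHom_ext
          intro i
          by_cases hi : i = j
          · subst hi
            simp
          · simp [hi]
        rw [this]
        rfl
      rw [h1 x rfl, h2, h1 _ (by simp)]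
  rw [hb'] at heq
  refine ⟨aeval (fun i => if i = j then Polynomial.X else 0) b, ?_⟩
  conv_lhs => rw [heq]
  have : (aeval (fun i => if i = j then (X j : (MvPolynomial (Fin n) k)) else 0) : (MvPolynomial (Fin n) k) →ₐ[k] (MvPolynomial (Fin n) k)) =
      (Polynomial.aeval (X j : (MvPolynomial (Fin n) k))).comp
        (aeval (fun i => if i = j then (Polynomial.X : Polynomial k) else 0)) := by
    apply MvPolynomial.algHom_ext
    intro i
    by_cases hi : i = j
    · subst hi
      simp
    · simp [hi]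
  rw [this]
  rfl

theorem isUnit_C' {K : Type} [Field K] {a : MvPolynomial (Fin n) K} (h : IsUnit a) :
    ∃ c : K, a = C c := by
  obtain ⟨c, -, hc⟩ := isUnit_iff_C.1 h
  exact ⟨c, hc⟩

theorem ev_X_self (K : Type) [Field K] [Algebra k K] (j : Fin n) (ζ : K) :
    ev K j ζ (X j : (MvPolynomial (Fin n) k)) = C ζ := by
  simp [ev]

theorem inB_X {j : Fin n} {a : (MvPolynomial (Fin n) k)} (h : InB (X j) a) :
    ∃ g : Polynomial k, a = Polynomial.aeval (X j : (MvPolynomial (Fin n) k)) g := by
  classical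
  apply key (AlgebraicClosure k) (IsAlgClosed.instInfinite) j a
  apply (infinite_roots (AlgebraicClosure k)).mono
  rintro ζ ⟨m, hm, hζ⟩
  have hne : (X j ^ m - 1 : (MvPolynomial (Fin n) k)) ≠ 0 := by
    intro h0
    have := congrArg (aeval (fun _ => (0 : k))) h0
    simp [hm.ne'] at this
  obtain ⟨f, hf, hfa⟩ := UniqueFactorizationMonoid.exists_prime_factors _ hne
  have hev : ev (AlgebraicClosure k) j ζ (X j ^ m - 1 : (MvPolynomial (Fin n) k)) = 0 := by
    rw [map_sub, map_pow, ev_X_self, map_one, ← C_pow, hζ, C_1, sub_self]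
  have hev2 : ev (AlgebraicClosure k) j ζ f.prod = 0 := by
    obtain ⟨u, hu⟩ := hfa.symm
    rw [← hu, map_mul, hev, zero_mul]
  rw [map_multiset_prod, Multiset.prod_eq_zero_iff, Multiset.mem_map] at hev2
  obtain ⟨π, hπf, hπ0⟩ := hev2
  have hπ := hf π hπf
  have hdvd : π ∣ (X j ^ m - 1 : (MvPolynomial (Fin n) k)) := (Multiset.dvd_prod hπf).trans hfa.dvd
  have hprem : ∀ v : (MvPolynomial (Fin n) k), v ∣ X j ^ m → IsUnit v ∨ X j ∣ v := by
    intro v hv
    obtain ⟨i, hi, hass⟩ := (dvd_prime_pow (X_prime) m).1 hv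
    rcases Nat.eq_zero_or_pos i with h0 | h0
    · left
      rw [h0, pow_zero] at hass
      exact associated_one_iff_isUnit.1 hass
    · right
      exact (dvd_pow_self _ h0.ne').trans hass.symm.dvd
  have hne1 : (X j ^ m : (MvPolynomial (Fin n) k)) ≠ 1 := by
    intro h1
    apply hne
    rw [h1, sub_self]
  rcases h π hπ ⟨X j ^ m, sub_one_dvd_pow_sub_one _ _, hprem, hne1, hdvd⟩ with h1 | ⟨g, h1⟩
  · refine ⟨0, ?_⟩
    obtain ⟨w, rfl⟩ := h1
    rw [map_mul, hπ0, zero_mul, C_0]
  · apply isUnit_C'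
    obtain ⟨w, hw⟩ := h1
    have := congrArg (ev (AlgebraicClosure k) j ζ) hw
    rw [map_sub, map_mul, map_mul, hπ0, zero_mul, map_one, sub_eq_zero] at this
    exact IsUnit.of_mul_eq_one _ this

theorem xdiv {j : Fin n} {b c : (MvPolynomial (Fin n) k)} {g : Polynomial k} (hg : g ≠ 0)
    (h : b * c = Polynomial.aeval (X j : (MvPolynomial (Fin n) k)) g) :
    ∃ g' : Polynomial k, b = Polynomial.aeval (X j : (MvPolynomial (Fin n) k)) g' := by
  classical
  apply key (AlgebraicClosure k) (IsAlgClosed.instInfinite) j b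
  have hfin : Set.Finite {ζ : AlgebraicClosure k | Polynomial.aeval ζ g = 0} := by
    have := Polynomial.rootSet_finite g (AlgebraicClosure k)
    apply this.subset
    intro ζ hζ
    rw [Polynomial.mem_rootSet]
    exact ⟨hg, hζ⟩
  haveI : Infinite (AlgebraicClosure k) := IsAlgClosed.instInfinite
  apply (hfin.infinite_compl).mono
  intro ζ hζ
  apply isUnit_C'
  have h1 := congrArg (ev (AlgebraicClosure k) j ζ) h
  rw [map_mul, ← Polynomial.aeval_algHom_apply, ev_X_self] at h1
  have h2 : (Polynomial.aeval (C ζ : MvPolynomial (Fin n) (AlgebraicClosure k)) g) =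
      C (Polynomial.aeval ζ g) := by
    have := Polynomial.aeval_algHom_apply ((Algebra.ofId (AlgebraicClosure k)
      (MvPolynomial (Fin n) (AlgebraicClosure k))).restrictScalars k) ζ g
    exact this
  rw [h2] at h1
  have h3 : IsUnit (C (Polynomial.aeval ζ g) : MvPolynomial (Fin n) (AlgebraicClosure k)) :=
    isUnit_iff_C.2 ⟨_, hζ, rfl⟩
  rw [← h1] at h3
  exact isUnit_of_mul_isUnit_left h3

theorem transc {s : (MvPolynomial (Fin n) k)} (hs : ¬ Cst s) {g : Polynomial k} (h : Polynomial.aeval s g = 0) :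
    g = 0 := by
  by_contra hg
  have h1 : IsAlgebraic k s := ⟨g, hg, h⟩
  apply hs
  by_cases h0 : s = 0
  · exact Or.inl h0
  · exact cst_of_isUnit (IsIntegral.isUnit h1.isIntegral h0)

theorem aeval_sub_dvd (s t : (MvPolynomial (Fin n) k)) (g : Polynomial k) :
    (s - t) ∣ (Polynomial.aeval s g - Polynomial.aeval t g) := by
  rw [Polynomial.aeval_def, Polynomial.aeval_def, Polynomial.eval₂_eq_eval_map,
    Polynomial.eval₂_eq_eval_map]
  exact Polynomial.sub_dvd_eval_sub _ _ _

theorem idl_sub (y c : Fin n → (MvPolynomial (Fin n) k)) (f : (MvPolynomial (Fin n) k)) : Idl y c (aeval y f - aeval c f) := by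
  induction f using MvPolynomial.induction_on with
  | C a => exact ⟨fun _ => 0, by simp⟩
  | add p q hp hq =>
    obtain ⟨g, hg⟩ := hp
    obtain ⟨g', hg'⟩ := hq
    refine ⟨fun i => g i + g' i, ?_⟩
    simp only [map_add, add_mul, Finset.sum_add_distrib]
    rw [← hg, ← hg']
    ring
  | mul_X p i hp =>
    obtain ⟨g, hg⟩ := hp
    refine ⟨fun j => g j * y i + (if j = i then aeval c p else 0), ?_⟩
    simp only [map_mul, aeval_X, add_mul, Finset.sum_add_distrib]
    have e1 : ∑ x, g x * y i * (y x - c x) = (∑ x, g x * (y x - c x)) * y i := by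
      rw [Finset.sum_mul]
      exact Finset.sum_congr rfl (fun _ _ => by ring)
    have e2 : ∑ x, (if x = i then aeval c p else 0) * (y x - c x) = aeval c p * (y i - c i) := by
      simp
    rw [e1, e2, ← hg]
    ring

end Pool.Agent.H1.HomLog
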