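import Pool.Agent.H1.HomLogC

set_option autoImplicit false
set_option linter.all false

namespace Pool.Agent.H1.HomLog

open FirstOrder FirstOrder.Language MvPolynomial

variable {k : Type} [Field k] {n : ℕ}


theorem PF.comap {ι κ : Type} (e : ι → κ) {F : (ι → (MvPolynomial (Fin n) k)) → (MvPolynomial (Fin n) k)} (hF : PF k n ι F) :
    PF k n κ (fun u => F (fun i => u (e i))) := by
  letI := FirstOrder.Ring.compatibleRingOfRing (MvPolynomial (Fin n) k)
  obtain ⟨t, ht⟩ := hF
  refine ⟨t.relabel (Sum.map e id), fun v => ?_⟩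
  rw [Term.realize_relabel]
  have := ht (fun i => v (e i))
  refine Eq.trans ?_ this
  congr 1
  funext x
  rcases x with x | x <;> rfl

theorem Dfn.dvd {ι : Type} {F G : (ι → (MvPolynomial (Fin n) k)) → (MvPolynomial (Fin n) k)} (hF : PF k n ι F) (hG : PF k n ι G) :
    Dfn k n ι (fun v => F v ∣ G v) := by
  refine Dfn.congr (S := fun v => ∃ w, G v = F v * w) ?_ (fun v => Iff.rfl)
  refine Dfn.ex ?_
  exact Dfn.eq (PF.comap _ hG) ((PF.comap _ hF).mul (PF.var _))

theorem Dfn.isUnit {ι : Type} {F : (ι → (MvPolynomial (Fin n) k)) → (MvPolynomial (Fin n) k)} (hF : PF k n ι F) :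
    Dfn k n ι (fun v => IsUnit (F v)) := by
  refine Dfn.congr (S := fun v => F v ∣ 1) ?_ (fun v => isUnit_iff_dvd_one.symm)
  exact Dfn.dvd hF PF.one

theorem Dfn.cst {ι : Type} {F : (ι → (MvPolynomial (Fin n) k)) → (MvPolynomial (Fin n) k)} (hF : PF k n ι F) :
    Dfn k n ι (fun v => Cst (F v)) := by
  refine Dfn.or (Dfn.eq hF PF.zero) ?_
  refine Dfn.ex ?_
  exact Dfn.eq ((PF.comap _ hF).mul (PF.var _)) PF.one

theorem Dfn.prime {ι : Type} (i : ι) :
    Dfn k n ι (fun v => Prime (v i)) := by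
  refine Dfn.and (Dfn.not (Dfn.eq (PF.var i) PF.zero)) (Dfn.and (Dfn.not (Dfn.isUnit (PF.var i))) ?_)
  refine Dfn.all ?_
  refine Dfn.all ?_
  refine Dfn.imp ?_ (Dfn.or ?_ ?_)
  · exact Dfn.dvd (PF.var _) ((PF.var _).mul (PF.var _))
  · exact Dfn.dvd (PF.var _) (PF.var _)
  · exact Dfn.dvd (PF.var _) (PF.var _)

theorem Dfn.inB {ι : Type} (i j : ι) :
    Dfn k n ι (fun v => InB (v i) (v j)) := by
  refine Dfn.all ?_
  refine Dfn.imp (Dfn.prime _) (Dfn.imp ?_ (Dfn.or ?_ ?_))
  · refine Dfn.ex ?_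
    refine Dfn.and ?_ (Dfn.and ?_ (Dfn.and ?_ ?_))
    · exact Dfn.dvd ((PF.var _).sub PF.one) ((PF.var _).sub PF.one)
    · refine Dfn.all ?_
      exact Dfn.imp (Dfn.dvd (PF.var _) (PF.var _)) (Dfn.or (Dfn.isUnit (PF.var _))
        (Dfn.dvd (PF.var _) (PF.var _)))
    · exact Dfn.not (Dfn.eq (PF.var _) PF.one)
    · exact Dfn.dvd (PF.var _) ((PF.var _).sub PF.one)
  · exact Dfn.dvd (PF.var _) (PF.var _)
  · refine Dfn.ex ?_
    exact Dfn.dvd (PF.var _) (((PF.var _).mul (PF.var _)).sub PF.one)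

theorem Dfn.inj {ι : Type} (i j : ι) :
    Dfn k n ι (fun v => Inj (v i) (v j)) := by
  refine Dfn.all ?_
  refine Dfn.all ?_
  refine Dfn.imp (Dfn.inB _ _) (Dfn.imp (Dfn.inB _ _) (Dfn.imp ?_ ?_))
  · exact Dfn.dvd ((PF.var _).sub (PF.var _)) ((PF.var _).sub (PF.var _))
  · exact Dfn.eq (PF.var _) (PF.var _)

theorem Dfn.idl {ι : Type} {y c : Fin n → (ι → (MvPolynomial (Fin n) k)) → (MvPolynomial (Fin n) k)} {F : (ι → (MvPolynomial (Fin n) k)) → (MvPolynomial (Fin n) k)}
    (hy : ∀ i, PF k n ι (y i)) (hc : ∀ i, PF k n ι (c i)) (hF : PF k n ι F) :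
    Dfn k n ι (fun v => Idl (fun i => y i v) (fun i => c i v) (F v)) := by
  refine Dfn.exT ?_
  refine Dfn.eq (PF.comap _ hF) (PF.sum _ (fun i => ?_))
  exact (PF.var (Sum.inr i)).mul ((PF.comap _ (hy i)).sub (PF.comap _ (hc i)))

theorem Dfn.chi (i0 : Fin n) : Dfn k n (Fin n) (fun y => Chi i0 y) := by
  refine Dfn.and (Dfn.not (Dfn.cst (PF.var _))) (Dfn.and ?_ ?_)
  · refine Dfn.all ?_
    exact Dfn.imp (Dfn.not (Dfn.cst (PF.var _))) (Dfn.imp (Dfn.inj _ _) (Dfn.inj _ _))
  · refine Dfn.allT ?_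
    refine Dfn.imp (Dfn.not (Dfn.cst (PF.var _))) (Dfn.imp (Dfn.inj _ _) ?_)
    refine Dfn.all ?_
    refine Dfn.ex ?_
    refine Dfn.allT ?_
    refine Dfn.allT ?_
    refine Dfn.imp (Dfn.eq (PF.var _) (PF.var _)) (Dfn.imp (Dfn.eq (PF.var _) (PF.var _)) ?_)
    refine Dfn.imp (Dfn.allFin (fun i => Dfn.inB _ _)) (Dfn.imp (Dfn.allFin (fun i => Dfn.inB _ _)) ?_)
    refine Dfn.imp (Dfn.allFin (fun i => Dfn.dvd ((PF.var _).sub (PF.var _))
      ((PF.var _).sub (PF.var _)))) ?_
    refine Dfn.ex ?_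
    refine Dfn.ex ?_
    refine Dfn.and (Dfn.inB _ _) (Dfn.and (Dfn.inB _ _) (Dfn.and ?_ (Dfn.and ?_ ?_)))
    · exact Dfn.dvd ((PF.var _).sub (PF.var _)) ((PF.var _).sub (PF.var _))
    · exact Dfn.idl (fun i => PF.var _) (fun i => PF.var _) ((PF.var _).sub (PF.var _))
    · exact Dfn.idl (fun i => PF.var _) (fun i => PF.var _) ((PF.var _).sub (PF.var _))

theorem inj_of_surj {R : Type} [CommRing R] [IsNoetherianRing R] (f : R →+* R)
    (hf : Function.Surjective f) : Function.Injective f := by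
  have hmono : Monotone (fun m : ℕ => RingHom.ker (f ^ m)) := by
    apply monotone_nat_of_le_succ
    intro m x hx
    rw [RingHom.mem_ker] at hx ⊢
    rw [pow_succ', RingHom.mul_def, RingHom.comp_apply, hx, map_zero]
  obtain ⟨N, hN⟩ := monotone_stabilizes_iff_noetherian.2 (inferInstance : IsNoetherian R R)
    ⟨_, hmono⟩
  rw [injective_iff_map_eq_zero]
  intro a ha
  have hs : ∀ m : ℕ, Function.Surjective (f ^ m) := by
    intro m
    rw [RingHom.coe_pow]
    exact hf.iterate m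
  obtain ⟨b, rfl⟩ := hs N a
  have h1 : b ∈ RingHom.ker (f ^ (N + 1)) := by
    rw [RingHom.mem_ker, pow_succ', RingHom.mul_def, RingHom.comp_apply, ha]
  have h2 := hN (N + 1) (by omega)
  simp only [OrderHom.coe_mk] at h2
  rw [← h2, RingHom.mem_ker] at h1
  exact h1

theorem scheme {m : ℕ} (a b : Fin m → (MvPolynomial (Fin n) k))
    (h : ∀ (r : ℕ) (c : Fin r → k) (φ : FirstOrder.Language.ring.Formula (Fin m ⊕ Fin r)),
        (@FirstOrder.Language.Formula.Realize FirstOrder.Language.ring (MvPolynomial (Fin n) k)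
            (FirstOrder.Ring.compatibleRingOfRing (MvPolynomial (Fin n) k)).toStructure
            (Fin m ⊕ Fin r) φ (Sum.elim a (fun i => algebraMap k (MvPolynomial (Fin n) k) (c i))) ↔
          @FirstOrder.Language.Formula.Realize FirstOrder.Language.ring (MvPolynomial (Fin n) k)
            (FirstOrder.Ring.compatibleRingOfRing (MvPolynomial (Fin n) k)).toStructure
            (Fin m ⊕ Fin r) φ (Sum.elim b (fun i => algebraMap k (MvPolynomial (Fin n) k) (c i)))))
    (χ : (Fin n → (MvPolynomial (Fin n) k)) → Prop) (hχ : Dfn k n (Fin n) χ) (hX : χ (fun i => X i))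
    (hgen : ∀ y, χ y → Function.Surjective (aeval y : (MvPolynomial (Fin n) k) →ₐ[k] (MvPolynomial (Fin n) k))) :
    ∃ σ : MvPolynomial (Fin n) k ≃ₐ[k] MvPolynomial (Fin n) k, ∀ i, σ (a i) = b i := by
  have hS : Dfn k n (Fin m) (fun v => ∃ y : Fin n → (MvPolynomial (Fin n) k), χ y ∧ ∀ i, v i = aeval y (a i)) := by
    refine Dfn.exT ?_
    refine Dfn.and ?_ (Dfn.allFin (fun i => Dfn.eq (PF.var _) ?_))
    · obtain ⟨φ, hφ⟩ := hχ
      refine ⟨φ.relabel (Sum.map Sum.inr id), fun v => ?_⟩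
      letI := FirstOrder.Ring.compatibleRingOfRing (MvPolynomial (Fin n) k)
      rw [Formula.realize_relabel]
      have := hφ (fun j => v (Sum.inr j))
      refine Iff.trans ?_ this
      have e : (Sum.elim v (fun a => (C a : (MvPolynomial (Fin n) k)))) ∘ (Sum.map Sum.inr id) =
          Sum.elim (fun j => v (Sum.inr j)) (fun a => (C a : (MvPolynomial (Fin n) k))) := by
        funext x
        rcases x with x | x <;> rfl
      rw [e]
    · exact PF.aeval (a i) (fun j => PF.var (Sum.inr j))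
  have ha : ∃ y : Fin n → (MvPolynomial (Fin n) k), χ y ∧ ∀ i, a i = aeval y (a i) := by
    refine ⟨fun i => X i, hX, fun i => ?_⟩
    have : (aeval (fun i => (X i : (MvPolynomial (Fin n) k))) : (MvPolynomial (Fin n) k) →ₐ[k] (MvPolynomial (Fin n) k)) = AlgHom.id k (MvPolynomial (Fin n) k) := by
      apply MvPolynomial.algHom_ext
      intro i
      simp
    rw [this]
    rfl
  obtain ⟨y, hy, hyb⟩ := (transfer a b h hS).1 ha
  have hsurj := hgen y hy
  have hinj : Function.Injective (aeval y : (MvPolynomial (Fin n) k) →ₐ[k] (MvPolynomial (Fin n) k)) :=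
    inj_of_surj (aeval y : (MvPolynomial (Fin n) k) →ₐ[k] (MvPolynomial (Fin n) k)).toRingHom hsurj
  exact ⟨AlgEquiv.ofBijective (aeval y) ⟨hinj, hsurj⟩, fun i => (hyb i).symm⟩

theorem surj_one {y : Fin 1 → MvPolynomial (Fin 1) k} (h0 : ¬ Cst (y 0))
    (h : ∀ f, ∃ c, Cst c ∧ y 0 ∣ f - c) :
    Function.Surjective (aeval y : MvPolynomial (Fin 1) k →ₐ[k] MvPolynomial (Fin 1) k) := by
  obtain ⟨c, hc, u, hu⟩ := h (X 0)
  obtain ⟨c, rfl⟩ := cst_iff.1 hc
  have hne : (X 0 - C c : MvPolynomial (Fin 1) k) ≠ 0 := by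
    intro h
    apply not_cst_X (k := k) (0 : Fin 1)
    rw [cst_iff]
    exact ⟨c, sub_eq_zero.1 h⟩
  have hy0 : y 0 ≠ 0 := by
    intro h
    rw [h, zero_mul] at hu
    exact hne hu
  have hu0 : u ≠ 0 := by
    intro h
    rw [h, mul_zero] at hu
    exact hne hu
  have hdeg := totalDegree_mul_of_isDomain hy0 hu0
  rw [← hu] at hdeg
  have hle : (X 0 - C c : MvPolynomial (Fin 1) k).totalDegree ≤ 1 := by
    refine (totalDegree_sub _ _).trans ?_
    rw [totalDegree_X, totalDegree_C]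
    simp
  have hy1 : (y 0).totalDegree ≠ 0 := by
    intro h
    apply h0
    rw [cst_iff]
    exact ⟨_, totalDegree_eq_zero_iff_eq_C.1 h⟩
  have hu1 : u.totalDegree = 0 := by omega
  have hu2 := totalDegree_eq_zero_iff_eq_C.1 hu1
  set r : k := coeff 0 u with hr
  have hX : (X 0 : MvPolynomial (Fin 1) k) = aeval y (C r * X 0 + C c) := by
    rw [map_add, map_mul, aeval_C, aeval_C, aeval_X, MvPolynomial.algebraMap_eq, ← hu2,
      mul_comm, ← hu]
    ring
  intro f
  refine ⟨aeval (fun _ => C r * X 0 + C c) f, ?_⟩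
  have : ((aeval y).comp (aeval (fun _ => (C r * X 0 + C c : MvPolynomial (Fin 1) k))) :
      MvPolynomial (Fin 1) k →ₐ[k] MvPolynomial (Fin 1) k) = AlgHom.id k _ := by
    apply MvPolynomial.algHom_ext
    intro i
    rw [AlgHom.comp_apply, aeval_X, ← hX, AlgHom.id_apply, Subsingleton.elim i 0]
  have h2 := congrArg (fun φ : MvPolynomial (Fin 1) k →ₐ[k] MvPolynomial (Fin 1) k => φ f) this
  exact h2

theorem main (k : Type) [Field k] (n m : ℕ) (a b : Fin m → MvPolynomial (Fin n) k)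
    (h : ∀ (r : ℕ) (c : Fin r → k) (φ : FirstOrder.Language.ring.Formula (Fin m ⊕ Fin r)),
        (@FirstOrder.Language.Formula.Realize FirstOrder.Language.ring (MvPolynomial (Fin n) k)
            (FirstOrder.Ring.compatibleRingOfRing (MvPolynomial (Fin n) k)).toStructure
            (Fin m ⊕ Fin r) φ (Sum.elim a (fun i => algebraMap k (MvPolynomial (Fin n) k) (c i))) ↔
          @FirstOrder.Language.Formula.Realize FirstOrder.Language.ring (MvPolynomial (Fin n) k)
            (FirstOrder.Ring.compatibleRingOfRing (MvPolynomial (Fin n) k)).toStructure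
            (Fin m ⊕ Fin r) φ (Sum.elim b (fun i => algebraMap k (MvPolynomial (Fin n) k) (c i))))) :
    ∃ σ : MvPolynomial (Fin n) k ≃ₐ[k] MvPolynomial (Fin n) k, ∀ i, σ (a i) = b i := by
  rcases n with _ | _ | n
  · apply scheme a b h (fun _ => True)
    · exact (Dfn.eq PF.zero PF.zero).congr (fun v => by simp)
    · trivial
    · intro y _ f
      refine ⟨f, ?_⟩
      have : (aeval y : MvPolynomial (Fin 0) k →ₐ[k] MvPolynomial (Fin 0) k) = AlgHom.id k _ := by
        apply MvPolynomial.algHom_ext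
        intro i
        exact i.elim0
      rw [this]
      rfl
  · apply scheme a b h (fun y => ¬ Cst (y 0) ∧ ∀ f, ∃ c, Cst c ∧ y 0 ∣ f - c)
    · refine Dfn.and (Dfn.not (Dfn.cst (PF.var _))) ?_
      refine Dfn.all ?_
      refine Dfn.ex ?_
      exact Dfn.and (Dfn.cst (PF.var _)) (Dfn.dvd (PF.var _) ((PF.var _).sub (PF.var _)))
    · refine ⟨not_cst_X _, fun f => ?_⟩
      obtain ⟨g, hg⟩ := idl_sub (fun i => (X i : MvPolynomial (Fin 1) k)) (fun _ => 0) f
      refine ⟨aeval (fun _ => (0 : MvPolynomial (Fin 1) k)) f, ?_, g 0, ?_⟩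
      · rw [cst_iff]
        refine ⟨aeval (fun _ => (0 : k)) f, ?_⟩
        have : (aeval (fun _ => (0 : MvPolynomial (Fin 1) k)) :
            MvPolynomial (Fin 1) k →ₐ[k] MvPolynomial (Fin 1) k) =
            (Algebra.ofId k (MvPolynomial (Fin 1) k)).comp (aeval (fun _ => (0 : k))) := by
          apply MvPolynomial.algHom_ext
          intro i
          simp
        rw [this]
        rfl
      · have e : aeval (fun i => (X i : MvPolynomial (Fin 1) k)) f = f := by
          have : (aeval (fun i => (X i : MvPolynomial (Fin 1) k)) :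
              MvPolynomial (Fin 1) k →ₐ[k] MvPolynomial (Fin 1) k) = AlgHom.id k _ := by
            apply MvPolynomial.algHom_ext
            intro i
            simp
          rw [this]
          rfl
        rw [e] at hg
        rw [hg]
        simp [mul_comm]
    · intro y hy
      exact surj_one hy.1 hy.2
  · apply scheme a b h (fun y => Chi 0 y) (Dfn.chi _) (chi_X _)
    intro y hy
    exact chi_gen (i1 := 1) (by simp) hy

end Pool.Agent.H1.HomLog
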