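import Pool.Agent.H1.HomLogUB

set_option autoImplicit false
set_option linter.all false

namespace Pool.Agent.H1.HomLogU

universe u v

open MvPolynomial

variable {k : Type u} [Field k] {n : ℕ}


/-- the formula describing coordinate systems (at least two variables) -/
def Chi (i0 : Fin n) (y : Fin n → (MvPolynomial (Fin n) k)) : Prop :=
  ¬ Cst (y i0) ∧ (∀ s, ¬ Cst s → Inj s (y i0) → Inj (y i0) s) ∧
  ∀ z : Fin n → (MvPolynomial (Fin n) k), ¬ Cst (z i0) → Inj (z i0) (y i0) → ∀ f, ∃ f', ∀ c : Fin n → (MvPolynomial (Fin n) k),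
    ∀ c' : Fin n → (MvPolynomial (Fin n) k), c i0 = y i0 → c' i0 = z i0 → (∀ i, InB (y i0) (c i)) →
    (∀ i, InB (z i0) (c' i)) → (∀ i, (y i0 - z i0) ∣ (c i - c' i)) →
    ∃ d, ∃ d', InB (y i0) d ∧ InB (z i0) d' ∧ (y i0 - z i0) ∣ (d - d') ∧
      Idl y c (f - d) ∧ Idl z c' (f' - d')

theorem not_cst_X (j : Fin n) : ¬ Cst (X j : (MvPolynomial (Fin n) k)) := by
  rw [cst_iff]
  rintro ⟨c, hc⟩
  have h1 := congrArg (aeval (fun _ => (0 : k))) hc
  have h2 := congrArg (aeval (fun _ => (1 : k))) hc
  simp at h1 h2
  rw [← h1] at h2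
  exact one_ne_zero h2

theorem mv_aeval_poly (t : (MvPolynomial (Fin n) k)) (γ : Fin n → Polynomial k) (f : (MvPolynomial (Fin n) k)) :
    Polynomial.aeval t (aeval γ f) = aeval (fun i => Polynomial.aeval t (γ i)) f := by
  have : (aeval (fun i => Polynomial.aeval t (γ i)) : (MvPolynomial (Fin n) k) →ₐ[k] (MvPolynomial (Fin n) k)) =
      (Polynomial.aeval t).comp (aeval γ) := by
    apply MvPolynomial.algHom_ext
    intro i
    simp
  rw [this]
  rfl

theorem chi_X (i0 : Fin n) : Chi i0 (fun i => (X i : (MvPolynomial (Fin n) k))) := by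
  classical
  refine ⟨not_cst_X i0, ?_, ?_⟩
  · intro s hs hinj b b' hb hb' hd
    obtain ⟨β, rfl⟩ := inB_X hb
    obtain ⟨β', rfl⟩ := inB_X hb'
    have h1 : (s - X i0) ∣ (Polynomial.aeval s β - Polynomial.aeval s β') := by
      have e : Polynomial.aeval s β - Polynomial.aeval s β' =
          (Polynomial.aeval s β - Polynomial.aeval (X i0 : (MvPolynomial (Fin n) k)) β) +
          (Polynomial.aeval (X i0 : (MvPolynomial (Fin n) k)) β - Polynomial.aeval (X i0 : (MvPolynomial (Fin n) k)) β') -
          (Polynomial.aeval s β' - Polynomial.aeval (X i0 : (MvPolynomial (Fin n) k)) β') := by ring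
      rw [e]
      refine dvd_sub (dvd_add (aeval_sub_dvd _ _ _) ?_) (aeval_sub_dvd _ _ _)
      rw [← neg_sub, neg_dvd]
      exact hd
    have h2 := hinj _ _ (inB_aeval hs β) (inB_aeval hs β') h1
    have h3 : β - β' = 0 := transc hs (by rw [map_sub, h2, sub_self])
    rw [sub_eq_zero.1 h3]
  · intro z hz hinj f
    refine ⟨aeval z f, ?_⟩
    intro c c' hc hc' hcB hcB' hd
    choose γ hγ using fun i => inB_X (hcB i)
    have hγ' : ∀ i, c' i = Polynomial.aeval (z i0) (γ i) := by
      intro i
      apply hinj _ _ (hcB' i) (inB_aeval hz _)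
      have e : c' i - Polynomial.aeval (z i0) (γ i) =
          -(c i - c' i) - (Polynomial.aeval (z i0) (γ i) - Polynomial.aeval (X i0 : (MvPolynomial (Fin n) k)) (γ i)) := by
        rw [hγ i]; ring
      rw [e]
      refine dvd_sub ?_ (aeval_sub_dvd _ _ _)
      rw [← neg_sub (X i0 : (MvPolynomial (Fin n) k)) (z i0), neg_dvd, dvd_neg]
      exact hd i
    have hcf : c = fun i => Polynomial.aeval (X i0 : (MvPolynomial (Fin n) k)) (γ i) := funext hγ
    have hcf' : c' = fun i => Polynomial.aeval (z i0) (γ i) := funext hγ'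
    refine ⟨aeval c f, aeval c' f, ?_, ?_, ?_, ?_, ?_⟩
    · rw [hcf, ← mv_aeval_poly]
      exact inB_aeval (not_cst_X i0) _
    · rw [hcf', ← mv_aeval_poly]
      exact inB_aeval hz _
    · rw [hcf, hcf', ← mv_aeval_poly, ← mv_aeval_poly]
      exact aeval_sub_dvd _ _ _
    · have := idl_sub (fun i => (X i : (MvPolynomial (Fin n) k))) c f
      have e : aeval (fun i => (X i : (MvPolynomial (Fin n) k))) f = f := by
        have : (aeval (fun i => (X i : (MvPolynomial (Fin n) k))) : (MvPolynomial (Fin n) k) →ₐ[k] (MvPolynomial (Fin n) k)) = AlgHom.id k (MvPolynomial (Fin n) k) := by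
          apply MvPolynomial.algHom_ext
          intro i
          simp
        rw [this]
        rfl
      rwa [e] at this
    · exact idl_sub z c' f

/-- an element in two one-variable subrings is constant -/
theorem cst_of_two {i j : Fin n} (hij : i ≠ j) {a : (MvPolynomial (Fin n) k)} {g h : Polynomial k}
    (hg : a = Polynomial.aeval (X i : (MvPolynomial (Fin n) k)) g) (hh : a = Polynomial.aeval (X j : (MvPolynomial (Fin n) k)) h) : Cst a := by
  classical
  rw [cst_iff]
  refine ⟨g.eval 0, ?_⟩
  have e1 : aeval (fun l => if l = i then (0 : (MvPolynomial (Fin n) k)) else X l) a = C (g.eval 0) := by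
    rw [hg, ← Polynomial.aeval_algHom_apply]
    simp only [aeval_X, if_true]
    rw [Polynomial.aeval_def, Polynomial.eval₂_at_zero, Polynomial.coeff_zero_eq_eval_zero]
    rfl
  have e2 : aeval (fun l => if l = i then (0 : (MvPolynomial (Fin n) k)) else X l) a = a := by
    conv_lhs => rw [hh]
    rw [← Polynomial.aeval_algHom_apply]
    simp only [aeval_X, if_neg hij.symm]
    exact hh.symm
  rw [← e2, e1]

/-- density of the good points -/
theorem density (i0 : Fin n) {y : Fin n → (MvPolynomial (Fin n) k)} (hy : ¬ Cst (y i0)) {F : (MvPolynomial (Fin n) k)}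
    (hF : ∀ (K : Type) [Field K] [Algebra k K] (x : Fin n → K),
      (∀ i, ∃ γ : Polynomial k, aeval x (y i) = Polynomial.aeval (aeval x (y i0)) γ) →
      aeval x F = 0)
    (hF2 : ∀ (x : Fin n → k),
      (∀ i, ∃ γ : Polynomial k, aeval x (y i) = Polynomial.aeval (aeval x (y i0)) γ) →
      aeval x F = 0) : F = 0 := by
  classical
  rcases finite_or_infinite k with hk | hk
  · -- finite field
    haveI : Fintype k := Fintype.ofFinite k
    obtain ⟨p, hp⟩ := CharP.exists k
    haveI : Fact p.Prime := ⟨CharP.char_is_prime k p⟩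
    set W : (MvPolynomial (Fin n) k) := ∏ c : k, (y i0 - C c) with hW
    have hW0 : W ≠ 0 := by
      rw [hW, Finset.prod_ne_zero_iff]
      intro c _ h
      apply hy
      rw [cst_iff]
      exact ⟨c, sub_eq_zero.1 h⟩
    -- a large prime
    obtain ⟨ℓ, hℓ1, hℓ⟩ := Nat.exists_infinite_primes ((F * W).totalDegree + 1)
    haveI : NeZero ℓ := ⟨hℓ.ne_zero⟩
    let K := FiniteField.Extension k p ℓ
    haveI : Fintype K := Fintype.ofFinite K
    have hcardK : (Fintype.card K) = (Fintype.card k) ^ ℓ := by
      have := FiniteField.natCard_extension k p ℓ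
      rwa [Nat.card_eq_fintype_card, Nat.card_eq_fintype_card] at this
    have hlt : (F * W).totalDegree < Fintype.card K := by
      rw [hcardK]
      have h2 : 2 ≤ Fintype.card k := Fintype.one_lt_card
      calc (F * W).totalDegree < ℓ := by omega
        _ < 2 ^ ℓ := Nat.lt_two_pow_self
        _ ≤ _ := Nat.pow_le_pow_left h2 ℓ
    have hprod : map (algebraMap k K) (F * W) = 0 := by
      apply MvPolynomial.eq_zero_of_eval_zero_at_prod_finset _ (fun _ => Finset.univ)
      · intro i
        rw [Finset.card_univ]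
        calc degreeOf i (map (algebraMap k K) (F * W)) ≤ (map (algebraMap k K) (F * W)).totalDegree :=
              degreeOf_le_totalDegree _ _
          _ ≤ (F * W).totalDegree := by
              unfold totalDegree
              exact Finset.sup_mono (support_map_subset _ _)
          _ < _ := hlt
      · intro x _
        rw [MvPolynomial.eval_map, ← MvPolynomial.aeval_def, map_mul]
        by_cases hx : ∃ c : k, aeval x (y i0) = algebraMap k K c
        · obtain ⟨c, hc⟩ := hx
          have : aeval x W = 0 := by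
            rw [hW, map_prod]
            apply Finset.prod_eq_zero (Finset.mem_univ c)
            rw [map_sub, hc, aeval_C, sub_self]
          rw [this, mul_zero]
        · have : aeval x F = 0 := by
            apply hF K x
            intro i
            have hsimple : IsSimpleOrder (Subalgebra k K) :=
              Subalgebra.isSimpleOrder_of_finrank_prime k K
                (by rw [FiniteField.finrank_extension]; exact hℓ)
            have htop : Algebra.adjoin k {(aeval x (y i0) : K)} = ⊤ := by
              rcases hsimple.eq_bot_or_eq_top (Algebra.adjoin k {(aeval x (y i0) : K)}) with h | h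
              · exfalso
                apply hx
                have h1 : (aeval x (y i0) : K) ∈ (⊥ : Subalgebra k K) := by
                  rw [← h]
                  exact Algebra.subset_adjoin rfl
                obtain ⟨c, hc⟩ := Algebra.mem_bot.1 h1
                exact ⟨c, hc.symm⟩
              · exact h
            have h2 : (aeval x (y i) : K) ∈ Algebra.adjoin k {(aeval x (y i0) : K)} := by
              rw [htop]; trivial
            rw [Algebra.adjoin_singleton_eq_range_aeval] at h2
            obtain ⟨γ, hγ⟩ := h2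
            exact ⟨γ, hγ.symm⟩
          rw [this, zero_mul]
    have h0 : F * W = 0 := by
      apply MvPolynomial.map_injective (algebraMap k K) (algebraMap k K).injective
      rw [hprod, map_zero]
    rcases mul_eq_zero.1 h0 with h | h
    · exact h
    · exact absurd h hW0
  · apply MvPolynomial.funext
    intro x
    rw [map_zero]
    have := hF2 x (fun i => ⟨Polynomial.C (aeval x (y i)), by simp⟩)
    rwa [MvPolynomial.aeval_eq_eval] at this

theorem ev_zero {K : Type v} [Field K] [Algebra k K] {i0 : Fin n} {y : Fin n → (MvPolynomial (Fin n) k)}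
    {F : (MvPolynomial (Fin n) k)}
    (hidl : ∀ γ : Fin n → Polynomial k, γ i0 = Polynomial.X →
      Idl y (fun i => Polynomial.aeval (y i0) (γ i)) F) (x : Fin n → K)
    (hx : ∀ i, ∃ γ : Polynomial k, aeval x (y i) = Polynomial.aeval (aeval x (y i0)) γ) :
    aeval x F = 0 := by
  classical
  choose γ hγ using hx
  have hγ' : ∀ i, aeval x (y i) = Polynomial.aeval (aeval x (y i0))
      ((Function.update γ i0 Polynomial.X) i) := by
    intro i
    by_cases hi : i = i0
    · subst hi
      simp
    · rw [Function.update_of_ne hi]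
      exact hγ i
  obtain ⟨g, hg⟩ := hidl (Function.update γ i0 Polynomial.X) (by simp)
  rw [hg, map_sum]
  apply Finset.sum_eq_zero
  intro i _
  rw [map_mul, map_sub, ← Polynomial.aeval_algHom_apply, ← hγ', sub_self, mul_zero]

theorem chi_gen {i0 i1 : Fin n} (h01 : i0 ≠ i1) {y : Fin n → (MvPolynomial (Fin n) k)} (hy : Chi i0 y) :
    Function.Surjective (aeval y : (MvPolynomial (Fin n) k) →ₐ[k] (MvPolynomial (Fin n) k)) := by
  classical
  obtain ⟨hy0, hy1, hy2⟩ := hy
  -- choose a coordinate system
  obtain ⟨e, he⟩ : ∃ e : Equiv.Perm (Fin n), ¬ ∃ g : Polynomial k,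
      y i0 = Polynomial.aeval (X (e i0) : (MvPolynomial (Fin n) k)) g := by
    by_cases h : ∃ g : Polynomial k, y i0 = Polynomial.aeval (X i0 : (MvPolynomial (Fin n) k)) g
    · obtain ⟨g, hg⟩ := h
      refine ⟨Equiv.swap i0 i1, ?_⟩
      rintro ⟨g', hg'⟩
      rw [Equiv.swap_apply_left] at hg'
      exact hy0 (cst_of_two h01 hg hg')
    · exact ⟨Equiv.refl _, h⟩
  set z : Fin n → (MvPolynomial (Fin n) k) := fun i => X (e i) with hz
  have hz0 : ¬ Cst (z i0) := not_cst_X _
  have hinj : Inj (z i0) (y i0) := by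
    intro b b' hb hb' hd
    obtain ⟨β, rfl⟩ := inB_X hb
    obtain ⟨β', rfl⟩ := inB_X hb'
    by_contra hne
    obtain ⟨w, hw⟩ := hd
    have hβ : β - β' ≠ 0 := by
      intro h
      apply hne
      rw [sub_eq_zero.1 h]
    have h1 : (z i0 - y i0) * w = Polynomial.aeval (X (e i0) : (MvPolynomial (Fin n) k)) (β - β') := by
      rw [← hw, map_sub]
    obtain ⟨g', hg'⟩ := xdiv hβ h1
    apply he
    refine ⟨Polynomial.X - g', ?_⟩
    rw [map_sub, Polynomial.aeval_X, ← hg', hz]
    ring
  have hinj' : Inj (y i0) (z i0) := hy1 _ hz0 hinj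
  intro f
  obtain ⟨f', hf'⟩ := hy2 z hz0 hinj f
  set Q : (MvPolynomial (Fin n) k) := aeval (fun i => X (e.symm i)) f' with hQ
  have hzQ : aeval z Q = f' := by
    have : ((aeval z).comp (aeval (fun i => (X (e.symm i) : (MvPolynomial (Fin n) k)))) : (MvPolynomial (Fin n) k) →ₐ[k] (MvPolynomial (Fin n) k)) = AlgHom.id k (MvPolynomial (Fin n) k) := by
      apply MvPolynomial.algHom_ext
      intro i
      simp [hz]
    have h2 := congrArg (fun φ : (MvPolynomial (Fin n) k) →ₐ[k] (MvPolynomial (Fin n) k) => φ f') this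
    exact h2
  refine ⟨Q, ?_⟩
  suffices h : f - aeval y Q = 0 from (sub_eq_zero.1 h).symm
  have hidl : ∀ γ : Fin n → Polynomial k, γ i0 = Polynomial.X →
      Idl y (fun i => Polynomial.aeval (y i0) (γ i)) (f - aeval y Q) := by
    intro γ hγ
    obtain ⟨d, d', hd1, hd2, hd3, hd4, hd5⟩ := hf' (fun i => Polynomial.aeval (y i0) (γ i))
      (fun i => Polynomial.aeval (z i0) (γ i)) (by simp only [hγ, Polynomial.aeval_X])
      (by simp only [hγ, Polynomial.aeval_X]) (fun i => inB_aeval hy0 _) (fun i => inB_aeval hz0 _)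
      (fun i => aeval_sub_dvd _ _ _)
    obtain ⟨δ, hδ⟩ := inB_X hd2
    -- evaluate
    have hδ2 : aeval γ Q = δ := by
      set θ : (MvPolynomial (Fin n) k) →ₐ[k] Polynomial k := aeval (fun i => γ (e.symm i)) with hθ
      have hθz : ∀ i, θ (z i) = γ i := by
        intro i
        simp [hθ, hz]
      have hθf : θ f' = aeval γ Q := by
        rw [← hzQ]
        have : (θ.comp (aeval z) : (MvPolynomial (Fin n) k) →ₐ[k] Polynomial k) = aeval γ := by
          apply MvPolynomial.algHom_ext
          intro i
          rw [AlgHom.comp_apply, aeval_X, hθz, aeval_X]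
        rw [← this]
        rfl
      have hθ0 : ∀ g : Polynomial k, θ (Polynomial.aeval (z i0) g) = g := by
        intro g
        rw [← Polynomial.aeval_algHom_apply, hθz, hγ, Polynomial.aeval_X_left_apply]
      obtain ⟨g, hg⟩ := hd5
      have h1 := congrArg θ hg
      rw [map_sub, map_sum, hθf, hδ] at h1
      have h2 : ∀ i, θ (g i * (z i - Polynomial.aeval (z i0) (γ i))) = 0 := by
        intro i
        rw [map_mul, map_sub, hθz, hθ0, sub_self, mul_zero]
      rw [Finset.sum_congr rfl (fun i _ => h2 i), Finset.sum_const_zero, sub_eq_zero] at h1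
      rw [h1]
      exact hθ0 δ
    have hdd : d = Polynomial.aeval (y i0) δ := by
      apply hinj' _ _ hd1 (inB_aeval hy0 _)
      have e1 : d - Polynomial.aeval (y i0) δ =
          (d - d') - (Polynomial.aeval (y i0) δ - Polynomial.aeval (z i0) δ) := by
        rw [hδ]; ring
      rw [e1]
      exact dvd_sub hd3 (aeval_sub_dvd _ _ _)
    have hdd2 : d = aeval (fun i => Polynomial.aeval (y i0) (γ i)) Q := by
      rw [hdd, ← hδ2, mv_aeval_poly]
    obtain ⟨g1, hg1⟩ := hd4
    obtain ⟨g2, hg2⟩ := idl_sub y (fun i => Polynomial.aeval (y i0) (γ i)) Q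
    refine ⟨fun i => g1 i - g2 i, ?_⟩
    simp only [sub_mul, Finset.sum_sub_distrib]
    rw [← hg1, ← hg2, hdd2]
    ring
  exact density i0 hy0 (fun K _ _ x hx => ev_zero hidl x hx) (fun x hx => ev_zero hidl x hx)

end Pool.Agent.H1.HomLogU
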