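import Mathlib

set_option autoImplicit false

namespace Pool.Agent.H1.PAlg



universe u

/-- The function symbols of the language of `P`-algebras: `+`, `*`, `0`, `1` and, for every
scalar `c` in `P`, the unary operation of multiplication by `c`. -/
inductive AlgFunc (P : Type u) : ℕ → Type u
  | add : AlgFunc P 2
  | mul : AlgFunc P 2
  | zero : AlgFunc P 0
  | one : AlgFunc P 0
  | smul (c : P) : AlgFunc P 1

/-- The first-order language of `P`-algebras (no relation symbols besides equality). -/
def algLang (P : Type u) : FirstOrder.Language.{u, 0} where
  Functions := AlgFunc P
  Relations := fun _ => Empty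

/-- The standard interpretation of the language of `P`-algebras in a `P`-algebra. -/
@[reducible] def algStructure (P H : Type u) [CommSemiring P] [Semiring H] [Algebra P H] :
    (algLang P).Structure H where
  funMap := fun {_} f => match f with
    | .add => fun v => v 0 + v 1
    | .mul => fun v => v 0 * v 1
    | .zero => fun _ => 0
    | .one => fun _ => 1
    | .smul c => fun v => c • v 0
  RelMap := fun {_} r => r.elim

/-- `SameType P H mu nu`: the two `l`-tuples have the same logical kernel, i.e. they satisfy in the
`P`-algebra `H` exactly the same first-order formulas (in `l` free variables) of the language of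
`P`-algebras. -/
def SameType (P H : Type u) [CommSemiring P] [Semiring H] [Algebra P H] {l : ℕ}
    (mu nu : Fin l → H) : Prop :=
  letI := algStructure P H
  ∀ phi : (algLang P).Formula (Fin l), phi.Realize mu ↔ phi.Realize nu

/-- `H` is logically homogeneous: two tuples of the same finite length have the same logical kernel
if and only if some automorphism of the `P`-algebra `H` carries one to the other. -/
def LogicallyHomogeneous (P H : Type u) [CommSemiring P] [Semiring H] [Algebra P H] : Prop :=
  ∀ (l : ℕ) (mu nu : Fin l → H),
    SameType P H mu nu ↔ ∃ sigma : H ≃ₐ[P] H, ∀ i, mu i = sigma (nu i)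

end Pool.Agent.H1.PAlg
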