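import Pool.Agent.H1.HomLogUC
import Pool.Agent.H1.PAlgDefs

set_option autoImplicit false
set_option linter.all false

namespace Pool.Agent.H1.HomLogU

universe u

open FirstOrder FirstOrder.Language MvPolynomial Pool.Agent.H1.PAlg

section Defs

variable (k : Type u) [Field k] (n : ℕ)

/-- Definable predicates. -/
def Dfn (ι : Type) (S : (ι → MvPolynomial (Fin n) k) → Prop) : Prop :=
  ∃ φ : (algLang k).Formula ι, ∀ v : ι → MvPolynomial (Fin n) k,
    @Formula.Realize (algLang k) _ (algStructure k (MvPolynomial (Fin n) k)) _ φ v ↔ S v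

/-- Term functions. -/
def PF (ι : Type) (F : (ι → MvPolynomial (Fin n) k) → MvPolynomial (Fin n) k) : Prop :=
  ∃ t : (algLang k).Term ι, ∀ v : ι → MvPolynomial (Fin n) k,
    @Term.realize (algLang k) _ (algStructure k (MvPolynomial (Fin n) k)) _ v t = F v

end Defs

variable {k : Type u} [Field k] {n : ℕ}

theorem PF.var {ι : Type} (i : ι) : PF k n ι (fun v => v i) :=
  ⟨Term.var i, fun v => rfl⟩

theorem PF.add {ι : Type} {F G : (ι → (MvPolynomial (Fin n) k)) → (MvPolynomial (Fin n) k)} (hF : PF k n ι F) (hG : PF k n ι G) :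
    PF k n ι (fun v => F v + G v) := by
  letI := algStructure k (MvPolynomial (Fin n) k)
  obtain ⟨s, hs⟩ := hF
  obtain ⟨t, ht⟩ := hG
  refine ⟨Term.func (l := 2) AlgFunc.add ![s, t], fun v => ?_⟩
  show _ = F v + G v
  rw [← hs v, ← ht v]
  rfl

theorem PF.mul {ι : Type} {F G : (ι → (MvPolynomial (Fin n) k)) → (MvPolynomial (Fin n) k)} (hF : PF k n ι F) (hG : PF k n ι G) :
    PF k n ι (fun v => F v * G v) := by
  letI := algStructure k (MvPolynomial (Fin n) k)
  obtain ⟨s, hs⟩ := hF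
  obtain ⟨t, ht⟩ := hG
  refine ⟨Term.func (l := 2) AlgFunc.mul ![s, t], fun v => ?_⟩
  show _ = F v * G v
  rw [← hs v, ← ht v]
  rfl

theorem PF.const {ι : Type} (a : k) : PF k n ι (fun _ => C a) := by
  letI := algStructure k (MvPolynomial (Fin n) k)
  refine ⟨Term.func (l := 1) (AlgFunc.smul a) (fun _ => Term.func (l := 0) AlgFunc.one Fin.elim0), fun v => ?_⟩
  show a • (1 : MvPolynomial (Fin n) k) = C a
  rw [MvPolynomial.smul_eq_C_mul, mul_one]

theorem PF.zero {ι : Type} : PF k n ι (fun _ => 0) := by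
  simpa using (PF.const (k := k) (n := n) (ι := ι) 0)

theorem PF.one {ι : Type} : PF k n ι (fun _ => 1) := by
  simpa using (PF.const (k := k) (n := n) (ι := ι) 1)

theorem PF.sub {ι : Type} {F G : (ι → (MvPolynomial (Fin n) k)) → (MvPolynomial (Fin n) k)} (hF : PF k n ι F) (hG : PF k n ι G) :
    PF k n ι (fun v => F v - G v) := by
  have h := hF.add ((PF.const (k := k) (n := n) (ι := ι) (-1)).mul hG)
  have e : (fun v => F v + C (-1) * G v) = (fun v => F v - G v) := by
    funext v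
    simp [sub_eq_add_neg]
  rwa [e] at h

theorem PF.sum {ι κ : Type} (s : Finset κ) {F : κ → (ι → (MvPolynomial (Fin n) k)) → (MvPolynomial (Fin n) k)}
    (hF : ∀ i, PF k n ι (F i)) :
    PF k n ι (fun v => ∑ i ∈ s, F i v) := by
  classical
  induction s using Finset.induction_on with
  | empty => simpa using PF.zero
  | insert a s ha ih =>
    have := (hF a).add ih
    simpa [Finset.sum_insert ha] using this

theorem PF.aeval {ι σ : Type} (p : MvPolynomial σ k) {G : σ → (ι → (MvPolynomial (Fin n) k)) → (MvPolynomial (Fin n) k)}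
    (hG : ∀ i, PF k n ι (G i)) : PF k n ι (fun v => MvPolynomial.aeval (fun i => G i v) p) := by
  induction p using MvPolynomial.induction_on with
  | C a =>
    have := PF.const (k := k) (n := n) (ι := ι) a
    simpa [MvPolynomial.algebraMap_eq] using this
  | add p q hp hq => simpa using hp.add hq
  | mul_X p i hp => simpa using hp.mul (hG i)

theorem Dfn.eq {ι : Type} {F G : (ι → (MvPolynomial (Fin n) k)) → (MvPolynomial (Fin n) k)} (hF : PF k n ι F) (hG : PF k n ι G) :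
    Dfn k n ι (fun v => F v = G v) := by
  letI := algStructure k (MvPolynomial (Fin n) k)
  obtain ⟨s, hs⟩ := hF
  obtain ⟨t, ht⟩ := hG
  refine ⟨Term.equal s t, fun v => ?_⟩
  rw [Formula.realize_equal, hs v, ht v]

theorem Dfn.imp {ι : Type} {S T : (ι → (MvPolynomial (Fin n) k)) → Prop} (hS : Dfn k n ι S) (hT : Dfn k n ι T) :
    Dfn k n ι (fun v => S v → T v) := by
  letI := algStructure k (MvPolynomial (Fin n) k)
  obtain ⟨φ, hφ⟩ := hS
  obtain ⟨ψ, hψ⟩ := hT
  refine ⟨φ.imp ψ, fun v => ?_⟩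
  rw [Formula.realize_imp, hφ, hψ]

theorem Dfn.not {ι : Type} {S : (ι → (MvPolynomial (Fin n) k)) → Prop} (hS : Dfn k n ι S) :
    Dfn k n ι (fun v => ¬ S v) := by
  letI := algStructure k (MvPolynomial (Fin n) k)
  obtain ⟨φ, hφ⟩ := hS
  refine ⟨φ.not, fun v => ?_⟩
  rw [Formula.realize_not, hφ]

theorem Dfn.congr {ι : Type} {S T : (ι → (MvPolynomial (Fin n) k)) → Prop} (hS : Dfn k n ι S) (h : ∀ v, S v ↔ T v) :
    Dfn k n ι T := by
  obtain ⟨φ, hφ⟩ := hS
  exact ⟨φ, fun v => (hφ v).trans (h v)⟩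

theorem Dfn.and {ι : Type} {S T : (ι → (MvPolynomial (Fin n) k)) → Prop} (hS : Dfn k n ι S) (hT : Dfn k n ι T) :
    Dfn k n ι (fun v => S v ∧ T v) :=
  (hS.imp hT.not).not.congr (fun v => by tauto)

theorem Dfn.or {ι : Type} {S T : (ι → (MvPolynomial (Fin n) k)) → Prop} (hS : Dfn k n ι S) (hT : Dfn k n ι T) :
    Dfn k n ι (fun v => S v ∨ T v) :=
  (hS.not.imp hT).congr (fun v => by tauto)

theorem Dfn.allT {ι κ : Type} [Finite κ] {T : (ι → (MvPolynomial (Fin n) k)) → (κ → (MvPolynomial (Fin n) k)) → Prop}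
    (hT : Dfn k n (ι ⊕ κ) (fun u => T (fun i => u (Sum.inl i)) (fun j => u (Sum.inr j)))) :
    Dfn k n ι (fun v => ∀ w : κ → (MvPolynomial (Fin n) k), T v w) := by
  letI := algStructure k (MvPolynomial (Fin n) k)
  obtain ⟨φ, hφ⟩ := hT
  refine ⟨Formula.iAlls κ φ, fun v => ?_⟩
  rw [Formula.realize_iAlls]
  refine forall_congr' (fun w => ?_)
  exact hφ (Sum.elim v w)

theorem Dfn.exT {ι κ : Type} [Finite κ] {T : (ι → (MvPolynomial (Fin n) k)) → (κ → (MvPolynomial (Fin n) k)) → Prop}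
    (hT : Dfn k n (ι ⊕ κ) (fun u => T (fun i => u (Sum.inl i)) (fun j => u (Sum.inr j)))) :
    Dfn k n ι (fun v => ∃ w : κ → (MvPolynomial (Fin n) k), T v w) :=
  (Dfn.allT (T := fun v w => ¬ T v w) hT.not).not.congr (fun v => by push Not; rfl)

theorem Dfn.all {ι : Type} {T : (ι → (MvPolynomial (Fin n) k)) → (MvPolynomial (Fin n) k) → Prop}
    (hT : Dfn k n (ι ⊕ Unit) (fun u => T (fun i => u (Sum.inl i)) (u (Sum.inr ())))) :
    Dfn k n ι (fun v => ∀ w : (MvPolynomial (Fin n) k), T v w) :=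
  (Dfn.allT (κ := Unit) (T := fun v w => T v (w ())) hT).congr (fun v =>
    ⟨fun h w => h (fun _ => w), fun h w => h (w ())⟩)

theorem Dfn.ex {ι : Type} {T : (ι → (MvPolynomial (Fin n) k)) → (MvPolynomial (Fin n) k) → Prop}
    (hT : Dfn k n (ι ⊕ Unit) (fun u => T (fun i => u (Sum.inl i)) (u (Sum.inr ())))) :
    Dfn k n ι (fun v => ∃ w : (MvPolynomial (Fin n) k), T v w) :=
  (Dfn.exT (κ := Unit) (T := fun v w => T v (w ())) hT).congr (fun v =>
    ⟨fun ⟨w, h⟩ => ⟨w (), h⟩, fun ⟨w, h⟩ => ⟨fun _ => w, h⟩⟩)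

theorem Dfn.allFin {ι κ : Type} [Finite κ] {T : κ → (ι → (MvPolynomial (Fin n) k)) → Prop}
    (hT : ∀ i, Dfn k n ι (T i)) : Dfn k n ι (fun v => ∀ i, T i v) := by
  classical
  cases nonempty_fintype κ
  have key : ∀ s : Finset κ, Dfn k n ι (fun v => ∀ i ∈ s, T i v) := by
    intro s
    induction s using Finset.induction_on with
    | empty => exact (Dfn.eq PF.zero PF.zero).congr (fun v => by simp)
    | insert a s ha ih => exact ((hT a).and ih).congr (fun v => by simp)
  exact (key Finset.univ).congr (fun v => by simp)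

theorem transfer {m : ℕ} (a b : Fin m → (MvPolynomial (Fin n) k))
    (h : SameType k (MvPolynomial (Fin n) k) a b)
    {S : (Fin m → (MvPolynomial (Fin n) k)) → Prop} (hS : Dfn k n (Fin m) S) : S a ↔ S b := by
  obtain ⟨φ, hφ⟩ := hS
  rw [← hφ a, ← hφ b]
  exact h φ

theorem PF.comap {ι κ : Type} (e : ι → κ) {F : (ι → (MvPolynomial (Fin n) k)) → (MvPolynomial (Fin n) k)} (hF : PF k n ι F) :
    PF k n κ (fun u => F (fun i => u (e i))) := by
  letI := algStructure k (MvPolynomial (Fin n) k)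
  obtain ⟨t, ht⟩ := hF
  refine ⟨t.relabel e, fun v => ?_⟩
  rw [Term.realize_relabel]
  exact ht (fun i => v (e i))

theorem Dfn.dvd {ι : Type} {F G : (ι → (MvPolynomial (Fin n) k)) → (MvPolynomial (Fin n) k)} (hF : PF k n ι F) (hG : PF k n ι G) :
    Dfn k n ι (fun v => F v ∣ G v) := by
  refine Dfn.congr (S := fun v => ∃ w, G v = F v * w) ?_ (fun v => Iff.rfl)
  refine Dfn.ex ?_
  exact Dfn.eq (PF.comap _ hG) ((PF.comap _ hF).mul (PF.var _))

theorem Dfn.isUnit {ι : Type} {F : (ι → (MvPolynomial (Fin n) k)) → (MvPolynomial (Fin n) k)} (hF : PF k n ι F) :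
    Dfn k n ι (fun v => IsUnit (F v)) := by
  refine Dfn.congr (S := fun v => F v ∣ 1) ?_ (fun v => isUnit_iff_dvd_one.symm)
  exact Dfn.dvd hF PF.one

theorem Dfn.cst {ι : Type} {F : (ι → (MvPolynomial (Fin n) k)) → (MvPolynomial (Fin n) k)} (hF : PF k n ι F) :
    Dfn k n ι (fun v => Cst (F v)) := by
  refine Dfn.or (Dfn.eq hF PF.zero) ?_
  refine Dfn.ex ?_
  exact Dfn.eq ((PF.comap _ hF).mul (PF.var _)) PF.one

theorem Dfn.prime {ι : Type} (i : ι) :
    Dfn k n ι (fun v => Prime (v i)) := by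
  refine Dfn.and (Dfn.not (Dfn.eq (PF.var i) PF.zero)) (Dfn.and (Dfn.not (Dfn.isUnit (PF.var i))) ?_)
  refine Dfn.all ?_
  refine Dfn.all ?_
  refine Dfn.imp ?_ (Dfn.or ?_ ?_)
  · exact Dfn.dvd (PF.var _) ((PF.var _).mul (PF.var _))
  · exact Dfn.dvd (PF.var _) (PF.var _)
  · exact Dfn.dvd (PF.var _) (PF.var _)

theorem Dfn.inB {ι : Type} (i j : ι) :
    Dfn k n ι (fun v => InB (v i) (v j)) := by
  refine Dfn.all ?_
  refine Dfn.imp (Dfn.prime _) (Dfn.imp ?_ (Dfn.or ?_ ?_))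
  · refine Dfn.ex ?_
    refine Dfn.and ?_ (Dfn.and ?_ (Dfn.and ?_ ?_))
    · exact Dfn.dvd ((PF.var _).sub PF.one) ((PF.var _).sub PF.one)
    · refine Dfn.all ?_
      exact Dfn.imp (Dfn.dvd (PF.var _) (PF.var _)) (Dfn.or (Dfn.isUnit (PF.var _))
        (Dfn.dvd (PF.var _) (PF.var _)))
    · exact Dfn.not (Dfn.eq (PF.var _) PF.one)
    · exact Dfn.dvd (PF.var _) ((PF.var _).sub PF.one)
  · exact Dfn.dvd (PF.var _) (PF.var _)
  · refine Dfn.ex ?_
    exact Dfn.dvd (PF.var _) (((PF.var _).mul (PF.var _)).sub PF.one)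

theorem Dfn.inj {ι : Type} (i j : ι) :
    Dfn k n ι (fun v => Inj (v i) (v j)) := by
  refine Dfn.all ?_
  refine Dfn.all ?_
  refine Dfn.imp (Dfn.inB _ _) (Dfn.imp (Dfn.inB _ _) (Dfn.imp ?_ ?_))
  · exact Dfn.dvd ((PF.var _).sub (PF.var _)) ((PF.var _).sub (PF.var _))
  · exact Dfn.eq (PF.var _) (PF.var _)

theorem Dfn.idl {ι : Type} {y c : Fin n → (ι → (MvPolynomial (Fin n) k)) → (MvPolynomial (Fin n) k)} {F : (ι → (MvPolynomial (Fin n) k)) → (MvPolynomial (Fin n) k)}
    (hy : ∀ i, PF k n ι (y i)) (hc : ∀ i, PF k n ι (c i)) (hF : PF k n ι F) :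
    Dfn k n ι (fun v => Idl (fun i => y i v) (fun i => c i v) (F v)) := by
  refine Dfn.exT ?_
  refine Dfn.eq (PF.comap _ hF) (PF.sum _ (fun i => ?_))
  exact (PF.var (Sum.inr i)).mul ((PF.comap _ (hy i)).sub (PF.comap _ (hc i)))

theorem Dfn.chi (i0 : Fin n) : Dfn k n (Fin n) (fun y => Chi i0 y) := by
  refine Dfn.and (Dfn.not (Dfn.cst (PF.var _))) (Dfn.and ?_ ?_)
  · refine Dfn.all ?_
    exact Dfn.imp (Dfn.not (Dfn.cst (PF.var _))) (Dfn.imp (Dfn.inj _ _) (Dfn.inj _ _))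
  · refine Dfn.allT ?_
    refine Dfn.imp (Dfn.not (Dfn.cst (PF.var _))) (Dfn.imp (Dfn.inj _ _) ?_)
    refine Dfn.all ?_
    refine Dfn.ex ?_
    refine Dfn.allT ?_
    refine Dfn.allT ?_
    refine Dfn.imp (Dfn.eq (PF.var _) (PF.var _)) (Dfn.imp (Dfn.eq (PF.var _) (PF.var _)) ?_)
    refine Dfn.imp (Dfn.allFin (fun i => Dfn.inB _ _)) (Dfn.imp (Dfn.allFin (fun i => Dfn.inB _ _)) ?_)
    refine Dfn.imp (Dfn.allFin (fun i => Dfn.dvd ((PF.var _).sub (PF.var _))
      ((PF.var _).sub (PF.var _)))) ?_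
    refine Dfn.ex ?_
    refine Dfn.ex ?_
    refine Dfn.and (Dfn.inB _ _) (Dfn.and (Dfn.inB _ _) (Dfn.and ?_ (Dfn.and ?_ ?_)))
    · exact Dfn.dvd ((PF.var _).sub (PF.var _)) ((PF.var _).sub (PF.var _))
    · exact Dfn.idl (fun i => PF.var _) (fun i => PF.var _) ((PF.var _).sub (PF.var _))
    · exact Dfn.idl (fun i => PF.var _) (fun i => PF.var _) ((PF.var _).sub (PF.var _))

theorem inj_of_surj {R : Type u} [CommRing R] [IsNoetherianRing R] (f : R →+* R)
    (hf : Function.Surjective f) : Function.Injective f := by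
  have hmono : Monotone (fun m : ℕ => RingHom.ker (f ^ m)) := by
    apply monotone_nat_of_le_succ
    intro m x hx
    rw [RingHom.mem_ker] at hx ⊢
    rw [pow_succ', RingHom.mul_def, RingHom.comp_apply, hx, map_zero]
  obtain ⟨N, hN⟩ := monotone_stabilizes_iff_noetherian.2 (inferInstance : IsNoetherian R R)
    ⟨_, hmono⟩
  rw [injective_iff_map_eq_zero]
  intro a ha
  have hs : ∀ m : ℕ, Function.Surjective (f ^ m) := by
    intro m
    rw [RingHom.coe_pow]
    exact hf.iterate m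
  obtain ⟨b, rfl⟩ := hs N a
  have h1 : b ∈ RingHom.ker (f ^ (N + 1)) := by
    rw [RingHom.mem_ker, pow_succ', RingHom.mul_def, RingHom.comp_apply, ha]
  have h2 := hN (N + 1) (by omega)
  simp only [OrderHom.coe_mk] at h2
  rw [← h2, RingHom.mem_ker] at h1
  exact h1

theorem scheme {m : ℕ} (a b : Fin m → (MvPolynomial (Fin n) k))
    (h : SameType k (MvPolynomial (Fin n) k) a b)
    (χ : (Fin n → (MvPolynomial (Fin n) k)) → Prop) (hχ : Dfn k n (Fin n) χ) (hX : χ (fun i => X i))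
    (hgen : ∀ y, χ y → Function.Surjective (aeval y : (MvPolynomial (Fin n) k) →ₐ[k] (MvPolynomial (Fin n) k))) :
    ∃ σ : MvPolynomial (Fin n) k ≃ₐ[k] MvPolynomial (Fin n) k, ∀ i, σ (a i) = b i := by
  have hS : Dfn k n (Fin m) (fun v => ∃ y : Fin n → (MvPolynomial (Fin n) k), χ y ∧ ∀ i, v i = aeval y (a i)) := by
    refine Dfn.exT ?_
    refine Dfn.and ?_ (Dfn.allFin (fun i => Dfn.eq (PF.var _) ?_))
    · obtain ⟨φ, hφ⟩ := hχ
      refine ⟨φ.relabel Sum.inr, fun v => ?_⟩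
      letI := algStructure k (MvPolynomial (Fin n) k)
      rw [Formula.realize_relabel]
      exact hφ (fun j => v (Sum.inr j))
    · exact PF.aeval (a i) (fun j => PF.var (Sum.inr j))
  have ha : ∃ y : Fin n → (MvPolynomial (Fin n) k), χ y ∧ ∀ i, a i = aeval y (a i) := by
    refine ⟨fun i => X i, hX, fun i => ?_⟩
    have : (aeval (fun i => (X i : (MvPolynomial (Fin n) k))) : (MvPolynomial (Fin n) k) →ₐ[k] (MvPolynomial (Fin n) k)) = AlgHom.id k (MvPolynomial (Fin n) k) := by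
      apply MvPolynomial.algHom_ext
      intro i
      simp
    rw [this]
    rfl
  obtain ⟨y, hy, hyb⟩ := (transfer a b h hS).1 ha
  have hsurj := hgen y hy
  have hinj : Function.Injective (aeval y : (MvPolynomial (Fin n) k) →ₐ[k] (MvPolynomial (Fin n) k)) :=
    inj_of_surj (aeval y : (MvPolynomial (Fin n) k) →ₐ[k] (MvPolynomial (Fin n) k)).toRingHom hsurj
  exact ⟨AlgEquiv.ofBijective (aeval y) ⟨hinj, hsurj⟩, fun i => (hyb i).symm⟩

theorem surj_one {y : Fin 1 → MvPolynomial (Fin 1) k} (h0 : ¬ Cst (y 0))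
    (h : ∀ f, ∃ c, Cst c ∧ y 0 ∣ f - c) :
    Function.Surjective (aeval y : MvPolynomial (Fin 1) k →ₐ[k] MvPolynomial (Fin 1) k) := by
  obtain ⟨c, hc, u, hu⟩ := h (X 0)
  obtain ⟨c, rfl⟩ := cst_iff.1 hc
  have hne : (X 0 - C c : MvPolynomial (Fin 1) k) ≠ 0 := by
    intro h
    apply not_cst_X (k := k) (0 : Fin 1)
    rw [cst_iff]
    exact ⟨c, sub_eq_zero.1 h⟩
  have hy0 : y 0 ≠ 0 := by
    intro h
    rw [h, zero_mul] at hu
    exact hne hu
  have hu0 : u ≠ 0 := by
    intro h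
    rw [h, mul_zero] at hu
    exact hne hu
  have hdeg := totalDegree_mul_of_isDomain hy0 hu0
  rw [← hu] at hdeg
  have hle : (X 0 - C c : MvPolynomial (Fin 1) k).totalDegree ≤ 1 := by
    refine (totalDegree_sub _ _).trans ?_
    rw [totalDegree_X, totalDegree_C]
    simp
  have hy1 : (y 0).totalDegree ≠ 0 := by
    intro h
    apply h0
    rw [cst_iff]
    exact ⟨_, totalDegree_eq_zero_iff_eq_C.1 h⟩
  have hu1 : u.totalDegree = 0 := by omega
  have hu2 := totalDegree_eq_zero_iff_eq_C.1 hu1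
  set r : k := coeff 0 u with hr
  have hX : (X 0 : MvPolynomial (Fin 1) k) = aeval y (C r * X 0 + C c) := by
    rw [map_add, map_mul, aeval_C, aeval_C, aeval_X, MvPolynomial.algebraMap_eq, ← hu2,
      mul_comm, ← hu]
    ring
  intro f
  refine ⟨aeval (fun _ => C r * X 0 + C c) f, ?_⟩
  have : ((aeval y).comp (aeval (fun _ => (C r * X 0 + C c : MvPolynomial (Fin 1) k))) :
      MvPolynomial (Fin 1) k →ₐ[k] MvPolynomial (Fin 1) k) = AlgHom.id k _ := by
    apply MvPolynomial.algHom_ext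
    intro i
    rw [AlgHom.comp_apply, aeval_X, ← hX, AlgHom.id_apply, Subsingleton.elim i 0]
  have h2 := congrArg (fun φ : MvPolynomial (Fin 1) k →ₐ[k] MvPolynomial (Fin 1) k => φ f) this
  exact h2

theorem main (k : Type u) [Field k] (n m : ℕ) (a b : Fin m → MvPolynomial (Fin n) k)
    (h : SameType k (MvPolynomial (Fin n) k) a b) :
    ∃ σ : MvPolynomial (Fin n) k ≃ₐ[k] MvPolynomial (Fin n) k, ∀ i, σ (a i) = b i := by
  rcases n with _ | _ | n
  · apply scheme a b h (fun _ => True)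
    · exact (Dfn.eq PF.zero PF.zero).congr (fun v => by simp)
    · trivial
    · intro y _ f
      refine ⟨f, ?_⟩
      have : (aeval y : MvPolynomial (Fin 0) k →ₐ[k] MvPolynomial (Fin 0) k) = AlgHom.id k _ := by
        apply MvPolynomial.algHom_ext
        intro i
        exact i.elim0
      rw [this]
      rfl
  · apply scheme a b h (fun y => ¬ Cst (y 0) ∧ ∀ f, ∃ c, Cst c ∧ y 0 ∣ f - c)
    · refine Dfn.and (Dfn.not (Dfn.cst (PF.var _))) ?_
      refine Dfn.all ?_
      refine Dfn.ex ?_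
      exact Dfn.and (Dfn.cst (PF.var _)) (Dfn.dvd (PF.var _) ((PF.var _).sub (PF.var _)))
    · refine ⟨not_cst_X _, fun f => ?_⟩
      obtain ⟨g, hg⟩ := idl_sub (fun i => (X i : MvPolynomial (Fin 1) k)) (fun _ => 0) f
      refine ⟨aeval (fun _ => (0 : MvPolynomial (Fin 1) k)) f, ?_, g 0, ?_⟩
      · rw [cst_iff]
        refine ⟨aeval (fun _ => (0 : k)) f, ?_⟩
        have : (aeval (fun _ => (0 : MvPolynomial (Fin 1) k)) :
            MvPolynomial (Fin 1) k →ₐ[k] MvPolynomial (Fin 1) k) =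
            (Algebra.ofId k (MvPolynomial (Fin 1) k)).comp (aeval (fun _ => (0 : k))) := by
          apply MvPolynomial.algHom_ext
          intro i
          simp
        rw [this]
        rfl
      · have e : aeval (fun i => (X i : MvPolynomial (Fin 1) k)) f = f := by
          have : (aeval (fun i => (X i : MvPolynomial (Fin 1) k)) :
              MvPolynomial (Fin 1) k →ₐ[k] MvPolynomial (Fin 1) k) = AlgHom.id k _ := by
            apply MvPolynomial.algHom_ext
            intro i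
            simp
          rw [this]
          rfl
        rw [e] at hg
        rw [hg]
        simp [mul_comm]
    · intro y hy
      exact surj_one hy.1 hy.2
  · apply scheme a b h (fun y => Chi 0 y) (Dfn.chi _) (chi_X _)
    intro y hy
    exact chi_gen (i1 := 1) (by simp) hy

end Pool.Agent.H1.HomLogU
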