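import Pool.Agent.H1.HomLogUD

set_option autoImplicit false
set_option linter.all false

namespace Pool.Agent.H1.HomLogU

universe u

open FirstOrder FirstOrder.Language MvPolynomial Pool.Agent.H1.PAlg

theorem sameType_of_equiv (P H : Type u) [CommSemiring P] [Semiring H] [Algebra P H] {l : ℕ}
    (mu nu : Fin l → H) (sigma : H ≃ₐ[P] H) (h : ∀ i, mu i = sigma (nu i)) :
    SameType P H mu nu := by
  letI := algStructure P H
  intro phi
  let E : (algLang P).Equiv H H :=
    { toEquiv := sigma.toEquiv
      map_fun' := by
        intro n f x
        change AlgFunc P n at f
        cases f with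
        | add => exact map_add sigma _ _
        | mul => exact map_mul sigma _ _
        | zero => exact map_zero sigma
        | one => exact map_one sigma
        | smul c => exact map_smul sigma c _
      map_rel' := by
        intro n r x
        exact r.elim }
  have h1 : mu = E ∘ nu := by
    funext i
    exact h i
  rw [h1]
  exact StrongHomClass.realize_formula E phi

theorem logicallyHomogeneous (P : Type u) [Field P] (m : ℕ) :
    LogicallyHomogeneous P (MvPolynomial (Fin m) P) := by
  intro l mu nu
  constructor
  · intro h
    obtain ⟨sigma, hs⟩ := main P m l nu mu (fun phi => (h phi).symm)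
    exact ⟨sigma, fun i => (hs i).symm⟩
  · rintro ⟨sigma, hs⟩
    exact sameType_of_equiv P _ mu nu sigma hs

end Pool.Agent.H1.HomLogU
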