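import Mathlib

open MeasureTheory

namespace KWq

/-- One step of the Kiefer–Wolfowitz recursion: the arriving customer (service time `s`) joins the
least loaded server (index `0` of the ordered workload vector `w`), then a time `t` passes, and the
`k` remaining workloads are rearranged in increasing order. -/
noncomputable def kwStep {k : ℕ} (w : Fin k → ℝ) (s t : ℝ) : Fin k → ℝ :=
  let v : Fin k → ℝ := fun j => max ((if (j : ℕ) = 0 then w j + s else w j) - t) 0
  v ∘ Tuple.sort v

/-- `π` is a stationary distribution of the Kiefer–Wolfowitz chain of the GI/GI/k queue whose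
interarrival times have law `μT` and whose service times have law `μS`. -/
structure IsStationary (k : ℕ) (μT μS : Measure ℝ) (π : Measure (Fin k → ℝ)) : Prop where
  prob : IsProbabilityMeasure π
  ordered : ∀ᵐ w ∂π, Monotone w
  nonneg : ∀ᵐ w ∂π, ∀ j, 0 ≤ w j
  invariant : (π.prod (μS.prod μT)).map (fun p => kwStep p.1 p.2.1 p.2.2) = π

/-- The class `𝒬₂(ET, ES, ET², ES²)`: laws `μT` of the interarrival time and `μS` of the service
time, both nonnegative, with the prescribed first and second moments. -/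
structure InQ2 (ET ES ET2 ES2 : ℝ) (μT μS : Measure ℝ) : Prop where
  probT : IsProbabilityMeasure μT
  probS : IsProbabilityMeasure μS
  nonnegT : ∀ᵐ x ∂μT, 0 ≤ x
  nonnegS : ∀ᵐ x ∂μS, 0 ≤ x
  intT : Integrable (fun x => x) μT
  intS : Integrable (fun x => x) μS
  intT2 : Integrable (fun x => x ^ 2) μT
  intS2 : Integrable (fun x => x ^ 2) μS
  meanT : ∫ x, x ∂μT = ET
  meanS : ∫ x, x ∂μS = ES
  sqT : ∫ x, x ^ 2 ∂μT = ET2
  sqS : ∫ x, x ^ 2 ∂μS = ES2

/-- the sorted version -/
noncomputable def srt {k : ℕ} (v : Fin k → ℝ) : Fin k → ℝ := v ∘ Tuple.sort v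

lemma srt_mono {k : ℕ} (v : Fin k → ℝ) : Monotone (srt v) := Tuple.monotone_sort v

noncomputable def cnt {k : ℕ} (v : Fin k → ℝ) (c : ℝ) : ℕ := ∑ i, if v i ≤ c then 1 else 0

lemma cnt_comp {k : ℕ} (v : Fin k → ℝ) (σ : Equiv.Perm (Fin k)) (c : ℝ) :
    cnt (v ∘ σ) c = cnt v c := by
  unfold cnt
  exact Equiv.sum_comp σ (fun i => if v i ≤ c then 1 else 0)

lemma srt_le_iff {k : ℕ} (v : Fin k → ℝ) (j : Fin k) (c : ℝ) :
    srt v j ≤ c ↔ (j : ℕ) < cnt v c := by
  classical
  rw [← Tuple.lt_card_le_iff_apply_le_of_monotone (srt_mono v), ← cnt_comp v (Tuple.sort v) c,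
    cnt, Finset.card_filter]
  rfl

lemma srt_eq_of_cnt {k : ℕ} {v w : Fin k → ℝ} (h : ∀ c, cnt v c = cnt w c) : srt v = srt w := by
  funext j
  apply le_antisymm
  · rw [srt_le_iff, h, ← srt_le_iff]
  · rw [srt_le_iff, ← h, ← srt_le_iff]

lemma srt_le_of {k : ℕ} {v g : Fin k → ℝ} (τ : Equiv.Perm (Fin k)) (hg : Monotone g)
    (h : ∀ j, v (τ j) ≤ g j) (j : Fin k) : srt v j ≤ g j := by
  classical
  rw [srt_le_iff, ← cnt_comp v τ, cnt, ← Finset.card_filter]
  calc (j : ℕ) < (j : ℕ) + 1 := Nat.lt_succ_self _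
    _ = (Finset.Iic j).card := by rw [Fin.card_Iic]
    _ ≤ _ := by
      apply Finset.card_le_card
      intro l hl
      rw [Finset.mem_Iic] at hl
      rw [Finset.mem_filter]
      exact ⟨Finset.mem_univ _, (h l).trans (hg hl)⟩

lemma measurable_srt {k : ℕ} : Measurable (srt : (Fin k → ℝ) → (Fin k → ℝ)) := by
  rw [measurable_pi_iff]
  intro j
  refine measurable_of_Iic fun c => ?_
  have e : (fun v : Fin k → ℝ => srt v j) ⁻¹' Set.Iic c = {v | (j : ℕ) < cnt v c} := by
    ext v
    exact srt_le_iff v j c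
  rw [e]
  refine measurableSet_lt measurable_const ?_
  unfold cnt
  refine Finset.measurable_sum _ fun i _ => ?_
  exact Measurable.ite (measurableSet_le (measurable_pi_apply i) measurable_const)
    measurable_const measurable_const

/-- unsorted step -/
noncomputable def pre {k : ℕ} (w : Fin k → ℝ) (s t : ℝ) : Fin k → ℝ :=
  fun j => max ((if (j : ℕ) = 0 then w j + s else w j) - t) 0

lemma kwStep_eq {k : ℕ} (w : Fin k → ℝ) (s t : ℝ) : kwStep w s t = srt (pre w s t) := rfl

lemma measurable_kw {k : ℕ} :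
    Measurable (fun p : (Fin k → ℝ) × (ℝ × ℝ) => kwStep p.1 p.2.1 p.2.2) := by
  have : Measurable (fun p : (Fin k → ℝ) × (ℝ × ℝ) => pre p.1 p.2.1 p.2.2) := by
    rw [measurable_pi_iff]
    intro j
    unfold pre
    by_cases hj : (j : ℕ) = 0
    · simp only [hj, if_true]
      fun_prop
    · simp only [hj, if_false]
      fun_prop
  exact measurable_srt.comp this

/-- boxes -/
def box0 (k : ℕ) : Set (Fin k → ℝ) := {w | ∀ j, 0 ≤ w j ∧ w j ≤ (j : ℕ)}

def boxn (k n : ℕ) : Set (Fin k → ℝ) := {w | ∀ j, 0 ≤ w j ∧ w j ≤ (n : ℕ)}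

lemma meas_box0 (k : ℕ) : MeasurableSet (box0 k) := by
  unfold box0
  have : {w : Fin k → ℝ | ∀ j, 0 ≤ w j ∧ w j ≤ (j : ℕ)} =
      ⋂ j, {w : Fin k → ℝ | 0 ≤ w j ∧ w j ≤ (j : ℕ)} := by
    ext w; simp
  rw [this]
  refine MeasurableSet.iInter fun j => ?_
  exact (measurableSet_le measurable_const (measurable_pi_apply j)).inter
    (measurableSet_le (measurable_pi_apply j) measurable_const)

lemma meas_boxn (k n : ℕ) : MeasurableSet (boxn k n) := by
  unfold boxn
  have : {w : Fin k → ℝ | ∀ j, 0 ≤ w j ∧ w j ≤ (n : ℕ)} =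
      ⋂ j, {w : Fin k → ℝ | 0 ≤ w j ∧ w j ≤ (n : ℕ)} := by
    ext w; simp
  rw [this]
  refine MeasurableSet.iInter fun j => ?_
  exact (measurableSet_le measurable_const (measurable_pi_apply j)).inter
    (measurableSet_le (measurable_pi_apply j) measurable_const)

lemma kw_nonneg {k : ℕ} (w : Fin k → ℝ) (s t : ℝ) (j : Fin k) : 0 ≤ kwStep w s t j := by
  rw [kwStep_eq]
  exact le_max_right _ _

lemma kw_box0 {k : ℕ} {w : Fin k → ℝ} (hw : w ∈ box0 k) {s : ℝ} (hs : s ≤ k) :
    kwStep w s 1 ∈ box0 k := by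
  intro j
  refine ⟨kw_nonneg _ _ _ _, ?_⟩
  rw [kwStep_eq]
  obtain ⟨m, rfl⟩ : ∃ m, k = m + 1 := ⟨k - 1, by have := j.2; omega⟩
  refine srt_le_of (g := fun j => ((j : ℕ) : ℝ)) (finRotate (m + 1)) ?_ ?_ j
  · intro a b hab
    change (((a : ℕ) : ℝ)) ≤ ((b : ℕ) : ℝ)
    exact_mod_cast hab
  · intro l
    have hl := l.2
    by_cases h : (l : ℕ) = m
    · have e : finRotate (m + 1) l = 0 := by
        have : l = Fin.last m := Fin.ext h
        rw [this, finRotate_last]
      rw [e]
      have h0 := (hw 0).2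
      simp only [pre, Fin.val_zero, if_true, CharP.cast_eq_zero] at h0 ⊢
      rw [h]
      push_cast at hs
      refine max_le (by linarith) (by positivity)
    · have e : ((finRotate (m + 1) l : Fin (m + 1)) : ℕ) = l + 1 := by
        rw [coe_finRotate_of_ne_last]
        intro h'
        exact h (by rw [h']; rfl)
      have h0 := (hw (finRotate (m + 1) l)).2
      rw [e] at h0
      have e2 : pre w s 1 (finRotate (m + 1) l) = max (w (finRotate (m + 1) l) - 1) 0 := by
        unfold pre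
        rw [if_neg (by rw [e]; omega)]
      rw [e2]
      push_cast at h0
      exact max_le (by linarith) (by positivity)

lemma kw_boxn {k n : ℕ} {w : Fin k → ℝ} (hw : w ∈ boxn k (n + 1)) :
    kwStep w 0 1 ∈ boxn k n := by
  intro j
  refine ⟨kw_nonneg _ _ _ _, ?_⟩
  rw [kwStep_eq]
  change pre w 0 1 (Tuple.sort (pre w 0 1) j) ≤ _
  set l := Tuple.sort (pre w 0 1) j
  have h := (hw l).2
  unfold pre
  push_cast at h
  split_ifs
  · exact max_le (by linarith) (by positivity)
  · exact max_le (by linarith) (by positivity)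

end KWq
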