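import Pool.Agent.H1.KwA

open MeasureTheory

namespace KWq

/-- two-point law: mass `1 - ρ` at `0`, mass `ρ` at `b` -/
noncomputable def two (ρ b : ℝ) : Measure ℝ :=
  ENNReal.ofReal (1 - ρ) • Measure.dirac 0 + ENNReal.ofReal ρ • Measure.dirac b

lemma two_prob {ρ b : ℝ} (h0 : 0 ≤ ρ) (h1 : ρ ≤ 1) : IsProbabilityMeasure (two ρ b) := by
  constructor
  unfold two
  rw [Measure.add_apply, Measure.smul_apply, Measure.smul_apply, measure_univ, measure_univ]
  simp only [smul_eq_mul, mul_one]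
  rw [← ENNReal.ofReal_add (by linarith) h0]
  simp

lemma two_ae {ρ b : ℝ} {p : ℝ → Prop} (h0 : p 0) (hb : p b) :
    ∀ᵐ x ∂(two ρ b), p x := by
  unfold two
  rw [ae_add_measure_iff]
  constructor
  · refine Measure.ae_smul_measure ?_ _
    rw [ae_dirac_eq, Filter.eventually_pure]
    exact h0
  · refine Measure.ae_smul_measure ?_ _
    rw [ae_dirac_eq, Filter.eventually_pure]
    exact hb

lemma two_int {ρ b : ℝ} (f : ℝ → ℝ) : Integrable f (two ρ b) := by
  unfold two
  refine Integrable.add_measure ?_ ?_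
  · exact (integrable_dirac (by simp)).smul_measure ENNReal.ofReal_ne_top
  · exact (integrable_dirac (by simp)).smul_measure ENNReal.ofReal_ne_top

lemma two_integral {ρ b : ℝ} (h0 : 0 ≤ ρ) (h1 : ρ ≤ 1) (f : ℝ → ℝ) :
    ∫ x, f x ∂(two ρ b) = (1 - ρ) * f 0 + ρ * f b := by
  unfold two
  rw [integral_add_measure, integral_smul_measure, integral_smul_measure, integral_dirac,
    integral_dirac, ENNReal.toReal_ofReal (by linarith), ENNReal.toReal_ofReal h0,
    smul_eq_mul, smul_eq_mul]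
  · exact (integrable_dirac (by simp)).smul_measure ENNReal.ofReal_ne_top
  · exact (integrable_dirac (by simp)).smul_measure ENNReal.ofReal_ne_top

/-- the system: interarrival times `1`, service times `0` or `k` -/
lemma inQ2 (k : ℕ) {ρ : ℝ} (h0 : 0 ≤ ρ) (h1 : ρ ≤ 1) :
    InQ2 1 (k * ρ) 1 (k ^ 2 * ρ) (Measure.dirac 1) (two ρ k) where
  probT := inferInstance
  probS := two_prob h0 h1
  nonnegT := by
    rw [ae_dirac_eq, Filter.eventually_pure]
    exact zero_le_one
  nonnegS := two_ae le_rfl (by positivity)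
  intT := integrable_dirac (by simp)
  intS := two_int _
  intT2 := integrable_dirac (by simp)
  intS2 := two_int _
  meanT := by rw [integral_dirac]
  meanS := by rw [two_integral h0 h1]; ring
  sqT := by rw [integral_dirac]; norm_num
  sqS := by rw [two_integral h0 h1]; ring

lemma inv_apply {k : ℕ} {ρ b : ℝ} (h0 : 0 ≤ ρ) (h1 : ρ ≤ 1) {π : Measure (Fin k → ℝ)}
    (hπ : IsStationary k (Measure.dirac 1) (two ρ b) π) {A : Set (Fin k → ℝ)}
    (hA : MeasurableSet A) :
    π.real A = (1 - ρ) * π.real {w | kwStep w 0 1 ∈ A} + ρ * π.real {w | kwStep w b 1 ∈ A} := by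
  haveI := hπ.prob
  haveI := two_prob (b := b) h0 h1
  have h := hπ.invariant
  have e : (π.prod ((two ρ b).prod (Measure.dirac 1))) =
      ENNReal.ofReal (1 - ρ) • π.map (fun w => (w, ((0 : ℝ), (1 : ℝ)))) +
        ENNReal.ofReal ρ • π.map (fun w => (w, (b, (1 : ℝ)))) := by
    have e1 : (two ρ b).prod (Measure.dirac (1 : ℝ)) =
        ENNReal.ofReal (1 - ρ) • Measure.dirac ((0 : ℝ), (1 : ℝ)) +
          ENNReal.ofReal ρ • Measure.dirac (b, (1 : ℝ)) := by
      rw [Measure.prod_dirac]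
      unfold two
      rw [Measure.map_add _ _ (by fun_prop), Measure.map_smul, Measure.map_smul,
        Measure.map_dirac' (by fun_prop), Measure.map_dirac' (by fun_prop)]
    rw [e1, Measure.prod_add, Measure.prod_smul_right, Measure.prod_smul_right,
      Measure.prod_dirac, Measure.prod_dirac]
  rw [e] at h
  have hm := measurable_kw (k := k)
  have h2 : π A = ENNReal.ofReal (1 - ρ) * π {w | kwStep w 0 1 ∈ A} +
      ENNReal.ofReal ρ * π {w | kwStep w b 1 ∈ A} := by
    conv_lhs => rw [← h]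
    rw [Measure.map_apply hm hA, Measure.add_apply, Measure.smul_apply, Measure.smul_apply,
      Measure.map_apply (by fun_prop) (hm hA), Measure.map_apply (by fun_prop) (hm hA)]
    rfl
  rw [Measure.real, h2, ENNReal.toReal_add, ENNReal.toReal_mul, ENNReal.toReal_mul,
    ENNReal.toReal_ofReal (by linarith), ENNReal.toReal_ofReal h0]
  · rfl
  · exact ENNReal.mul_ne_top ENNReal.ofReal_ne_top (measure_ne_top _ _)
  · exact ENNReal.mul_ne_top ENNReal.ofReal_ne_top (measure_ne_top _ _)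

lemma stat_box {k : ℕ} {ρ : ℝ} (h0 : 0 ≤ ρ) (h1 : ρ < 1) {π : Measure (Fin k → ℝ)}
    (hπ : IsStationary k (Measure.dirac 1) (two ρ k) π) (n : ℕ) :
    π.real (box0 k ∪ boxn k n) = π.real (box0 k) := by
  haveI := hπ.prob
  induction n with
  | zero =>
    congr 1
    rw [Set.union_eq_left]
    intro w hw j
    refine ⟨(hw j).1, (hw j).2.trans ?_⟩
    rw [CharP.cast_eq_zero]
    positivity
  | succ n ih =>
    have h := inv_apply h0 h1.le hπ ((meas_box0 k).union (meas_boxn k n))
    rw [ih] at h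
    have i1 : π.real (box0 k ∪ boxn k (n + 1)) ≤
        π.real {w | kwStep w 0 1 ∈ box0 k ∪ boxn k n} := by
      refine measureReal_mono ?_
      rintro w (hw | hw)
      · exact Or.inl (kw_box0 hw (by positivity))
      · exact Or.inr (kw_boxn hw)
    have i2 : π.real (box0 k) ≤ π.real {w | kwStep w k 1 ∈ box0 k ∪ boxn k n} := by
      refine measureReal_mono ?_
      intro w hw
      exact Or.inl (kw_box0 hw le_rfl)
    have i3 : π.real (box0 k) ≤ π.real (box0 k ∪ boxn k (n + 1)) :=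
      measureReal_mono Set.subset_union_left
    have h1' : 0 < 1 - ρ := by linarith
    have j1 := mul_le_mul_of_nonneg_left i1 h1'.le
    have j2 := mul_le_mul_of_nonneg_left i2 h0
    have j3 : (1 - ρ) * π.real (box0 k ∪ boxn k (n + 1)) ≤ (1 - ρ) * π.real (box0 k) := by
      linarith
    exact le_antisymm (le_of_mul_le_mul_left j3 h1') i3

lemma stat_ae {k : ℕ} {ρ : ℝ} (h0 : 0 ≤ ρ) (h1 : ρ < 1) {π : Measure (Fin k → ℝ)}
    (hπ : IsStationary k (Measure.dirac 1) (two ρ k) π) : ∀ᵐ w ∂π, w ∈ box0 k := by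
  haveI := hπ.prob
  have hn : ∀ n : ℕ, ∀ᵐ w ∂π, w ∈ boxn k n → w ∈ box0 k := by
    intro n
    have h := stat_box h0 h1 hπ n
    have h2 : π.real ((box0 k ∪ boxn k n) \ box0 k) = 0 := by
      rw [measureReal_diff Set.subset_union_left (meas_box0 k), h, sub_self]
    rw [measureReal_eq_zero_iff] at h2
    rw [ae_iff]
    refine measure_mono_null ?_ h2
    intro w hw
    rw [Set.mem_setOf_eq, Classical.not_imp] at hw
    exact ⟨Or.inr hw.1, hw.2⟩
  have hall := ae_all_iff.2 hn
  filter_upwards [hall, hπ.nonneg] with w h2 h3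
  obtain ⟨n, hn⟩ := exists_nat_ge (∑ j, w j)
  refine h2 n fun j => ⟨h3 j, le_trans ?_ hn⟩
  exact Finset.single_le_sum (fun i _ => h3 i) (Finset.mem_univ j)

lemma stat_zero {k : ℕ} (hk : 0 < k) {ρ : ℝ} (h0 : 0 ≤ ρ) (h1 : ρ < 1)
    {π : Measure (Fin k → ℝ)}
    (hπ : IsStationary k (Measure.dirac 1) (two ρ k) π) : ∫ w, w ⟨0, hk⟩ ∂π = 0 := by
  have h : (fun w : Fin k → ℝ => w ⟨0, hk⟩) =ᵐ[π] fun _ => 0 := by
    filter_upwards [stat_ae h0 h1 hπ] with w hw
    have := hw ⟨0, hk⟩
    simp only [CharP.cast_eq_zero] at this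
    linarith [this.1, this.2]
  rw [integral_congr_ae h, integral_zero]

end KWq
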