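import Pool.Agent.H1.KwB

open MeasureTheory

namespace KWq

/-- workloads seen by a customer when the last `m` service times are `s 0, s 1, …` (the latest
first), in a queue with `m + 1` servers, interarrival times `1` and service times at most `m+1` -/
noncomputable def ld {m : ℕ} (s : Fin m → ℝ) : Fin (m + 1) → ℝ :=
  Fin.cons 0 (fun j : Fin m => max (s j - ((j : ℕ) + 1)) 0)

lemma ld_nonneg {m : ℕ} (s : Fin m → ℝ) (j : Fin (m + 1)) : 0 ≤ ld s j := by
  unfold ld
  refine Fin.cases ?_ (fun i => ?_) j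
  · simp
  · simp

lemma ld_zero {m : ℕ} (s : Fin m → ℝ) : ld s 0 = 0 := by
  unfold ld; simp

lemma srt_ld_zero {m : ℕ} (s : Fin m → ℝ) : srt (ld s) 0 = 0 := by
  apply le_antisymm
  · have h := srt_mono (ld s) (Fin.zero_le ((Tuple.sort (ld s)).symm 0))
    refine h.trans ?_
    unfold srt
    rw [Function.comp_apply, Equiv.apply_symm_apply, ld_zero]
  · exact ld_nonneg s _

lemma cnt_succ {m : ℕ} (v : Fin (m + 1) → ℝ) (c : ℝ) :
    cnt v c = (if v 0 ≤ c then 1 else 0) + ∑ j : Fin m, (if v j.succ ≤ c then 1 else 0) := by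
  unfold cnt
  exact Fin.sum_univ_succ _

lemma kw_ld {m : ℕ} (s : Fin (m + 1) → ℝ) (hs : ∀ j, s j ≤ (m : ℝ) + 2) (x : ℝ) :
    kwStep (srt (ld s)) x 1 = srt (ld (Fin.cons x (Fin.init s) : Fin (m + 1) → ℝ)) := by
  rw [kwStep_eq]
  apply srt_eq_of_cnt
  intro c
  set σ := Tuple.sort (ld s) with hσ
  -- the shifted-down values
  set d : Fin (m + 2) → ℝ := fun i => max (ld s i - 1) 0 with hd
  have hd0 : d 0 = 0 := by
    rw [hd]
    simp only [ld_zero]
    norm_num
  have hdσ0 : d (σ 0) = 0 := by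
    have := srt_ld_zero s
    unfold srt at this
    rw [Function.comp_apply] at this
    rw [hd]
    simp only
    rw [hσ, this]
    norm_num
  have key : cnt (d ∘ σ) c = cnt d c := cnt_comp d σ c
  rw [cnt_succ, cnt_succ, Function.comp_apply, hdσ0, hd0] at key
  have key2 : ∑ j : Fin (m + 1), (if (d ∘ σ) j.succ ≤ c then 1 else 0) =
      ∑ j : Fin (m + 1), (if d j.succ ≤ c then 1 else 0) := by omega
  rw [cnt_succ (pre (srt (ld s)) x 1) c]
  have e0 : pre (srt (ld s)) x 1 0 = max (x - 1) 0 := by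
    unfold pre
    simp only [Fin.val_zero, if_true]
    rw [srt_ld_zero, zero_add]
  have es : ∀ j : Fin (m + 1), pre (srt (ld s)) x 1 j.succ = (d ∘ σ) j.succ := by
    intro j
    unfold pre
    simp only [Fin.val_succ, Nat.add_eq_zero_iff, one_ne_zero, and_false, if_false]
    rfl
  simp only [es, e0]
  rw [key2, Fin.sum_univ_castSucc (n := m), cnt_succ, Fin.sum_univ_succ (n := m)]
  have l1 : d (Fin.last m).succ = 0 := by
    rw [hd]
    simp only
    unfold ld
    rw [Fin.cons_succ]
    have := hs (Fin.last m)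
    have h2 : max (s (Fin.last m) - (((Fin.last m : Fin (m + 1)) : ℕ) + 1)) 0 ≤ 1 := by
      refine max_le ?_ zero_le_one
      rw [Fin.val_last]
      linarith
    rw [max_eq_right]
    linarith
  have l2 : ∀ j : Fin m, d (Fin.castSucc j).succ =
      ld (Fin.cons x (Fin.init s) : Fin (m + 1) → ℝ) j.succ.succ := by
    intro j
    rw [hd]
    simp only
    unfold ld
    rw [Fin.cons_succ, Fin.cons_succ, Fin.cons_succ]
    unfold Fin.init
    simp only [Fin.val_castSucc, Fin.val_succ]
    push_cast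
    rcases le_total (s j.castSucc - ((j : ℕ) + 1)) 0 with h | h
    · rw [max_eq_right h]
      rw [max_eq_right (by norm_num), max_eq_right (by linarith)]
    · rw [max_eq_left h]
      congr 1
      ring
  have l3 : ld (Fin.cons x (Fin.init s) : Fin (m + 1) → ℝ) (Fin.succ 0) = max (x - 1) 0 := by
    unfold ld
    rw [Fin.cons_succ, Fin.cons_zero]
    simp
  rw [l1, l3, ld_zero]
  simp only [l2]
  ring

lemma shift_law {m : ℕ} (ν ν' : Measure ℝ) [IsProbabilityMeasure ν] [IsProbabilityMeasure ν'] :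
    ((Measure.pi (fun _ : Fin (m + 1) => ν)).prod (ν.prod ν')).map
      (fun q => (Fin.cons q.2.1 (Fin.init q.1) : Fin (m + 1) → ℝ)) =
      Measure.pi (fun _ : Fin (m + 1) => ν) := by
  have hg : Measurable (fun q : (Fin (m + 1) → ℝ) × (ℝ × ℝ) =>
      (Fin.cons q.2.1 (Fin.init q.1) : Fin (m + 1) → ℝ)) := by
    rw [measurable_pi_iff]
    intro j
    refine Fin.cases ?_ (fun i => ?_) j
    · simp only [Fin.cons_zero]
      fun_prop
    · simp only [Fin.cons_succ, Fin.init]
      fun_prop
  symm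
  refine Measure.pi_eq fun A hA => ?_
  rw [Measure.map_apply hg (MeasurableSet.univ_pi hA)]
  set B : Fin (m + 1) → Set ℝ := Fin.snoc (fun j : Fin m => A j.succ) Set.univ with hB
  have e : (fun q : (Fin (m + 1) → ℝ) × (ℝ × ℝ) =>
      (Fin.cons q.2.1 (Fin.init q.1) : Fin (m + 1) → ℝ)) ⁻¹' Set.pi Set.univ A =
      (Set.pi Set.univ B) ×ˢ (A 0 ×ˢ Set.univ) := by
    ext q
    simp only [Set.mem_preimage, Set.mem_univ_pi, Set.mem_prod, Set.mem_univ, and_true]
    rw [Fin.forall_fin_succ]
    simp only [Fin.cons_zero, Fin.cons_succ, Fin.init]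
    rw [and_comm]
    refine and_congr_left fun _ => ?_
    constructor
    · intro h j
      refine Fin.lastCases ?_ (fun i => ?_) j
      · rw [hB, Fin.snoc_last]; trivial
      · rw [hB, Fin.snoc_castSucc]; exact h i
    · intro h i
      have := h i.castSucc
      rwa [hB, Fin.snoc_castSucc] at this
  rw [e, Measure.prod_prod, Measure.prod_prod, Measure.pi_pi, measure_univ, mul_one,
    Fin.prod_univ_castSucc, Fin.prod_univ_succ]
  have hl : ν (B (Fin.last m)) = 1 := by rw [hB, Fin.snoc_last, measure_univ]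
  rw [hl, mul_one, mul_comm]
  congr 1
  refine Finset.prod_congr rfl fun i _ => ?_
  rw [hB, Fin.snoc_castSucc]

lemma measurable_ld {m : ℕ} : Measurable (ld : (Fin m → ℝ) → (Fin (m + 1) → ℝ)) := by
  rw [measurable_pi_iff]
  intro j
  unfold ld
  refine Fin.cases ?_ (fun i => ?_) j
  · simp only [Fin.cons_zero]
    fun_prop
  · simp only [Fin.cons_succ]
    fun_prop

/-- existence of a stationary distribution -/
lemma exists_stat {m : ℕ} {ρ : ℝ} (h0 : 0 ≤ ρ) (h1 : ρ ≤ 1) :
    ∃ π, IsStationary (m + 2) (Measure.dirac 1) (two ρ ((m + 2 : ℕ) : ℝ)) π := by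
  haveI : IsProbabilityMeasure (two ρ ((m + 2 : ℕ) : ℝ)) := two_prob h0 h1
  set ν := two ρ ((m + 2 : ℕ) : ℝ) with hν
  set P : Measure (Fin (m + 1) → ℝ) := Measure.pi (fun _ : Fin (m + 1) => ν) with hP
  have hF : Measurable (fun s : Fin (m + 1) → ℝ => srt (ld s)) :=
    measurable_srt.comp measurable_ld
  refine ⟨P.map (fun s => srt (ld s)), ⟨?_, ?_, ?_, ?_⟩⟩
  · exact Measure.isProbabilityMeasure_map hF.aemeasurable
  · refine (ae_map_iff hF.aemeasurable ?_).2 (Filter.Eventually.of_forall fun s => srt_mono _)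
    have : {w : Fin (m + 2) → ℝ | Monotone w} = ⋂ a, ⋂ b, {w : Fin (m + 2) → ℝ | a ≤ b → w a ≤ w b} := by
      ext w
      simp only [Set.mem_setOf_eq, Set.mem_iInter]
      rfl
    rw [this]
    refine MeasurableSet.iInter fun a => MeasurableSet.iInter fun b => ?_
    by_cases hab : a ≤ b
    · simp only [hab, true_imp_iff]
      exact measurableSet_le (measurable_pi_apply a) (measurable_pi_apply b)
    · simp only [hab, false_imp_iff]
      exact MeasurableSet.univ
  · refine (ae_map_iff hF.aemeasurable ?_).2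
      (Filter.Eventually.of_forall fun s j => ld_nonneg s _)
    have : {w : Fin (m + 2) → ℝ | ∀ j, 0 ≤ w j} = ⋂ j, {w : Fin (m + 2) → ℝ | 0 ≤ w j} := by
      ext w
      simp
    rw [this]
    exact MeasurableSet.iInter fun j => measurableSet_le measurable_const (measurable_pi_apply j)
  · have e1 : (P.map (fun s => srt (ld s))).prod (ν.prod (Measure.dirac (1 : ℝ))) =
        (P.prod (ν.prod (Measure.dirac (1 : ℝ)))).map
          (Prod.map (fun s => srt (ld s)) id) := by
      rw [← Measure.map_prod_map _ _ hF measurable_id, Measure.map_id]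
    have hg : Measurable (fun q : (Fin (m + 1) → ℝ) × (ℝ × ℝ) =>
        (Fin.cons q.2.1 (Fin.init q.1) : Fin (m + 1) → ℝ)) := by
      rw [measurable_pi_iff]
      intro j
      refine Fin.cases ?_ (fun i => ?_) j
      · simp only [Fin.cons_zero]
        fun_prop
      · simp only [Fin.cons_succ, Fin.init]
        fun_prop
    rw [e1, Measure.map_map measurable_kw (hF.prodMap measurable_id)]
    conv_rhs => rw [hP, ← shift_law ν (Measure.dirac (1 : ℝ)), Measure.map_map hF hg]
    refine Measure.map_congr ?_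
    have a1 : ∀ᵐ q ∂(P.prod (ν.prod (Measure.dirac (1 : ℝ)))), ∀ j, q.1 j ≤ (m : ℝ) + 2 := by
      rw [ae_all_iff]
      intro j
      have b1 : ∀ᵐ s ∂P, s j ≤ (m : ℝ) + 2 := by
        have c1 : ∀ᵐ x ∂ν, x ≤ (m : ℝ) + 2 :=
          two_ae (by positivity) (by push_cast; exact le_rfl)
        exact (measurePreserving_eval (fun _ : Fin (m + 1) => ν) j).quasiMeasurePreserving.ae c1
      exact Measure.quasiMeasurePreserving_fst.ae b1
    have a2 : ∀ᵐ q ∂(P.prod (ν.prod (Measure.dirac (1 : ℝ)))), q.2.2 = 1 := by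
      have c1 : ∀ᵐ x ∂(Measure.dirac (1 : ℝ)), x = 1 := by
        rw [ae_dirac_eq, Filter.eventually_pure]
      have c2 : ∀ᵐ y ∂(ν.prod (Measure.dirac (1 : ℝ))), y.2 = 1 :=
        Measure.quasiMeasurePreserving_snd.ae c1
      exact Measure.quasiMeasurePreserving_snd.ae c2
    filter_upwards [a1, a2] with q h2 h3
    simp only [Function.comp_apply, Prod.map_fst, Prod.map_snd, id_eq]
    rw [h3]
    exact kw_ld q.1 h2 q.2.1

end KWq
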