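import Pool.Agent.H1.KwC

open MeasureTheory

namespace KWq

/-- The right-hand side of the conjectured bound (a). -/
noncomputable def rhs (k : ℕ) (ET ES ES2 : ℝ) : ℝ :=
  (1 - k * (1 - ES / (k * ET))) *
    max (ES2 - (2 * k - 1) * ES * ET + k * (k - 1) * ET ^ 2) 0

/-- The left-hand side `2k²ρ(1-ρ) ET EW₁`, as a function of `EW₁`. -/
noncomputable def lhs (k : ℕ) (ET ES EW1 : ℝ) : ℝ :=
  2 * k ^ 2 * (ES / (k * ET)) * (1 - ES / (k * ET)) * ET * EW1

theorem main (k : ℕ) (hk : 2 ≤ k) (ρ : ℝ) (h1 : 1 - 1 / (k : ℝ) < ρ) (h2 : ρ < 1) :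
    ∃ (ET ES ET2 ES2 : ℝ) (μT μS : Measure ℝ), InQ2 ET ES ET2 ES2 μT μS ∧
      ES / (k * ET) = ρ ∧
      (∃ π, IsStationary k μT μS π) ∧
      ∀ π, IsStationary k μT μS π →
        lhs k ET ES (∫ w, w ⟨0, by omega⟩ ∂π) < rhs k ET ES ES2 := by
  have hk0 : (0 : ℝ) < k := by
    have : 0 < k := by omega
    exact_mod_cast this
  have hk2 : (2 : ℝ) ≤ k := by exact_mod_cast hk
  have h0 : 0 < ρ := by
    have : 1 / (k : ℝ) ≤ 1 := by
      rw [div_le_one hk0]; linarith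
    linarith
  refine ⟨1, k * ρ, 1, k ^ 2 * ρ, Measure.dirac 1, two ρ k, inQ2 k h0.le h2.le, ?_, ?_, ?_⟩
  · rw [mul_one, mul_div_cancel_left₀ _ hk0.ne']
  · obtain ⟨m, rfl⟩ : ∃ m, k = m + 2 := ⟨k - 2, by omega⟩
    exact exists_stat h0.le h2.le
  · intro π hπ
    have hz := stat_zero (by omega : 0 < k) h0.le h2 hπ
    rw [hz]
    unfold lhs rhs
    rw [mul_zero, mul_one, mul_div_cancel_left₀ _ hk0.ne']
    have a1 : 0 < 1 - (k : ℝ) * (1 - ρ) := by
      have : (k : ℝ) * (1 - ρ) < k * (1 / k) := by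
        apply mul_lt_mul_of_pos_left _ hk0
        linarith
      rw [mul_one_div_cancel hk0.ne'] at this
      linarith
    have a2 : 0 < (k : ℝ) ^ 2 * ρ - (2 * k - 1) * (k * ρ) * 1 + k * (k - 1) * 1 ^ 2 := by
      have : (k : ℝ) ^ 2 * ρ - (2 * k - 1) * (k * ρ) * 1 + k * (k - 1) * 1 ^ 2 =
          k * ((k - 1) * (1 - ρ)) := by ring
      rw [this]
      have b1 : (0 : ℝ) < k - 1 := by linarith
      have b2 : 0 < 1 - ρ := by linarith
      positivity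
    exact mul_pos a1 (lt_max_of_lt_left a2)

end KWq
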