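import Mathlib

namespace LatR

abbrev L := ℝ ≃o ℝ

noncomputable def mk' (f : ℝ → ℝ) (h : StrictMono f) (hs : Function.Surjective f) : L :=
  StrictMono.orderIsoOfSurjective f h hs

@[simp] lemma mk'_apply (f : ℝ → ℝ) (h : StrictMono f) (hs : Function.Surjective f) (x : ℝ) :
    mk' f h hs x = f x := rfl

noncomputable instance instLat : Lattice L where
  __ := PartialOrder.lift (fun (f : L) => (f : ℝ → ℝ)) DFunLike.coe_injective
  sup f g := mk' (fun x => max (f x) (g x))
    (fun x y h => max_lt_max (f.strictMono h) (g.strictMono h))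
    (fun y => by
      refine ⟨min (f.symm y) (g.symm y), ?_⟩
      rcases le_total (f.symm y) (g.symm y) with h | h
      · simp only [min_eq_left h]
        rw [OrderIso.apply_symm_apply, max_eq_left]
        exact (g.le_symm_apply).1 h
      · simp only [min_eq_right h]
        rw [OrderIso.apply_symm_apply, max_eq_right]
        exact (f.le_symm_apply).1 h)
  inf f g := mk' (fun x => min (f x) (g x))
    (fun x y h => min_lt_min (f.strictMono h) (g.strictMono h))
    (fun y => by
      refine ⟨max (f.symm y) (g.symm y), ?_⟩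
      rcases le_total (f.symm y) (g.symm y) with h | h
      · simp only [max_eq_right h]
        rw [OrderIso.apply_symm_apply, min_eq_right]
        exact (f.symm_apply_le).1 h
      · simp only [max_eq_left h]
        rw [OrderIso.apply_symm_apply, min_eq_left]
        exact (g.symm_apply_le).1 h)
  le_sup_left f g := fun x => le_max_left _ _
  le_sup_right f g := fun x => le_max_right _ _
  sup_le f g h h1 h2 := fun x => max_le (h1 x) (h2 x)
  inf_le_left f g := fun x => min_le_left _ _
  inf_le_right f g := fun x => min_le_right _ _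
  le_inf f g h h1 h2 := fun x => le_min (h1 x) (h2 x)

lemma le_def {f g : L} : f ≤ g ↔ ∀ x, f x ≤ g x := Iff.rfl
lemma le_app {f g : L} (h : f ≤ g) (x : ℝ) : f x ≤ g x := h x
lemma le_of {f g : L} (h : ∀ x, f x ≤ g x) : f ≤ g := h
@[simp] lemma sup_app (f g : L) (x : ℝ) : (f ⊔ g) x = max (f x) (g x) := rfl
@[simp] lemma inf_app (f g : L) (x : ℝ) : (f ⊓ g) x = min (f x) (g x) := rfl

/-- an affine element -/
noncomputable def aff (a b : ℝ) (ha : 0 < a) : L :=
  mk' (fun x => a * x + b) (fun x y h => by
    have := mul_lt_mul_of_pos_left h ha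
    linarith) (fun y => ⟨(y - b) / a, by field_simp; ring⟩)

@[simp] lemma aff_apply (a b : ℝ) (ha : 0 < a) (x : ℝ) : aff a b ha x = a * x + b := rfl

/-- line through two points -/
lemma exists_line {x1 x2 y1 y2 : ℝ} (hx : x1 < x2) (hy : y1 < y2) :
    ∃ l : L, l x1 = y1 ∧ l x2 = y2 ∧ ∀ x, l x = y1 + (y2 - y1) / (x2 - x1) * (x - x1) := by
  have h1 : 0 < x2 - x1 := sub_pos.2 hx
  have h2 : 0 < y2 - y1 := sub_pos.2 hy
  refine ⟨aff ((y2 - y1) / (x2 - x1)) (y1 - (y2 - y1) / (x2 - x1) * x1) (div_pos h2 h1), ?_, ?_, ?_⟩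
  · simp
  · rw [aff_apply]
    field_simp
    ring
  · intro x
    rw [aff_apply]
    ring

/-- gluing -/
noncomputable def glue (a b : L) (s : ℝ) (h : a s = b s) : L :=
  mk' (fun x => if x ≤ s then a x else b x)
    (fun x y hxy => by
      by_cases h1 : x ≤ s
      · by_cases h2 : y ≤ s
        · simp only [h1, h2, if_true]
          exact a.strictMono hxy
        · simp only [h1, h2, if_true, if_false]
          push Not at h2
          calc a x ≤ a s := a.monotone h1
            _ = b s := h
            _ < b y := b.strictMono h2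
      · have h2 : ¬ y ≤ s := by push Not at h1 ⊢; exact h1.trans hxy
        simp only [h1, h2, if_false]
        exact b.strictMono hxy)
    (fun y => by
      rcases le_or_gt y (a s) with hy | hy
      · refine ⟨a.symm y, ?_⟩
        have : a.symm y ≤ s := (a.symm_apply_le).2 hy
        simp only [this, if_true]
        exact a.apply_symm_apply y
      · refine ⟨b.symm y, ?_⟩
        have : ¬ b.symm y ≤ s := by
          rw [not_le]
          rw [h] at hy
          exact (b.lt_symm_apply).2 hy
        simp only [this, if_false]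
        exact b.apply_symm_apply y)

lemma glue_left {a b : L} {s : ℝ} (h : a s = b s) {x : ℝ} (hx : x ≤ s) : glue a b s h x = a x := by
  change (if x ≤ s then a x else b x) = a x
  rw [if_pos hx]

lemma glue_right {a b : L} {s : ℝ} (h : a s = b s) {x : ℝ} (hx : s ≤ x) : glue a b s h x = b x := by
  change (if x ≤ s then a x else b x) = b x
  rcases hx.eq_or_lt with rfl | h2
  · rw [if_pos le_rfl, h]
  · rw [if_neg (not_le.2 h2)]

/-- bumps: `Y x > x` exactly on `(p, q)`, and `Y a = b` -/
lemma exists_bump {p a b q : ℝ} (h1 : p < a) (h2 : a < b) (h3 : b < q) :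
    ∃ Y : L, Y a = b ∧ (∀ x, x ≤ p → Y x = x) ∧ (∀ x, q ≤ x → Y x = x) ∧
      (∀ x, p < x → x < q → x < Y x) := by
  obtain ⟨l1, e1, e1', f1⟩ := exists_line h1 (h1.trans h2)
  obtain ⟨l2, e2, e2', f2⟩ := exists_line (h2.trans h3) h3
  have hp : 0 < a - p := sub_pos.2 h1
  have hq : 0 < q - a := by linarith
  have s1 : 1 < (b - p) / (a - p) := by rw [one_lt_div hp]; linarith
  have s2 : (q - b) / (q - a) < 1 := by rw [div_lt_one hq]; linarith
  have l1le : ∀ x, x ≤ p → l1 x ≤ x := by
    intro x hx
    rw [f1]
    nlinarith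
  have l1ge : ∀ x, p < x → x < l1 x := by
    intro x hx
    rw [f1]
    nlinarith
  have l2eq : ∀ x, l2 x = q + (q - b) / (q - a) * (x - q) := by
    intro x
    rw [f2]
    field_simp
    ring
  have l2le : ∀ x, q ≤ x → l2 x ≤ x := by
    intro x hx
    rw [l2eq]
    nlinarith
  have l2ge : ∀ x, x < q → x < l2 x := by
    intro x hx
    rw [l2eq]
    nlinarith
  refine ⟨(1 : L) ⊔ (l1 ⊓ l2), ?_, ?_, ?_, ?_⟩
  · rw [sup_app, inf_app, e1', e2, min_self]
    exact max_eq_right (by simpa using h2.le)
  · intro x hx
    rw [sup_app, inf_app]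
    exact max_eq_left ((min_le_left _ _).trans (by simpa using l1le x hx))
  · intro x hx
    rw [sup_app, inf_app]
    exact max_eq_left ((min_le_right _ _).trans (by simpa using l2le x hx))
  · intro x hx hx'
    rw [sup_app, inf_app]
    exact lt_max_of_lt_right (lt_min (l1ge x hx) (l2ge x hx'))

end LatR
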