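import Pool.Agent.H1.LatA

namespace LatR

def I (s c : ℝ) : Set L := {f | f s ≤ c}

lemma mem_I {s c : ℝ} {f : L} : f ∈ I s c ↔ f s ≤ c := Iff.rfl

structure CP (J : Set L) : Prop where
  ne : J.Nonempty
  nu : J ≠ Set.univ
  lower : ∀ f g : L, f ≤ g → g ∈ J → f ∈ J
  prime : ∀ f g : L, f ⊓ g ∈ J → f ∈ J ∨ g ∈ J
  lub : ∀ (S : Set L) (g : L), S ⊆ J → IsLUB S g → g ∈ J

/-- inverse bump -/
lemma exists_dip {p q : ℝ} (h : p < q) :
    ∃ Z : L, (∀ x, x ≤ p → Z x = x) ∧ (∀ x, q ≤ x → Z x = x) ∧
      (∀ x, p < x → x < q → p < Z x ∧ Z x < x) := by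
  obtain ⟨Y, -, h1, h2, h3⟩ := exists_bump (p := p) (a := p + (q - p) / 3) (b := p + 2 * (q - p) / 3)
    (q := q) (by linarith) (by linarith) (by linarith)
  refine ⟨Y.symm, ?_, ?_, ?_⟩
  · intro x hx
    rw [OrderIso.symm_apply_eq, h1 x hx]
  · intro x hx
    rw [OrderIso.symm_apply_eq, h2 x hx]
  · intro x hx hx'
    set y := Y.symm x with hy
    have e : Y y = x := Y.apply_symm_apply x
    have hy1 : p < y := by
      by_contra hc
      push Not at hc
      rw [h1 y hc] at e
      linarith
    have hy2 : y < q := by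
      by_contra hc
      push Not at hc
      rw [h2 y hc] at e
      linarith
    have := h3 y hy1 hy2
    rw [e] at this
    exact ⟨hy1, this⟩

lemma CP_I (s c : ℝ) : CP (I s c) where
  ne := ⟨aff 1 (c - s) one_pos, by rw [mem_I, aff_apply]; linarith⟩
  nu := by
    intro h
    have : aff 1 (c - s + 1) one_pos ∈ I s c := by rw [h]; trivial
    rw [mem_I, aff_apply] at this
    linarith
  lower f g h hg := (h s).trans hg
  prime f g h := by
    rw [mem_I, inf_app] at h
    exact min_le_iff.1 h
  lub S g hS hg := by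
    rw [mem_I]
    by_contra hc
    push Not at hc
    set t := g.symm c with ht
    have hts : t < s := by
      rw [ht, OrderIso.symm_apply_lt]
      exact hc
    have hgt : g t = c := g.apply_symm_apply c
    obtain ⟨Z, z1, z2, z3⟩ := exists_dip hts
    have hub : g * Z ∈ upperBounds S := by
      intro f hf
      refine le_of fun x => ?_
      have hfg := hg.1 hf
      rw [RelIso.mul_apply]
      rcases le_or_gt x t with h1 | h1
      · rw [z1 x h1]; exact hfg x
      · rcases le_or_gt s x with h2 | h2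
        · rw [z2 x h2]; exact hfg x
        · have h3 : f x ≤ c := (f.monotone h2.le).trans (hS hf)
          have h4 := g.monotone (z3 x h1 h2).1.le
          rw [hgt] at h4
          exact h3.trans h4
    have hle := hg.2 hub
    have hm1 : t < (t + s) / 2 := by linarith
    have hm2 : (t + s) / 2 < s := by linarith
    have h5 := le_app hle ((t + s) / 2)
    rw [RelIso.mul_apply] at h5
    have h6 := g.strictMono (z3 _ hm1 hm2).2
    exact absurd h5 (not_le.2 h6)

lemma st1 {J : Set L} (h : CP J) {g : L} (hg : g ∉ J) : ∃ s, ∀ f ∈ J, f s ≤ g s := by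
  by_contra hc
  push Not at hc
  apply hg
  apply h.lub {x | ∃ f ∈ J, x = f ⊓ g}
  · rintro x ⟨f, hf, rfl⟩
    exact h.lower _ _ inf_le_left hf
  · constructor
    · rintro x ⟨f, hf, rfl⟩
      exact inf_le_right
    · intro u hu
      refine le_of fun s => ?_
      obtain ⟨f, hf, hfs⟩ := hc s
      have := le_app (hu ⟨f, hf, rfl⟩) s
      rw [inf_app, min_eq_right hfs.le] at this
      exact this

theorem CP_char {J : Set L} (h : CP J) : ∃ s c, J = I s c := by
  set B : ℝ → Set ℝ := fun s => (fun f : L => f s) '' J with hB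
  set D : Set ℝ := {s | BddAbove (B s)} with hD
  set φ : ℝ → ℝ := fun s => sSup (B s) with hφ
  have hBne : ∀ s, (B s).Nonempty := fun s => h.ne.image _
  have hle : ∀ s ∈ D, ∀ f ∈ J, f s ≤ φ s := fun s hs f hf => le_csSup hs ⟨f, hf, rfl⟩
  have hsup : ∀ s b, (∀ f ∈ J, f s ≤ b) → s ∈ D ∧ φ s ≤ b := by
    intro s b hb
    have : b ∈ upperBounds (B s) := by
      rintro _ ⟨f, hf, rfl⟩
      exact hb f hf
    exact ⟨⟨b, this⟩, csSup_le (hBne s) this⟩
  -- step 2
  have key : ∀ g : L, g ∈ J ↔ ∀ s ∈ D, g s ≤ φ s := by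
    intro g
    constructor
    · intro hg s hs
      exact hle s hs g hg
    · intro hg
      by_contra hgJ
      have hlub : IsLUB {k : L | ∀ x, k x < g x} g := by
        constructor
        · intro k hk
          exact le_of fun x => (hk x).le
        · intro u hu
          refine le_of fun x => ?_
          by_contra hc
          push Not at hc
          have hm : aff 1 (-((g x - u x) / 2)) one_pos * g ∈ {k : L | ∀ x, k x < g x} := by
            intro y
            rw [RelIso.mul_apply, aff_apply]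
            linarith
          have := le_app (hu hm) x
          rw [RelIso.mul_apply, aff_apply] at this
          linarith
      have : ¬ ({k : L | ∀ x, k x < g x} ⊆ J) := fun hc => hgJ (h.lub _ _ hc hlub)
      rw [Set.not_subset] at this
      obtain ⟨k, hk, hkJ⟩ := this
      obtain ⟨s, hs⟩ := st1 h hkJ
      obtain ⟨hsD, hsφ⟩ := hsup s _ hs
      have h1 := hg s hsD
      have h2 := hk s
      linarith
  have hDdown : ∀ s ∈ D, ∀ s' ≤ s, s' ∈ D := by
    intro s hs s' hs'
    exact (hsup s' (φ s) (fun f hf => (f.monotone hs').trans (hle s hs f hf))).1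
  -- step 4
  have hconst : ∀ s1 s2, s1 < s2 → s2 ∈ D → φ s1 = φ s2 := by
    intro s1 s2 h12 hs2
    have hs1 : s1 ∈ D := hDdown s2 hs2 s1 h12.le
    have hmono : φ s1 ≤ φ s2 :=
      (hsup s1 (φ s2) (fun f hf => (f.monotone h12.le).trans (hle s2 hs2 f hf))).2
    by_contra hne
    have hlt : φ s1 < φ s2 := lt_of_le_of_ne hmono hne
    obtain ⟨v, hv1, hv2⟩ := exists_between hlt
    obtain ⟨_, ⟨k, hk, rfl⟩, hkv⟩ := exists_lt_of_lt_csSup (hBne s2) hv2
    obtain ⟨v', hv'1, hv'2⟩ := exists_between hv1
    obtain ⟨y1, hy1, hy1'⟩ := exists_between hv'1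
    obtain ⟨l1, l1a, l1b, -⟩ := exists_line h12 hy1'
    have hkv' : v < k s2 := hkv
    set t := k.symm v with ht
    have hkt : k t = v := k.apply_symm_apply v
    have hts2 : t < s2 := by
      rw [ht, OrderIso.symm_apply_lt]
      exact hkv'
    obtain ⟨l2, l2a, l2b, -⟩ := exists_line (x1 := t) (x2 := s2) (y1 := v) (y2 := φ s2 + 1) hts2
      (by linarith)
    have g1 : l1 s2 = (aff 1 (-(k s2 - v')) one_pos * k) s2 := by
      rw [RelIso.mul_apply, aff_apply, l1b]
      ring
    have g2 : k t = l2 t := by rw [hkt, l2a]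
    have hf : glue l1 (aff 1 (-(k s2 - v')) one_pos * k) s2 g1 ∉ J := by
      intro hmem
      have := (key _).1 hmem s1 hs1
      rw [glue_left g1 h12.le, l1a] at this
      linarith
    have hg : glue k l2 t g2 ∉ J := by
      intro hmem
      have := (key _).1 hmem s2 hs2
      rw [glue_right g2 hts2.le, l2b] at this
      linarith
    have hfg : glue l1 (aff 1 (-(k s2 - v')) one_pos * k) s2 g1 ⊓ glue k l2 t g2 ∈ J := by
      rw [key]
      intro x hx
      rw [inf_app]
      rcases le_or_gt x t with hxt | hxt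
      · refine (min_le_right _ _).trans ?_
        rw [glue_left g2 hxt]
        exact hle x hx k hk
      · rcases le_or_gt x s2 with hxs | hxs
        · refine (min_le_left _ _).trans ?_
          rw [glue_left g1 hxs]
          have e1 : l1 x ≤ v' := by rw [← l1b]; exact l1.monotone hxs
          have e2 : v ≤ k x := by rw [← hkt]; exact k.monotone hxt.le
          have e3 := hle x hx k hk
          linarith
        · refine (min_le_left _ _).trans ?_
          rw [glue_right g1 hxs.le, RelIso.mul_apply, aff_apply]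
          have e3 := hle x hx k hk
          linarith
    rcases h.prime _ _ hfg with h1 | h1
    · exact hf h1
    · exact hg h1
  -- step 5
  obtain ⟨g0, hg0⟩ : ∃ g, g ∉ J := by
    by_contra hc
    push Not at hc
    exact h.nu (Set.eq_univ_of_forall hc)
  obtain ⟨sa, hsa⟩ := st1 h hg0
  have hsaD : sa ∈ D := (hsup sa _ hsa).1
  have hφc : ∀ s ∈ D, φ s = φ sa := by
    intro s hs
    rcases lt_trichotomy s sa with h1 | h1 | h1
    · exact hconst s sa h1 hsaD
    · rw [h1]
    · exact (hconst sa s h1 hs).symm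
  obtain ⟨k, hk⟩ := h.ne
  have hDb : BddAbove D := by
    refine ⟨k.symm (φ sa), ?_⟩
    intro s hs
    rw [OrderIso.le_symm_apply, ← hφc s hs]
    exact hle s hs k hk
  have hDne : D.Nonempty := ⟨sa, hsaD⟩
  have h0 : ∀ f ∈ J, f (sSup D) ≤ φ sa := by
    intro f hf
    by_contra hc
    push Not at hc
    have hx : f.symm (φ sa) < sSup D := by
      rw [OrderIso.symm_apply_lt]
      exact hc
    obtain ⟨d, hd, hxd⟩ := exists_lt_of_lt_csSup hDne hx
    rw [OrderIso.symm_apply_lt] at hxd
    have := hle d hd f hf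
    rw [hφc d hd] at this
    linarith
  obtain ⟨h0D, -⟩ := hsup _ _ h0
  refine ⟨sSup D, φ sa, ?_⟩
  ext g
  rw [mem_I, key]
  constructor
  · intro hg
    rw [← hφc _ h0D]
    exact hg _ h0D
  · intro hg s hs
    rw [hφc s hs]
    exact (g.monotone (le_csSup hDb hs)).trans hg

lemma CP_image (Φ : L ≃o L) {J : Set L} (h : CP J) : CP (Φ '' J) where
  ne := h.ne.image _
  nu := by
    intro hu
    apply h.nu
    rw [Set.eq_univ_iff_forall] at hu ⊢
    intro x
    obtain ⟨y, hy, hxy⟩ := hu (Φ x)
    rwa [← Φ.injective hxy]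
  lower f g hfg hg := by
    obtain ⟨g', hg', rfl⟩ := hg
    refine ⟨Φ.symm f, h.lower _ g' ?_ hg', Φ.apply_symm_apply f⟩
    rw [OrderIso.symm_apply_le]
    exact hfg
  prime f g hfg := by
    obtain ⟨k, hk, hk'⟩ := hfg
    have : k = Φ.symm f ⊓ Φ.symm g := by
      rw [← map_inf, ← hk', OrderIso.symm_apply_apply]
    rw [this] at hk
    rcases h.prime _ _ hk with h1 | h1
    · exact Or.inl ⟨_, h1, Φ.apply_symm_apply f⟩
    · exact Or.inr ⟨_, h1, Φ.apply_symm_apply g⟩
  lub S g hS hg := by
    refine ⟨Φ.symm g, ?_, Φ.apply_symm_apply g⟩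
    apply h.lub (Φ.symm '' S)
    · rintro _ ⟨x, hx, rfl⟩
      obtain ⟨y, hy, rfl⟩ := hS hx
      rwa [OrderIso.symm_apply_apply]
    · exact (Φ.symm.isLUB_image').2 hg

lemma I_sub {s c s' c' : ℝ} : I s c ⊆ I s' c' ↔ s' ≤ s ∧ c ≤ c' := by
  constructor
  · intro h
    have h1 : s' ≤ s := by
      by_contra hc
      push Not at hc
      obtain ⟨l, la, lb, -⟩ := exists_line (x1 := s) (x2 := s') (y1 := c) (y2 := max c c' + 1) hc
        (by have := le_max_left c c'; linarith)
      have := h (mem_I.2 la.le)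
      rw [mem_I, lb] at this
      have := le_max_right c c'
      linarith
    refine ⟨h1, ?_⟩
    by_contra hc
    push Not at hc
    rcases h1.eq_or_lt with h2 | h2
    · subst h2
      have : aff 1 (c - s') one_pos ∈ I s' c := by rw [mem_I, aff_apply]; linarith
      have := h this
      rw [mem_I, aff_apply] at this
      linarith
    · obtain ⟨l, la, lb, -⟩ := exists_line (x1 := s') (x2 := s) (y1 := (c + c') / 2) (y2 := c) h2
        (by linarith)
      have := h (mem_I.2 lb.le)
      rw [mem_I, la] at this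
      linarith
  · rintro ⟨h1, h2⟩ f hf
    exact ((f.monotone h1).trans hf).trans h2

end LatR
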