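import Pool.Agent.H1.LatB

namespace LatR

lemma I_inj {s c s' c' : ℝ} (h : I s c = I s' c') : s = s' ∧ c = c' := by
  have h1 := I_sub.1 h.subset
  have h2 := I_sub.1 h.symm.subset
  exact ⟨le_antisymm h2.1 h1.1, le_antisymm h1.2 h2.2⟩

lemma pts (Φ : L ≃o L) (s c : ℝ) : ∃ s' c', Φ '' I s c = I s' c' := CP_char (CP_image Φ (CP_I s c))

lemma img_sub (Φ : L ≃o L) {A B : Set L} : Φ '' A ⊆ Φ '' B ↔ A ⊆ B :=
  Set.image_subset_image_iff Φ.injective

lemma img_symm (Φ : L ≃o L) {A B : Set L} (h : Φ '' A = B) : Φ.symm '' B = A := by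
  rw [← h, ← Set.image_comp]
  have : (Φ.symm : L → L) ∘ Φ = id := by
    funext x
    simp
  rw [this, Set.image_id]

/-- product form -/
def PF (Φ : L ≃o L) : Prop := ∃ a b : ℝ → ℝ, ∀ s c, Φ '' I s c = I (b s) (a c)

/-- squares go to comparable rectangles only if degenerate -/
lemma rect (Φ : L ≃o L) {s1 c1 s2 c2 t1 d1 t2 d2 : ℝ} (h1 : Φ '' I s1 c1 = I t1 d1)
    (h2 : Φ '' I s2 c2 = I t2 d2) (hs : s2 ≤ s1) (hc : c1 ≤ c2) (hd : s1 = s2 ∨ c1 = c2) :
    t1 = t2 ∨ d1 = d2 := by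
  have hle : t2 ≤ t1 ∧ d1 ≤ d2 := by
    rw [← I_sub, ← h1, ← h2, img_sub, I_sub]
    exact ⟨hs, hc⟩
  by_contra hcon
  push Not at hcon
  have ht : t2 < t1 := lt_of_le_of_ne hle.1 (Ne.symm hcon.1)
  have hdd : d1 < d2 := lt_of_le_of_ne hle.2 hcon.2
  obtain ⟨x1, y1, e1⟩ := pts Φ.symm t2 d1
  obtain ⟨x2, y2, e2⟩ := pts Φ.symm t1 d2
  have g1 := img_symm Φ h1
  have g2 := img_symm Φ h2
  have a1 : x1 ≤ s1 ∧ c1 ≤ y1 := by
    rw [← I_sub, ← e1, ← g1, img_sub, I_sub]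
    exact ⟨hle.1, le_rfl⟩
  have a2 : s2 ≤ x1 ∧ y1 ≤ c2 := by
    rw [← I_sub, ← e1, ← g2, img_sub, I_sub]
    exact ⟨le_rfl, hle.2⟩
  have b1 : x2 ≤ s1 ∧ c1 ≤ y2 := by
    rw [← I_sub, ← e2, ← g1, img_sub, I_sub]
    exact ⟨le_rfl, hle.2⟩
  have b2 : s2 ≤ x2 ∧ y2 ≤ c2 := by
    rw [← I_sub, ← e2, ← g2, img_sub, I_sub]
    exact ⟨hle.1, le_rfl⟩
  -- the two points are comparable
  have hcomp : I x1 y1 ⊆ I x2 y2 ∨ I x2 y2 ⊆ I x1 y1 := by
    rw [I_sub, I_sub]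
    rcases hd with hd | hd
    · have q1 : x1 = s1 := le_antisymm a1.1 (hd ▸ a2.1)
      have q2 : x2 = s1 := le_antisymm b1.1 (hd ▸ b2.1)
      rcases le_total y1 y2 with h | h
      · left; exact ⟨by rw [q1, q2], h⟩
      · right; exact ⟨by rw [q1, q2], h⟩
    · have q1 : y1 = c1 := le_antisymm (hd ▸ a2.2) a1.2
      have q2 : y2 = c1 := le_antisymm (hd ▸ b2.2) b1.2
      rcases le_total x1 x2 with h | h
      · right; exact ⟨h, by rw [q1, q2]⟩
      · left; exact ⟨h, by rw [q1, q2]⟩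
  rw [← e1, ← e2, img_sub, img_sub, I_sub, I_sub] at hcomp
  rcases hcomp with h | h
  · exact absurd h.1 (not_le.2 ht)
  · exact absurd h.2 (not_le.2 hdd)

lemma PF_pos (Φ : L ≃o L) (h : ∀ f, f ≤ Φ f) : PF Φ := by
  choose σ γ hσγ using pts Φ
  have hsub : ∀ s c, σ s c ≤ s ∧ c ≤ γ s c := by
    intro s c
    rw [← I_sub, ← hσγ]
    intro f hf
    refine ⟨Φ.symm f, ?_, Φ.apply_symm_apply f⟩
    have := h (Φ.symm f)
    rw [Φ.apply_symm_apply] at this
    exact (CP_I s c).lower _ _ this hf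
  have col : ∀ s c c', c ≤ c' → σ s c = σ s c' ∨ γ s c = γ s c' := fun s c c' hc =>
    rect Φ (hσγ s c) (hσγ s c') le_rfl hc (Or.inl rfl)
  have row : ∀ s s' c, s' ≤ s → σ s c = σ s' c ∨ γ s c = γ s' c := fun s s' c hs =>
    rect Φ (hσγ s c) (hσγ s' c) hs le_rfl (Or.inr rfl)
  have hσ : ∀ s c, σ s c = σ s 0 := by
    have aux : ∀ s c c', c ≤ c' → γ s c < c' → σ s c = σ s c' := by
      intro s c c' h1 h2
      rcases col s c c' h1 with h3 | h3
      · exact h3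
      · exact absurd (hsub s c').2 (not_le.2 (h3 ▸ h2))
    intro s c
    set m := max (max c 0) (max (γ s c) (γ s 0)) + 1 with hm
    have l1 : c ≤ m := by have := le_max_left c 0; have := le_max_left (max c 0) (max (γ s c) (γ s 0)); linarith
    have l2 : 0 ≤ m := by have := le_max_right c 0; have := le_max_left (max c 0) (max (γ s c) (γ s 0)); linarith
    have l3 : γ s c < m := by
      have := le_max_left (γ s c) (γ s 0); have := le_max_right (max c 0) (max (γ s c) (γ s 0)); linarith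
    have l4 : γ s 0 < m := by
      have := le_max_right (γ s c) (γ s 0); have := le_max_right (max c 0) (max (γ s c) (γ s 0)); linarith
    rw [aux s c m l1 l3, aux s 0 m l2 l4]
  have hγ : ∀ s c, γ s c = γ 0 c := by
    have aux : ∀ s s' c, s' ≤ s → s' < σ s c → γ s c = γ s' c := by
      intro s s' c h1 h2
      rcases row s s' c h1 with h3 | h3
      · exact absurd (hsub s' c).1 (not_le.2 (h3 ▸ h2))
      · exact h3
    intro s c
    set m := min (min s 0) (min (σ s c) (σ 0 c)) - 1 with hm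
    have l1 : m ≤ s := by have := min_le_left s 0; have := min_le_left (min s 0) (min (σ s c) (σ 0 c)); linarith
    have l2 : m ≤ 0 := by have := min_le_right s 0; have := min_le_left (min s 0) (min (σ s c) (σ 0 c)); linarith
    have l3 : m < σ s c := by
      have := min_le_left (σ s c) (σ 0 c); have := min_le_right (min s 0) (min (σ s c) (σ 0 c)); linarith
    have l4 : m < σ 0 c := by
      have := min_le_right (σ s c) (σ 0 c); have := min_le_right (min s 0) (min (σ s c) (σ 0 c)); linarith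
    rw [aux s m c l1 l3, aux 0 m c l2 l4]
  refine ⟨fun c => γ 0 c, fun s => σ s 0, ?_⟩
  intro s c
  rw [hσγ, hσ, hγ]

lemma PF_symm {Φ : L ≃o L} (h : PF Φ) : PF Φ.symm := by
  obtain ⟨a, b, hab⟩ := h
  have hsur : ∀ s c, ∃ s' c', b s' = s ∧ a c' = c := by
    intro s c
    obtain ⟨s', c', h1⟩ := pts Φ.symm s c
    have h2 := img_symm Φ.symm h1
    rw [OrderIso.symm_symm, hab] at h2
    obtain ⟨h3, h4⟩ := I_inj h2
    exact ⟨s', c', h3, h4⟩
  have hb : ∀ s, ∃ s', b s' = s := fun s => by obtain ⟨s', _, h, _⟩ := hsur s 0; exact ⟨s', h⟩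
  have ha : ∀ c, ∃ c', a c' = c := fun c => by obtain ⟨_, c', _, h⟩ := hsur 0 c; exact ⟨c', h⟩
  choose b' hb' using hb
  choose a' ha' using ha
  refine ⟨a', b', ?_⟩
  intro s c
  apply img_symm Φ
  rw [hab, hb', ha']

lemma PF_neg (Φ : L ≃o L) (h : ∀ f, Φ f ≤ f) : PF Φ := by
  have : PF Φ.symm := PF_pos _ fun f => by
    have := h (Φ.symm f)
    rwa [Φ.apply_symm_apply] at this
  simpa using PF_symm this

lemma PF_trans {Φ Ψ : L ≃o L} (h1 : PF Φ) (h2 : PF Ψ) : PF (Φ.trans Ψ) := by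
  obtain ⟨a, b, hab⟩ := h1
  obtain ⟨a', b', hab'⟩ := h2
  refine ⟨a' ∘ a, b' ∘ b, ?_⟩
  intro s c
  have : (Φ.trans Ψ : L → L) = Ψ ∘ Φ := rfl
  rw [this, Set.image_comp, hab, hab']
  rfl

end LatR
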