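import Pool.Agent.H1.LatC

namespace LatR
open Set

lemma one_le_def {f : L} : (1 : L) ≤ f ↔ ∀ x, x ≤ f x := Iff.rfl
lemma le_one_def {f : L} : f ≤ (1 : L) ↔ ∀ x, f x ≤ x := Iff.rfl

lemma inv_app_self (f : L) (x : ℝ) : f⁻¹ (f x) = x := f.symm_apply_apply x
lemma app_inv_self (f : L) (x : ℝ) : f (f⁻¹ x) = x := f.apply_symm_apply x

section
variable {K : Type} [Group K] [Lattice K] [MulLeftMono K] [MulRightMono K]

/-- transported left translation -/
noncomputable def T (e : L ≃o K) (g : K) : L ≃o L := (e.trans (OrderIso.mulLeft g)).trans e.symm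

lemma T_apply (e : L ≃o K) (g : K) (f : L) : T e g f = e.symm (g * e f) := rfl

lemma T_trans (e : L ≃o K) (u w : K) : (T e w).trans (T e u) = T e (u * w) := by
  refine DFunLike.ext _ _ fun f => ?_
  change T e u (T e w f) = T e (u * w) f
  rw [T_apply, T_apply, T_apply, e.apply_symm_apply, mul_assoc]

lemma T_ge (e : L ≃o K) {g : K} (hg : 1 ≤ g) (f : L) : f ≤ T e g f := by
  rw [T_apply, e.le_symm_apply]
  exact le_mul_of_one_le_left' hg

lemma T_le (e : L ≃o K) {g : K} (hg : g ≤ 1) (f : L) : T e g f ≤ f := by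
  rw [T_apply, e.symm_apply_le]
  exact mul_le_of_le_one_left' hg

lemma exists_fac (g : K) : ∃ u w : K, 1 ≤ u ∧ 1 ≤ w ∧ g = u * w⁻¹ := by
  refine ⟨g ⊔ 1, g⁻¹ * (g ⊔ 1), le_sup_right, ?_, ?_⟩
  · have : g⁻¹ * g ≤ g⁻¹ * (g ⊔ 1) := mul_le_mul_right le_sup_left _
    simpa using this
  · group

lemma PF_T (e : L ≃o K) (g : K) : PF (T e g) := by
  obtain ⟨u, w, hu, hw, rfl⟩ := exists_fac g
  rw [← T_trans]
  exact PF_trans (PF_neg _ (T_le e (inv_le_one'.2 hw))) (PF_pos _ (T_ge e hu))

/-- the data extracted -/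
lemma exists_dat (e : L ≃o K) : ∃ α β : K →* L, (∀ g f, e.symm (g * e f) = α g * f * (β g)⁻¹) ∧
    (∀ g, 1 ≤ g → 1 ≤ α g ∧ β g ≤ 1) := by
  choose A B hAB using PF_T e
  have h1 : ∀ x, A 1 x = x ∧ B 1 x = x := by
    intro x
    have := hAB 1 x x
    have h2 : (T e 1 : L → L) = id := by
      funext f
      rw [T_apply, one_mul, e.symm_apply_apply, id]
    rw [h2, Set.image_id] at this
    have := I_inj this
    exact ⟨this.2.symm, this.1.symm⟩
  have hm : ∀ g h x, A (g * h) x = A g (A h x) ∧ B (g * h) x = B g (B h x) := by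
    intro g h x
    have h2 := hAB (g * h) x x
    rw [← T_trans] at h2
    have h3 : ((T e h).trans (T e g) : L → L) = T e g ∘ T e h := rfl
    rw [h3, Set.image_comp, hAB, hAB] at h2
    have := I_inj h2
    exact ⟨this.2.symm, this.1.symm⟩
  have mono : ∀ g x y, x ≤ y → A g x ≤ A g y ∧ B g x ≤ B g y := by
    intro g x y hxy
    have h2 : T e g '' I y x ⊆ T e g '' I x y := by
      rw [img_sub, I_sub]
      exact ⟨hxy, hxy⟩
    rw [hAB, hAB, I_sub] at h2
    exact ⟨h2.2, h2.1⟩
  have iA : ∀ g x, A g⁻¹ (A g x) = x := fun g x => by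
    rw [← (hm _ _ _).1, inv_mul_cancel, (h1 x).1]
  have iB : ∀ g x, B g⁻¹ (B g x) = x := fun g x => by
    rw [← (hm _ _ _).2, inv_mul_cancel, (h1 x).2]
  have iA' : ∀ g x, A g (A g⁻¹ x) = x := fun g x => by
    rw [← (hm _ _ _).1, mul_inv_cancel, (h1 x).1]
  have iB' : ∀ g x, B g (B g⁻¹ x) = x := fun g x => by
    rw [← (hm _ _ _).2, mul_inv_cancel, (h1 x).2]
  let α : K →* L :=
    { toFun := fun g =>
        { toFun := A g, invFun := A g⁻¹, left_inv := iA g, right_inv := iA' g,
          map_rel_iff' := fun {x y} => by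
            constructor
            · intro h
              have := (mono g⁻¹ _ _ h).1
              simpa only [Equiv.coe_fn_mk, iA] using this
            · exact fun h => (mono g _ _ h).1 }
      map_one' := by
        refine DFunLike.ext _ _ fun x => ?_
        exact (h1 x).1
      map_mul' := fun g h => by
        refine DFunLike.ext _ _ fun x => ?_
        exact (hm g h x).1 }
  let β : K →* L :=
    { toFun := fun g =>
        { toFun := B g, invFun := B g⁻¹, left_inv := iB g, right_inv := iB' g,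
          map_rel_iff' := fun {x y} => by
            constructor
            · intro h
              have := (mono g⁻¹ _ _ h).2
              simpa only [Equiv.coe_fn_mk, iB] using this
            · exact fun h => (mono g _ _ h).2 }
      map_one' := by
        refine DFunLike.ext _ _ fun x => ?_
        exact (h1 x).2
      map_mul' := fun g h => by
        refine DFunLike.ext _ _ fun x => ?_
        exact (hm g h x).2 }
  have hα : ∀ g x, α g x = A g x := fun _ _ => rfl
  have hβ : ∀ g x, β g x = B g x := fun _ _ => rfl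
  have key1 : ∀ g f s, (T e g f) (B g s) ≤ A g (f s) := by
    intro g f s
    have : T e g f ∈ T e g '' I s (f s) := ⟨f, mem_I.2 le_rfl, rfl⟩
    rw [hAB] at this
    exact mem_I.1 this
  have key : ∀ g f s, (T e g f) (B g s) = A g (f s) := by
    intro g f s
    refine le_antisymm (key1 g f s) ?_
    have h2 := key1 g⁻¹ (T e g f) (B g s)
    have h3 : T e g⁻¹ (T e g f) = f := by
      have : (T e g).trans (T e g⁻¹) = T e (g⁻¹ * g) := T_trans _ _ _
      have h4 : T e g⁻¹ (T e g f) = T e (g⁻¹ * g) f := by rw [← this]; rfl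
      rw [h4, inv_mul_cancel, T_apply, one_mul, e.symm_apply_apply]
    rw [h3, iB] at h2
    have := (mono g _ _ h2).1
    rwa [iA'] at this
  refine ⟨α, β, ?_, ?_⟩
  · intro g f
    rw [eq_mul_inv_iff_mul_eq]
    refine DFunLike.ext _ _ fun s => ?_
    exact key g f s
  · intro g hg
    have hsub : ∀ s c, B g s ≤ s ∧ c ≤ A g c := by
      intro s c
      rw [← I_sub, ← hAB]
      intro f hf
      refine ⟨(T e g).symm f, ?_, (T e g).apply_symm_apply f⟩
      have := T_ge e hg ((T e g).symm f)
      rw [(T e g).apply_symm_apply] at this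
      exact (CP_I s c).lower _ _ this hf
    exact ⟨fun x => (hsub x x).2, fun x => (hsub x x).1⟩

/-- bumps -/
def IsBump (y : L) : Prop := ∃ p q : ℝ, p < q ∧ (∀ x, x ≤ p → y x = x) ∧ (∀ x, q ≤ x → y x = x) ∧
  ∀ x, p < x → x < q → x < y x

lemma IsBump.one_le {y : L} (h : IsBump y) : 1 ≤ y := by
  obtain ⟨p, q, _, h1, h2, h3⟩ := h
  intro x
  change x ≤ y x
  rcases le_or_gt x p with h | h
  · exact (h1 x h).ge
  · rcases le_or_gt q x with h' | h'
    · exact (h2 x h').ge
    · exact (h3 x h h').le

/-- a factorisation of a bump into orthogonal factors is trivial -/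
lemma bump_indec {y u w : L} (hy : IsBump y) (h1 : u ⊓ w = 1) (h2 : u ⊔ w = y) : u = 1 ∨ w = 1 := by
  obtain ⟨p, q, hpq, hp, hq, hm⟩ := hy
  have e1 : ∀ x, min (u x) (w x) = x := fun x => by
    have := congrArg (fun f : L => f x) h1
    simpa using this
  have e2 : ∀ x, max (u x) (w x) = y x := fun x => by
    have := congrArg (fun f : L => f x) h2
    simpa using this
  have out : ∀ x, y x = x → u x = x ∧ w x = x := by
    intro x hx
    have a1 := e1 x
    have a2 := e2 x
    rw [hx] at a2
    have b1 := le_max_left (u x) (w x)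
    have b2 := le_max_right (u x) (w x)
    have b3 := min_le_left (u x) (w x)
    have b4 := min_le_right (u x) (w x)
    constructor <;> apply le_antisymm <;> linarith
  have cl : ∀ v : L, IsClosed {x : ℝ | v x = x} := fun v =>
    isClosed_eq v.continuous continuous_id
  have pre := isPreconnected_closed_iff.1 (isPreconnected_Ioo (a := p) (b := q)) _ _ (cl u) (cl w)
    (fun x hx => by
      rcases min_choice (u x) (w x) with h | h
      · left; exact (h.symm.trans (e1 x))
      · right; exact (h.symm.trans (e1 x)))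
  have key : ¬ ((Ioo p q ∩ {x : ℝ | u x = x}).Nonempty ∧ (Ioo p q ∩ {x : ℝ | w x = x}).Nonempty) := by
    rintro ⟨ha, hb⟩
    obtain ⟨x, hx, hxu, hxw⟩ := pre ha hb
    have := hm x hx.1 hx.2
    have h3 := e2 x
    simp only [mem_setOf_eq] at hxu hxw
    rw [hxu, hxw, max_self] at h3
    linarith
  have fin : ∀ v v' : L, (∀ x, min (v x) (v' x) = x) → (∀ x, y x = x → v x = x) →
      ¬ (Ioo p q ∩ {x : ℝ | v' x = x}).Nonempty → v = 1 := by
    intro v v' hv hout hne
    refine DFunLike.ext _ _ fun x => ?_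
    change v x = x
    rcases le_or_gt x p with h | h
    · exact hout x (hp x h)
    · rcases le_or_gt q x with h' | h'
      · exact hout x (hq x h')
      · rcases min_choice (v x) (v' x) with h3 | h3
        · exact h3.symm.trans (hv x)
        · exact absurd ⟨x, ⟨h, h'⟩, h3.symm.trans (hv x)⟩ hne
  by_cases hw : (Ioo p q ∩ {x : ℝ | w x = x}).Nonempty
  · right
    refine fin w u (fun x => by rw [min_comm]; exact e1 x) (fun x hx => (out x hx).2) ?_
    exact fun h => key ⟨h, hw⟩
  · left
    exact fin u w e1 (fun x hx => (out x hx).1) hw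

end

end LatR
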