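import Pool.Agent.H1.LatD

namespace LatR
open Set

lemma lmul_mono (a : L) {f g : L} (h : f ≤ g) : a * f ≤ a * g := fun x => a.monotone (h x)
lemma rmul_mono (a : L) {f g : L} (h : f ≤ g) : f * a ≤ g * a := fun x => h (a x)

section
variable {K : Type} [Group K] [Lattice K] [MulLeftMono K] [MulRightMono K]

/-- the bigger-bump comparison -/
lemma le_big {y Y : L} {p q a b : ℝ} (hp : ∀ x, x ≤ p → y x = x) (hq : ∀ x, q ≤ x → y x = x)
    (hY : 1 ≤ Y) (hab : Y a = b) (h1 : a ≤ p) (h2 : q ≤ b) : y ≤ Y := by
  intro x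
  change y x ≤ Y x
  rcases le_or_gt x p with h | h
  · rw [hp x h]; exact hY x
  · rcases le_or_gt q x with h' | h'
    · rw [hq x h']; exact hY x
    · calc y x ≤ y q := y.monotone h'.le
        _ = q := hq q le_rfl
        _ ≤ b := h2
        _ = Y a := hab.symm
        _ ≤ Y x := Y.monotone (h1.trans h.le)

lemma isBump_of {p a b q : ℝ} (h1 : p < a) (h2 : a < b) (h3 : b < q) :
    ∃ Y : L, IsBump Y ∧ Y a = b := by
  obtain ⟨Y, e1, e2, e3, e4⟩ := exists_bump h1 h2 h3
  exact ⟨Y, ⟨p, q, by linarith, e2, e3, e4⟩, e1⟩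

variable (e : L ≃o K) (α β : K →* L)
  (hd : ∀ g f, e.symm (g * e f) = α g * f * (β g)⁻¹)
  (hpos : ∀ g, 1 ≤ g → 1 ≤ α g ∧ β g ≤ 1) (he : e 1 = 1)

include hd he in
lemma fac (y : L) : y = α (e y) * (β (e y))⁻¹ := by
  have := hd (e y) 1
  rw [he, mul_one, e.symm_apply_apply, mul_one] at this
  exact this

include he in
lemma one_le_e {y : L} (h : 1 ≤ y) : 1 ≤ e y := by
  have : e 1 ≤ e y := e.monotone h
  rwa [he] at this

include hpos in
lemma mono_ab {g g' : K} (h : g ≤ g') : α g ≤ α g' ∧ β g' ≤ β g := by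
  have h1 : 1 ≤ g⁻¹ * g' := by
    have := mul_le_mul_right h g⁻¹
    rwa [inv_mul_cancel] at this
  have h2 : g' = g * (g⁻¹ * g') := by group
  have h3 := hpos _ h1
  constructor
  · rw [h2, map_mul]
    have := lmul_mono (α g) h3.1
    rwa [mul_one] at this
  · rw [h2, map_mul]
    have := lmul_mono (β g) h3.2
    rwa [mul_one] at this

include hd hpos he in
lemma bump_type {y : L} (hy : IsBump y) : α (e y) = 1 ∨ β (e y) = 1 := by
  have hfac := fac e α β hd he y
  obtain ⟨ha, hb⟩ := hpos _ (one_le_e e he hy.one_le)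
  set a := α (e y) with hadef
  set b := (β (e y))⁻¹ with hbdef
  have hb' : 1 ≤ b := by
    intro x
    change x ≤ b x
    have h1 : (β (e y)) (b x) = x := app_inv_self _ _
    have h2 : (β (e y)) (b x) ≤ b x := hb (b x)
    linarith
  have ale : ∀ x, a x ≤ y x := by
    intro x
    rw [hfac]
    exact a.monotone (hb' x)
  have ble : ∀ x, b x ≤ y x := by
    intro x
    rw [hfac]
    exact ha (b x)
  have age : ∀ x, x ≤ a x := ha
  have bge : ∀ x, x ≤ b x := hb'
  obtain ⟨p, q, hpq, hp, hq, hm⟩ := id hy
  set h : L := aff 1 (q - p) one_pos with hh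
  have hx : ∀ x, h x = x + (q - p) := fun x => by rw [hh, aff_apply, one_mul]
  have einf : (h * b) ⊓ (a * h) = h := by
    refine DFunLike.ext _ _ fun x => ?_
    change min (h (b x)) (a (h x)) = h x
    rcases le_or_gt x p with h1 | h1
    · have : b x = x := le_antisymm ((ble x).trans (hp x h1).le) (bge x)
      rw [this]
      exact min_eq_left (age _)
    · rcases le_or_gt q x with h2 | h2
      · have : b x = x := le_antisymm ((ble x).trans (hq x h2).le) (bge x)
        rw [this]
        exact min_eq_left (age _)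
      · have h3 : q ≤ h x := by rw [hx]; linarith
        have : a (h x) = h x := le_antisymm ((ale _).trans (hq _ h3).le) (age _)
        rw [this]
        exact min_eq_right (h.monotone (bge x))
  have esup : (h * b) ⊔ (a * h) = a * h * b := by
    refine DFunLike.ext _ _ fun x => ?_
    change max (h (b x)) (a (h x)) = a (h (b x))
    rcases le_or_gt x p with h1 | h1
    · have : b x = x := le_antisymm ((ble x).trans (hp x h1).le) (bge x)
      rw [this]
      exact max_eq_right (age _)
    · rcases le_or_gt q x with h2 | h2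
      · have : b x = x := le_antisymm ((ble x).trans (hq x h2).le) (bge x)
        rw [this]
        exact max_eq_right (age _)
      · have h3 : q ≤ h (b x) := by
          have := bge x
          rw [hx]; linarith
        have h4 : a (h (b x)) = h (b x) := le_antisymm ((ale _).trans (hq _ h3).le) (age _)
        rw [h4]
        refine max_eq_left ?_
        calc a (h x) ≤ a (h (b x)) := a.monotone (h.monotone (bge x))
          _ = h (b x) := h4
  have e3 : e (a * h * b) = e y * e h := by
    have := hd (e y) h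
    rw [← this, e.apply_symm_apply]
  set u : K := e (h * b) * (e h)⁻¹ with hu
  set w : K := e (a * h) * (e h)⁻¹ with hw
  have i1 : u ⊓ w = 1 := by
    rw [hu, hw, ← inf_mul, ← e.map_inf, einf, mul_inv_cancel]
  have i2 : u ⊔ w = e y := by
    rw [hu, hw, ← sup_mul, ← e.map_sup, esup, e3, mul_inv_cancel_right]
  have es1 : e.symm 1 = 1 := by rw [← he, e.symm_apply_apply]
  have j1 : e.symm u ⊓ e.symm w = 1 := by rw [← e.symm.map_inf, i1, es1]
  have j2 : e.symm u ⊔ e.symm w = y := by rw [← e.symm.map_sup, i2, e.symm_apply_apply]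
  rcases bump_indec hy j1 j2 with k | k
  · right
    have k1 : u = 1 := by
      have := congrArg e k
      rwa [e.apply_symm_apply, he] at this
    have k2 : e (h * b) = e h := by
      rw [hu, mul_inv_eq_one] at k1
      exact k1
    have k3 : h * b = h := e.injective k2
    have k4 : b = 1 := by
      have := congrArg (fun z => h⁻¹ * z) k3
      simpa using this
    rw [hbdef, inv_eq_one] at k4
    exact k4
  · left
    have k1 : w = 1 := by
      have := congrArg e k
      rwa [e.apply_symm_apply, he] at this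
    have k2 : e (a * h) = e h := by
      rw [hw, mul_inv_eq_one] at k1
      exact k1
    have k3 : a * h = h := e.injective k2
    have k4 : a = 1 := by
      have := congrArg (fun z => z * h⁻¹) k3
      simpa using this
    exact k4

include hd hpos he in
lemma all_type : (∀ y : L, IsBump y → β (e y) = 1) ∨ (∀ y : L, IsBump y → α (e y) = 1) := by
  by_contra hcon
  push Not at hcon
  obtain ⟨⟨y1, hy1, h1⟩, ⟨y2, hy2, h2⟩⟩ := hcon
  obtain ⟨p1, q1, hpq1, hp1, hq1, _⟩ := id hy1
  obtain ⟨p2, q2, hpq2, hp2, hq2, _⟩ := id hy2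
  have l0 : min p1 p2 < max q1 q2 := (min_le_left _ _).trans_lt (hpq1.trans_le (le_max_left _ _))
  obtain ⟨Y, hY, hYab⟩ := isBump_of (sub_one_lt (min p1 p2)) l0 (lt_add_one (max q1 q2))
  have g1 : y1 ≤ Y := le_big hp1 hq1 hY.one_le hYab (min_le_left _ _) (le_max_left _ _)
  have g2 : y2 ≤ Y := le_big hp2 hq2 hY.one_le hYab (min_le_right _ _) (le_max_right _ _)
  have m1 := mono_ab α β hpos (e.monotone g1)
  have m2 := mono_ab α β hpos (e.monotone g2)
  rcases bump_type e α β hd hpos he hY with h | h
  · apply h2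
    refine le_antisymm ?_ (hpos _ (one_le_e e he hy2.one_le)).1
    rw [← h]
    exact m2.1
  · apply h1
    refine le_antisymm (hpos _ (one_le_e e he hy1.one_le)).2 ?_
    rw [← h]
    exact m1.2

lemma cut (g : L) (hg : 1 ≤ g) (t : ℝ) : ∃ Y : L, IsBump Y ∧ g t ≤ Y t := by
  have h1 : t ≤ g t := hg t
  obtain ⟨Y, hY, hYab⟩ := isBump_of (sub_one_lt t) (h1.trans_lt (lt_add_one _)) (lt_add_one (g t + 1))
  exact ⟨Y, hY, by rw [hYab]; linarith⟩

include hd hpos he in
/-- left type -/
lemma left_type (hl : ∀ y : L, IsBump y → β (e y) = 1) (g : K) : β g = 1 := by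
  have key : ∀ g : K, 1 ≤ g → β g = 1 := by
    intro g hg
    have hgL : (1 : L) ≤ e.symm g := by
      rw [e.le_symm_apply, he]; exact hg
    refine DFunLike.ext _ _ fun t => ?_
    change β g t = t
    obtain ⟨Y, hY, hYt⟩ := cut (e.symm g) hgL t
    set y : L := e.symm g ⊓ Y with hy
    have y1 : 1 ≤ y := le_inf hgL hY.one_le
    have b1 : β (e y) = 1 := by
      refine le_antisymm (hpos _ (one_le_e e he y1)).2 ?_
      rw [← hl Y hY]
      exact (mono_ab α β hpos (e.monotone inf_le_right)).2
    have yg : e y ≤ g := by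
      have : e y ≤ e (e.symm g) := e.monotone inf_le_left
      rwa [e.apply_symm_apply] at this
    set k : K := (e y)⁻¹ * g with hk
    have k1 : 1 ≤ k := by
      have := mul_le_mul_right yg (e y)⁻¹
      rwa [inv_mul_cancel] at this
    have gk : β g = β k := by
      rw [hk, map_mul, map_inv, b1, inv_one, one_mul]
    have ya : y = α (e y) := by
      have := fac e α β hd he y
      rwa [b1, inv_one, mul_one] at this
    have kL : e.symm k = y⁻¹ * e.symm g := by
      have := hd (e y)⁻¹ (e.symm g)
      rw [e.apply_symm_apply] at this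
      rw [hk, this, map_inv, map_inv, b1, ← ya, inv_one, inv_one, mul_one]
    have kt : (e.symm k) t = t := by
      rw [kL]
      change y⁻¹ ((e.symm g) t) = t
      have : y t = (e.symm g) t := by
        rw [hy, inf_app]
        exact min_eq_left hYt
      rw [← this]
      exact inv_app_self _ _
    have kf := fac e α β hd he (e.symm k)
    rw [e.apply_symm_apply] at kf
    obtain ⟨c1, c2⟩ := hpos k k1
    rw [gk]
    -- (β k)⁻¹ t ≤ t
    have d1 : (β k)⁻¹ t ≤ t := by
      have : (β k)⁻¹ t ≤ (e.symm k) t := by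
        rw [kf]
        exact c1 _
      rwa [kt] at this
    refine le_antisymm (c2 t) ?_
    have := (β k).monotone d1
    rwa [app_inv_self] at this
  obtain ⟨u, w, hu, hw, rfl⟩ := exists_fac g
  rw [map_mul, map_inv, key u hu, key w hw, inv_one, one_mul]

include hd hpos he in
/-- right type -/
lemma right_type (hl : ∀ y : L, IsBump y → α (e y) = 1) (g : K) : α g = 1 := by
  have key : ∀ g : K, 1 ≤ g → α g = 1 := by
    intro g hg
    have hgL : (1 : L) ≤ e.symm g := by
      rw [e.le_symm_apply, he]; exact hg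
    refine DFunLike.ext _ _ fun t1 => ?_
    change α g t1 = t1
    set t : ℝ := (e.symm g)⁻¹ t1 with ht
    have ht1 : (e.symm g) t = t1 := app_inv_self _ _
    obtain ⟨Y, hY, hYt⟩ := cut (e.symm g) hgL t
    set y : L := e.symm g ⊓ Y with hy
    have y1 : 1 ≤ y := le_inf hgL hY.one_le
    have b1 : α (e y) = 1 := by
      refine le_antisymm ?_ (hpos _ (one_le_e e he y1)).1
      rw [← hl Y hY]
      exact (mono_ab α β hpos (e.monotone inf_le_right)).1
    have yg : e y ≤ g := by
      have : e y ≤ e (e.symm g) := e.monotone inf_le_left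
      rwa [e.apply_symm_apply] at this
    set k : K := (e y)⁻¹ * g with hk
    have k1 : 1 ≤ k := by
      have := mul_le_mul_right yg (e y)⁻¹
      rwa [inv_mul_cancel] at this
    have gk : α g = α k := by
      rw [hk, map_mul, map_inv, b1, inv_one, one_mul]
    have ya : y = (β (e y))⁻¹ := by
      have := fac e α β hd he y
      rwa [b1, one_mul] at this
    have kL : e.symm k = e.symm g * y⁻¹ := by
      have := hd (e y)⁻¹ (e.symm g)
      rw [e.apply_symm_apply] at this
      rw [hk, this, map_inv, map_inv, b1, inv_one, one_mul, ← ya]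
    have kt : (e.symm k) t1 = t1 := by
      rw [kL]
      change (e.symm g) (y⁻¹ t1) = t1
      have : y t = t1 := by
        rw [hy, inf_app, ht1]
        exact min_eq_left (by rw [ht1] at hYt; exact hYt)
      have h5 : y⁻¹ t1 = t := by
        rw [← this]
        exact inv_app_self _ _
      rw [h5, ht1]
    have kf := fac e α β hd he (e.symm k)
    rw [e.apply_symm_apply] at kf
    obtain ⟨c1, c2⟩ := hpos k k1
    rw [gk]
    refine le_antisymm ?_ (c1 t1)
    have d1 : t1 ≤ (β k)⁻¹ t1 := by
      have h1 : (β k) ((β k)⁻¹ t1) = t1 := app_inv_self _ _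
      have h2 : (β k) ((β k)⁻¹ t1) ≤ (β k)⁻¹ t1 := c2 _
      linarith
    have d2 : α k t1 ≤ (e.symm k) t1 := by
      rw [kf]
      exact (α k).monotone d1
    rwa [kt] at d2
  obtain ⟨u, w, hu, hw, rfl⟩ := exists_fac g
  rw [map_mul, map_inv, key u hu, key w hw, inv_one, one_mul]

/-- the anti-automorphism -/
noncomputable def dag0 (f : L) : L where
  toFun x := - f.symm (-x)
  invFun x := - f (-x)
  left_inv x := by simp
  right_inv x := by simp
  map_rel_iff' {x y} := by simp

lemma dag0_app (f : L) (x : ℝ) : dag0 f x = - f.symm (-x) := rfl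

lemma dag0_dag0 (f : L) : dag0 (dag0 f) = f := by
  refine DFunLike.ext _ _ fun x => ?_
  rw [dag0_app]
  have : (dag0 f).symm (-x) = - f (- (- x)) := rfl
  rw [this, neg_neg, neg_neg]

lemma dag0_mono {f g : L} (h : f ≤ g) : dag0 f ≤ dag0 g := by
  intro x
  change - f.symm (-x) ≤ - g.symm (-x)
  rw [neg_le_neg_iff, g.symm_apply_le]
  calc -x = f (f.symm (-x)) := (f.apply_symm_apply _).symm
    _ ≤ g (f.symm (-x)) := h _

noncomputable def dag : L ≃o L where
  toFun := dag0
  invFun := dag0
  left_inv := dag0_dag0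
  right_inv := dag0_dag0
  map_rel_iff' {f g} := by
    constructor
    · intro h
      have := dag0_mono h
      simpa only [Equiv.coe_fn_mk, dag0_dag0] using this
    · exact fun h => dag0_mono h

lemma dag_mul (f g : L) : dag (f * g) = dag g * dag f := by
  refine DFunLike.ext _ _ fun x => ?_
  change - (f * g).symm (-x) = - g.symm (- (- f.symm (-x)))
  rw [neg_neg]
  rfl

theorem main0 (e : L ≃o K) (he : e 1 = 1) : ∃ φ : L ≃o K, ∀ x y, φ (x * y) = φ x * φ y := by
  obtain ⟨α, β, hd, hpos⟩ := exists_dat e
  rcases all_type e α β hd hpos he with h | h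
  · have hb := left_type e α β hd hpos he h
    refine ⟨e, ?_⟩
    intro x y
    have h1 := hd (e x) y
    have h2 := fac e α β hd he x
    rw [hb, inv_one, mul_one] at h1 h2
    rw [← h2] at h1
    rw [← h1, e.apply_symm_apply]
  · have ha := right_type e α β hd hpos he h
    refine ⟨dag.trans e, ?_⟩
    intro x y
    change e (dag (x * y)) = e (dag x) * e (dag y)
    rw [dag_mul]
    have h1 := hd (e (dag x)) (dag y)
    have h2 := fac e α β hd he (dag x)
    rw [ha, one_mul] at h1 h2
    rw [← h2] at h1
    rw [← h1, e.apply_symm_apply]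

theorem main1 (e : L ≃o K) : ∃ φ : L ≃o K, ∀ x y, φ (x * y) = φ x * φ y := by
  refine main0 (e.trans (OrderIso.mulLeft (e 1)⁻¹)) ?_
  change (e 1)⁻¹ * e 1 = 1
  exact inv_mul_cancel _

end

end LatR
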