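import Mathlib

set_option autoImplicit false

namespace Pool.Agent.H1.NbhdA

open Complex Filter Topology

/-! ### powers of `1 - z` -/

lemma slit {z : ℂ} (hz : z ∈ Metric.ball (0 : ℂ) 1) : 1 - z ∈ slitPlane := by
  rw [mem_ball_zero_iff] at hz
  left
  rw [sub_re, one_re]
  have := (abs_le.1 (abs_re_le_norm z)).2
  linarith

noncomputable def Q (b : ℂ) (n : ℕ) : ℂ := ∏ i ∈ Finset.range n, ((i : ℂ) - b)

lemma hasDeriv_pow (b : ℂ) {z : ℂ} (hz : z ∈ Metric.ball (0 : ℂ) 1) :
    HasDerivAt (fun z : ℂ => (1 - z) ^ b) (-b * (1 - z) ^ (b - 1)) z := by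
  have h1 : HasDerivAt (fun z : ℂ => 1 - z) (-1) z := by
    simpa using (hasDerivAt_id z).const_sub 1
  have h2 := h1.cpow_const (c := b) (slit hz)
  convert h2 using 1
  ring

lemma iter (A b A' b' B : ℂ) (n : ℕ) : ∀ z ∈ Metric.ball (0 : ℂ) 1,
    iteratedDeriv n (fun z : ℂ => A * (1 - z) ^ b + A' * (1 - z) ^ b' + B) z
      = A * Q b n * (1 - z) ^ (b - n) + A' * Q b' n * (1 - z) ^ (b' - n) + if n = 0 then B else 0 := by
  induction n with
  | zero => intro z _; simp [Q]
  | succ n ih =>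
    intro z hz
    rw [iteratedDeriv_succ]
    have hev : iteratedDeriv n (fun z : ℂ => A * (1 - z) ^ b + A' * (1 - z) ^ b' + B) =ᶠ[𝓝 z]
        fun z => A * Q b n * (1 - z) ^ (b - n) + A' * Q b' n * (1 - z) ^ (b' - n)
          + if n = 0 then B else 0 := by
      filter_upwards [Metric.isOpen_ball.mem_nhds hz] with w hw
      exact ih w hw
    rw [hev.deriv_eq]
    have h1 := ((hasDeriv_pow (b - n) hz).const_mul (A * Q b n)).add
      ((hasDeriv_pow (b' - n) hz).const_mul (A' * Q b' n))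
    have h2 := h1.add_const (if n = 0 then B else 0)
    have h3 := h2.deriv
    simp only [Pi.add_apply] at h3
    refine Eq.trans h3 ?_
    rw [if_neg (Nat.succ_ne_zero n), add_zero]
    unfold Q
    rw [Finset.prod_range_succ, Finset.prod_range_succ]
    push_cast
    rw [sub_sub b (n : ℂ) 1, sub_sub b' (n : ℂ) 1]
    ring

/-! ### constants -/

noncomputable def s : ℝ := 2000 / 1000001
noncomputable def a : ℝ := 2000000 / 1000001
noncomputable def c : ℂ := (a : ℂ) + s * I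
noncomputable def is : ℂ := s * I

/-- the antiderivative part -/
noncomputable def pp (κ : ℂ) (z : ℂ) : ℂ := κ * ((1 - (1 - z) ^ (1 + is)) / (1 + is) - z)

noncomputable def g (κ : ℂ) (z : ℂ) : ℂ := z + pp κ z

noncomputable def h (z : ℂ) : ℂ := (1 - z) ^ (-c) - (1 - z) ^ (1 - c)

lemma is_ne : 1 + is ≠ 0 := by
  intro h
  have := congrArg Complex.re h
  simp [is] at this

lemma pp_deriv (κ : ℂ) {z : ℂ} (hz : z ∈ Metric.ball (0 : ℂ) 1) :
    HasDerivAt (pp κ) (κ * ((1 - z) ^ is - 1)) z := by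
  have h1 := ((((hasDeriv_pow (1 + is) hz).const_sub 1).div_const (1 + is)).sub
    (hasDerivAt_id z)).const_mul κ
  have e : κ * (-(-(1 + is) * (1 - z) ^ (1 + is - 1)) / (1 + is) - 1) = κ * ((1 - z) ^ is - 1) := by
    have := is_ne
    rw [add_sub_cancel_left, neg_mul, neg_neg, mul_div_cancel_left₀ _ this]
  rw [← e]
  exact h1

lemma g_deriv (κ : ℂ) {z : ℂ} (hz : z ∈ Metric.ball (0 : ℂ) 1) :
    HasDerivAt (g κ) (κ * (1 - z) ^ is + 0 * (1 - z) ^ is + (1 - κ)) z := by
  have h1 := (hasDerivAt_id z).add (pp_deriv κ hz)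
  have e : 1 + κ * ((1 - z) ^ is - 1) = κ * (1 - z) ^ is + 0 * (1 - z) ^ is + (1 - κ) := by ring
  rw [← e]
  exact h1

lemma zero_mem : (0 : ℂ) ∈ Metric.ball (0 : ℂ) 1 := by simp

lemma iter_g (κ : ℂ) (n : ℕ) : iteratedDeriv (n + 1) (g κ) 0 = κ * Q is n + if n = 0 then (1 - κ) else 0 := by
  rw [iteratedDeriv_succ']
  have hev : deriv (g κ) =ᶠ[𝓝 0] fun z : ℂ => κ * (1 - z) ^ is + 0 * (1 - z) ^ is + (1 - κ) := by
    filter_upwards [Metric.isOpen_ball.mem_nhds zero_mem] with w hw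
    exact (g_deriv κ hw).deriv
  rw [hev.iteratedDeriv_eq n, iter κ is 0 is (1 - κ) n 0 zero_mem]
  simp

lemma iter_h (n : ℕ) : iteratedDeriv n h 0 = Q (-c) n - Q (1 - c) n := by
  have e : h = fun z : ℂ => 1 * (1 - z) ^ (-c) + (-1) * (1 - z) ^ (1 - c) + 0 := by
    ext z; unfold h; ring
  rw [e, iter 1 (-c) (-1) (1 - c) 0 n 0 zero_mem]
  simp
  ring

lemma Q_diff (j : ℕ) : Q (-c) (j + 1) - Q (1 - c) (j + 1) = (j + 1) * Q (-c) j := by
  have e1 : Q (-c) (j + 1) = Q (-c) j * (j + c) := by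
    unfold Q; rw [Finset.prod_range_succ]; ring
  have e2 : Q (1 - c) (j + 1) = Q (-c) j * (c - 1) := by
    unfold Q
    rw [Finset.prod_range_succ']
    congr 1
    · apply Finset.prod_congr rfl
      intro i _
      push_cast; ring
    · push_cast; ring
  rw [e1, e2]; ring

noncomputable def τ (j : ℕ) : ℂ := Q is j * Q (-c) j / (((j + 1).factorial : ℂ) * (j.factorial : ℂ))

noncomputable def u : ℕ → ℂ
  | 0 => 1
  | j + 1 => u j * (((j + 1 : ℝ) ^ 2 + (j + 1) * a + s ^ 2 : ℝ) - (s * a : ℝ) * I) / (((j + 2) * (j + 3) : ℝ) : ℂ)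

lemma u_succ (j : ℕ) : u (j + 1) = u j * (((j + 1 : ℝ) ^ 2 + (j + 1) * a + s ^ 2 : ℝ) - (s * a : ℝ) * I) / (((j + 2) * (j + 3) : ℝ) : ℂ) := rfl

lemma τ_succ (j : ℕ) : τ (j + 1) = τ 1 * u j := by
  induction j with
  | zero => simp [u]
  | succ j ih =>
    have e : τ (j + 2) = τ (j + 1) * (((j + 1 : ℕ) : ℂ) - is) * (((j + 1 : ℕ) : ℂ) + c) / ((j + 2) * (j + 3)) := by
      unfold τ Q
      rw [Finset.prod_range_succ, Finset.prod_range_succ _ (j + 1), Nat.factorial_succ (j + 2),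
        Nat.factorial_succ (j + 1)]
      have h1 : ((j + 1).factorial : ℂ) ≠ 0 := by exact_mod_cast Nat.factorial_ne_zero _
      have h2 : ((j : ℂ) + 2) ≠ 0 := by exact_mod_cast Nat.succ_ne_zero (j + 1)
      have h3 : ((j : ℂ) + 3) ≠ 0 := by exact_mod_cast Nat.succ_ne_zero (j + 2)
      push_cast
      have h4 : ((j : ℂ) + 1 + 1) = j + 2 := by ring
      have h5 : ((j : ℂ) + 2 + 1) = j + 3 := by ring
      rw [h4, h5]
      field_simp
      ring
    rw [e, ih, u_succ]
    have e2 : (((j + 1 : ℕ) : ℂ) - is) * (((j + 1 : ℕ) : ℂ) + c)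
        = (((j + 1 : ℝ) ^ 2 + (j + 1) * a + s ^ 2 : ℝ) - (s * a : ℝ) * I) := by
      unfold is c
      push_cast
      linear_combination (-(s : ℂ) ^ 2) * I_mul_I
    rw [← e2]
    push_cast
    ring

/-! ### estimates for the coefficients -/

noncomputable def x (j : ℕ) : ℝ := (u j).re
noncomputable def y (j : ℕ) : ℝ := -(u j).im

lemma u_eq (j : ℕ) : u j = (x j : ℂ) - (y j : ℝ) * I := by
  apply Complex.ext <;> simp [x, y]

lemma x_succ (j : ℕ) : x (j + 1) = (((j + 1 : ℝ) ^ 2 + (j + 1) * a + s ^ 2) * x j - (s * a) * y j)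
    / ((j + 2) * (j + 3)) := by
  unfold x y
  rw [u_succ, div_ofReal_re]
  congr 1
  rw [mul_re, sub_re, sub_im, ofReal_re, ofReal_im, re_ofReal_mul, im_ofReal_mul, I_re, I_im]
  ring

lemma y_succ (j : ℕ) : y (j + 1) = (((j + 1 : ℝ) ^ 2 + (j + 1) * a + s ^ 2) * y j + (s * a) * x j)
    / ((j + 2) * (j + 3)) := by
  unfold x y
  rw [u_succ, div_ofReal_im, ← neg_div]
  congr 1
  rw [mul_im, sub_re, sub_im, ofReal_re, ofReal_im, re_ofReal_mul, im_ofReal_mul, I_re, I_im]
  ring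

lemma s_pos : 0 < s := by unfold s; norm_num
lemma a_pos : 0 < a := by unfold a; norm_num
lemma a_ge : 1.99 ≤ a := by unfold a; norm_num
lemma a_le : a ≤ 2 := by unfold a; norm_num
lemma s_le : s ≤ 1 / 500 := by unfold s; norm_num

noncomputable def θ (j : ℕ) : ℝ := 4 * s * j / (j + 1)

lemma θ_nonneg (j : ℕ) : 0 ≤ θ j := by
  have := s_pos
  unfold θ; positivity

lemma θ_le (j : ℕ) : θ j ≤ 4 * s := by
  have hs := s_pos
  unfold θ
  rw [div_le_iff₀ (by positivity)]
  have : (0 : ℝ) ≤ j := by positivity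
  nlinarith

lemma θ_succ (j : ℕ) : θ (j + 1) - θ j = 4 * s / ((j + 1) * (j + 2)) := by
  unfold θ
  push_cast
  field_simp
  ring

noncomputable def δ : ℝ := 8 * s ^ 2

lemma δ_pos : 0 < δ := by
  have := s_pos
  unfold δ; positivity

noncomputable def H (j : ℕ) : ℝ := ∑ i ∈ Finset.range j, 1 / ((i : ℝ) + 1)

lemma H_succ (j : ℕ) : H (j + 1) = H j + 1 / ((j : ℝ) + 1) := by
  unfold H; rw [Finset.sum_range_succ]

lemma H_nonneg (j : ℕ) : 0 ≤ H j := by
  unfold H; exact Finset.sum_nonneg fun i _ => by positivity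

lemma H_mono : Monotone H := monotone_nat_of_le_succ fun j => by
  rw [H_succ]
  have : (0 : ℝ) ≤ 1 / ((j : ℝ) + 1) := by positivity
  linarith

lemma xy (j : ℕ) : 0 < x j ∧ 0 ≤ y j ∧ y j ≤ θ j * x j ∧ 1 - δ * H (j + 1) ≤ (j + 1) * x j := by
  induction j with
  | zero =>
    have hx : x 0 = 1 := by simp [x, u]
    have hy : y 0 = 0 := by simp [y, u]
    have hd := δ_pos
    rw [hx, hy]
    refine ⟨one_pos, le_rfl, ?_, ?_⟩
    · simp [θ]
    · simp [H]; exact hd.le
  | succ j ih =>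
    obtain ⟨h1, h2, h3, h4⟩ := ih
    have hs := s_pos
    have ha := a_pos
    have ha1 := a_ge
    have ha2 := a_le
    have hs2 := s_le
    have hθ0 := θ_nonneg j
    have hθ1 := θ_le j
    have hθ0' := θ_nonneg (j + 1)
    have hθ1' := θ_le (j + 1)
    have hθs := θ_succ j
    have hj : (0 : ℝ) ≤ j := by positivity
    set i : ℝ := (j : ℝ) + 1 with hi
    have hi1 : 1 ≤ i := by linarith
    set A : ℝ := i ^ 2 + i * a + s ^ 2 with hA
    set D : ℝ := (i + 1) * (i + 2) with hD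
    have hD' : ((j : ℝ) + 2) * (j + 3) = D := by rw [hD, hi]; ring
    have hD0 : 0 < D := by positivity
    have hsa : 0 < s * a := by positivity
    have ex : x (j + 1) = (A * x j - (s * a) * y j) / D := by rw [x_succ, hD']
    have ey : y (j + 1) = (A * y j + (s * a) * x j) / D := by rw [y_succ, hD']
    -- bound for the loss
    have hy4 : y j ≤ 4 * s * x j := h3.trans (mul_le_mul_of_nonneg_right hθ1 h1.le)
    have hloss : s * a * y j ≤ 8 * s ^ 2 * x j := by
      calc s * a * y j ≤ s * a * (4 * s * x j) := by gcongr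
        _ ≤ s * 2 * (4 * s * x j) := by gcongr
        _ = 8 * s ^ 2 * x j := by ring
    have hδ : δ = 8 * s ^ 2 := rfl
    have hε : 2 - a ≤ s ^ 2 := by unfold a s; norm_num
    have hkey : i * (i + 2 - δ) ≤ A - 8 * s ^ 2 := by
      rw [hA, hδ]
      nlinarith [mul_nonneg (sub_nonneg.2 hi1) (sq_nonneg s)]
    have hδ1 : δ ≤ 1 := by rw [hδ]; nlinarith
    have hx' : i * (i + 2 - δ) / D * x j ≤ x (j + 1) := by
      rw [ex, div_mul_eq_mul_div]
      apply div_le_div_of_nonneg_right _ hD0.le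
      nlinarith
    have hpos : 0 < x (j + 1) := by
      refine lt_of_lt_of_le ?_ hx'
      have : 0 < i + 2 - δ := by linarith
      positivity
    refine ⟨hpos, ?_, ?_, ?_⟩
    · rw [ey]; positivity
    · rw [ex, ey, ← mul_div_assoc]
      apply div_le_div_of_nonneg_right _ hD0.le
      -- A y + B x ≤ θ' (A x - B y)
      have e1 : s * a * (1 + θ j * θ (j + 1)) ≤ A * (θ (j + 1) - θ j) := by
        rw [hθs]
        have e2 : θ j * θ (j + 1) ≤ 0.01 := by
          calc θ j * θ (j + 1) ≤ (4 * s) * (4 * s) := by gcongr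
            _ ≤ (4 * (1 / 500)) * (4 * (1 / 500)) := by gcongr
            _ ≤ 0.01 := by norm_num
        have e3 : s * a * (1 + θ j * θ (j + 1)) ≤ s * 2 * 1.01 := by
          calc s * a * (1 + θ j * θ (j + 1)) ≤ s * 2 * (1 + 0.01) := by gcongr
            _ = s * 2 * 1.01 := by norm_num
        have e4 : 4 * s ≤ A * (4 * s / ((↑j + 1) * (↑j + 2))) := by
          have e5 : ((j : ℝ) + 1) * (j + 2) ≤ A := by
            rw [hA, hi]; nlinarith [sq_nonneg s]
          rw [mul_div_assoc', le_div_iff₀ (by positivity), mul_comm A]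
          gcongr
        calc _ ≤ s * 2 * 1.01 := e3
          _ ≤ 4 * s := by linarith
          _ ≤ _ := e4
      have e6 : (A + θ (j + 1) * (s * a)) * y j ≤ (A + θ (j + 1) * (s * a)) * (θ j * x j) := by
        have : 0 ≤ A + θ (j + 1) * (s * a) := by positivity
        gcongr
      have e7 : s * a * (1 + θ j * θ (j + 1)) * x j ≤ A * (θ (j + 1) - θ j) * x j := by
        gcongr
      linarith
    · have hH : H (j + 1 + 1) = H (j + 1) + 1 / (i + 1) := by
        rw [H_succ, hi]; push_cast; ring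
      have e1 : ((j + 1 : ℕ) : ℝ) + 1 = i + 1 := by push_cast; ring
      rw [e1, hH]
      have e2 : (i * x j) * (1 - δ / (i + 2)) ≤ (i + 1) * x (j + 1) := by
        calc (i * x j) * (1 - δ / (i + 2)) = (i + 1) * (i * (i + 2 - δ) / D * x j) := by
              rw [hD]; field_simp
          _ ≤ (i + 1) * x (j + 1) := by gcongr
      have e3 : 0 < 1 - δ / (i + 2) := by
        have : δ / (i + 2) < 1 := by rw [div_lt_one (by positivity)]; linarith
        linarith
      have e4 : (1 - δ * H (j + 1)) * (1 - δ / (i + 2)) ≤ (i * x j) * (1 - δ / (i + 2)) := by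
        gcongr
      have e5 : 1 - δ * (H (j + 1) + 1 / (i + 1)) ≤ (1 - δ * H (j + 1)) * (1 - δ / (i + 2)) := by
        have e6 : δ / (i + 2) ≤ δ * (1 / (i + 1)) := by
          rw [mul_one_div]
          exact div_le_div_of_nonneg_left δ_pos.le (by positivity) (by linarith)
        have e7 : 0 ≤ δ * H (j + 1) * (δ / (i + 2)) := by
          have := H_nonneg (j + 1)
          have := δ_pos
          positivity
        calc 1 - δ * (H (j + 1) + 1 / (i + 1)) = 1 - δ * H (j + 1) - δ * (1 / (i + 1)) := by ring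
          _ ≤ 1 - δ * H (j + 1) - δ / (i + 2) := by linarith
          _ ≤ 1 - δ * H (j + 1) - δ / (i + 2) + δ * H (j + 1) * (δ / (i + 2)) := by linarith
          _ = _ := by ring
      linarith

end Pool.Agent.H1.NbhdA
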