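import Pool.Agent.H1.NbhdA

set_option autoImplicit false

namespace Pool.Agent.H1.NbhdA

open Complex Filter Topology

lemma x_le_one (j : ℕ) : x j ≤ 1 := by
  induction j with
  | zero => simp [x, u]
  | succ j ih =>
    obtain ⟨h1, h2, h3, -⟩ := xy j
    rw [x_succ, div_le_one (by positivity)]
    have hs := s_pos
    have ha := a_pos
    have ha2 := a_le
    have hs2 := s_le
    have hj : (0 : ℝ) ≤ j := by positivity
    have e1 : ((j : ℝ) + 1) ^ 2 + (j + 1) * a + s ^ 2 ≤ (j + 2) * (j + 3) := by nlinarith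
    have e2 : 0 ≤ s * a * y j := by positivity
    have e3 : (((j : ℝ) + 1) ^ 2 + (j + 1) * a + s ^ 2) * x j ≤ ((j : ℝ) + 1) ^ 2 + (j + 1) * a + s ^ 2 := by
      have : 0 ≤ ((j : ℝ) + 1) ^ 2 + (j + 1) * a + s ^ 2 := by positivity
      nlinarith
    linarith

lemma u_norm (j : ℕ) : ‖u j‖ ≤ 2 := by
  rw [u_eq]
  obtain ⟨h1, h2, h3, -⟩ := xy j
  have h4 := x_le_one j
  have h5 : y j ≤ 1 := by
    have hs := s_pos
    have hs2 := s_le
    have := θ_le j
    calc y j ≤ θ j * x j := h3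
      _ ≤ (4 * s) * 1 := by gcongr
      _ ≤ 1 := by linarith
  refine (norm_sub_le _ _).trans ?_
  rw [norm_mul, norm_I, norm_real, norm_real, Real.norm_eq_abs, Real.norm_eq_abs, abs_of_pos h1,
    abs_of_nonneg h2]
  linarith

lemma u_summable {r : ℝ} (h0 : 0 < r) (h1 : r < 1) : Summable (fun j => u j * (r : ℂ) ^ (j + 1)) := by
  apply Summable.of_norm_bounded (g := fun j => 2 * r * r ^ j)
  · exact (summable_geometric_of_lt_one h0.le h1).mul_left _
  · intro j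
    rw [norm_mul, norm_pow, norm_real, Real.norm_eq_abs, abs_of_pos h0, pow_succ]
    have := u_norm j
    have h2 : 0 ≤ r ^ j * r := by positivity
    nlinarith

lemma H_tendsto : Tendsto H atTop atTop := by
  have := Real.tendsto_sum_range_one_div_nat_succ_atTop
  exact this

lemma sum_x (J : ℕ) : (1 - δ * H J) * H J ≤ ∑ j ∈ Finset.range J, x j := by
  have h1 : ∑ j ∈ Finset.range J, (1 - δ * H J) * (1 / ((j : ℝ) + 1)) ≤ ∑ j ∈ Finset.range J, x j := by
    apply Finset.sum_le_sum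
    intro j hj
    rw [Finset.mem_range] at hj
    obtain ⟨-, -, -, h4⟩ := xy j
    have h5 : H (j + 1) ≤ H J := H_mono hj
    have h6 := δ_pos
    rw [mul_one_div, div_le_iff₀ (by positivity)]
    nlinarith
  rw [← Finset.mul_sum] at h1
  exact h1

lemma exists_J : ∃ J, 7600 ≤ ∑ j ∈ Finset.range J, x j := by
  classical
  have hδ : δ = 8 * (2000 / 1000001) ^ 2 := rfl
  have hδ0 := δ_pos
  have hex : ∃ J, 1 / (2 * δ) ≤ H J := (H_tendsto.eventually_ge_atTop (1 / (2 * δ))).exists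
  set J := Nat.find hex with hJ
  have h1 : 1 / (2 * δ) ≤ H J := Nat.find_spec hex
  have hJ0 : J ≠ 0 := by
    intro h
    rw [h] at h1
    have : H 0 = 0 := by simp [H]
    rw [this] at h1
    have : 0 < 1 / (2 * δ) := by positivity
    linarith
  obtain ⟨K, hK⟩ := Nat.exists_eq_succ_of_ne_zero hJ0
  have h2 : H K < 1 / (2 * δ) := by
    have := Nat.find_min hex (m := K) (by rw [← hJ, hK]; exact Nat.lt_succ_self K)
    exact not_le.1 this
  have h3 : H J ≤ 1 / (2 * δ) + 1 := by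
    rw [hK, Nat.succ_eq_add_one, H_succ]
    have : 1 / ((K : ℝ) + 1) ≤ 1 := by
      rw [div_le_one (by positivity)]
      have : (0 : ℝ) ≤ K := by positivity
      linarith
    linarith
  refine ⟨J, le_trans ?_ (sum_x J)⟩
  have h4 : 1 / 2 - δ ≤ 1 - δ * H J := by
    have : δ * H J ≤ δ * (1 / (2 * δ) + 1) := by gcongr
    have e : δ * (1 / (2 * δ) + 1) = 1 / 2 + δ := by field_simp
    linarith
  have h5 : (1 / 2 - δ) * (1 / (2 * δ)) ≤ (1 - δ * H J) * H J := by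
    have : 0 ≤ 1 / 2 - δ := by rw [hδ]; norm_num
    have h6 : 0 ≤ 1 / (2 * δ) := by positivity
    have h7 : 0 ≤ 1 - δ * H J := this.trans h4
    gcongr
  refine le_trans ?_ h5
  rw [hδ]
  norm_num

lemma τ_one_norm : 0.0019 ≤ ‖τ 1‖ := by
  have e : τ 1 = (-is * c) / 2 := by
    unfold τ Q
    simp [Nat.factorial]
  rw [e, norm_div, norm_mul, norm_neg]
  have h1 : ‖is‖ = s := by
    unfold is
    rw [norm_mul, norm_I, norm_real, Real.norm_eq_abs, abs_of_pos s_pos, mul_one]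
  have h2 : a ≤ ‖c‖ := by
    have : c.re = a := by simp [c]
    rw [← this]
    exact (le_abs_self _).trans (abs_re_le_norm c)
  rw [h1]
  have h3 : s * 1.99 ≤ s * ‖c‖ := by
    have := a_ge
    have := s_pos
    gcongr
    linarith
  have h4 : (0.0019 : ℝ) ≤ s * 1.99 / 2 := by unfold s; norm_num
  have h5 : ‖(2 : ℂ)‖ = 2 := by simp
  rw [h5]
  linarith

lemma exists_r : ∃ r : ℝ, 0 < r ∧ r < 1 ∧ 6 < ‖∑' j : ℕ, τ (j + 1) * (r : ℂ) ^ (j + 1)‖ := by
  obtain ⟨J, hJ⟩ := exists_J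
  obtain ⟨r, hr0, hr1, hrJ⟩ : ∃ r : ℝ, 0 < r ∧ r < 1 ∧ 0.9 < r ^ J := by
    have h1 : Tendsto (fun r : ℝ => r ^ J) (𝓝[<] 1) (𝓝 1) := by
      have : Tendsto (fun r : ℝ => r ^ J) (𝓝 1) (𝓝 (1 ^ J)) := (continuous_pow J).tendsto 1
      rw [one_pow] at this
      exact this.mono_left nhdsWithin_le_nhds
    have h2 := h1.eventually (lt_mem_nhds (show (0.9 : ℝ) < 1 by norm_num))
    have h3 : ∀ᶠ r : ℝ in 𝓝[<] 1, r < 1 := eventually_mem_nhdsWithin
    have h4 : ∀ᶠ r : ℝ in 𝓝[<] 1, 0 < r :=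
      (lt_mem_nhds (show (0 : ℝ) < 1 by norm_num)).filter_mono nhdsWithin_le_nhds
    obtain ⟨r, h5, h6, h7⟩ := (h2.and (h3.and h4)).exists
    exact ⟨r, h7, h6, h5⟩
  refine ⟨r, hr0, hr1, ?_⟩
  have e : ∑' j : ℕ, τ (j + 1) * (r : ℂ) ^ (j + 1) = τ 1 * ∑' j : ℕ, u j * (r : ℂ) ^ (j + 1) := by
    rw [← tsum_mul_left]
    congr 1
    ext j
    rw [τ_succ]; ring
  rw [e, norm_mul]
  have hre : ∀ j, (u j * (r : ℂ) ^ (j + 1)).re = x j * r ^ (j + 1) := by
    intro j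
    rw [← ofReal_pow, mul_comm, re_ofReal_mul]
    unfold x; ring
  have hsum := u_summable hr0 hr1
  have h1 : (∑' j : ℕ, u j * (r : ℂ) ^ (j + 1)).re = ∑' j : ℕ, x j * r ^ (j + 1) := by
    rw [re_tsum hsum]
    congr 1
    ext j
    exact hre j
  have hsum' : Summable (fun j => x j * r ^ (j + 1)) := by
    have := (Complex.hasSum_re hsum.hasSum).summable
    refine this.congr ?_
    exact hre
  have h2 : ∑ j ∈ Finset.range J, x j * r ^ (j + 1) ≤ ∑' j : ℕ, x j * r ^ (j + 1) :=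
    hsum'.sum_le_tsum _ (fun j _ => by
      have := (xy j).1
      positivity)
  have h3 : r ^ J * ∑ j ∈ Finset.range J, x j ≤ ∑ j ∈ Finset.range J, x j * r ^ (j + 1) := by
    rw [Finset.mul_sum]
    apply Finset.sum_le_sum
    intro j hj
    rw [Finset.mem_range] at hj
    have h4 : r ^ J ≤ r ^ (j + 1) := pow_le_pow_of_le_one hr0.le hr1.le hj
    have := (xy j).1
    nlinarith
  have h4 : 0.9 * 7600 ≤ r ^ J * ∑ j ∈ Finset.range J, x j := by
    have : (0 : ℝ) ≤ r ^ J := by positivity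
    gcongr
  have h5 : (0.9 : ℝ) * 7600 ≤ ‖∑' j : ℕ, u j * (r : ℂ) ^ (j + 1)‖ := by
    refine le_trans ?_ ((le_abs_self _).trans (abs_re_le_norm _))
    rw [h1]
    linarith
  have h6 := τ_one_norm
  calc (6 : ℝ) < 0.0019 * (0.9 * 7600) := by norm_num
    _ ≤ ‖τ 1‖ * ‖∑' j : ℕ, u j * (r : ℂ) ^ (j + 1)‖ := by gcongr

lemma τ_summable {r : ℝ} (h0 : 0 < r) (h1 : r < 1) :
    Summable (fun j : ℕ => τ (j + 1) * (r : ℂ) ^ (j + 1)) := by
  have := (u_summable h0 h1).mul_left (τ 1)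
  refine this.congr ?_
  intro j
  rw [τ_succ j]; ring

end Pool.Agent.H1.NbhdA
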