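import Pool.Agent.H1.NbhdB

set_option autoImplicit false

namespace Pool.Agent.H1.NbhdA

open Complex Filter Topology

/-! ### univalence of `h` -/

noncomputable def Φ (ω : ℂ) : ℂ := ω - c * log (1 - exp ω)

lemma exp_mem {ω : ℂ} (hω : ω.re < 0) : exp ω ∈ Metric.ball (0 : ℂ) 1 := by
  rw [mem_ball_zero_iff, norm_exp]
  exact Real.exp_lt_one_iff.2 hω

lemma Φ_deriv {ω : ℂ} (hω : ω.re < 0) :
    HasDerivAt Φ (1 + c * (exp ω / (1 - exp ω))) ω := by
  have h1 : HasDerivAt (fun w : ℂ => 1 - exp w) (-exp ω) ω := by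
    simpa using (hasDerivAt_exp ω).const_sub 1
  have h2 := ((h1.clog (slit (exp_mem hω))).const_mul c)
  have h3 := (hasDerivAt_id ω).sub h2
  have e : 1 + c * (exp ω / (1 - exp ω)) = 1 - c * (-exp ω / (1 - exp ω)) := by ring
  rw [e]
  exact h3

/-- the multiplier making the derivative have positive real part -/
noncomputable def α : ℂ := 1000 - I

lemma c_eq : α * (c - 1) = 1000 + I := by
  unfold α c a s
  apply Complex.ext
  · simp; norm_num
  · simp; norm_num

lemma re_pos {ω : ℂ} (hω : ω.re < 0) : 0 < (α * (1 + c * (exp ω / (1 - exp ω)))).re := by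
  set z := exp ω with hz
  have hzb : z ∈ Metric.ball (0 : ℂ) 1 := exp_mem hω
  have hne : 1 - z ≠ 0 := slitPlane_ne_zero (slit hzb)
  have e1 : α * (1 + c * (z / (1 - z))) = (α + (1000 + I) * z) / (1 - z) := by
    rw [← c_eq]
    field_simp
    ring
  rw [e1, div_eq_mul_inv, Complex.inv_def]
  have hn : normSq z < 1 := by
    rw [mem_ball_zero_iff] at hzb
    rw [normSq_eq_norm_sq]
    have := norm_nonneg z
    nlinarith
  have hpos : 0 < (normSq (1 - z))⁻¹ := by
    rw [inv_pos]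
    exact normSq_pos.2 hne
  have e2 : ((α + (1000 + I) * z) * ((starRingEnd ℂ) (1 - z) * (((normSq (1 - z))⁻¹ : ℝ) : ℂ))).re
      = ((α + (1000 + I) * z) * (starRingEnd ℂ) (1 - z)).re * (normSq (1 - z))⁻¹ := by
    rw [← mul_assoc, mul_comm _ (((normSq (1 - z))⁻¹ : ℝ) : ℂ), re_ofReal_mul, mul_comm]
  rw [e2]
  apply mul_pos _ hpos
  have e3 : ((α + (1000 + I) * z) * (starRingEnd ℂ) (1 - z)).re = 1000 * (1 - normSq z) := by
    unfold α
    simp only [map_sub, map_one, mul_re, add_re, sub_re, add_im, sub_im, mul_im, I_re, I_im,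
      conj_re, conj_im, normSq_apply, one_re, one_im]
    norm_num
    ring
  rw [e3]
  linarith

lemma Φ_inj {ω ω' : ℂ} (h : ω.re < 0) (h' : ω'.re < 0) (he : Φ ω = Φ ω') : ω = ω' := by
  by_contra hne
  set d := ω' - ω with hd
  have hd0 : d ≠ 0 := by
    intro h0
    apply hne
    rw [hd, sub_eq_zero] at h0
    exact h0.symm
  let γ : ℝ → ℂ := fun t => ω + t * d
  have hγre : ∀ t ∈ Set.Icc (0 : ℝ) 1, (γ t).re < 0 := by
    intro t ht
    have : (γ t).re = (1 - t) * ω.re + t * ω'.re := by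
      simp only [γ, add_re, re_ofReal_mul, hd, sub_re]; ring
    rw [this]
    obtain ⟨t0, t1⟩ := ht
    rcases eq_or_lt_of_le t0 with rfl | t0
    · simpa using h
    · have : t * ω'.re < 0 := mul_neg_of_pos_of_neg t0 h'
      have : (1 - t) * ω.re ≤ 0 := mul_nonpos_of_nonneg_of_nonpos (by linarith) h.le
      linarith
  let F : ℝ → ℝ := fun t => (α * Φ (γ t) / d).re
  have hF : ∀ t ∈ Set.Icc (0 : ℝ) 1,
      HasDerivAt F (α * (1 + c * (exp (γ t) / (1 - exp (γ t))))).re t := by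
    intro t ht
    have h1 : HasDerivAt γ d t := by
      have : HasDerivAt (fun t : ℝ => (t : ℂ) * d) (1 * d) t := (ofRealCLM.hasDerivAt (x := t)).mul_const d
      rw [one_mul] at this
      exact this.const_add ω
    have h2 := (Φ_deriv (hγre t ht)).comp_of_eq t h1 rfl
    have h3 := (h2.const_mul α).div_const d
    have h4 := Complex.reCLM.hasFDerivAt.comp_hasDerivAt t h3
    have e : Complex.reCLM (α * ((1 + c * (exp (γ t) / (1 - exp (γ t)))) * d) / d)
        = (α * (1 + c * (exp (γ t) / (1 - exp (γ t))))).re := by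
      rw [← mul_assoc, mul_div_cancel_right₀ _ hd0]
      rfl
    rw [← e]
    exact h4
  have hmono : StrictMonoOn F (Set.Icc (0 : ℝ) 1) := by
    apply strictMonoOn_of_deriv_pos (convex_Icc 0 1)
    · intro t ht
      exact (hF t ht).continuousAt.continuousWithinAt
    · intro t ht
      rw [interior_Icc] at ht
      have ht' : t ∈ Set.Icc (0 : ℝ) 1 := ⟨ht.1.le, ht.2.le⟩
      rw [(hF t ht').deriv]
      exact re_pos (hγre t ht')
  have h01 := hmono (Set.left_mem_Icc.2 zero_le_one) (Set.right_mem_Icc.2 zero_le_one) zero_lt_one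
  have e0 : F 0 = (α * Φ ω / d).re := by simp [F, γ]
  have e1 : F 1 = (α * Φ ω' / d).re := by simp [F, γ, hd]
  rw [e0, e1, he] at h01
  exact lt_irrefl _ h01

lemma h_form {z : ℂ} (hz : z ∈ Metric.ball (0 : ℂ) 1) : h z = z * (1 - z) ^ (-c) := by
  unfold h
  have hne : 1 - z ≠ 0 := slitPlane_ne_zero (slit hz)
  rw [show (1 - c : ℂ) = 1 + (-c) by ring, cpow_add _ _ hne, cpow_one]
  ring

lemma h_exp {z : ℂ} (hz : z ∈ Metric.ball (0 : ℂ) 1) (h0 : z ≠ 0) : h z = exp (Φ (log z)) := by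
  rw [h_form hz]
  unfold Φ
  rw [exp_log h0]
  have e : log z - c * log (1 - z) = log z + log (1 - z) * (-c) := by ring
  rw [e, exp_add, exp_log h0, cpow_def_of_ne_zero (slitPlane_ne_zero (slit hz))]

lemma log_re {z : ℂ} (hz : z ∈ Metric.ball (0 : ℂ) 1) (h0 : z ≠ 0) : (log z).re < 0 := by
  rw [Complex.log_re]
  rw [mem_ball_zero_iff] at hz
  exact Real.log_neg (norm_pos_iff.2 h0) hz

lemma h_zero_iff {z : ℂ} (hz : z ∈ Metric.ball (0 : ℂ) 1) (h0 : z ≠ 0) : h z ≠ 0 := by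
  rw [h_exp hz h0]
  exact exp_ne_zero _

lemma h_injOn : Set.InjOn h (Metric.ball (0 : ℂ) 1) := by
  intro z hz w hw hzw
  have hh0 : h 0 = 0 := by rw [h_form zero_mem, zero_mul]
  by_cases z0 : z = 0
  · subst z0
    by_contra hne
    exact h_zero_iff hw (Ne.symm hne) (by rw [← hzw, hh0])
  by_cases w0 : w = 0
  · subst w0
    exact absurd (by rw [hzw, hh0]) (h_zero_iff hz z0)
  rw [h_exp hz z0, h_exp hw w0, exp_eq_exp_iff_exists_int] at hzw
  obtain ⟨n, hn⟩ := hzw
  have e : Φ (log w + n * (2 * Real.pi * I)) = Φ (log w) + n * (2 * Real.pi * I) := by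
    unfold Φ
    have : exp (log w + n * (2 * Real.pi * I)) = exp (log w) := by
      rw [exp_eq_exp_iff_exists_int]
      exact ⟨n, rfl⟩
    rw [this]
    ring
  rw [← e] at hn
  have hre : (log w + n * (2 * Real.pi * I)).re < 0 := by
    have : (log w + n * (2 * Real.pi * I)).re = (log w).re := by simp
    rw [this]
    exact log_re hw w0
  have := Φ_inj (log_re hz z0) hre hn
  have h2 := congrArg exp this
  rw [exp_log z0] at h2
  rw [h2]
  rw [show exp (log w + n * (2 * Real.pi * I)) = exp (log w) by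
      rw [exp_eq_exp_iff_exists_int]; exact ⟨n, rfl⟩, exp_log w0]

/-! ### the size of `p` -/

lemma norm_pow_le {z : ℂ} (hz : z ∈ Metric.ball (0 : ℂ) 1) : ‖(1 - z) ^ is‖ ≤ 2 := by
  have hne : 1 - z ≠ 0 := slitPlane_ne_zero (slit hz)
  rw [norm_cpow_of_ne_zero hne]
  have h1 : is.re = 0 := by simp [is]
  have h2 : is.im = s := by simp [is]
  rw [h1, h2, Real.rpow_zero, one_div, ← Real.exp_neg]
  have h3 : |arg (1 - z)| ≤ Real.pi := abs_arg_le_pi _
  have h4 : -(arg (1 - z) * s) ≤ 0.5 := by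
    have hs := s_pos
    have hs2 := s_le
    have hpi := Real.pi_lt_d2
    have h5 : -arg (1 - z) ≤ Real.pi := by
      have := (abs_le.1 h3).1
      linarith
    calc -(arg (1 - z) * s) = (-arg (1 - z)) * s := by ring
      _ ≤ Real.pi * s := by gcongr
      _ ≤ 3.15 * (1 / 500) := by gcongr
      _ ≤ 0.5 := by norm_num
  calc Real.exp (-(arg (1 - z) * s)) ≤ Real.exp 0.5 := Real.exp_le_exp.2 h4
    _ ≤ 1 / (1 - 0.5) := by
        have := Real.exp_bound_div_one_sub_of_interval (x := 0.5) (by norm_num) (by norm_num)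
        simpa using this
    _ = 2 := by norm_num

lemma pp_norm {κ : ℂ} {z : ℂ} (hz : z ∈ Metric.ball (0 : ℂ) 1) : ‖pp κ z‖ ≤ 3 * ‖κ‖ * ‖z‖ := by
  have h1 : ∀ w ∈ Metric.ball (0 : ℂ) 1, HasDerivWithinAt (pp κ) (κ * ((1 - w) ^ is - 1))
      (Metric.ball (0 : ℂ) 1) w := fun w hw => (pp_deriv κ hw).hasDerivWithinAt
  have h2 : ∀ w ∈ Metric.ball (0 : ℂ) 1, ‖κ * ((1 - w) ^ is - 1)‖ ≤ 3 * ‖κ‖ := by
    intro w hw
    rw [norm_mul, mul_comm]
    have : ‖(1 - w) ^ is - 1‖ ≤ 3 := by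
      refine (norm_sub_le _ _).trans ?_
      rw [norm_one]
      have := norm_pow_le hw
      linarith
    gcongr
  have h3 := (convex_ball (0 : ℂ) 1).norm_image_sub_le_of_norm_hasDerivWithin_le h1 h2 zero_mem hz
  have h4 : pp κ 0 = 0 := by simp [pp]
  rw [h4, sub_zero, sub_zero] at h3
  exact h3

theorem main : ∃ g h : ℂ → ℂ, DifferentiableOn ℂ g (Metric.ball (0 : ℂ) 1) ∧ g 0 = 0 ∧ deriv g 0 = 1 ∧
      (∀ z : ℂ, z ∈ Metric.ball (0 : ℂ) 1 → z ≠ 0 →
        ‖(deriv g z - 1) - (g z - z) / z‖ + ‖(deriv g z - 1) + (g z - z) / z‖ < 2) ∧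
      DifferentiableOn ℂ h (Metric.ball (0 : ℂ) 1) ∧ h 0 = 0 ∧ deriv h 0 = 1 ∧
        Set.InjOn h (Metric.ball (0 : ℂ) 1) ∧
        ∃ z : ℂ, 0 < ‖z‖ ∧ ‖z‖ < 1 ∧
          (∑' n : ℕ, (iteratedDeriv n g 0 / (n.factorial : ℂ)) *
              (iteratedDeriv n h 0 / (n.factorial : ℂ)) * z ^ n) = 0 := by
  obtain ⟨r, hr0, hr1, hr⟩ := exists_r
  set T : ℂ := ∑' j : ℕ, τ (j + 1) * (r : ℂ) ^ (j + 1) with hT
  have hT0 : T ≠ 0 := by
    intro h0
    rw [h0, norm_zero] at hr
    linarith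
  set κ : ℂ := -1 / T with hκ
  have hκn : ‖κ‖ < 1 / 6 := by
    rw [hκ, norm_div, norm_neg, norm_one]
    exact one_div_lt_one_div_of_lt (by norm_num) hr
  refine ⟨g κ, h, ?_, ?_, ?_, ?_, ?_, ?_, ?_, h_injOn, r, ?_, ?_, ?_⟩
  · intro z hz
    exact (g_deriv κ hz).differentiableAt.differentiableWithinAt
  · simp [g, pp]
  · rw [(g_deriv κ zero_mem).deriv]
    simp
  · intro z hz h0
    rw [(g_deriv κ hz).deriv]
    have e1 : g κ z - z = pp κ z := by unfold g; ring
    have e2 : κ * (1 - z) ^ is + 0 * (1 - z) ^ is + (1 - κ) - 1 = κ * ((1 - z) ^ is - 1) := by ring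
    rw [e1, e2]
    have h1 : ‖κ * ((1 - z) ^ is - 1)‖ ≤ ‖κ‖ * 3 := by
      rw [norm_mul]
      have : ‖(1 - z) ^ is - 1‖ ≤ 3 := by
        refine (norm_sub_le _ _).trans ?_
        rw [norm_one]
        have := norm_pow_le hz
        linarith
      gcongr
    have h2 : ‖pp κ z / z‖ ≤ 3 * ‖κ‖ := by
      rw [norm_div, div_le_iff₀ (norm_pos_iff.2 h0)]
      exact pp_norm hz
    have h3 := norm_sub_le (κ * ((1 - z) ^ is - 1)) (pp κ z / z)
    have h4 := norm_add_le (κ * ((1 - z) ^ is - 1)) (pp κ z / z)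
    linarith
  · intro z hz
    have := ((hasDeriv_pow (-c) hz).sub (hasDeriv_pow (1 - c) hz)).differentiableAt
    exact this.differentiableWithinAt
  · simp [h]
  · have h1 := iter_h 1
    rw [iteratedDeriv_one] at h1
    rw [h1]
    simp [Q]
  · rw [norm_real, Real.norm_eq_abs, abs_of_pos hr0]; exact hr0
  · rw [norm_real, Real.norm_eq_abs, abs_of_pos hr0]; exact hr1
  · have hterm : ∀ n : ℕ, (iteratedDeriv (n + 2) (g κ) 0 / ((n + 2).factorial : ℂ)) *
              (iteratedDeriv (n + 2) h 0 / ((n + 2).factorial : ℂ)) * (r : ℂ) ^ (n + 2)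
              = κ * r * (τ (n + 1) * (r : ℂ) ^ (n + 1)) := by
      intro n
      rw [iter_g, if_neg (Nat.succ_ne_zero n), iter_h, Q_diff]
      unfold τ
      have h1 : ((n + 1).factorial : ℂ) ≠ 0 := by exact_mod_cast Nat.factorial_ne_zero _
      have h2 : ((n : ℂ) + 2) ≠ 0 := by exact_mod_cast Nat.succ_ne_zero (n + 1)
      have h3 : ((n + 2).factorial : ℂ) = (n + 2) * ((n + 1).factorial : ℂ) := by
        rw [Nat.factorial_succ (n + 1)]; push_cast; ring
      have h4 : ((n + 1 + 1).factorial : ℂ) = (n + 2) * ((n + 1).factorial : ℂ) := h3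
      rw [h4]
      push_cast
      field_simp
      ring
    have hsum : HasSum (fun n : ℕ => (iteratedDeriv (n + 2) (g κ) 0 / ((n + 2).factorial : ℂ)) *
              (iteratedDeriv (n + 2) h 0 / ((n + 2).factorial : ℂ)) * (r : ℂ) ^ (n + 2)) (κ * r * T) := by
      have := (τ_summable hr0 hr1).hasSum.mul_left (κ * r)
      rw [← hT] at this
      simpa only [hterm] using this
    have hsum2 := (hasSum_nat_add_iff (f := fun n : ℕ => (iteratedDeriv n (g κ) 0 / (n.factorial : ℂ)) *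
              (iteratedDeriv n h 0 / (n.factorial : ℂ)) * (r : ℂ) ^ n) 2).1 hsum
    rw [hsum2.tsum_eq, Finset.sum_range_succ, Finset.sum_range_one]
    have e0 : iteratedDeriv 0 (g κ) 0 = 0 := by simp [g, pp]
    have e1 : iteratedDeriv 1 (g κ) 0 = 1 := by
      rw [iter_g κ 0]; simp [Q]
    have e2 : iteratedDeriv 1 h 0 = 1 := by
      rw [iter_h]; simp [Q]
    rw [e0, e1, e2, hκ]
    field_simp
    simp

end Pool.Agent.H1.NbhdA
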