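import Mathlib

set_option autoImplicit false
set_option linter.all false

namespace Pool.Agent.H1.NormComp

open MeasureTheory Complex Filter Topology Set

/-- the squared norm at level `x` -/
noncomputable def q (F : ℂ → ℂ) (x : ℝ) : ENNReal :=
  ∫⁻ y : ℝ, (‖F ((x : ℂ) + (y : ℂ) * Complex.I)‖₊ : ENNReal) ^ 2

def HP : Set ℂ := {z : ℂ | 0 < z.re}

theorem nn (z : ℂ) : (‖z‖₊ : ENNReal) = ENNReal.ofReal ‖z‖ := by
  rw [ofReal_norm]; rfl

theorem isOpen_HP : IsOpen HP := isOpen_lt continuous_const Complex.continuous_re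

theorem mem_HP {z : ℂ} : z ∈ HP ↔ 0 < z.re := Iff.rfl

theorem line_re (x y : ℝ) : ((x : ℂ) + (y : ℂ) * Complex.I).re = x := by simp

theorem cont_line {F : ℂ → ℂ} (hF : ContinuousOn F HP) {x : ℝ} (hx : 0 < x) :
    Continuous (fun y : ℝ => F ((x : ℂ) + (y : ℂ) * Complex.I)) := by
  apply ContinuousOn.comp_continuous hF (by fun_prop)
  intro y
  rw [mem_HP, line_re]
  exact hx

theorem deriv_bound {F : ℂ → ℂ} {M : ℝ} (hF : DifferentiableOn ℂ F HP)
    (hM : ∀ z ∈ HP, ‖F z‖ ≤ M) {z : ℂ} {d : ℝ} (hd : 0 < d) (hz : d < z.re) :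
    ‖deriv F z‖ ≤ M / d := by
  have hsub : Metric.closedBall z d ⊆ HP := by
    intro w hw
    rw [mem_HP]
    rw [Metric.mem_closedBall, dist_eq_norm] at hw
    have h1 : |(w - z).re| ≤ ‖w - z‖ := Complex.abs_re_le_norm _
    have h2 := (abs_le.1 (h1.trans hw)).1
    rw [Complex.sub_re] at h2
    linarith
  apply Complex.norm_deriv_le_of_forall_mem_sphere_norm_le hd
  · apply DifferentiableOn.diffContOnCl
    rw [closure_ball _ hd.ne']
    exact hF.mono hsub
  · intro w hw
    exact hM w (hsub (Metric.sphere_subset_closedBall hw))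

/-- monotonicity of the level norms -/
theorem mono {F : ℂ → ℂ} {M : ℝ} (hF : DifferentiableOn ℂ F HP)
    (hM : ∀ z ∈ HP, ‖F z‖ ≤ M) {x1 x2 : ℝ} (h1 : 0 < x1) (h12 : x1 < x2) :
    q F x2 ≤ q F x1 := by
  have hx2 : 0 < x2 := h1.trans h12
  have hcont := cont_line hF.continuousOn hx2
  have hcont1 := cont_line hF.continuousOn h1
  have hM0 : 0 ≤ M := (norm_nonneg _).trans (hM 1 (by simp [HP]))
  by_cases hA : q F x1 = ⊤
  · rw [hA]; exact le_top
  have hA' : q F x1 < ⊤ := lt_top_iff_ne_top.2 hA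
  have key : ∀ R : ℝ, 0 ≤ R → ∫⁻ y in Ioc (-R) R,
      (‖F ((x2 : ℂ) + (y : ℂ) * Complex.I)‖₊ : ENNReal) ^ 2 ≤ q F x1 := by
    intro R hR
    set B : ENNReal := ∫⁻ y in Ioc (-R) R,
      (‖F ((x2 : ℂ) + (y : ℂ) * Complex.I)‖₊ : ENNReal) ^ 2 with hB
    have hBtop : B < ⊤ := by
      rw [hB]
      have : ∀ y ∈ Ioc (-R) R, (‖F ((x2 : ℂ) + (y : ℂ) * Complex.I)‖₊ : ENNReal) ^ 2 ≤
          (ENNReal.ofReal M) ^ 2 := by
        intro y _
        gcongr
        rw [nn]
        exact ENNReal.ofReal_le_ofReal (hM _ (by rw [mem_HP, line_re]; exact hx2))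
      refine (setLIntegral_mono measurable_const this).trans_lt ?_
      rw [setLIntegral_const]
      exact ENNReal.mul_lt_top (by simp) (by simp)
    set g : ℝ → ℂ := fun v => (starRingEnd ℂ) (F ((x2 : ℂ) + (v : ℂ) * Complex.I)) with hg
    have hgc : Continuous g := Complex.continuous_conj.comp hcont
    have hgM : ∀ v, ‖g v‖ ≤ M := by
      intro v
      rw [hg]
      simp only [RCLike.norm_conj]
      exact hM _ (by rw [mem_HP, line_re]; exact hx2)
    set G : ℂ → ℂ := fun z => ∫ v in (-R)..R, g v * F ((x1 : ℂ) + z + (v : ℂ) * Complex.I) with hG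
    have hcz : ∀ z : ℂ, -x1 < z.re → Continuous (fun v : ℝ => F ((x1 : ℂ) + z + (v : ℂ) * Complex.I)) := by
      intro z hz
      apply ContinuousOn.comp_continuous hF.continuousOn (by fun_prop)
      intro y
      rw [mem_HP]
      simp
      linarith
    have hFz : ∀ z : ℂ, -x1 < z.re → ∀ v : ℝ, ‖F ((x1 : ℂ) + z + (v : ℂ) * Complex.I)‖ ≤ M := by
      intro z hz v
      apply hM
      rw [mem_HP]
      simp
      linarith
    have hdiff : ∀ z : ℂ, -x1 < z.re → DifferentiableAt ℂ G z := by
      intro z hz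
      set d : ℝ := (x1 + z.re) / 2 with hd
      have hd0 : 0 < d := by rw [hd]; linarith
      have hre : ∀ w ∈ Metric.ball z (d / 2), ∀ v : ℝ, d < ((x1 : ℂ) + w + (v : ℂ) * Complex.I).re := by
        intro w hw v
        rw [Metric.mem_ball, dist_eq_norm] at hw
        have h1 : |(w - z).re| ≤ ‖w - z‖ := Complex.abs_re_le_norm _
        have h2 := (abs_lt.1 (h1.trans_lt hw)).1
        rw [Complex.sub_re] at h2
        simp
        rw [hd] at h2 ⊢
        linarith
      have hcd : Continuous (fun v : ℝ => deriv F ((x1 : ℂ) + z + (v : ℂ) * Complex.I)) := by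
        apply ContinuousOn.comp_continuous (hF.deriv isOpen_HP).continuousOn (by fun_prop)
        intro y
        rw [mem_HP]
        simp
        linarith
      refine (intervalIntegral.hasDerivAt_integral_of_dominated_loc_of_deriv_le
        (s := Metric.ball z (d / 2))
        (F := fun z v => g v * F ((x1 : ℂ) + z + (v : ℂ) * Complex.I))
        (F' := fun z v => g v * deriv F ((x1 : ℂ) + z + (v : ℂ) * Complex.I))
        (bound := fun _ => M * (M / d))
        (Metric.ball_mem_nhds z (by positivity)) ?_ ?_ ?_ ?_ ?_ ?_).2.differentiableAt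
      · filter_upwards [Metric.ball_mem_nhds z (show 0 < d / 2 by positivity)] with w hw
        apply Continuous.aestronglyMeasurable
        apply hgc.mul
        apply hcz
        have := hre w hw 0
        simp at this
        linarith
      · apply Continuous.intervalIntegrable
        exact hgc.mul (hcz z hz)
      · apply Continuous.aestronglyMeasurable
        exact hgc.mul hcd
      · refine Filter.Eventually.of_forall (fun v _ w hw => ?_)
        rw [norm_mul]
        exact mul_le_mul (hgM v) (deriv_bound hF hM hd0 (hre w hw v)) (norm_nonneg _) hM0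
      · exact intervalIntegrable_const
      · refine Filter.Eventually.of_forall (fun v _ w hw => ?_)
        have hw0 : (x1 : ℂ) + w + (v : ℂ) * Complex.I ∈ HP := by
          rw [mem_HP]
          exact hd0.trans (hre w hw v)
        have h3 : HasDerivAt F (deriv F ((x1 : ℂ) + w + (v : ℂ) * Complex.I))
            ((x1 : ℂ) + w + (v : ℂ) * Complex.I) :=
          (hF.differentiableAt (isOpen_HP.mem_nhds hw0)).hasDerivAt
        have h4 : HasDerivAt (fun w : ℂ => (x1 : ℂ) + w + (v : ℂ) * Complex.I) 1 w := by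
          have := ((hasDerivAt_id w).const_add (x1 : ℂ)).add_const ((v : ℂ) * Complex.I)
          simpa using this
        have h5 := (h3.comp w h4).const_mul (g v)
        simpa using h5
    have hGM : ∀ z : ℂ, -x1 < z.re → ‖G z‖ ≤ M * M * |R - (-R)| := by
      intro z hz
      rw [hG]
      apply intervalIntegral.norm_integral_le_of_norm_le_const
      intro v _
      rw [norm_mul]
      exact mul_le_mul (hgM v) (hFz z hz v) (norm_nonneg _) hM0
    have hCS : ∀ z : ℂ, z.re = 0 → (‖G z‖₊ : ENNReal) ≤ B ^ (1 / (2 : ℝ)) * (q F x1) ^ (1 / (2 : ℝ)) := by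
      intro z hz
      have e1 : G z = ∫ v in Ioc (-R) R, g v * F ((x1 : ℂ) + z + (v : ℂ) * Complex.I) := by
        rw [hG]
        exact intervalIntegral.integral_of_le (by linarith)
      have h2 : (‖G z‖₊ : ENNReal) ≤ ∫⁻ v in Ioc (-R) R, ‖g v * F ((x1 : ℂ) + z + (v : ℂ) * Complex.I)‖ₑ := by
        rw [e1]
        exact enorm_integral_le_lintegral_enorm _
      refine h2.trans ?_
      have h3 := ENNReal.lintegral_mul_le_Lp_mul_Lq (volume.restrict (Ioc (-R) R))
        (p := 2) (q := 2) Real.HolderConjugate.two_two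
        (f := fun v : ℝ => ‖g v‖ₑ) (g := fun v : ℝ => ‖F ((x1 : ℂ) + z + (v : ℂ) * Complex.I)‖ₑ)
        hgc.enorm.measurable.aemeasurable (hcz z (by rw [hz]; linarith)).enorm.measurable.aemeasurable
      have h4 : ∫⁻ v in Ioc (-R) R, ‖g v * F ((x1 : ℂ) + z + (v : ℂ) * Complex.I)‖ₑ =
          ∫⁻ v in Ioc (-R) R, ((fun v : ℝ => ‖g v‖ₑ) * (fun v : ℝ => ‖F ((x1 : ℂ) + z + (v : ℂ) * Complex.I)‖ₑ)) v := by
        refine lintegral_congr (fun v => ?_)
        rw [enorm_mul]
        rfl
      rw [h4]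
      refine h3.trans ?_
      have h5 : ∫⁻ v in Ioc (-R) R, ‖g v‖ₑ ^ (2 : ℝ) = B := by
        rw [hB]
        refine lintegral_congr (fun v => ?_)
        rw [hg]
        simp only [ENNReal.rpow_two]
        congr 1
        simp [enorm]
      have h6 : ∫⁻ v in Ioc (-R) R, ‖F ((x1 : ℂ) + z + (v : ℂ) * Complex.I)‖ₑ ^ (2 : ℝ) ≤ q F x1 := by
        refine (setLIntegral_le_lintegral _ _).trans ?_
        have h7 : ∀ v : ℝ, ‖F ((x1 : ℂ) + z + (v : ℂ) * Complex.I)‖ₑ ^ (2 : ℝ) =
            (fun y : ℝ => (‖F ((x1 : ℂ) + (y : ℂ) * Complex.I)‖₊ : ENNReal) ^ 2) (v + z.im) := by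
          intro v
          have : (x1 : ℂ) + z + (v : ℂ) * Complex.I = (x1 : ℂ) + ((v + z.im : ℝ) : ℂ) * Complex.I := by
            apply Complex.ext
            · simp [hz]
            · simp; ring
          rw [this]
          simp only [ENNReal.rpow_two]
          rfl
        rw [lintegral_congr h7]
        have h9 := lintegral_add_right_eq_self (μ := (volume : Measure ℝ))
          (fun y : ℝ => (‖F ((x1 : ℂ) + (y : ℂ) * Complex.I)‖₊ : ENNReal) ^ 2) z.im
        exact h9.le
      rw [h5]
      gcongr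
    have hfin : B ^ (1 / (2 : ℝ)) * (q F x1) ^ (1 / (2 : ℝ)) ≠ ⊤ := by
      apply ENNReal.mul_ne_top
      · exact ENNReal.rpow_ne_top_of_nonneg (by norm_num) hBtop.ne
      · exact ENNReal.rpow_ne_top_of_nonneg (by norm_num) hA
    have hPL : ‖G ((x2 - x1 : ℝ) : ℂ)‖ ≤ (B ^ (1 / (2 : ℝ)) * (q F x1) ^ (1 / (2 : ℝ))).toReal := by
      apply PhragmenLindelof.right_half_plane_of_bounded_on_real
      · apply DifferentiableOn.diffContOnCl
        rw [Complex.closure_setOf_lt_re]
        intro z hz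
        have hz' : (0 : ℝ) ≤ z.re := hz
        exact (hdiff z (by linarith)).differentiableWithinAt
      · refine ⟨0, by norm_num, 0, ?_⟩
        have : (fun z : ℂ => Real.exp (0 * ‖z‖ ^ (0 : ℝ))) = fun _ => 1 := by
          funext z; simp
        rw [this]
        refine Asymptotics.IsBigO.of_bound (M * M * |R - (-R)|) ?_
        refine Filter.Eventually.filter_mono inf_le_right ?_
        rw [Filter.eventually_principal]
        intro z hz
        have hz' : (0 : ℝ) < z.re := hz
        simpa using hGM z (by linarith)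
      · refine ⟨M * M * |R - (-R)|, ?_⟩
        rw [Filter.eventually_map]
        filter_upwards [Filter.eventually_ge_atTop 0] with x hx
        exact hGM (x : ℂ) (by simp; linarith)
      · intro y
        have h := hCS ((y : ℂ) * Complex.I) (by simp)
        have := ENNReal.toReal_mono hfin h
        simpa using this
      · simp; linarith
    have hval : B = (‖G ((x2 - x1 : ℝ) : ℂ)‖₊ : ENNReal) := by
      have e1 : G ((x2 - x1 : ℝ) : ℂ) =
          ((∫ v in Ioc (-R) R, ‖F ((x2 : ℂ) + (v : ℂ) * Complex.I)‖ ^ 2 : ℝ) : ℂ) := by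
        rw [hG, ← integral_complex_ofReal]
        simp only
        rw [intervalIntegral.integral_of_le (by linarith)]
        refine integral_congr_ae (Filter.Eventually.of_forall (fun v => ?_))
        simp only [hg]
        have e2 : (x1 : ℂ) + ((x2 - x1 : ℝ) : ℂ) + (v : ℂ) * Complex.I = (x2 : ℂ) + (v : ℂ) * Complex.I := by
          push_cast; ring
        rw [e2, mul_comm, Complex.mul_conj, Complex.normSq_eq_norm_sq]
      have hint : Integrable (fun v : ℝ => ‖F ((x2 : ℂ) + (v : ℂ) * Complex.I)‖ ^ 2)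
          (volume.restrict (Ioc (-R) R)) := by
        have : IntervalIntegrable (fun v : ℝ => ‖F ((x2 : ℂ) + (v : ℂ) * Complex.I)‖ ^ 2) volume (-R) R :=
          (hcont.norm.pow 2).intervalIntegrable _ _
        rwa [intervalIntegrable_iff_integrableOn_Ioc_of_le (by linarith)] at this
      rw [e1]
      have e3 : (‖((∫ v in Ioc (-R) R, ‖F ((x2 : ℂ) + (v : ℂ) * Complex.I)‖ ^ 2 : ℝ) : ℂ)‖₊ : ENNReal) =
          ENNReal.ofReal (∫ v in Ioc (-R) R, ‖F ((x2 : ℂ) + (v : ℂ) * Complex.I)‖ ^ 2) := by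
        rw [nn, Complex.norm_real, Real.norm_of_nonneg]
        exact integral_nonneg (fun v => by positivity)
      rw [e3, ofReal_integral_eq_lintegral_ofReal hint (Filter.Eventually.of_forall (fun v => by positivity)), hB]
      refine lintegral_congr (fun v => ?_)
      rw [ENNReal.ofReal_pow (norm_nonneg _), nn]
    have hle : B ≤ B ^ (1 / (2 : ℝ)) * (q F x1) ^ (1 / (2 : ℝ)) := by
      conv_lhs => rw [hval]
      rw [nn]
      rw [← ENNReal.ofReal_toReal hfin]
      exact ENNReal.ofReal_le_ofReal hPL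
    -- conclude
    by_contra hcon
    push Not at hcon
    have hB0 : B ≠ 0 := fun h => by rw [h] at hcon; exact not_lt_zero' hcon
    have h8 : B ^ (1 / (2 : ℝ)) * (q F x1) ^ (1 / (2 : ℝ)) < B ^ (1 / (2 : ℝ)) * B ^ (1 / (2 : ℝ)) := by
      apply ENNReal.mul_lt_mul_right
      · exact (ENNReal.rpow_pos (pos_iff_ne_zero.2 hB0) hBtop.ne).ne'
      · exact ENNReal.rpow_ne_top_of_nonneg (by norm_num) hBtop.ne
      · exact ENNReal.rpow_lt_rpow hcon (by norm_num)
    rw [← ENNReal.rpow_add _ _ hB0 hBtop.ne] at h8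
    norm_num at h8
    exact absurd (hle.trans_lt h8) (lt_irrefl _)
  have hcov := aecover_Ioc (μ := (volume : Measure ℝ)) (a := fun n : ℕ => -(n : ℝ)) (b := fun n : ℕ => (n : ℝ))
    (l := atTop) (tendsto_neg_atTop_atBot.comp tendsto_natCast_atTop_atTop) tendsto_natCast_atTop_atTop
  have := hcov.lintegral_tendsto_of_countably_generated
    (f := fun y : ℝ => (‖F ((x2 : ℂ) + (y : ℂ) * Complex.I)‖₊ : ENNReal) ^ 2)
    (hcont.enorm.measurable.pow_const 2).aemeasurable
  exact le_of_tendsto' this (fun n => key n (Nat.cast_nonneg n))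

end Pool.Agent.H1.NormComp
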