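import Mathlib

set_option autoImplicit false
set_option linter.all false

namespace Pool.Agent.H1.NormComp

open MeasureTheory Complex Filter Topology Set

theorem ne_zero_add {q : ℂ} (hq : 0 < q.re) (y : ℝ) : q + (y : ℂ) * Complex.I ≠ 0 := by
  intro h
  have := congrArg Complex.re h
  simp at this
  linarith

theorem ne_zero_sub {q : ℂ} (hq : 0 < q.re) (y : ℝ) : q - (y : ℂ) * Complex.I ≠ 0 := by
  intro h
  have := congrArg Complex.re h
  simp at this
  linarith

theorem sq_int {q : ℂ} (hq : 0 < q.re) :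
    Integrable (fun y : ℝ => ‖(q + (y : ℂ) * Complex.I)⁻¹‖ ^ 2) := by
  have h0 : Integrable (fun y : ℝ => (1 + (q.im + y) ^ 2)⁻¹) :=
    integrable_inv_one_add_sq.comp_add_left q.im
  set c : ℝ := min 1 (q.re ^ 2) with hc
  have hc0 : 0 < c := lt_min one_pos (by positivity)
  refine (h0.const_mul c⁻¹).mono' ?_ (Filter.Eventually.of_forall (fun y => ?_))
  · apply Continuous.aestronglyMeasurable
    apply Continuous.pow
    apply Continuous.norm
    apply Continuous.inv₀ (by fun_prop)
    exact fun y => ne_zero_add hq y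
  · rw [Real.norm_of_nonneg (by positivity), norm_inv, inv_pow, ← Complex.normSq_eq_norm_sq,
      Complex.normSq_apply, ← mul_inv]
    apply inv_anti₀ (by positivity)
    simp
    have h1 : c ≤ 1 := min_le_left _ _
    have h2 : c ≤ q.re ^ 2 := min_le_right _ _
    nlinarith [sq_nonneg (q.im + y)]

theorem memLp_k {q : ℂ} (hq : 0 < q.re) :
    MemLp (fun y : ℝ => (q + (y : ℂ) * Complex.I)⁻¹) 2 := by
  rw [memLp_two_iff_integrable_sq_norm]
  · exact sq_int hq
  · apply Continuous.aestronglyMeasurable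
    apply Continuous.inv₀ (by fun_prop)
    exact fun y => ne_zero_add hq y

theorem prod_int {p q : ℂ} (hp : 0 < p.re) (hq : 0 < q.re) :
    Integrable (fun y : ℝ => (p - (y : ℂ) * Complex.I)⁻¹ * (q + (y : ℂ) * Complex.I)⁻¹) := by
  have h1 := sq_int hq
  have h2 := (sq_int (q := (starRingEnd ℂ) p) (by simpa using hp))
  refine (h1.add h2).mono' ?_ (Filter.Eventually.of_forall (fun y => ?_))
  · apply Continuous.aestronglyMeasurable
    apply Continuous.mul
    · apply Continuous.inv₀ (by fun_prop)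
      exact fun y => ne_zero_sub hp y
    · apply Continuous.inv₀ (by fun_prop)
      exact fun y => ne_zero_add hq y
  · have e : ‖(p - (y : ℂ) * Complex.I)⁻¹‖ = ‖((starRingEnd ℂ) p + (y : ℂ) * Complex.I)⁻¹‖ := by
      rw [norm_inv, norm_inv, ← RCLike.norm_conj (p - (y : ℂ) * Complex.I)]
      simp
    rw [norm_mul, e]
    simp only [Pi.add_apply]
    nlinarith [sq_nonneg (‖((starRingEnd ℂ) p + (y : ℂ) * Complex.I)⁻¹‖ - ‖(q + (y : ℂ) * Complex.I)⁻¹‖),
      sq_nonneg ‖((starRingEnd ℂ) p + (y : ℂ) * Complex.I)⁻¹‖, sq_nonneg ‖(q + (y : ℂ) * Complex.I)⁻¹‖]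

theorem log_lim {p q : ℂ} :
    Tendsto (fun y : ℝ => Complex.log (p - (y : ℂ) * Complex.I) - Complex.log (q + (y : ℂ) * Complex.I))
      atTop (𝓝 (-(Real.pi : ℂ) * Complex.I)) := by
  have h1 : Tendsto (fun y : ℝ => Complex.log (p * (y : ℂ)⁻¹ - Complex.I) -
      Complex.log (q * (y : ℂ)⁻¹ + Complex.I)) atTop (𝓝 (Complex.log (p * 0 - Complex.I) -
      Complex.log (q * 0 + Complex.I))) := by
    have hinv : Tendsto (fun y : ℝ => (y : ℂ)⁻¹) atTop (𝓝 0) := by
      have : Tendsto (fun y : ℝ => ((y⁻¹ : ℝ) : ℂ)) atTop (𝓝 ((0 : ℝ) : ℂ)) :=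
        (Complex.continuous_ofReal.tendsto 0).comp tendsto_inv_atTop_zero
      simpa using this
    apply Tendsto.sub
    · apply Tendsto.clog
      · exact (hinv.const_mul p).sub_const _
      · right; simp
    · apply Tendsto.clog
      · exact (hinv.const_mul q).add_const _
      · right; simp
  have e1 : Complex.log (p * 0 - Complex.I) - Complex.log (q * 0 + Complex.I) = -(Real.pi : ℂ) * Complex.I := by
    rw [mul_zero, mul_zero, zero_sub, zero_add, Complex.log_neg_I, Complex.log_I]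
    ring
  rw [e1] at h1
  refine h1.congr' ?_
  have hinv' : Tendsto (fun y : ℝ => (y : ℂ)⁻¹) atTop (𝓝 0) := by
    have : Tendsto (fun y : ℝ => ((y⁻¹ : ℝ) : ℂ)) atTop (𝓝 ((0 : ℝ) : ℂ)) :=
      (Complex.continuous_ofReal.tendsto 0).comp tendsto_inv_atTop_zero
    simpa using this
  have n1 : ∀ᶠ y : ℝ in atTop, p * (y : ℂ)⁻¹ - Complex.I ≠ 0 := by
    have : Tendsto (fun y : ℝ => p * (y : ℂ)⁻¹ - Complex.I) atTop (𝓝 (p * 0 - Complex.I)) :=
      (hinv'.const_mul p).sub_const _
    exact this.eventually_ne (by simp)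
  have n2 : ∀ᶠ y : ℝ in atTop, q * (y : ℂ)⁻¹ + Complex.I ≠ 0 := by
    have : Tendsto (fun y : ℝ => q * (y : ℂ)⁻¹ + Complex.I) atTop (𝓝 (q * 0 + Complex.I)) :=
      (hinv'.const_mul q).add_const _
    exact this.eventually_ne (by simp)
  filter_upwards [Filter.eventually_gt_atTop 0, n1, n2] with y hy hy1 hy2
  have hy' : (y : ℂ) ≠ 0 := by exact_mod_cast hy.ne'
  have e2 : p - (y : ℂ) * Complex.I = (y : ℂ) * (p * (y : ℂ)⁻¹ - Complex.I) := by
    field_simp
  have e3 : q + (y : ℂ) * Complex.I = (y : ℂ) * (q * (y : ℂ)⁻¹ + Complex.I) := by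
    field_simp
  rw [e2, e3, Complex.log_ofReal_mul hy hy1, Complex.log_ofReal_mul hy hy2]
  ring

theorem kint {p q : ℂ} (hp : 0 < p.re) (hq : 0 < q.re) :
    ∫ y : ℝ, (p - (y : ℂ) * Complex.I)⁻¹ * (q + (y : ℂ) * Complex.I)⁻¹ = 2 * (Real.pi : ℂ) / (p + q) := by
  have hpq : p + q ≠ 0 := by
    intro h
    have := congrArg Complex.re h
    simp at this
    linarith
  set A : ℝ → ℂ := fun y => (Complex.I / (p + q)) *
    (Complex.log (p - (y : ℂ) * Complex.I) - Complex.log (q + (y : ℂ) * Complex.I)) with hA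
  have hderiv : ∀ y : ℝ, HasDerivAt A ((p - (y : ℂ) * Complex.I)⁻¹ * (q + (y : ℂ) * Complex.I)⁻¹) y := by
    intro y
    have s1 : p - (y : ℂ) * Complex.I ∈ Complex.slitPlane := by
      left; simp; exact hp
    have s2 : q + (y : ℂ) * Complex.I ∈ Complex.slitPlane := by
      left; simp; exact hq
    have d0 : HasDerivAt (fun y : ℝ => (y : ℂ) * Complex.I) Complex.I y := by
      have := (Complex.ofRealCLM.hasDerivAt (x := y)).mul_const Complex.I
      simpa using this
    have d1 : HasDerivAt (fun y : ℝ => p - (y : ℂ) * Complex.I) (-Complex.I) y := by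
      simpa using d0.const_sub p
    have d2 : HasDerivAt (fun y : ℝ => q + (y : ℂ) * Complex.I) (Complex.I) y := by
      simpa using d0.const_add q
    have d3 := ((d1.clog_real s1).sub (d2.clog_real s2)).const_mul (Complex.I / (p + q))
    have m1 := ne_zero_sub hp y
    have m2 := ne_zero_add hq y
    have e : (p - (y : ℂ) * Complex.I)⁻¹ * (q + (y : ℂ) * Complex.I)⁻¹ =
        Complex.I / (p + q) * (-Complex.I / (p - (y : ℂ) * Complex.I) - Complex.I / (q + (y : ℂ) * Complex.I)) := by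
      field_simp
      rw [Complex.I_sq]
      ring
    rw [e]
    exact d3
  have l1 : Tendsto A atTop (𝓝 ((Complex.I / (p + q)) * (-(Real.pi : ℂ) * Complex.I))) :=
    log_lim.const_mul _
  have l2 : Tendsto A atBot (𝓝 ((Complex.I / (p + q)) * ((Real.pi : ℂ) * Complex.I))) := by
    apply Tendsto.const_mul
    have h := (log_lim (p := q) (q := p)).neg.comp tendsto_neg_atBot_atTop
    have e : -(-(Real.pi : ℂ) * Complex.I) = (Real.pi : ℂ) * Complex.I := by ring
    rw [e] at h
    refine h.congr (fun y => ?_)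
    simp
    ring_nf
  have := integral_of_hasDerivAt_of_tendsto hderiv (prod_int hp hq) l2 l1
  rw [this]
  field_simp
  rw [Complex.I_sq]
  ring

end Pool.Agent.H1.NormComp
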