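import Pool.Agent.H1.NormA
import Pool.Agent.H1.NormB

set_option autoImplicit false
set_option linter.all false

namespace Pool.Agent.H1.NormComp

open MeasureTheory Complex Filter Topology Set

/-- the vector of a square integrable function -/
noncomputable def vec (f : ℝ → ℂ) : Lp ℂ 2 (volume : Measure ℝ) :=
  open Classical in if h : MemLp f 2 volume then h.toLp f else 0

theorem vec_eq {f : ℝ → ℂ} (h : MemLp f 2 volume) : vec f = h.toLp f := by
  unfold vec; rw [dif_pos h]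

theorem vec_comb {f g : ℝ → ℂ} (hf : MemLp f 2 volume) (hg : MemLp g 2 volume) (c : ℂ) :
    vec (fun y => f y + c * g y) = vec f + c • vec g := by
  have h : MemLp (fun y => f y + c * g y) 2 volume := hf.add (hg.const_mul c)
  rw [vec_eq h, vec_eq hf, vec_eq hg]
  rfl

theorem vec_inner {f g : ℝ → ℂ} (hf : MemLp f 2 volume) (hg : MemLp g 2 volume) :
    inner ℂ (vec f) (vec g) = ∫ y, (starRingEnd ℂ) (f y) * g y := by
  rw [vec_eq hf, vec_eq hg, L2.inner_def]
  refine integral_congr_ae ?_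
  filter_upwards [hf.coeFn_toLp, hg.coeFn_toLp] with y h1 h2
  rw [h1, h2]
  simp [mul_comm]

theorem vec_norm {f : ℝ → ℂ} (hf : MemLp f 2 volume) :
    ENNReal.ofReal (‖vec f‖ ^ 2) = ∫⁻ y, (‖f y‖₊ : ENNReal) ^ 2 := by
  have h1 : (‖vec f‖ ^ 2 : ℝ) = ∫ y, ‖f y‖ ^ 2 := by
    have := inner_self_eq_norm_sq_to_K (𝕜 := ℂ) (vec f)
    rw [vec_inner hf hf] at this
    have h2 : (∫ y, (starRingEnd ℂ) (f y) * f y) = ((∫ y, ‖f y‖ ^ 2 : ℝ) : ℂ) := by
      rw [← integral_complex_ofReal]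
      refine integral_congr_ae (Filter.Eventually.of_forall (fun y => ?_))
      simp only
      rw [mul_comm, Complex.mul_conj, Complex.normSq_eq_norm_sq]
    rw [h2] at this
    have h3 : (((∫ y, ‖f y‖ ^ 2 : ℝ)) : ℂ) = ((‖vec f‖ ^ 2 : ℝ) : ℂ) := by
      rw [this]
      push_cast
      rfl
    exact (Complex.ofReal_injective h3).symm
  rw [h1]
  have hint : Integrable (fun y => ‖f y‖ ^ 2) := (memLp_two_iff_integrable_sq_norm hf.1).1 hf
  rw [ofReal_integral_eq_lintegral_ofReal hint (Filter.Eventually.of_forall (fun y => by positivity))]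
  refine lintegral_congr (fun y => ?_)
  rw [ENNReal.ofReal_pow (norm_nonneg _), nn]

/-- the level function -/
def lev (F : ℂ → ℂ) (x : ℝ) : ℝ → ℂ := fun y => F ((x : ℂ) + (y : ℂ) * Complex.I)

theorem memLp_of_q {F : ℂ → ℂ} (hF : ContinuousOn F HP) {x : ℝ} (hx : 0 < x) (h : q F x < ⊤) :
    MemLp (lev F x) 2 volume := by
  refine ⟨(cont_line hF hx).aestronglyMeasurable, ?_⟩
  rw [eLpNorm_lt_top_iff_lintegral_rpow_enorm_lt_top (by norm_num) (by norm_num)]
  refine lt_of_eq_of_lt ?_ h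
  unfold q
  refine lintegral_congr (fun y => ?_)
  simp only [ENNReal.toReal_ofNat, ENNReal.rpow_two]
  rfl

theorem q_eq {F : ℂ → ℂ} {x : ℝ} (h : MemLp (lev F x) 2 volume) :
    q F x = ENNReal.ofReal (‖vec (lev F x)‖ ^ 2) := by
  rw [vec_norm h]; rfl

theorem q_toReal {F : ℂ → ℂ} {x : ℝ} (h : MemLp (lev F x) 2 volume) :
    (q F x).toReal = ‖vec (lev F x)‖ ^ 2 := by
  rw [q_eq h, ENNReal.toReal_ofReal (by positivity)]

/-- the limit of the level norms is their supremum -/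
theorem sup_lim {F : ℂ → ℂ} {M : ℝ} (hF : DifferentiableOn ℂ F HP)
    (hM : ∀ z ∈ HP, ‖F z‖ ≤ M) (hfin : (⨆ (x : ℝ) (_ : 0 < x), q F x) < ⊤) :
    Tendsto (fun x => (q F x).toReal) (𝓝[>] 0) (𝓝 (⨆ (x : ℝ) (_ : 0 < x), q F x).toReal) := by
  have h : Tendsto (fun x => q F x) (𝓝[>] 0) (𝓝 (⨆ (x : ℝ) (_ : 0 < x), q F x)) := by
    rw [tendsto_order]
    constructor
    · intro b hb
      obtain ⟨x0, hx0⟩ := lt_iSup_iff.1 hb
      obtain ⟨hx0', hb'⟩ := lt_iSup_iff.1 hx0
      filter_upwards [Ioo_mem_nhdsGT hx0'] with x hx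
      exact hb'.trans_le (mono hF hM hx.1 hx.2)
    · intro b hb
      filter_upwards [self_mem_nhdsWithin] with x hx
      exact (le_iSup₂ (f := fun (x : ℝ) (_ : 0 < x) => q F x) x hx).trans_lt hb
  exact (ENNReal.tendsto_toReal hfin.ne).comp h

end Pool.Agent.H1.NormComp
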