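import Pool.Agent.H1.NormC

set_option autoImplicit false
set_option linter.all false

namespace Pool.Agent.H1.NormComp

open MeasureTheory Complex Filter Topology Set

/-- kernel composed with `ψ` -/
noncomputable def ker (ψ : ℂ → ℂ) (s : ℂ) : ℂ → ℂ := fun z => (ψ z + (starRingEnd ℂ) s)⁻¹

theorem den_re {w s : ℂ} (hw : w ∈ HP) (hs : s ∈ HP) : s.re ≤ ‖w + (starRingEnd ℂ) s‖ := by
  have h1 := Complex.re_le_norm (w + (starRingEnd ℂ) s)
  rw [Complex.add_re, Complex.conj_re] at h1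
  have := mem_HP.1 hw
  linarith

theorem den_ne {w s : ℂ} (hw : w ∈ HP) (hs : s ∈ HP) : w + (starRingEnd ℂ) s ≠ 0 := by
  intro h
  have := den_re hw hs
  rw [h, norm_zero] at this
  have h2 := mem_HP.1 hs
  linarith

theorem ker_diff {ψ : ℂ → ℂ} (hd : DifferentiableOn ℂ ψ HP) (hm : MapsTo ψ HP HP) {s : ℂ}
    (hs : s ∈ HP) : DifferentiableOn ℂ (ker ψ s) HP := by
  unfold ker
  apply DifferentiableOn.inv
  · exact hd.add_const _
  · intro z hz
    exact den_ne (hm hz) hs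

theorem ker_bdd {ψ : ℂ → ℂ} (hm : MapsTo ψ HP HP) {s : ℂ}
    (hs : s ∈ HP) : ∀ z ∈ HP, ‖ker ψ s z‖ ≤ (s.re)⁻¹ := by
  intro z hz
  unfold ker
  rw [norm_inv]
  exact inv_anti₀ (mem_HP.1 hs) (den_re (hm hz) hs)

/-- two-term combination -/
noncomputable def KF (ψ : ℂ → ℂ) (a b c : ℂ) : ℂ → ℂ := fun z => ker ψ a z + c * ker ψ b z

theorem KF_diff {ψ : ℂ → ℂ} (hd : DifferentiableOn ℂ ψ HP) (hm : MapsTo ψ HP HP) {a b : ℂ}
    (ha : a ∈ HP) (hb : b ∈ HP) (c : ℂ) : DifferentiableOn ℂ (KF ψ a b c) HP :=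
  (ker_diff hd hm ha).add ((ker_diff hd hm hb).const_mul c)

theorem KF_bdd {ψ : ℂ → ℂ} (hm : MapsTo ψ HP HP) {a b : ℂ}
    (ha : a ∈ HP) (hb : b ∈ HP) (c : ℂ) : ∀ z ∈ HP, ‖KF ψ a b c z‖ ≤ (a.re)⁻¹ + ‖c‖ * (b.re)⁻¹ := by
  intro z hz
  unfold KF
  refine (norm_add_le _ _).trans (add_le_add (ker_bdd hm ha z hz) ?_)
  rw [norm_mul]
  exact mul_le_mul_of_nonneg_left (ker_bdd hm hb z hz) (norm_nonneg _)

theorem lev_ker_id (s : ℂ) (x : ℝ) : lev (ker id s) x =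
    fun y : ℝ => (((x : ℂ) + (starRingEnd ℂ) s) + (y : ℂ) * Complex.I)⁻¹ := by
  funext y
  unfold lev ker
  simp only [id]
  congr 1
  ring

theorem memLp_id {s : ℂ} (hs : s ∈ HP) {x : ℝ} (hx : 0 < x) : MemLp (lev (ker id s) x) 2 volume := by
  rw [lev_ker_id]
  apply memLp_k
  rw [Complex.add_re, Complex.conj_re, Complex.ofReal_re]
  have := mem_HP.1 hs
  linarith

theorem inner_id {s t : ℂ} (hs : s ∈ HP) (ht : t ∈ HP) {x : ℝ} (hx : 0 < x) :
    inner ℂ (vec (lev (ker id s) x)) (vec (lev (ker id t) x)) =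
      2 * (Real.pi : ℂ) / (2 * (x : ℂ) + s + (starRingEnd ℂ) t) := by
  rw [vec_inner (memLp_id hs hx) (memLp_id ht hx), lev_ker_id, lev_ker_id]
  have h1 : 0 < ((x : ℂ) + s).re := by
    rw [Complex.add_re, Complex.ofReal_re]
    have := mem_HP.1 hs
    linarith
  have h2 : 0 < ((x : ℂ) + (starRingEnd ℂ) t).re := by
    rw [Complex.add_re, Complex.conj_re, Complex.ofReal_re]
    have := mem_HP.1 ht
    linarith
  have := kint h1 h2
  have e : (2 * (x : ℂ) + s + (starRingEnd ℂ) t) = ((x : ℂ) + s) + ((x : ℂ) + (starRingEnd ℂ) t) := by ring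
  rw [e, ← this]
  refine integral_congr_ae (Filter.Eventually.of_forall (fun y => ?_))
  simp only
  congr 1
  rw [map_inv₀, map_add, map_add, map_mul, Complex.conj_ofReal, Complex.conj_ofReal, Complex.conj_conj,
    Complex.conj_I]
  congr 1
  ring

theorem norm_id {s : ℂ} (hs : s ∈ HP) {x : ℝ} (hx : 0 < x) :
    ‖vec (lev (ker id s) x)‖ ^ 2 = Real.pi / (x + s.re) := by
  have h := inner_id hs hs hx
  rw [inner_self_eq_norm_sq_to_K] at h
  have hs' := mem_HP.1 hs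
  have h3 : ((‖vec (lev (ker id s) x)‖ ^ 2 : ℝ) : ℂ) = ((Real.pi / (x + s.re) : ℝ) : ℂ) := by
    have e : (2 * (x : ℂ) + s + (starRingEnd ℂ) s) = 2 * ((x + s.re : ℝ) : ℂ) := by
      rw [add_assoc, Complex.add_conj]
      push_cast
      ring
    rw [e] at h
    push_cast at h ⊢
    refine Eq.trans h ?_
    have h4 : ((x : ℂ) + (s.re : ℂ)) ≠ 0 := by
      have : x + s.re ≠ 0 := by linarith
      exact_mod_cast this
    field_simp
  exact Complex.ofReal_injective h3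

theorem norm_id_le {s : ℂ} (hs : s ∈ HP) {x : ℝ} (hx : 0 < x) :
    ‖vec (lev (ker id s) x)‖ ≤ Real.sqrt (Real.pi / s.re) := by
  apply Real.le_sqrt_of_sq_le
  rw [norm_id hs hx]
  have hs' := mem_HP.1 hs
  apply div_le_div_of_nonneg_left Real.pi_pos.le hs'
  linarith

theorem lev_KF (ψ : ℂ → ℂ) (a b c : ℂ) (x : ℝ) :
    lev (KF ψ a b c) x = fun y => lev (ker ψ a) x y + c * lev (ker ψ b) x y := rfl

theorem id_maps : MapsTo (id : ℂ → ℂ) HP HP := fun z hz => hz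

theorem fin_id {s t : ℂ} (hs : s ∈ HP) (ht : t ∈ HP) (c : ℂ) :
    (⨆ (x : ℝ) (_ : 0 < x), q (KF id s t c) x) < ⊤ := by
  have : (⨆ (x : ℝ) (_ : 0 < x), q (KF id s t c) x) ≤
      ENNReal.ofReal ((Real.sqrt (Real.pi / s.re) + ‖c‖ * Real.sqrt (Real.pi / t.re)) ^ 2) := by
    refine iSup₂_le (fun x hx => ?_)
    have hmem : MemLp (lev (KF id s t c) x) 2 volume := by
      rw [lev_KF]
      exact (memLp_id hs hx).add ((memLp_id ht hx).const_mul c)
    rw [q_eq hmem, lev_KF, vec_comb (memLp_id hs hx) (memLp_id ht hx)]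
    apply ENNReal.ofReal_le_ofReal
    gcongr
    refine (norm_add_le _ _).trans (add_le_add (norm_id_le hs hx) ?_)
    rw [norm_smul]
    exact mul_le_mul_of_nonneg_left (norm_id_le ht hx) (norm_nonneg _)
  exact this.trans_lt ENNReal.ofReal_lt_top

section Main

variable {φ : ℂ → ℂ}

/-- the normality hypothesis -/
def HN (φ : ℂ → ℂ) : Prop := ∀ (a b c : ℂ), a ∈ HP → b ∈ HP →
  (⨆ (x : ℝ) (_ : 0 < x), q (KF φ a b c) x) = ⨆ (x : ℝ) (_ : 0 < x), q (KF id (φ a) (φ b) c) x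

theorem memLp_KF (hd : DifferentiableOn ℂ φ HP) (hm : MapsTo φ HP HP) (hn : HN φ) {a b : ℂ} (c : ℂ)
    (ha : a ∈ HP) (hb : b ∈ HP) {x : ℝ} (hx : 0 < x) : MemLp (lev (KF φ a b c) x) 2 volume := by
  apply memLp_of_q (KF_diff hd hm ha hb c).continuousOn hx
  have h1 : q (KF φ a b c) x ≤ (⨆ (x : ℝ) (_ : 0 < x), q (KF φ a b c) x) :=
    le_iSup₂ (f := fun (x : ℝ) (_ : 0 < x) => q (KF φ a b c) x) x hx
  rw [hn a b c ha hb] at h1
  exact h1.trans_lt (fin_id (hm ha) (hm hb) c)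

theorem memLp_ker (hd : DifferentiableOn ℂ φ HP) (hm : MapsTo φ HP HP) (hn : HN φ) {a : ℂ}
    (ha : a ∈ HP) {x : ℝ} (hx : 0 < x) : MemLp (lev (ker φ a) x) 2 volume := by
  have h := memLp_KF hd hm hn 0 ha ha hx
  have e : lev (KF φ a a 0) x = lev (ker φ a) x := by
    funext y
    rw [lev_KF]
    simp
  rwa [e] at h

theorem norm_lim (hd : DifferentiableOn ℂ φ HP) (hm : MapsTo φ HP HP) (hn : HN φ) {a b : ℂ} (c : ℂ)
    (ha : a ∈ HP) (hb : b ∈ HP) :
    Tendsto (fun x : ℝ => ‖vec (lev (ker φ a) x) + c • vec (lev (ker φ b) x)‖ ^ 2 -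
      ‖vec (lev (ker id (φ a)) x) + c • vec (lev (ker id (φ b)) x)‖ ^ 2) (𝓝[>] 0) (𝓝 0) := by
  have h1 := sup_lim (KF_diff hd hm ha hb c) (KF_bdd hm ha hb c)
    (by rw [hn a b c ha hb]; exact fin_id (hm ha) (hm hb) c)
  have h2 := sup_lim (KF_diff differentiableOn_id id_maps (hm ha) (hm hb) c)
    (KF_bdd id_maps (hm ha) (hm hb) c) (fin_id (hm ha) (hm hb) c)
  rw [hn a b c ha hb] at h1
  have h3 := h1.sub h2
  rw [sub_self] at h3
  refine h3.congr' ?_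
  filter_upwards [self_mem_nhdsWithin] with x hx
  have hx' : 0 < x := hx
  rw [q_toReal (memLp_KF hd hm hn c ha hb hx')]
  have hmem : MemLp (lev (KF id (φ a) (φ b) c) x) 2 volume := by
    rw [lev_KF]
    exact (memLp_id (hm ha) hx').add ((memLp_id (hm hb) hx').const_mul c)
  rw [q_toReal hmem, lev_KF, lev_KF, vec_comb (memLp_ker hd hm hn ha hx') (memLp_ker hd hm hn hb hx'),
    vec_comb (memLp_id (hm ha) hx') (memLp_id (hm hb) hx')]

theorem inner_lim (hd : DifferentiableOn ℂ φ HP) (hm : MapsTo φ HP HP) (hn : HN φ) {a b : ℂ}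
    (ha : a ∈ HP) (hb : b ∈ HP) :
    Tendsto (fun x : ℝ => inner ℂ (vec (lev (ker φ a) x)) (vec (lev (ker φ b) x))) (𝓝[>] 0)
      (𝓝 (2 * (Real.pi : ℂ) / (φ a + (starRingEnd ℂ) (φ b)))) := by
  have l1 := norm_lim hd hm hn 1 ha hb
  have l2 := norm_lim hd hm hn (-1) ha hb
  have l3 := norm_lim hd hm hn (-Complex.I) ha hb
  have l4 := norm_lim hd hm hn Complex.I ha hb
  have cast : ∀ {f : ℝ → ℝ}, Tendsto f (𝓝[>] 0) (𝓝 0) → Tendsto (fun x => ((f x : ℝ) : ℂ)) (𝓝[>] 0) (𝓝 0) := by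
    intro f hf
    have : Tendsto (fun x => ((f x : ℝ) : ℂ)) (𝓝[>] 0) (𝓝 ((0 : ℝ) : ℂ)) :=
      (Complex.continuous_ofReal.tendsto 0).comp hf
    simpa using this
  have l5 := (((cast l1).sub (cast l2)).add (((cast l3).sub (cast l4)).mul_const Complex.I)).div_const 4
  have l6 : Tendsto (fun x : ℝ => inner ℂ (vec (lev (ker φ a) x)) (vec (lev (ker φ b) x)) -
      inner ℂ (vec (lev (ker id (φ a)) x)) (vec (lev (ker id (φ b)) x))) (𝓝[>] 0) (𝓝 0) := by
    have e0 : (((0 : ℂ) - 0 + (0 - 0) * Complex.I) / 4) = 0 := by simp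
    rw [e0] at l5
    refine l5.congr (fun x => ?_)
    rw [inner_eq_sum_norm_sq_div_four (vec (lev (ker φ a) x)), inner_eq_sum_norm_sq_div_four (vec (lev (ker id (φ a)) x))]
    simp only [one_smul, neg_smul, ← sub_eq_add_neg]
    push_cast
    have eI : (RCLike.I : ℂ) = Complex.I := rfl
    rw [eI]
    have ec : ∀ r : ℝ, ((RCLike.ofReal r : ℂ)) = (r : ℂ) := fun r => rfl
    simp only [ec]
    ring
  have l7 : Tendsto (fun x : ℝ => inner ℂ (vec (lev (ker id (φ a)) x)) (vec (lev (ker id (φ b)) x))) (𝓝[>] 0)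
      (𝓝 (2 * (Real.pi : ℂ) / (φ a + (starRingEnd ℂ) (φ b)))) := by
    have hne : φ a + (starRingEnd ℂ) (φ b) ≠ 0 := den_ne (hm ha) (hm hb)
    have h8 : Tendsto (fun x : ℝ => 2 * (Real.pi : ℂ) / (2 * (x : ℂ) + φ a + (starRingEnd ℂ) (φ b))) (𝓝[>] 0)
        (𝓝 (2 * (Real.pi : ℂ) / (2 * ((0 : ℝ) : ℂ) + φ a + (starRingEnd ℂ) (φ b)))) := by
      apply Tendsto.div tendsto_const_nhds
      · apply Tendsto.add_const
        apply Tendsto.add_const
        apply Tendsto.const_mul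
        exact (Complex.continuous_ofReal.tendsto 0).mono_left nhdsWithin_le_nhds
      · simpa using hne
    have e9 : (2 * ((0 : ℝ) : ℂ) + φ a + (starRingEnd ℂ) (φ b)) = φ a + (starRingEnd ℂ) (φ b) := by simp
    rw [e9] at h8
    refine h8.congr' ?_
    filter_upwards [self_mem_nhdsWithin] with x hx
    exact (inner_id (hm ha) (hm hb) hx).symm
  have l10 := l6.add l7
  rw [zero_add] at l10
  refine l10.congr (fun x => ?_)
  ring

end Main

end Pool.Agent.H1.NormComp
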