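import Pool.Agent.H1.NormD

set_option autoImplicit false
set_option linter.all false

namespace Pool.Agent.H1.NormComp

open MeasureTheory Complex Filter Topology Set

theorem vec_zero : vec (fun _ => 0) = 0 := by
  have h : MemLp (fun _ : ℝ => (0 : ℂ)) 2 volume := MemLp.zero'
  rw [vec_eq h]
  rfl

theorem memLp_sum {ι : Type} (s : Finset ι) (c : ι → ℂ) (k : ι → ℝ → ℂ)
    (hk : ∀ i, MemLp (k i) 2 volume) : MemLp (fun y => ∑ i ∈ s, c i * k i y) 2 volume := by
  apply memLp_finset_sum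
  intro i _
  exact (hk i).const_mul (c i)

theorem vec_sum {ι : Type} (s : Finset ι) (c : ι → ℂ) (k : ι → ℝ → ℂ)
    (hk : ∀ i, MemLp (k i) 2 volume) :
    vec (fun y => ∑ i ∈ s, c i * k i y) = ∑ i ∈ s, c i • vec (k i) := by
  classical
  induction s using Finset.induction_on with
  | empty => simpa using vec_zero
  | insert a s ha ih =>
    simp only [Finset.sum_insert ha]
    rw [← ih, add_comm]
    rw [← vec_comb (memLp_sum s c k hk) (hk a) (c a)]
    congr 1
    funext y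
    ring

/-- the limit Gram form -/
noncomputable def gr (s t : ℂ) : ℂ := 2 * (Real.pi : ℂ) / (s + (starRingEnd ℂ) t)

noncomputable def BB {ι : Type} [Fintype ι] (s : ι → ℂ) (c c' : ι → ℂ) : ℂ :=
  ∑ i, ∑ j, (starRingEnd ℂ) (c i) * c' j * gr (s i) (s j)

variable {φ : ℂ → ℂ}

theorem comb_lim (hd : DifferentiableOn ℂ φ HP) (hm : MapsTo φ HP HP) (hn : HN φ)
    {ι : Type} [Fintype ι] (a : ι → ℂ) (ha : ∀ i, a i ∈ HP) (c c' : ι → ℂ) :
    Tendsto (fun x : ℝ => inner ℂ (∑ i, c i • vec (lev (ker φ (a i)) x))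
      (∑ i, c' i • vec (lev (ker φ (a i)) x))) (𝓝[>] 0) (𝓝 (BB (fun i => φ (a i)) c c')) := by
  have h : Tendsto (fun x : ℝ => ∑ i, ∑ j, (starRingEnd ℂ) (c i) * c' j *
      inner ℂ (vec (lev (ker φ (a i)) x)) (vec (lev (ker φ (a j)) x))) (𝓝[>] 0)
      (𝓝 (BB (fun i => φ (a i)) c c')) := by
    unfold BB
    apply tendsto_finset_sum
    intro i _
    apply tendsto_finset_sum
    intro j _
    exact (inner_lim hd hm hn (ha i) (ha j)).const_mul _
  refine h.congr (fun x => ?_)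
  rw [sum_inner]
  refine Finset.sum_congr rfl (fun i _ => ?_)
  rw [inner_sum]
  refine Finset.sum_congr rfl (fun j _ => ?_)
  rw [inner_smul_left, inner_smul_right]
  ring

/-- Cauchy-Schwarz at level `x` -/
theorem cs_level (hd : DifferentiableOn ℂ φ HP) (hm : MapsTo φ HP HP) (hn : HN φ)
    {ι : Type} [Fintype ι] (a : ι → ℂ) (ha : ∀ i, a i ∈ HP) (c e : ι → ℂ)
    (hc : ∑ i, c i = 0) (he : ∑ i, e i = 0) {x : ℝ} (hx : 0 < x) :
    ‖inner ℂ (∑ i, e i • vec (lev (ker φ (a i)) x))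
      (∑ i, (c i * (starRingEnd ℂ) (a i)) • vec (lev (ker φ (a i)) x))‖ ≤
    ‖∑ i, (e i * (starRingEnd ℂ) (a i)) • vec (lev (ker φ (a i)) x)‖ *
      ‖∑ i, c i • vec (lev (ker φ (a i)) x)‖ := by
  have hk : ∀ i, MemLp (lev (ker φ (a i)) x) 2 volume := fun i => memLp_ker hd hm hn (ha i) hx
  set k : ι → ℝ → ℂ := fun i => lev (ker φ (a i)) x with hkdef
  have hz : ∀ y : ℝ, ((x : ℂ) + (y : ℂ) * Complex.I) ∈ HP := by
    intro y
    rw [mem_HP, line_re]
    exact hx
  have key : ∀ (c : ι → ℂ), ∑ i, c i = 0 → ∀ y : ℝ,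
      φ ((x : ℂ) + (y : ℂ) * Complex.I) * ∑ i, c i * k i y =
        - ∑ i, (c i * (starRingEnd ℂ) (a i)) * k i y := by
    intro c hc y
    have h1 : ∀ i, φ ((x : ℂ) + (y : ℂ) * Complex.I) * (c i * k i y) =
        c i - (c i * (starRingEnd ℂ) (a i)) * k i y := by
      intro i
      have hne : φ ((x : ℂ) + (y : ℂ) * Complex.I) + (starRingEnd ℂ) (a i) ≠ 0 := den_ne (hm (hz y)) (ha i)
      rw [hkdef]
      simp only [lev, ker]
      field_simp
      ring
    rw [Finset.mul_sum, Finset.sum_congr rfl (fun i _ => h1 i), Finset.sum_sub_distrib, hc, zero_sub]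
  rw [← vec_sum _ _ _ hk, ← vec_sum _ _ _ hk, ← vec_sum _ _ _ hk, ← vec_sum _ _ _ hk]
  set f : ℝ → ℂ := fun y => ∑ i, e i * k i y with hf
  set w : ℝ → ℂ := fun y => ∑ i, (c i * (starRingEnd ℂ) (a i)) * k i y with hw
  set p : ℝ → ℂ := fun y => ∑ i, (e i * (starRingEnd ℂ) (a i)) * k i y with hp
  set h : ℝ → ℂ := fun y => ∑ i, c i * k i y with hh
  have mf : MemLp f 2 volume := memLp_sum _ _ _ hk
  have mw : MemLp w 2 volume := memLp_sum _ _ _ hk
  have mp : MemLp p 2 volume := memLp_sum _ _ _ hk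
  have mh : MemLp h 2 volume := memLp_sum _ _ _ hk
  set P : ℝ → ℂ := fun y => (starRingEnd ℂ) (φ ((x : ℂ) + (y : ℂ) * Complex.I)) * f y with hP
  have hnormP : ∀ y, ‖P y‖ = ‖p y‖ := by
    intro y
    rw [hP]
    simp only [norm_mul, RCLike.norm_conj]
    rw [← norm_mul, key e he y, norm_neg]
  have hφc : Continuous (fun y : ℝ => φ ((x : ℂ) + (y : ℂ) * Complex.I)) := cont_line hd.continuousOn hx
  have mP : MemLp P 2 volume := by
    refine MemLp.of_le mp ?_ (Filter.Eventually.of_forall (fun y => (hnormP y).le))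
    exact (Complex.continuous_conj.comp hφc).aestronglyMeasurable.mul mf.1
  have e1 : inner ℂ (vec f) (vec w) = - inner ℂ (vec P) (vec h) := by
    rw [vec_inner mf mw, vec_inner mP mh, ← integral_neg]
    refine integral_congr_ae (Filter.Eventually.of_forall (fun y => ?_))
    simp only
    have := key c hc y
    have h2 : w y = - (φ ((x : ℂ) + (y : ℂ) * Complex.I) * h y) := by
      rw [hw, hh]
      simp only
      rw [this, neg_neg]
    rw [h2, hP]
    simp only [map_mul, Complex.conj_conj]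
    ring
  have e2 : ‖vec P‖ = ‖vec p‖ := by
    have h1 := vec_norm mP
    have h2 := vec_norm mp
    have h3 : ∫⁻ y, (‖P y‖₊ : ENNReal) ^ 2 = ∫⁻ y, (‖p y‖₊ : ENNReal) ^ 2 := by
      refine lintegral_congr (fun y => ?_)
      rw [nn, nn, hnormP]
    rw [h3, ← h2] at h1
    have h4 := (ENNReal.ofReal_eq_ofReal_iff (by positivity) (by positivity)).1 h1
    exact (sq_eq_sq₀ (norm_nonneg _) (norm_nonneg _)).1 h4
  rw [e1, norm_neg, ← e2]
  exact norm_inner_le_norm _ _

/-- the limit inequality -/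
theorem cs_lim (hd : DifferentiableOn ℂ φ HP) (hm : MapsTo φ HP HP) (hn : HN φ)
    {ι : Type} [Fintype ι] (a : ι → ℂ) (ha : ∀ i, a i ∈ HP) (c e : ι → ℂ)
    (hc : ∑ i, c i = 0) (he : ∑ i, e i = 0) :
    ‖BB (fun i => φ (a i)) e (fun i => c i * (starRingEnd ℂ) (a i))‖ ^ 2 ≤
    (BB (fun i => φ (a i)) (fun i => e i * (starRingEnd ℂ) (a i)) (fun i => e i * (starRingEnd ℂ) (a i))).re *
      (BB (fun i => φ (a i)) c c).re := by
  have l1 := ((comb_lim hd hm hn a ha e (fun i => c i * (starRingEnd ℂ) (a i))).norm).pow 2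
  have l2 := (Complex.continuous_re.tendsto _).comp
    (comb_lim hd hm hn a ha (fun i => e i * (starRingEnd ℂ) (a i)) (fun i => e i * (starRingEnd ℂ) (a i)))
  have l3 := (Complex.continuous_re.tendsto _).comp (comb_lim hd hm hn a ha c c)
  refine le_of_tendsto_of_tendsto l1 (l2.mul l3) ?_
  filter_upwards [self_mem_nhdsWithin] with x hx
  have h := cs_level hd hm hn a ha c e hc he hx
  simp only [Function.comp_apply]
  have hre : ∀ v : Lp ℂ 2 (volume : Measure ℝ), (inner ℂ v v).re = ‖v‖ ^ 2 := by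
    intro v
    rw [inner_self_eq_norm_sq_to_K]
    norm_cast
  rw [hre, hre, ← mul_pow]
  exact pow_le_pow_left₀ (norm_nonneg _) h 2

theorem gram_nonneg (hd : DifferentiableOn ℂ φ HP) (hm : MapsTo φ HP HP) (hn : HN φ)
    {ι : Type} [Fintype ι] (a : ι → ℂ) (ha : ∀ i, a i ∈ HP) (c : ι → ℂ) :
    0 ≤ (BB (fun i => φ (a i)) c c).re := by
  have l3 := (Complex.continuous_re.tendsto _).comp (comb_lim hd hm hn a ha c c)
  refine ge_of_tendsto l3 ?_
  refine Filter.Eventually.of_forall (fun x => ?_)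
  simp only [Function.comp_apply]
  have hre : ∀ v : Lp ℂ 2 (volume : Measure ℝ), 0 ≤ (inner ℂ v v).re := by
    intro v
    have : (inner ℂ v v).re = ‖v‖ ^ 2 := by
      rw [inner_self_eq_norm_sq_to_K]
      norm_cast
    rw [this]
    positivity
  exact hre _

end Pool.Agent.H1.NormComp
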