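import Mathlib

set_option autoImplicit false
set_option linter.all false

namespace Pool.Agent.H1.NormComp

theorem real_argument {n h : ℝ} {E : ℂ} (hn : 0 ≤ n)
    (H : ∀ l : ℂ, ‖(n : ℂ) + l * E‖ ^ 2 ≤ n * (n + ‖l‖ ^ 2 * h)) : E = 0 := by
  by_contra hE
  have hE' : 0 < ‖E‖ := norm_pos_iff.2 hE
  rcases hn.eq_or_lt with h0 | h0
  · have := H 1
    rw [← h0] at this
    simp at this
    exact hE this
  · set ε : ℝ := 1 / (|h| + 1) with hε
    have hε0 : 0 < ε := by positivity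
    have h1 := H ((ε : ℂ) * (starRingEnd ℂ) E)
    have e1 : (n : ℂ) + (ε : ℂ) * (starRingEnd ℂ) E * E = ((n + ε * ‖E‖ ^ 2 : ℝ) : ℂ) := by
      rw [mul_assoc, mul_comm ((starRingEnd ℂ) E) E, Complex.mul_conj, Complex.normSq_eq_norm_sq]
      push_cast
      ring
    rw [e1, Complex.norm_real, Real.norm_of_nonneg (by positivity), norm_mul, Complex.norm_real,
      Real.norm_of_nonneg hε0.le, RCLike.norm_conj] at h1
    have h2 : ε * h ≤ 1 := by
      rw [hε, div_mul_eq_mul_div, one_mul]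
      rw [div_le_one (by positivity)]
      linarith [le_abs_self h]
    have h3 : n * (ε * h) ≤ n := by nlinarith
    have h4 : 0 < ε * ‖E‖ ^ 2 := by positivity
    have h5 : (n + ε * ‖E‖ ^ 2) ^ 2 = n ^ 2 + 2 * n * (ε * ‖E‖ ^ 2) + (ε * ‖E‖ ^ 2) ^ 2 := by ring
    have h6 : n * (n + (ε * ‖E‖) ^ 2 * h) = n ^ 2 + n * (ε * h) * (ε * ‖E‖ ^ 2) := by ring
    rw [h5, h6] at h1
    nlinarith [mul_le_mul_of_nonneg_right h3 h4.le, sq_nonneg (ε * ‖E‖ ^ 2), mul_pos h0 h4]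

theorem alg {P : ℂ} (hP : P ≠ 0) (hPc : (starRingEnd ℂ) P = P) {s1 s2 s3 a1 a2 a3 : ℂ} (h1 : 0 < s1.re) (h2 : 0 < s2.re) (h3 : 0 < s3.re)
    (h12 : s1 ≠ s2) (h13 : s1 ≠ s3) (h23 : s2 ≠ s3)
    (g : ℂ → ℂ → ℂ) (hg : ∀ s t, g s t = P / (s + (starRingEnd ℂ) t))
    (N : ℂ) (hN : N = a1 * (starRingEnd ℂ) a1 * g s1 s1 - a1 * (starRingEnd ℂ) a2 * g s1 s2
      - a2 * (starRingEnd ℂ) a1 * g s2 s1 + a2 * (starRingEnd ℂ) a2 * g s2 s2) (hN0 : 0 ≤ N.re)
    (H : ∀ d1 d2 d3 : ℂ, ‖d1 * (starRingEnd ℂ) a1 * (g s1 s1 - g s2 s1) + d2 * (starRingEnd ℂ) a2 * (g s1 s2 - g s2 s2)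
        + d3 * (starRingEnd ℂ) a3 * (g s1 s3 - g s2 s3)‖ ^ 2 ≤
      N.re * ((starRingEnd ℂ) d1 * (d1 * g s1 s1 + d2 * g s1 s2 + d3 * g s1 s3) +
        (starRingEnd ℂ) d2 * (d1 * g s2 s1 + d2 * g s2 s2 + d3 * g s2 s3) +
        (starRingEnd ℂ) d3 * (d1 * g s3 s1 + d2 * g s3 s2 + d3 * g s3 s3)).re) :
    a3 = a1 + (a2 - a1) / (s2 - s1) * (s3 - s1) := by
  have hne : ∀ s t : ℂ, 0 < s.re → 0 < t.re → s + (starRingEnd ℂ) t ≠ 0 := by
    intro s t hs ht h
    have := congrArg Complex.re h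
    simp at this
    linarith
  have gc : ∀ s t, (starRingEnd ℂ) (g s t) = g t s := by
    intro s t
    rw [hg, hg, map_div₀, map_add, Complex.conj_conj, hPc, add_comm]
  have n11 := hne s1 s1 h1 h1
  have n12 := hne s1 s2 h1 h2
  have n13 := hne s1 s3 h1 h3
  have n21 := hne s2 s1 h2 h1
  have n22 := hne s2 s2 h2 h2
  have n23 := hne s2 s3 h2 h3
  have n31 := hne s3 s1 h3 h1
  have n32 := hne s3 s2 h3 h2
  have n33 := hne s3 s3 h3 h3
  have hN' : (starRingEnd ℂ) N = N := by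
    rw [hN]
    simp only [map_add, map_sub, map_mul, gc, Complex.conj_conj]
    ring
  have hNre : N = ((N.re : ℝ) : ℂ) := (Complex.conj_eq_iff_re.1 hN').symm
  set t1 := (starRingEnd ℂ) s1 with ht1
  set t2 := (starRingEnd ℂ) s2 with ht2
  set t3 := (starRingEnd ℂ) s3 with ht3
  set b1 := (starRingEnd ℂ) a1 with hb1
  set b2 := (starRingEnd ℂ) a2 with hb2
  set b3 := (starRingEnd ℂ) a3 with hb3
  have m12 : t1 ≠ t2 := fun h => h12 ((starRingEnd ℂ).injective h)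
  have m13 : t1 ≠ t3 := fun h => h13 ((starRingEnd ℂ).injective h)
  have m23 : t2 ≠ t3 := fun h => h23 ((starRingEnd ℂ).injective h)
  have k12 : t1 - t2 ≠ 0 := sub_ne_zero.2 m12
  have k13 : t1 - t3 ≠ 0 := sub_ne_zero.2 m13
  have k23 : t2 - t3 ≠ 0 := sub_ne_zero.2 m23
  have k21 : t2 - t1 ≠ 0 := sub_ne_zero.2 m12.symm
  have k31 : t3 - t1 ≠ 0 := sub_ne_zero.2 m13.symm
  have k32 : t3 - t2 ≠ 0 := sub_ne_zero.2 m23.symm
  have l21 : s2 - s1 ≠ 0 := sub_ne_zero.2 h12.symm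
  set α : ℂ := (a2 - a1) / (s2 - s1) with hα
  have hα' : a2 = a1 + α * (s2 - s1) := by rw [hα]; field_simp; ring
  set β : ℂ := (b2 - b1) / (t2 - t1) with hβ
  have hβ' : b2 = b1 + β * (t2 - t1) := by rw [hβ]; field_simp; ring
  have hαβ : (starRingEnd ℂ) α = β := by
    rw [hα, hβ, map_div₀, map_sub, map_sub]
  set L1 : ℂ := a1 - α * (s1 + t1) with hL1
  set L2 : ℂ := a2 - α * (s2 + t2) with hL2
  set e1 : ℂ := (t1 + s1) * (t1 + s2) / ((t1 - t2) * (t1 - t3)) with he1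
  set e2 : ℂ := (t2 + s1) * (t2 + s2) / ((t2 - t1) * (t2 - t3)) with he2
  set e3 : ℂ := (t3 + s1) * (t3 + s2) / ((t3 - t1) * (t3 - t2)) with he3
  have he3' : e3 ≠ 0 := by
    rw [he3]
    apply div_ne_zero
    · apply mul_ne_zero
      · rw [add_comm]; exact n13
      · rw [add_comm]; exact n23
    · exact mul_ne_zero k31 k32
  have F1 : e1 * g s1 s1 + e2 * g s1 s2 + e3 * g s1 s3 = 0 := by
    rw [hg, hg, hg, he1, he2, he3, ← ht1, ← ht2, ← ht3]
    field_simp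
    ring
  have F2 : e1 * g s2 s1 + e2 * g s2 s2 + e3 * g s2 s3 = 0 := by
    rw [hg, hg, hg, he1, he2, he3, ← ht1, ← ht2, ← ht3]
    field_simp
    ring
  -- relations
  have r11 : (s1 + t1) * g s1 s1 = P := by rw [hg, ← ht1]; field_simp
  have r12 : (s1 + t2) * g s1 s2 = P := by rw [hg, ← ht2]; field_simp
  have r13 : (s1 + t3) * g s1 s3 = P := by rw [hg, ← ht3]; field_simp
  have r21 : (s2 + t1) * g s2 s1 = P := by rw [hg, ← ht1]; field_simp
  have r22 : (s2 + t2) * g s2 s2 = P := by rw [hg, ← ht2]; field_simp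
  have r23 : (s2 + t3) * g s2 s3 = P := by rw [hg, ← ht3]; field_simp
  have T1 : L1 * b1 * (g s1 s1 - g s2 s1) - L2 * b2 * (g s1 s2 - g s2 s2) = N := by
    rw [hN, hL1, hL2, hα']
    linear_combination (-(α * b1)) * r11 + (α * b1) * r21 + α * b2 * r12 - α * b2 * r22
  have U1 : L1 * g s1 s1 - L2 * g s1 s2 = a1 * (g s1 s1 - g s1 s2) := by
    rw [hL1, hL2, hα']
    linear_combination (-α) * r11 + α * r12
  have U2 : L1 * g s2 s1 - L2 * g s2 s2 = a2 * (g s2 s1 - g s2 s2) := by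
    rw [hL1, hL2, hα']
    linear_combination (-α) * r21 + α * r22
  set E : ℂ := e3 * (b3 - (b1 + β * (t3 - t1))) * (g s1 s3 - g s2 s3) with hE
  have TE : e1 * b1 * (g s1 s1 - g s2 s1) + e2 * b2 * (g s1 s2 - g s2 s2) + e3 * b3 * (g s1 s3 - g s2 s3) = E := by
    rw [hE, hβ']
    linear_combination (b1 - β * (t1 + s1)) * F1 - (b1 - β * (t1 + s2)) * F2 + β * e1 * r11 - β * e1 * r21
      + β * e2 * r12 - β * e2 * r22 + β * e3 * r13 - β * e3 * r23
  have hEz : E = 0 := by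
    refine real_argument (n := N.re) (h := ((starRingEnd ℂ) e3 * (e1 * g s3 s1 + e2 * g s3 s2 + e3 * g s3 s3)).re) hN0 ?_
    intro l
    have h := H (L1 + l * e1) (-L2 + l * e2) (l * e3)
    have q1 : (L1 + l * e1) * b1 * (g s1 s1 - g s2 s1) + (-L2 + l * e2) * b2 * (g s1 s2 - g s2 s2)
        + l * e3 * b3 * (g s1 s3 - g s2 s3) = N + l * E := by
      linear_combination T1 + l * TE
    have q2 : ((starRingEnd ℂ) (L1 + l * e1) * ((L1 + l * e1) * g s1 s1 + (-L2 + l * e2) * g s1 s2 + (l * e3) * g s1 s3) +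
        (starRingEnd ℂ) (-L2 + l * e2) * ((L1 + l * e1) * g s2 s1 + (-L2 + l * e2) * g s2 s2 + (l * e3) * g s2 s3) +
        (starRingEnd ℂ) (l * e3) * ((L1 + l * e1) * g s3 s1 + (-L2 + l * e2) * g s3 s2 + (l * e3) * g s3 s3)) =
        N + (l * (starRingEnd ℂ) l) * ((starRingEnd ℂ) e3 * (e1 * g s3 s1 + e2 * g s3 s2 + e3 * g s3 s3)) := by
      have F1c := congrArg (starRingEnd ℂ) F1
      have F2c := congrArg (starRingEnd ℂ) F2
      have T1c := congrArg (starRingEnd ℂ) T1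
      simp only [map_add, map_sub, map_mul, gc, map_zero, hN'] at F1c F2c T1c
      simp only [map_add, map_sub, map_mul, map_neg]
      have c1 : (starRingEnd ℂ) b1 = a1 := by rw [hb1, Complex.conj_conj]
      have c2 : (starRingEnd ℂ) b2 = a2 := by rw [hb2, Complex.conj_conj]
      rw [c1, c2] at T1c
      linear_combination (starRingEnd ℂ) L1 * U1 - (starRingEnd ℂ) L2 * U2 + T1c
        + (starRingEnd ℂ) L1 * l * F1 - (starRingEnd ℂ) L2 * l * F2
        + (starRingEnd ℂ) l * L1 * F1c - (starRingEnd ℂ) l * L2 * F2c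
        + (starRingEnd ℂ) l * l * (starRingEnd ℂ) e1 * F1 + (starRingEnd ℂ) l * l * (starRingEnd ℂ) e2 * F2
    rw [q1, q2] at h
    have q3 : (N + l * (starRingEnd ℂ) l * ((starRingEnd ℂ) e3 * (e1 * g s3 s1 + e2 * g s3 s2 + e3 * g s3 s3))).re =
        N.re + ‖l‖ ^ 2 * ((starRingEnd ℂ) e3 * (e1 * g s3 s1 + e2 * g s3 s2 + e3 * g s3 s3)).re := by
      rw [Complex.mul_conj, Complex.normSq_eq_norm_sq, Complex.add_re, Complex.re_ofReal_mul]
    rw [q3] at h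
    rwa [← hNre]
  rw [hE] at hEz
  have hg0 : g s1 s3 - g s2 s3 ≠ 0 := by
    rw [hg, hg, ← ht3]
    rw [div_sub_div _ _ n13 n23]
    apply div_ne_zero
    · have : P * (s2 + t3) - (s1 + t3) * P = P * (s2 - s1) := by ring
      rw [this]
      exact mul_ne_zero hP l21
    · exact mul_ne_zero n13 n23
  have hfin : b3 - (b1 + β * (t3 - t1)) = 0 := by
    rcases mul_eq_zero.1 hEz with h | h
    · rcases mul_eq_zero.1 h with h | h
      · exact absurd h he3'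
      · exact h
    · exact absurd h hg0
  have := congrArg (starRingEnd ℂ) (sub_eq_zero.1 hfin)
  rw [hb3, hb1, ht3, ht1, ← hαβ] at this
  simpa using this

end Pool.Agent.H1.NormComp
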