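import Pool.Agent.H1.NormE
import Pool.Agent.H1.NormG

set_option autoImplicit false
set_option linter.all false

namespace Pool.Agent.H1.NormComp

open MeasureTheory Complex Filter Topology Set

variable {φ : ℂ → ℂ}

/-- the boundedness hypothesis -/
def HB (φ : ℂ → ℂ) (C : NNReal) : Prop := ∀ f : ℂ → ℂ, DifferentiableOn ℂ f HP →
  (⨆ (x : ℝ) (_ : 0 < x), q f x) < ⊤ →
  (⨆ (x : ℝ) (_ : 0 < x), q (fun z => f (φ z)) x) ≤ (C : ENNReal) * ⨆ (x : ℝ) (_ : 0 < x), q f x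

theorem sup_ker_id {a : ℂ} (ha : a ∈ HP) :
    (⨆ (x : ℝ) (_ : 0 < x), q (ker id a) x) ≤ ENNReal.ofReal (Real.pi / a.re) := by
  refine iSup₂_le (fun x hx => ?_)
  rw [q_eq (memLp_id ha hx)]
  apply ENNReal.ofReal_le_ofReal
  rw [norm_id ha hx]
  have := mem_HP.1 ha
  apply div_le_div_of_nonneg_left Real.pi_pos.le this
  linarith

theorem re_bound (hd : DifferentiableOn ℂ φ HP) (hm : MapsTo φ HP HP) (hn : HN φ) {C : NNReal}
    (hb : HB φ C) {a : ℂ} (ha : a ∈ HP) : a.re ≤ (C : ℝ) * (φ a).re := by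
  have h1 := hb (ker id a) (ker_diff differentiableOn_id id_maps ha)
    ((sup_ker_id ha).trans_lt ENNReal.ofReal_lt_top)
  have h2 : (⨆ (x : ℝ) (_ : 0 < x), q (ker φ a) x) ≤ ENNReal.ofReal ((C : ℝ) * (Real.pi / a.re)) := by
    rw [ENNReal.ofReal_mul (by positivity), ENNReal.ofReal_coe_nnreal]
    exact h1.trans (mul_le_mul_right (sup_ker_id ha) _)
  have ha' := mem_HP.1 ha
  have hφ' := mem_HP.1 (hm ha)
  have h3 : ∀ x : ℝ, 0 < x → ‖vec (lev (ker φ a) x)‖ ^ 2 ≤ (C : ℝ) * (Real.pi / a.re) := by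
    intro x hx
    have h4 : q (ker φ a) x ≤ (⨆ (x : ℝ) (_ : 0 < x), q (ker φ a) x) :=
      le_iSup₂ (f := fun (x : ℝ) (_ : 0 < x) => q (ker φ a) x) x hx
    have h5 := h4.trans h2
    rw [q_eq (memLp_ker hd hm hn ha hx)] at h5
    exact (ENNReal.ofReal_le_ofReal_iff (by positivity)).1 h5
  have h6 := (Complex.continuous_re.tendsto _).comp (inner_lim hd hm hn ha ha)
  have h7 : (2 * (Real.pi : ℂ) / (φ a + (starRingEnd ℂ) (φ a))).re = Real.pi / (φ a).re := by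
    rw [Complex.add_conj]
    have : (2 * (Real.pi : ℂ) / ((2 * (φ a).re : ℝ) : ℂ)) = ((Real.pi / (φ a).re : ℝ) : ℂ) := by
      push_cast
      have : ((φ a).re : ℂ) ≠ 0 := by exact_mod_cast hφ'.ne'
      field_simp
    rw [this, Complex.ofReal_re]
  rw [h7] at h6
  have h8 : Real.pi / (φ a).re ≤ (C : ℝ) * (Real.pi / a.re) := by
    refine le_of_tendsto h6 ?_
    filter_upwards [self_mem_nhdsWithin] with x hx
    simp only [Function.comp_apply]
    have hre : ∀ v : Lp ℂ 2 (volume : Measure ℝ), (inner ℂ v v).re = ‖v‖ ^ 2 := by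
      intro v
      rw [inner_self_eq_norm_sq_to_K]
      norm_cast
    rw [hre]
    exact h3 x hx
  rw [div_le_iff₀ hφ'] at h8
  have h9 : Real.pi * a.re ≤ Real.pi * ((C : ℝ) * (φ a).re) := by
    calc Real.pi * a.re ≤ ((C : ℝ) * (Real.pi / a.re) * (φ a).re) * a.re :=
          mul_le_mul_of_nonneg_right h8 ha'.le
      _ = Real.pi * ((C : ℝ) * (φ a).re) := by field_simp
  exact le_of_mul_le_mul_left h9 Real.pi_pos

theorem C_pos (hd : DifferentiableOn ℂ φ HP) (hm : MapsTo φ HP HP) (hn : HN φ) {C : NNReal}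
    (hb : HB φ C) : 0 < (C : ℝ) := by
  have h1 : (1 : ℂ) ∈ HP := by simp [HP]
  have := re_bound hd hm hn hb h1
  have h2 := mem_HP.1 (hm h1)
  rw [Complex.one_re] at this
  by_contra hC
  push Not at hC
  nlinarith

theorem ofReal_mem {R : ℝ} (hR : 0 < R) : (R : ℂ) ∈ HP := by
  rw [mem_HP, Complex.ofReal_re]; exact hR

theorem den_lower (hd : DifferentiableOn ℂ φ HP) (hm : MapsTo φ HP HP) (hn : HN φ) {C : NNReal}
    (hb : HB φ C) {s : ℂ} (hs : s ∈ HP) {R : ℝ} (hR : 0 < R) :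
    R / C ≤ ‖s + (starRingEnd ℂ) (φ R)‖ := by
  have h1 := re_bound hd hm hn hb (ofReal_mem hR)
  have h2 := den_re hs (hm (ofReal_mem hR))
  rw [Complex.ofReal_re] at h1
  have hC := C_pos hd hm hn hb
  have : R / C ≤ (φ R).re := by
    rw [div_le_iff₀ hC]
    linarith
  exact this.trans h2

theorem gr_conj (s t : ℂ) : (starRingEnd ℂ) (gr s t) = gr t s := by
  unfold gr
  rw [map_div₀, map_mul, map_add, Complex.conj_conj, Complex.conj_ofReal, map_ofNat, add_comm]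

theorem gr_lim (hd : DifferentiableOn ℂ φ HP) (hm : MapsTo φ HP HP) (hn : HN φ) {C : NNReal}
    (hb : HB φ C) {s : ℝ → ℂ} (hs : ∀ R, 0 < R → s R ∈ HP) :
    Tendsto (fun R : ℝ => gr (s R) (φ R)) atTop (𝓝 0) := by
  have hC := C_pos hd hm hn hb
  have h0 : Tendsto (fun R : ℝ => (2 * Real.pi * C) / R) atTop (𝓝 0) := tendsto_const_nhds.div_atTop tendsto_id
  refine squeeze_zero_norm' ?_ h0
  filter_upwards [Filter.eventually_gt_atTop 0] with R hR
  unfold gr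
  rw [norm_div]
  have h1 := den_lower hd hm hn hb (hs R hR) hR
  have h2 : ‖(2 * (Real.pi : ℂ))‖ = 2 * Real.pi := by
    rw [norm_mul, Complex.norm_real, Real.norm_of_nonneg Real.pi_pos.le]
    simp
  rw [h2]
  have h3 : 0 < R / C := by positivity
  calc 2 * Real.pi / ‖s R + (starRingEnd ℂ) (φ R)‖ ≤ 2 * Real.pi / (R / C) := by
        apply div_le_div_of_nonneg_left (by positivity) h3 h1
    _ = 2 * Real.pi * C / R := by field_simp

theorem gr_lim2 (hd : DifferentiableOn ℂ φ HP) (hm : MapsTo φ HP HP) (hn : HN φ) {C : NNReal}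
    (hb : HB φ C) {s1 s2 : ℂ} (h1 : s1 ∈ HP) (h2 : s2 ∈ HP) :
    Tendsto (fun R : ℝ => (R : ℂ) * (gr s1 (φ R) - gr s2 (φ R))) atTop (𝓝 0) := by
  have hC := C_pos hd hm hn hb
  have h0 : Tendsto (fun R : ℝ => (2 * Real.pi * ‖s2 - s1‖ * C ^ 2) / R) atTop (𝓝 0) :=
    tendsto_const_nhds.div_atTop tendsto_id
  refine squeeze_zero_norm' ?_ h0
  filter_upwards [Filter.eventually_gt_atTop 0] with R hR
  have hφ := hm (ofReal_mem hR)
  have e : (R : ℂ) * (gr s1 (φ R) - gr s2 (φ R)) = (R : ℂ) * (2 * (Real.pi : ℂ)) * (s2 - s1) /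
      ((s1 + (starRingEnd ℂ) (φ R)) * (s2 + (starRingEnd ℂ) (φ R))) := by
    unfold gr
    have n1 := den_ne h1 hφ
    have n2 := den_ne h2 hφ
    field_simp
    ring
  rw [e, norm_div, norm_mul, norm_mul, norm_mul (s1 + _)]
  have l1 := den_lower hd hm hn hb h1 hR
  have l2 := den_lower hd hm hn hb h2 hR
  have h3 : ‖(2 * (Real.pi : ℂ))‖ = 2 * Real.pi := by
    rw [norm_mul, Complex.norm_real, Real.norm_of_nonneg Real.pi_pos.le]
    simp
  rw [h3, Complex.norm_real, Real.norm_of_nonneg hR.le]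
  have h4 : 0 < R / C := by positivity
  calc R * (2 * Real.pi) * ‖s2 - s1‖ / (‖s1 + (starRingEnd ℂ) (φ R)‖ * ‖s2 + (starRingEnd ℂ) (φ R)‖)
      ≤ R * (2 * Real.pi) * ‖s2 - s1‖ / ((R / C) * (R / C)) := by
        apply div_le_div_of_nonneg_left (by positivity) (by positivity)
        exact mul_le_mul l1 l2 h4.le (norm_nonneg _)
    _ = 2 * Real.pi * ‖s2 - s1‖ * C ^ 2 / R := by
        field_simp

/-- the three-point inequality -/
theorem three (hd : DifferentiableOn ℂ φ HP) (hm : MapsTo φ HP HP) (hn : HN φ) {C : NNReal}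
    (hb : HB φ C) {a1 a2 a3 : ℂ} (h1 : a1 ∈ HP) (h2 : a2 ∈ HP) (h3 : a3 ∈ HP) (d1 d2 d3 : ℂ) :
    ‖d1 * (starRingEnd ℂ) a1 * (gr (φ a1) (φ a1) - gr (φ a2) (φ a1))
      + d2 * (starRingEnd ℂ) a2 * (gr (φ a1) (φ a2) - gr (φ a2) (φ a2))
      + d3 * (starRingEnd ℂ) a3 * (gr (φ a1) (φ a3) - gr (φ a2) (φ a3))‖ ^ 2 ≤
      (a1 * (starRingEnd ℂ) a1 * gr (φ a1) (φ a1) - a1 * (starRingEnd ℂ) a2 * gr (φ a1) (φ a2)
      - a2 * (starRingEnd ℂ) a1 * gr (φ a2) (φ a1) + a2 * (starRingEnd ℂ) a2 * gr (φ a2) (φ a2)).re *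
      ((starRingEnd ℂ) d1 * (d1 * gr (φ a1) (φ a1) + d2 * gr (φ a1) (φ a2) + d3 * gr (φ a1) (φ a3)) +
        (starRingEnd ℂ) d2 * (d1 * gr (φ a2) (φ a1) + d2 * gr (φ a2) (φ a2) + d3 * gr (φ a2) (φ a3)) +
        (starRingEnd ℂ) d3 * (d1 * gr (φ a3) (φ a1) + d2 * gr (φ a3) (φ a2) + d3 * gr (φ a3) (φ a3))).re := by
  set D : ℂ := d1 + d2 + d3 with hD
  set T0 : ℂ := d1 * (starRingEnd ℂ) a1 * (gr (φ a1) (φ a1) - gr (φ a2) (φ a1))
      + d2 * (starRingEnd ℂ) a2 * (gr (φ a1) (φ a2) - gr (φ a2) (φ a2))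
      + d3 * (starRingEnd ℂ) a3 * (gr (φ a1) (φ a3) - gr (φ a2) (φ a3)) with hT0
  set N : ℂ := (a1 * (starRingEnd ℂ) a1 * gr (φ a1) (φ a1) - a1 * (starRingEnd ℂ) a2 * gr (φ a1) (φ a2)
      - a2 * (starRingEnd ℂ) a1 * gr (φ a2) (φ a1) + a2 * (starRingEnd ℂ) a2 * gr (φ a2) (φ a2)) with hN
  set H0 : ℂ := ((starRingEnd ℂ) d1 * (d1 * gr (φ a1) (φ a1) + d2 * gr (φ a1) (φ a2) + d3 * gr (φ a1) (φ a3)) +
        (starRingEnd ℂ) d2 * (d1 * gr (φ a2) (φ a1) + d2 * gr (φ a2) (φ a2) + d3 * gr (φ a2) (φ a3)) +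
        (starRingEnd ℂ) d3 * (d1 * gr (φ a3) (φ a1) + d2 * gr (φ a3) (φ a2) + d3 * gr (φ a3) (φ a3))) with hH0
  have hlev : ∀ R : ℝ, 0 < R →
      ‖T0 - D * ((R : ℂ) * (gr (φ a1) (φ R) - gr (φ a2) (φ R)))‖ ^ 2 ≤ N.re *
      (H0 - D * ((starRingEnd ℂ) d1 * gr (φ a1) (φ R) + (starRingEnd ℂ) d2 * gr (φ a2) (φ R)
        + (starRingEnd ℂ) d3 * gr (φ a3) (φ R))
        - (starRingEnd ℂ) D * (d1 * (starRingEnd ℂ) (gr (φ a1) (φ R)) + d2 * (starRingEnd ℂ) (gr (φ a2) (φ R))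
        + d3 * (starRingEnd ℂ) (gr (φ a3) (φ R))) + (starRingEnd ℂ) D * D * gr (φ R) (φ R)).re := by
    intro R hR
    have h := cs_lim hd hm hn (ι := Fin 4) ![a1, a2, a3, (R : ℂ)]
      (by
        intro i
        fin_cases i
        · exact h1
        · exact h2
        · exact h3
        · exact ofReal_mem hR)
      ![d1, d2, d3, -D] ![1, -1, 0, 0]
      (by simp [Fin.sum_univ_four, hD]) (by simp [Fin.sum_univ_four])
    unfold BB at h
    simp only [Fin.sum_univ_four, Matrix.cons_val_zero, Matrix.cons_val_one, Matrix.cons_val_two,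
      Matrix.cons_val_three, Matrix.head_cons, Matrix.tail_cons, Matrix.cons_val] at h
    simp only [map_mul, map_neg, map_one, map_zero, Complex.conj_conj, Complex.conj_ofReal,
      zero_mul, mul_zero, add_zero] at h
    have e1 : T0 - D * ((R : ℂ) * (gr (φ a1) (φ R) - gr (φ a2) (φ R))) =
      1 * (d1 * (starRingEnd ℂ) a1) * gr (φ a1) (φ a1) + 1 * (d2 * (starRingEnd ℂ) a2) * gr (φ a1) (φ a2) +
          1 * (d3 * (starRingEnd ℂ) a3) * gr (φ a1) (φ a3) +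
        1 * (-D * (R : ℂ)) * gr (φ a1) (φ R) +
      (-1 * (d1 * (starRingEnd ℂ) a1) * gr (φ a2) (φ a1) + -1 * (d2 * (starRingEnd ℂ) a2) * gr (φ a2) (φ a2) +
          -1 * (d3 * (starRingEnd ℂ) a3) * gr (φ a2) (φ a3) +
        -1 * (-D * (R : ℂ)) * gr (φ a2) (φ R)) := by
      rw [hT0]; ring
    rw [e1]
    refine h.trans (le_of_eq ?_)
    congr 2
    · rw [hN]; ring
    · rw [hH0, gr_conj, gr_conj, gr_conj]; ring
  have L1 : Tendsto (fun R : ℝ => ‖T0 - D * ((R : ℂ) * (gr (φ a1) (φ R) - gr (φ a2) (φ R)))‖ ^ 2) atTop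
      (𝓝 (‖T0 - D * 0‖ ^ 2)) :=
    ((tendsto_const_nhds.sub ((gr_lim2 hd hm hn hb (hm h1) (hm h2)).const_mul D)).norm).pow 2
  have g1 := gr_lim hd hm hn hb (s := fun _ => φ a1) (fun _ _ => hm h1)
  have g2 := gr_lim hd hm hn hb (s := fun _ => φ a2) (fun _ _ => hm h2)
  have g3 := gr_lim hd hm hn hb (s := fun _ => φ a3) (fun _ _ => hm h3)
  have g4 := gr_lim hd hm hn hb (s := fun R => φ R) (fun R hR => hm (ofReal_mem hR))
  have conjl : ∀ {f : ℝ → ℂ}, Tendsto f atTop (𝓝 0) → Tendsto (fun R => (starRingEnd ℂ) (f R)) atTop (𝓝 0) := by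
    intro f hf
    have : Tendsto (fun R => (starRingEnd ℂ) (f R)) atTop (𝓝 ((starRingEnd ℂ) 0)) :=
      (Complex.continuous_conj.tendsto 0).comp hf
    simpa using this
  have L2 := ((((tendsto_const_nhds (x := H0)).sub ((((g1.const_mul ((starRingEnd ℂ) d1)).add
    (g2.const_mul ((starRingEnd ℂ) d2))).add (g3.const_mul ((starRingEnd ℂ) d3))).const_mul D)).sub
    (((((conjl g1).const_mul d1).add ((conjl g2).const_mul d2)).add ((conjl g3).const_mul d3)).const_mul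
      ((starRingEnd ℂ) D))).add (g4.const_mul ((starRingEnd ℂ) D * D)))
  have L3 := ((Complex.continuous_re.tendsto _).comp L2).const_mul N.re
  have hfin := le_of_tendsto_of_tendsto L1 L3 (by
    filter_upwards [Filter.eventually_gt_atTop 0] with R hR
    exact hlev R hR)
  simpa using hfin

theorem inj (hd : DifferentiableOn ℂ φ HP) (hm : MapsTo φ HP HP) (hn : HN φ) {a b : ℂ}
    (ha : a ∈ HP) (hb : b ∈ HP) (hab : φ a = φ b) : a = b := by
  have h := hn a b (-1) ha hb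
  have h0 : (⨆ (x : ℝ) (_ : 0 < x), q (KF id (φ a) (φ b) (-1)) x) = 0 := by
    rw [hab]
    simp only [ENNReal.iSup_eq_zero]
    intro x hx
    unfold q KF
    simp
  rw [h0] at h
  have h1 : q (KF φ a b (-1)) 1 = 0 := by
    have : q (KF φ a b (-1)) 1 ≤ (⨆ (x : ℝ) (_ : 0 < x), q (KF φ a b (-1)) x) :=
      le_iSup₂ (f := fun (x : ℝ) (_ : 0 < x) => q (KF φ a b (-1)) x) 1 one_pos
    rw [h] at this
    exact le_antisymm this zero_le
  unfold q at h1
  have hc := cont_line (KF_diff hd hm ha hb (-1)).continuousOn (one_pos)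
  have h1 := (lintegral_eq_zero_iff (μ := (volume : Measure ℝ))
    (f := fun y : ℝ => (‖KF φ a b (-1) (((1 : ℝ) : ℂ) + (y : ℂ) * Complex.I)‖₊ : ENNReal) ^ 2)
    (hc.enorm.measurable.pow_const 2)).1 h1
  obtain ⟨y, hy⟩ := h1.exists
  simp only [Pi.zero_apply, pow_eq_zero_iff, ne_eq, OfNat.ofNat_ne_zero, not_false_eq_true,
    ENNReal.coe_eq_zero, nnnorm_eq_zero] at hy
  have hz : ((1 : ℝ) : ℂ) + (y : ℂ) * Complex.I ∈ HP := by
    rw [mem_HP, line_re]; exact one_pos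
  unfold KF ker at hy
  have h2 : (φ (((1 : ℝ) : ℂ) + (y : ℂ) * Complex.I) + (starRingEnd ℂ) a)⁻¹ =
      (φ (((1 : ℝ) : ℂ) + (y : ℂ) * Complex.I) + (starRingEnd ℂ) b)⁻¹ := by
    linear_combination hy
  have h3 := inv_injective h2
  have h4 := add_left_cancel h3
  exact (starRingEnd ℂ).injective h4

theorem final (hd : DifferentiableOn ℂ φ HP) (hm : MapsTo φ HP HP) (hn : HN φ) {C : NNReal}
    (hb : HB φ C) : ∃ a b c d : ℂ, a * d - b * c ≠ 0 ∧
        ∀ z : ℂ, 0 < z.re → c * z + d ≠ 0 ∧ φ z = (a * z + b) / (c * z + d) := by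
  have m1 : (1 : ℂ) ∈ HP := by simp [HP]
  have m2 : (2 : ℂ) ∈ HP := by simp [HP]
  have hs : φ 2 - φ 1 ≠ 0 := by
    intro h
    have := inj hd hm hn m2 m1 (sub_eq_zero.1 h)
    norm_num at this
  set α : ℂ := (2 - 1) / (φ 2 - φ 1) with hα
  have hα0 : α ≠ 0 := by
    rw [hα]
    exact div_ne_zero (by norm_num) hs
  have key : ∀ z ∈ HP, z = 1 + α * (φ z - φ 1) := by
    intro z hz
    by_cases h1 : φ z = φ 1
    · have := inj hd hm hn hz m1 h1
      rw [this]; ring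
    by_cases h2 : φ z = φ 2
    · have := inj hd hm hn hz m2 h2
      rw [this, hα]
      field_simp
      ring
    have hpi : (2 * (Real.pi : ℂ)) ≠ 0 := by
      have : (Real.pi : ℂ) ≠ 0 := by exact_mod_cast Real.pi_ne_zero
      exact mul_ne_zero two_ne_zero this
    have hN0 : 0 ≤ (1 * (starRingEnd ℂ) 1 * gr (φ 1) (φ 1) - 1 * (starRingEnd ℂ) 2 * gr (φ 1) (φ 2)
      - 2 * (starRingEnd ℂ) 1 * gr (φ 2) (φ 1) + 2 * (starRingEnd ℂ) 2 * gr (φ 2) (φ 2)).re := by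
      have h := gram_nonneg hd hm hn (ι := Fin 2) ![1, 2] (by
        intro i
        fin_cases i
        · exact m1
        · exact m2) ![(starRingEnd ℂ) 1, -(starRingEnd ℂ) 2]
      unfold BB at h
      simp only [Fin.sum_univ_two, Matrix.cons_val_zero, Matrix.cons_val_one] at h
      refine h.trans (le_of_eq ?_)
      congr 1
      simp only [map_neg, Complex.conj_conj]
      ring
    have := alg (P := 2 * (Real.pi : ℂ)) hpi (by rw [map_mul, Complex.conj_ofReal, map_ofNat]) (mem_HP.1 (hm m1)) (mem_HP.1 (hm m2))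
      (mem_HP.1 (hm hz)) (fun h => hs (by rw [h, sub_self])) (fun h => h1 h.symm) (fun h => h2 h.symm)
      gr (fun s t => rfl) _ rfl hN0 (fun d1 d2 d3 => three hd hm hn hb m1 m2 hz d1 d2 d3)
    exact this
  refine ⟨1 / α, φ 1 - 1 / α, 0, 1, by simpa using hα0, fun z hz => ⟨by simp, ?_⟩⟩
  have h := key z hz
  have h2 : α * (φ z - φ 1) = z - 1 := by linear_combination -h
  rw [zero_mul, zero_add, div_one]
  field_simp
  linear_combination h2

end Pool.Agent.H1.NormComp
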