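import Mathlib

namespace Pack3
open Finset

abbrev E := EuclideanSpace ℝ (Fin 3)

lemma far {a b r : ℝ} {w w' : E} (hr : 0 < r) (ha : 2 * r ≤ a) (hb : 2 * r ≤ b)
    (hw : ‖w‖ = 1) (hw' : ‖w'‖ = 1) (h : (a - r) + (b - r) ≤ ‖a • w - b • w'‖) :
    1 ≤ ‖w - w'‖ ^ 2 := by
  have ha0 : 0 < a := by linarith
  have hb0 : 0 < b := by linarith
  set t : ℝ := inner ℝ w w' with ht
  have e1 : ‖a • w - b • w'‖ ^ 2 = a ^ 2 - 2 * (a * b * t) + b ^ 2 := by
    rw [@norm_sub_sq_real, norm_smul, norm_smul, hw, hw', real_inner_smul_left,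
      real_inner_smul_right, Real.norm_of_nonneg ha0.le, Real.norm_of_nonneg hb0.le, ← ht]
    ring
  have e2 : ‖w - w'‖ ^ 2 = 2 - 2 * t := by
    rw [@norm_sub_sq_real, hw, hw', ← ht]
    ring
  have h0 : 0 ≤ (a - r) + (b - r) := by linarith
  have h1 : ((a - r) + (b - r)) ^ 2 ≤ ‖a • w - b • w'‖ ^ 2 := pow_le_pow_left₀ h0 h 2
  rw [e1] at h1
  rw [e2]
  have hab : 0 < a * b := mul_pos ha0 hb0
  have h2 : a * b * (2 * t - 1) ≤ 0 := by
    have h3 : 0 ≤ (a - 2 * r) * (b - 2 * r) := mul_nonneg (by linarith) (by linarith)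
    have h4 : 0 ≤ r * (a - 2 * r) := mul_nonneg hr.le (by linarith)
    have h5 : 0 ≤ r * (b - 2 * r) := mul_nonneg hr.le (by linarith)
    nlinarith
  have h6 : 2 * t - 1 ≤ 0 := by
    by_contra hcon
    push Not at hcon
    have := mul_pos hab hcon
    linarith
  linarith

lemma cell_near {w w' : E} (h : ∀ k, ⌊2 * w k⌋ = ⌊2 * w' k⌋) : ‖w - w'‖ ^ 2 < 1 := by
  have hk : ∀ k, (w k - w' k) ^ 2 ≤ 1 / 4 := by
    intro k
    have h1 := h k
    have a1 := Int.floor_le (2 * w k)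
    have a2 := Int.lt_floor_add_one (2 * w k)
    have b1 := Int.floor_le (2 * w' k)
    have b2 := Int.lt_floor_add_one (2 * w' k)
    rw [h1] at a1 a2
    have c1 : w k - w' k ≤ 1 / 2 := by linarith
    have c2 : -(1 / 2) ≤ w k - w' k := by linarith
    nlinarith
  rw [EuclideanSpace.norm_sq_eq]
  simp only [PiLp.sub_apply, Real.norm_eq_abs, sq_abs, Fin.sum_univ_three]
  have := hk 0
  have := hk 1
  have := hk 2
  linarith

lemma cell_mem {w : E} (hw : ‖w‖ = 1) (k : Fin 3) : ⌊2 * w k⌋ ∈ Finset.Icc (-2 : ℤ) 2 := by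
  have h1 : |w k| ≤ 1 := by
    have := PiLp.norm_apply_le w k
    rw [hw] at this
    simpa using this
  have h2 := abs_le.1 h1
  rw [Finset.mem_Icc]
  constructor
  · rw [Int.le_floor]; push_cast; linarith
  · have : ⌊2 * w k⌋ ≤ ⌊(2 : ℝ)⌋ := Int.floor_le_floor (by linarith)
    simpa using this

/-- at most `125` unit vectors at mutual distance at least one -/
lemma card_sep {ι : Type*} (S : Finset ι) (w : ι → E) (hw : ∀ i ∈ S, ‖w i‖ = 1)
    (hsep : ∀ i ∈ S, ∀ j ∈ S, i ≠ j → 1 ≤ ‖w i - w j‖ ^ 2) : S.card ≤ 125 := by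
  classical
  have h1 : (Fintype.piFinset (fun _ : Fin 3 => Finset.Icc (-2 : ℤ) 2)).card = 125 := by
    rw [Fintype.card_piFinset]
    simp
  rw [← h1]
  refine Finset.card_le_card_of_injOn (fun i => fun k => ⌊2 * w i k⌋) ?_ ?_
  · intro i hi
    simp only [Finset.mem_coe, Fintype.mem_piFinset]
    exact fun k => cell_mem (hw i hi) k
  · intro i hi j hj hij
    by_contra hne
    have h2 := hsep i hi j hj hne
    have h3 := cell_near (w := w i) (w' := w j) (fun k => congrFun hij k)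
    linarith

variable {ι : Type*} (x : ι → E) (r : ι → ℝ) (hr : ∀ v, 0 < r v)
  (hd : ∀ u v, u ≠ v → r u + r v ≤ dist (x u) (x v))

include hr hd in
lemma deg_le (u : ι) (S : Finset ι)
    (hS : ∀ v ∈ S, u ≠ v ∧ dist (x u) (x v) = r u + r v ∧ r u ≤ r v) : S.card ≤ 125 := by
  have hnorm : ∀ v ∈ S, ‖x v - x u‖ = r u + r v := by
    intro v hv
    rw [← dist_eq_norm, dist_comm]
    exact (hS v hv).2.1
  have hpos : ∀ v, 0 < r u + r v := fun v => add_pos (hr u) (hr v)
  have hsm : ∀ v, (r u + r v) • ((r u + r v)⁻¹ • (x v - x u)) = x v - x u := by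
    intro v
    rw [smul_smul, mul_inv_cancel₀ (hpos v).ne', one_smul]
  have hw1 : ∀ v ∈ S, ‖(r u + r v)⁻¹ • (x v - x u)‖ = 1 := by
    intro v hv
    rw [norm_smul, hnorm v hv, norm_inv, Real.norm_of_nonneg (hpos v).le,
      inv_mul_cancel₀ (hpos v).ne']
  refine card_sep S (fun v => (r u + r v)⁻¹ • (x v - x u)) hw1 ?_
  intro v hv v' hv' hne
  have h1 := (hS v hv).2.2
  have h2 := (hS v' hv').2.2
  refine far (a := r u + r v) (b := r u + r v') (hr u) (by linarith) (by linarith)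
    (hw1 v hv) (hw1 v' hv') ?_
  rw [hsm, hsm, sub_sub_sub_cancel_right, ← dist_eq_norm]
  have := hd v v' hne
  linarith

include hr hd in
lemma edges_le [DecidableEq ι] (T : Finset ι) (P : Finset (ι × ι)) (hP : ∀ p ∈ P, p.1 ∈ T ∧ p.2 ∈ T ∧
    p.1 ≠ p.2 ∧ dist (x p.1) (x p.2) = r p.1 + r p.2) : P.card ≤ 250 * T.card := by
  classical
  have half : ∀ Q : Finset (ι × ι), (∀ p ∈ Q, p.1 ∈ T ∧ p.1 ≠ p.2 ∧
      dist (x p.1) (x p.2) = r p.1 + r p.2 ∧ r p.1 ≤ r p.2) → Q.card ≤ 125 * T.card := by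
    intro Q hQ
    rw [mul_comm]
    refine Finset.card_le_mul_card_image_of_maps_to (f := Prod.fst) (fun p hp => (hQ p hp).1) 125 ?_ |>.trans ?_
    · intro u hu
      have : (Q.filter (fun p => p.1 = u)).card ≤
          ((Q.filter (fun p => p.1 = u)).image Prod.snd).card := by
        rw [Finset.card_image_of_injOn]
        intro a ha b hb hab
        simp only [Finset.coe_filter, Set.mem_setOf_eq] at ha hb
        exact Prod.ext (ha.2.trans hb.2.symm) hab
      refine this.trans (deg_le x r hr hd u _ ?_)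
      intro v hv
      simp only [Finset.mem_image, Finset.mem_filter] at hv
      obtain ⟨p, ⟨hp, rfl⟩, rfl⟩ := hv
      exact ⟨(hQ p hp).2.1, (hQ p hp).2.2.1, (hQ p hp).2.2.2⟩
    · rw [mul_comm]
  have h1 : P ⊆ (P.filter (fun p => r p.1 ≤ r p.2)) ∪ (P.filter (fun p => r p.2 ≤ r p.1)) := by
    intro p hp
    rw [Finset.mem_union, Finset.mem_filter, Finset.mem_filter]
    rcases le_total (r p.1) (r p.2) with h | h
    · left; exact ⟨hp, h⟩
    · right; exact ⟨hp, h⟩
  have h2 : (P.filter (fun p => r p.1 ≤ r p.2)).card ≤ 125 * T.card := by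
    apply half
    intro p hp
    rw [Finset.mem_filter] at hp
    obtain ⟨a, b, c, d⟩ := hP p hp.1
    exact ⟨a, c, d, hp.2⟩
  have h3 : (P.filter (fun p => r p.2 ≤ r p.1)).card ≤ 125 * T.card := by
    have : (P.filter (fun p => r p.2 ≤ r p.1)).card =
        ((P.filter (fun p => r p.2 ≤ r p.1)).image Prod.swap).card := by
      rw [Finset.card_image_of_injective _ Prod.swap_injective]
    rw [this]
    apply half
    intro q hq
    rw [Finset.mem_image] at hq
    obtain ⟨p, hp, rfl⟩ := hq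
    rw [Finset.mem_filter] at hp
    obtain ⟨a, b, c, d⟩ := hP p hp.1
    refine ⟨b, fun h => c h.symm, ?_, hp.2⟩
    change dist (x p.2) (x p.1) = r p.2 + r p.1
    rw [dist_comm, d, add_comm]
  calc P.card ≤ _ := Finset.card_le_card h1
    _ ≤ _ := Finset.card_union_le _ _
    _ ≤ 125 * T.card + 125 * T.card := by gcongr
    _ = 250 * T.card := by ring

end Pack3
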