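import Pool.Agent.H1.PackA

namespace Pack3
open Finset

/-- vertices: layer `n` has `n+1` vertices -/
abbrev V := Σ n : ℕ, Fin (n + 1)

/-- complete bipartite between consecutive layers -/
def G : SimpleGraph V where
  Adj u v := u.1 = v.1 + 1 ∨ v.1 = u.1 + 1
  symm := ⟨fun u v h => h.symm⟩
  loopless := ⟨fun u h => by rcases h with h | h <;> omega⟩

lemma adj_iff {u v : V} : G.Adj u v ↔ u.1 = v.1 + 1 ∨ v.1 = u.1 + 1 := Iff.rfl

def o : V := ⟨0, 0⟩

lemma reach (v : V) : G.Reachable o v := by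
  obtain ⟨n, i⟩ := v
  induction n with
  | zero =>
    have : i = 0 := Fin.ext (by have := i.2; omega)
    subst this
    exact SimpleGraph.Reachable.refl _
  | succ n ih =>
    refine (ih 0).trans (SimpleGraph.Adj.reachable ?_)
    rw [adj_iff]
    right
    rfl

lemma conn : G.Connected := by
  have : Nonempty V := ⟨o⟩
  exact ⟨fun u v => (reach u).symm.trans (reach v)⟩

/-- layer as a finset -/
def Ly (n : ℕ) : Finset V := (Finset.univ : Finset (Fin (n + 1))).map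
  ⟨Sigma.mk n, sigma_mk_injective⟩

lemma mem_Ly {n : ℕ} {v : V} : v ∈ Ly n ↔ v.1 = n := by
  obtain ⟨m, i⟩ := v
  simp only [Ly, Finset.mem_map, Finset.mem_univ, true_and, Function.Embedding.coeFn_mk]
  constructor
  · rintro ⟨j, hj⟩
    exact (congrArg Sigma.fst hj).symm
  · rintro rfl
    exact ⟨i, rfl⟩

lemma card_Ly (n : ℕ) : (Ly n).card = n + 1 := by
  rw [Ly, Finset.card_map, Finset.card_univ, Fintype.card_fin]

lemma locfin (v : V) : (G.neighborSet v).Finite := by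
  refine Set.Finite.subset ((Ly (v.1 + 1) ∪ Ly (v.1 - 1)).finite_toSet) ?_
  intro u hu
  rw [SimpleGraph.mem_neighborSet, adj_iff] at hu
  rw [Finset.mem_coe, Finset.mem_union, mem_Ly, mem_Ly]
  omega

/-- all vertices of layers `≤ N` -/
def Low (N : ℕ) : Finset V := (Finset.range (N + 1)).biUnion Ly

lemma mem_Low {N : ℕ} {v : V} : v ∈ Low N ↔ v.1 ≤ N := by
  simp only [Low, Finset.mem_biUnion, Finset.mem_range, mem_Ly]
  constructor
  · rintro ⟨a, ha, hb⟩; omega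
  · intro h; exact ⟨v.1, by omega, rfl⟩

lemma sum_inv (N : ℕ) : ∑ n ∈ range N, (1 : ℝ) / ((n + 1) * (n + 2)) = 1 - 1 / (N + 1) := by
  induction N with
  | zero => simp
  | succ n ih =>
    rw [Finset.sum_range_succ, ih]
    push_cast
    field_simp
    ring

/-- energy of the `n`-th layer -/
noncomputable def En (f : V → ℝ) (n : ℕ) : ℝ :=
  ∑ p : Fin (n + 1) × Fin (n + 2), (f ⟨n, p.1⟩ - f ⟨n + 1, p.2⟩) ^ 2

noncomputable def Av (f : V → ℝ) (n : ℕ) : ℝ := (∑ i : Fin (n + 1), f ⟨n, i⟩) / (n + 1)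

lemma En_ge (f : V → ℝ) (n : ℕ) :
    ((n + 1) * (n + 2) : ℝ) * (Av f n - Av f (n + 1)) ^ 2 ≤ En f n := by
  have h1 : ∑ p : Fin (n + 1) × Fin (n + 2), (f ⟨n, p.1⟩ - f ⟨n + 1, p.2⟩) =
      ((n + 1) * (n + 2) : ℝ) * (Av f n - Av f (n + 1)) := by
    rw [Finset.sum_sub_distrib, Fintype.sum_prod_type, Fintype.sum_prod_type]
    simp only [Finset.sum_const, Finset.card_univ, Fintype.card_fin, nsmul_eq_mul]
    rw [← Finset.mul_sum, Av, Av]
    push_cast
    have e1 : (n : ℝ) + 1 ≠ 0 := by positivity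
    have e2 : (n : ℝ) + 1 + 1 ≠ 0 := by positivity
    field_simp
    ring
  have h2 := sq_sum_le_card_mul_sum_sq (s := (Finset.univ : Finset (Fin (n + 1) × Fin (n + 2))))
    (f := fun p => f ⟨n, p.1⟩ - f ⟨n + 1, p.2⟩)
  rw [h1, Finset.card_univ, Fintype.card_prod, Fintype.card_fin, Fintype.card_fin] at h2
  have h3 : (0 : ℝ) < (n + 1) * (n + 2) := by positivity
  have h4 : (((n + 1) * (n + 2) : ℕ) : ℝ) = (n + 1) * (n + 2) := by push_cast; ring
  have h5 : (((n + 1) * (n + 1 + 1) : ℕ) : ℝ) = (n + 1) * (n + 2) := by push_cast; ring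
  have h6 : ((n + 1) * (n + 2) : ℝ) * (((n + 1) * (n + 2) : ℝ) * (Av f n - Av f (n + 1)) ^ 2) ≤
      ((n + 1) * (n + 2) : ℝ) * En f n := by
    calc _ = (((n + 1) * (n + 2) : ℝ) * (Av f n - Av f (n + 1))) ^ 2 := by ring
      _ ≤ _ := h2
      _ = _ := by rw [h5]; rfl
  exact le_of_mul_le_mul_left h6 h3

lemma energy_lower (f : V → ℝ) (N : ℕ) (hN : ∀ v : V, N ≤ v.1 → f v = 0) (ho : f o = 1) :
    1 ≤ ∑ n ∈ range N, En f n := by
  have h0 : Av f 0 = 1 := by
    rw [Av]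
    have h00 : ∑ i : Fin (0 + 1), f ⟨0, i⟩ = f ⟨0, 0⟩ := Fin.sum_univ_one (fun i : Fin 1 => f ⟨0, i⟩)
    have : f ⟨0, 0⟩ = 1 := ho
    rw [h00, this]
    simp
  have h1 : Av f N = 0 := by
    rw [Av, Finset.sum_eq_zero, zero_div]
    intro i _
    exact hN _ le_rfl
  have h2 : ∑ n ∈ range N, (Av f n - Av f (n + 1)) = 1 := by
    rw [Finset.sum_range_sub', h0, h1, sub_zero]
  have h3 : ∀ n ∈ range N, 2 * (Av f n - Av f (n + 1)) ≤ En f n + 1 / ((n + 1) * (n + 2)) := by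
    intro n _
    have h4 := En_ge f n
    have h5 : (0 : ℝ) < (n + 1) * (n + 2) := by positivity
    set t : ℝ := (n + 1) * (n + 2) with ht
    set d := Av f n - Av f (n + 1)
    have h6 : 0 ≤ (t * d - 1) ^ 2 / t := by positivity
    have h7 : (t * d - 1) ^ 2 / t = t * d ^ 2 - 2 * d + 1 / t := by
      field_simp
      ring
    linarith
  have h8 := Finset.sum_le_sum h3
  rw [← Finset.mul_sum, h2, Finset.sum_add_distrib, sum_inv] at h8
  have h9 : (0 : ℝ) ≤ 1 / (N + 1) := by positivity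
  linarith

/-- edges between layer `n` and `n+1`, as elements of the subtype of ordered adjacent pairs -/
def ed (x : Σ n : ℕ, Fin (n + 1) × Fin (n + 2)) : {p : V × V // G.Adj p.1 p.2} :=
  ⟨(⟨x.1, x.2.1⟩, ⟨x.1 + 1, x.2.2⟩), Or.inr rfl⟩

lemma ed_inj : Function.Injective ed := by
  rintro ⟨n, i, j⟩ ⟨m, k, l⟩ h
  have h1 : ((⟨n, i⟩ : V), (⟨n + 1, j⟩ : V)) = (⟨m, k⟩, ⟨m + 1, l⟩) := congrArg Subtype.val h
  have h2 : (⟨n, i⟩ : V) = ⟨m, k⟩ := congrArg Prod.fst h1
  have h3 : (⟨n + 1, j⟩ : V) = ⟨m + 1, l⟩ := congrArg Prod.snd h1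
  have h4 : n = m := congrArg Sigma.fst h2
  subst h4
  have h5 : i = k := eq_of_heq (Sigma.mk.inj h2).2
  have h6 : j = l := eq_of_heq (Sigma.mk.inj h3).2
  rw [h5, h6]

lemma transient : ∀ f : V → ℝ, (Function.support f).Finite → f o = 1 →
    1 ≤ ∑' p : {p : V × V // G.Adj p.1 p.2}, (f p.1.1 - f p.1.2) ^ 2 := by
  intro f hf ho
  obtain ⟨N, hN⟩ : ∃ N : ℕ, ∀ v : V, N ≤ v.1 → f v = 0 := by
    obtain ⟨N, hN⟩ := (hf.image (fun v : V => v.1)).bddAbove
    refine ⟨N + 1, ?_⟩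
    intro v hv
    by_contra hne
    have h5 : v.1 ≤ N := hN ⟨v, hne, rfl⟩
    omega
  have hfin : (Function.support (fun p : {p : V × V // G.Adj p.1 p.2} =>
      (f p.1.1 - f p.1.2) ^ 2)).Finite := by
    have h1 : ((Low N ×ˢ Low N : Finset (V × V)) : Set (V × V)).Finite := Finset.finite_toSet _
    refine (h1.preimage (Subtype.val_injective.injOn (s := Set.univ) |>.mono (Set.subset_univ _))).subset ?_
    intro p hp
    rw [Set.mem_preimage, Finset.mem_coe, Finset.mem_product, mem_Low, mem_Low]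
    by_contra hcon
    apply hp
    have hadj := adj_iff.1 p.2
    have h2 : N ≤ p.1.1.1 ∧ N ≤ p.1.2.1 := by
      rcases not_and_or.1 hcon with h | h
      · constructor <;> omega
      · constructor <;> omega
    have e1 := hN _ h2.1
    have e2 := hN _ h2.2
    simp only [e1, e2]
    norm_num
  have hsum : Summable (fun p : {p : V × V // G.Adj p.1 p.2} => (f p.1.1 - f p.1.2) ^ 2) :=
    summable_of_hasFiniteSupport hfin
  have h3 : ∑ n ∈ range N, En f n = ∑ y ∈ ((range N).sigma (fun n =>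
      (Finset.univ : Finset (Fin (n + 1) × Fin (n + 2))))).map ⟨ed, ed_inj⟩,
      (f y.1.1 - f y.1.2) ^ 2 := by
    rw [Finset.sum_map, Finset.sum_sigma]
    rfl
  calc (1 : ℝ) ≤ ∑ n ∈ range N, En f n := energy_lower f N hN ho
    _ = _ := h3
    _ ≤ _ := hsum.sum_le_tsum _ (fun _ _ => sq_nonneg _)

end Pack3
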