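import Pool.Agent.H1.PackB

namespace Pack3
open Finset

noncomputable def hs (a b : ℕ) : ℝ := ∑ k ∈ Finset.Ico a b, 1 / ((k : ℝ) + 1)

noncomputable def gg (n0 N n : ℕ) : ℝ := hs (max n n0) N / hs n0 N

lemma gg_diff (n0 N n : ℕ) : gg n0 N n - gg n0 N (n + 1) =
    if n0 ≤ n ∧ n < N then (1 / ((n : ℝ) + 1)) / hs n0 N else 0 := by
  unfold gg
  rw [← sub_div]
  by_cases h1 : n0 ≤ n
  · have e1 : max n n0 = n := max_eq_left h1
    have e2 : max (n + 1) n0 = n + 1 := max_eq_left (by omega)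
    rw [e1, e2]
    by_cases h2 : n < N
    · rw [if_pos ⟨h1, h2⟩]
      congr 1
      unfold hs
      rw [Finset.sum_eq_sum_Ico_succ_bot h2]
      ring
    · rw [if_neg (fun h => h2 h.2)]
      have e3 : hs n N = 0 := by unfold hs; rw [Finset.Ico_eq_empty (by omega), Finset.sum_empty]
      have e4 : hs (n + 1) N = 0 := by
        unfold hs; rw [Finset.Ico_eq_empty (by omega), Finset.sum_empty]
      rw [e3, e4]
      simp
  · rw [if_neg (fun h => h1 h.1)]
    have e1 : max n n0 = n0 := max_eq_right (by omega)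
    have e2 : max (n + 1) n0 = n0 := max_eq_right (by omega)
    rw [e1, e2]
    simp

variable (H : G.Subgraph) (x : H.verts → E) (r : H.verts → ℝ) (hr : ∀ v, 0 < r v)
  (hd : ∀ u v, u ≠ v → r u + r v ≤ dist (x u) (x v))
  (ht : ∀ u v, u ≠ v → (H.coe.Adj u v ↔ dist (x u) (x v) = r u + r v))

include hr hd ht in
lemma count (n : ℕ) (s : Finset {p : H.verts × H.verts // H.coe.Adj p.1 p.2}) :
    (s.filter (fun p => min p.1.1.1.1 p.1.2.1.1 = n)).card ≤ 250 * (2 * n + 3) := by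
  classical
  set T : Finset H.verts := (Ly n ∪ Ly (n + 1)).subtype (· ∈ H.verts) with hT
  have hTc : T.card ≤ 2 * n + 3 := by
    rw [hT, Finset.card_subtype]
    calc _ ≤ (Ly n ∪ Ly (n + 1)).card := Finset.card_filter_le _ _
      _ ≤ (Ly n).card + (Ly (n + 1)).card := Finset.card_union_le _ _
      _ = 2 * n + 3 := by rw [card_Ly, card_Ly]; ring
  have hmem : ∀ v : H.verts, v ∈ T ↔ (v.1.1 = n ∨ v.1.1 = n + 1) := by
    intro v
    rw [hT, Finset.mem_subtype, Finset.mem_union, mem_Ly, mem_Ly]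
  set P : Finset (H.verts × H.verts) :=
    (s.filter (fun p => min p.1.1.1.1 p.1.2.1.1 = n)).map ⟨Subtype.val, Subtype.val_injective⟩ with hP
  have hcard : (s.filter (fun p => min p.1.1.1.1 p.1.2.1.1 = n)).card = P.card := by
    rw [hP, Finset.card_map]
  rw [hcard]
  refine (edges_le x r hr hd T P ?_).trans (Nat.mul_le_mul_left _ hTc)
  intro p hp
  rw [hP, Finset.mem_map] at hp
  obtain ⟨q, hq, rfl⟩ := hp
  rw [Finset.mem_filter] at hq
  have hadj : H.coe.Adj q.1.1 q.1.2 := q.2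
  have hG : G.Adj q.1.1.1 q.1.2.1 := H.adj_sub hadj
  rw [adj_iff] at hG
  have hmin := hq.2
  have hne : q.1.1 ≠ q.1.2 := hadj.ne
  refine ⟨?_, ?_, hne, (ht _ _ hne).1 hadj⟩
  · change q.1.1 ∈ T
    rw [hmem]
    omega
  · change q.1.2 ∈ T
    rw [hmem]
    omega

include hr hd ht in
lemma energy_upper (n0 N : ℕ) (hN : n0 < N)
    (s : Finset {p : H.verts × H.verts // H.coe.Adj p.1 p.2}) :
    ∑ p ∈ s, (gg n0 N p.1.1.1.1 - gg n0 N p.1.2.1.1) ^ 2 ≤ 750 / hs n0 N := by
  classical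
  have hH : 0 < hs n0 N := by
    unfold hs
    apply Finset.sum_pos
    · intro k _; positivity
    · exact ⟨n0, Finset.mem_Ico.2 ⟨le_rfl, hN⟩⟩
  set D : ℕ → ℝ := fun n => ((1 / ((n : ℝ) + 1)) / hs n0 N) ^ 2 with hD
  have h1 : ∀ p ∈ s, (gg n0 N p.1.1.1.1 - gg n0 N p.1.2.1.1) ^ 2 =
      ∑ n ∈ Finset.Ico n0 N, if min p.1.1.1.1 p.1.2.1.1 = n then D n else 0 := by
    intro p _
    have hadj : H.coe.Adj p.1.1 p.1.2 := p.2
    have hG : G.Adj p.1.1.1 p.1.2.1 := H.adj_sub hadj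
    rw [adj_iff] at hG
    rw [Finset.sum_ite_eq]
    rcases hG with h | h
    · have hm : min p.1.1.1.1 p.1.2.1.1 = p.1.2.1.1 := by omega
      rw [hm, h]
      have : (gg n0 N (p.1.2.1.1 + 1) - gg n0 N p.1.2.1.1) ^ 2 =
          (gg n0 N p.1.2.1.1 - gg n0 N (p.1.2.1.1 + 1)) ^ 2 := by ring
      rw [this, gg_diff]
      simp only [Finset.mem_Ico]
      split_ifs
      · rfl
      · ring
    · have hm : min p.1.1.1.1 p.1.2.1.1 = p.1.1.1.1 := by omega
      rw [hm, h, gg_diff]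
      simp only [Finset.mem_Ico]
      split_ifs
      · rfl
      · ring
  rw [Finset.sum_congr rfl h1, Finset.sum_comm]
  have h2 : ∀ n ∈ Finset.Ico n0 N, ∑ p ∈ s, (if min p.1.1.1.1 p.1.2.1.1 = n then D n else 0) ≤
      (750 / hs n0 N ^ 2) * (1 / ((n : ℝ) + 1)) := by
    intro n _
    rw [← Finset.sum_filter, Finset.sum_const, nsmul_eq_mul]
    have hc : ((s.filter (fun p => min p.1.1.1.1 p.1.2.1.1 = n)).card : ℝ) ≤ 250 * (2 * n + 3) := by
      exact_mod_cast count H x r hr hd ht n s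
    have hDn : 0 ≤ D n := by rw [hD]; positivity
    calc _ ≤ (250 * (2 * n + 3) : ℝ) * D n := mul_le_mul_of_nonneg_right hc hDn
      _ ≤ (250 * (3 * (n + 1)) : ℝ) * D n := by
          apply mul_le_mul_of_nonneg_right _ hDn
          have : (0 : ℝ) ≤ n := by positivity
          linarith
      _ = _ := by
          rw [hD]
          field_simp
          ring
  calc _ ≤ _ := Finset.sum_le_sum h2
    _ = 750 / hs n0 N := by
        rw [← Finset.mul_sum]
        change 750 / hs n0 N ^ 2 * hs n0 N = _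
        field_simp

lemma hs_large (n0 : ℕ) (B : ℝ) : ∃ N, n0 < N ∧ B < hs n0 N := by
  have h := Real.tendsto_sum_range_one_div_nat_succ_atTop
  have h2 := (Filter.tendsto_atTop.1 h (B + hs 0 n0 + 1)).and (Filter.eventually_gt_atTop n0)
  obtain ⟨N, h3, h4⟩ := h2.exists
  refine ⟨N, h4, ?_⟩
  have h5 : hs 0 n0 + hs n0 N = ∑ i ∈ range N, 1 / ((i : ℝ) + 1) := by
    unfold hs
    rw [Finset.sum_Ico_consecutive _ (Nat.zero_le _) h4.le, Finset.range_eq_Ico]
  rw [← h5] at h3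
  linarith

include hr hd ht in
theorem recur (ov : H.verts) (c : ℝ) (hc : 0 < c)
    (hcap : ∀ f : H.verts → ℝ, (Function.support f).Finite → f ov = 1 →
        c ≤ ∑' p : {p : H.verts × H.verts // H.coe.Adj p.1 p.2}, (f p.1.1 - f p.1.2) ^ 2) : False := by
  obtain ⟨N, hN, hB⟩ := hs_large ov.1.1 (750 / c)
  have hH : 0 < hs ov.1.1 N := lt_trans (by positivity) hB
  have h1 := hcap (fun v => gg ov.1.1 N v.1.1) ?_ ?_
  · have h2 : ∑' p : {p : H.verts × H.verts // H.coe.Adj p.1 p.2},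
        (gg ov.1.1 N p.1.1.1.1 - gg ov.1.1 N p.1.2.1.1) ^ 2 ≤ 750 / hs ov.1.1 N :=
      tsum_le_of_sum_le' (by positivity) (energy_upper H x r hr hd ht ov.1.1 N hN)
    have h3 : c ≤ 750 / hs ov.1.1 N := h1.trans h2
    rw [le_div_iff₀ hH] at h3
    rw [div_lt_iff₀ hc] at hB
    linarith
  · have h1 : ((Low N : Finset V) : Set V).Finite := Finset.finite_toSet _
    refine (h1.preimage (Subtype.val_injective.injOn (s := Set.univ) |>.mono (Set.subset_univ _))).subset ?_
    intro v hv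
    rw [Set.mem_preimage, Finset.mem_coe, mem_Low]
    by_contra hcon
    apply hv
    have : hs (max v.1.1 ov.1.1) N = 0 := by
      unfold hs
      rw [Finset.Ico_eq_empty (by omega), Finset.sum_empty]
    change gg _ _ _ = 0
    unfold gg
    rw [this, zero_div]
  · change gg _ _ _ = 1
    unfold gg
    rw [max_self, div_self hH.ne']

end Pack3
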