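import Mathlib

set_option autoImplicit false

namespace Pool.Agent.H1.Rado

/-- adjacency in the BIT graph -/
def E (i j : ℕ) : Prop := Nat.testBit j i = true ∨ Nat.testBit i j = true

lemma E_symm {i j : ℕ} : E i j ↔ E j i := by unfold E; exact or_comm

lemma testBit_sum (U : Finset ℕ) (n : ℕ) :
    Nat.testBit (∑ u ∈ U, 2 ^ u) n = true ↔ n ∈ U := by
  rw [← Nat.mem_bitIndices, ← List.mem_toFinset, Finset.toFinset_bitIndices_sum_two_pow]

lemma extension (U V : Finset ℕ) (hUV : Disjoint U V) :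
    ∃ z, z ∉ U ∧ z ∉ V ∧ (∀ u ∈ U, E z u) ∧ ∀ v ∈ V, ¬ E z v := by
  classical
  obtain ⟨N, hN⟩ : ∃ N, ∀ x ∈ U ∪ V, x < N := by
    refine ⟨(U ∪ V).sup id + 1, fun x hx => ?_⟩
    have := Finset.le_sup (f := id) hx
    simp only [id] at this
    omega
  set W := insert N U with hW
  set z := ∑ u ∈ W, 2 ^ u with hz
  have hzN : N < z := by
    have h1 : 2 ^ N ≤ z := Finset.single_le_sum (f := fun u => 2 ^ u) (fun _ _ => Nat.zero_le _)
      (Finset.mem_insert_self N U)
    exact lt_of_lt_of_le Nat.lt_two_pow_self h1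
  have hbit := testBit_sum W
  refine ⟨z, ?_, ?_, ?_, ?_⟩
  · intro h
    have := hN z (Finset.mem_union_left _ h)
    omega
  · intro h
    have := hN z (Finset.mem_union_right _ h)
    omega
  · intro u hu
    right
    exact (hbit u).2 (Finset.mem_insert_of_mem hu)
  · intro v hv h
    have hvN := hN v (Finset.mem_union_right _ hv)
    rcases h with h | h
    · have : Nat.testBit v z = false := by
        apply Nat.testBit_lt_two_pow
        calc v < N := hvN
          _ < z := hzN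
          _ < 2 ^ z := Nat.lt_two_pow_self
      rw [this] at h
      exact absurd h (by simp)
    · have h2 := (hbit v).1 h
      rw [hW, Finset.mem_insert] at h2
      rcases h2 with h2 | h2
      · omega
      · exact Finset.disjoint_left.1 hUV h2 hv

/-- finite partial switching isomorphisms with their labels -/
def Good (f : Finset (ℕ × ℕ × Bool)) : Prop :=
  ∀ p ∈ f, ∀ q ∈ f, (p.1 = q.1 ↔ p.2.1 = q.2.1) ∧ (p.1 = q.1 → p.2.2 = q.2.2) ∧
    (p.1 ≠ q.1 → (E p.2.1 q.2.1 ↔ (E p.1 q.1 ↔ p.2.2 = q.2.2)))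

lemma forth {f : Finset (ℕ × ℕ × Bool)} (hf : Good f) (a : ℕ) :
    ∃ g, Good g ∧ f ⊆ g ∧ ∃ b s, (a, b, s) ∈ g := by
  classical
  by_cases h : ∃ b s, (a, b, s) ∈ f
  · exact ⟨f, hf, subset_rfl, h⟩
  · push Not at h
    have hne : ∀ p ∈ f, p.1 ≠ a := by
      rintro ⟨p1, p2, p3⟩ hp hpa
      simp only at hpa
      subst hpa
      exact h _ _ hp
    set U := (f.filter (fun p => (E a p.1 ↔ p.2.2 = true))).image (fun p => p.2.1) with hU
    set V := (f.filter (fun p => ¬ (E a p.1 ↔ p.2.2 = true))).image (fun p => p.2.1) with hV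
    have hUV : Disjoint U V := by
      rw [Finset.disjoint_left]
      intro x hx hx'
      rw [hU, Finset.mem_image] at hx
      rw [hV, Finset.mem_image] at hx'
      obtain ⟨p, hp, rfl⟩ := hx
      obtain ⟨q, hq, hpq⟩ := hx'
      rw [Finset.mem_filter] at hp hq
      have e := (hf q hq.1 p hp.1).1.2 hpq
      have e2 := (hf q hq.1 p hp.1).2.1 e
      apply hq.2
      rw [e, e2]; exact hp.2
    obtain ⟨z, hz1, hz2, hz3, hz4⟩ := extension U V hUV
    have hzne : ∀ p ∈ f, p.2.1 ≠ z := by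
      intro p hp hpz
      by_cases hc : (E a p.1 ↔ p.2.2 = true)
      · exact hz1 (by rw [← hpz, hU]; exact Finset.mem_image_of_mem _ (Finset.mem_filter.2 ⟨hp, hc⟩))
      · exact hz2 (by rw [← hpz, hV]; exact Finset.mem_image_of_mem _ (Finset.mem_filter.2 ⟨hp, hc⟩))
    have hE : ∀ p ∈ f, (E z p.2.1 ↔ (E a p.1 ↔ p.2.2 = true)) := by
      intro p hp
      by_cases hc : (E a p.1 ↔ p.2.2 = true)
      · simp only [hc, iff_true]
        exact hz3 _ (Finset.mem_image_of_mem _ (Finset.mem_filter.2 ⟨hp, hc⟩))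
      · simp only [hc, iff_false]
        exact hz4 _ (Finset.mem_image_of_mem _ (Finset.mem_filter.2 ⟨hp, hc⟩))
    refine ⟨insert (a, z, true) f, ?_, Finset.subset_insert _ _, z, true, Finset.mem_insert_self _ _⟩
    intro p hp q hq
    rw [Finset.mem_insert] at hp hq
    rcases hp with rfl | hp <;> rcases hq with rfl | hq
    · simp
    · have h1 := hne q hq
      have h2 := hzne q hq
      have h3 := hE q hq
      refine ⟨⟨fun e => absurd e.symm h1, fun e => absurd e.symm h2⟩, fun e => absurd e.symm h1,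
        fun _ => ?_⟩
      simp only
      rw [h3]
      constructor
      · intro e; rw [e]; exact eq_comm
      · intro e; rw [e]; exact eq_comm
    · have h1 := hne p hp
      have h2 := hzne p hp
      have h3 := hE p hp
      refine ⟨⟨fun e => absurd e h1, fun e => absurd e h2⟩, fun e => absurd e h1,
        fun _ => ?_⟩
      simp only
      rw [E_symm, h3, E_symm (i := a)]
    · exact hf p hp q hq

/-- swapping source and target -/
def sw (f : Finset (ℕ × ℕ × Bool)) : Finset (ℕ × ℕ × Bool) :=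
  f.image (fun p => (p.2.1, p.1, p.2.2))

lemma mem_sw {f : Finset (ℕ × ℕ × Bool)} {a b : ℕ} {s : Bool} :
    (a, b, s) ∈ sw f ↔ (b, a, s) ∈ f := by
  unfold sw
  rw [Finset.mem_image]
  constructor
  · rintro ⟨⟨x, y, t⟩, hp, he⟩
    simp only [Prod.mk.injEq] at he
    obtain ⟨rfl, rfl, rfl⟩ := he
    exact hp
  · intro h
    exact ⟨_, h, rfl⟩

lemma good_sw {f : Finset (ℕ × ℕ × Bool)} (hf : Good f) : Good (sw f) := by
  rintro ⟨a, b, s⟩ hp ⟨c, d, t⟩ hq
  rw [mem_sw] at hp hq
  have := hf _ hp _ hq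
  simp only at this ⊢
  obtain ⟨h1, h2, h3⟩ := this
  refine ⟨h1.symm, fun h => h2 (h1.2 h), fun h => ?_⟩
  have h3' := h3 (fun e => h (h1.1 e))
  rw [h3']
  by_cases e1 : E b d <;> by_cases e2 : s = t <;> simp [e1, e2]

lemma back {f : Finset (ℕ × ℕ × Bool)} (hf : Good f) (b : ℕ) :
    ∃ g, Good g ∧ f ⊆ g ∧ ∃ a s, (a, b, s) ∈ g := by
  obtain ⟨g, hg, hfg, a, s, h⟩ := forth (good_sw hf) b
  refine ⟨sw g, good_sw hg, ?_, a, s, mem_sw.2 h⟩
  rintro ⟨x, y, t⟩ hx
  exact mem_sw.2 (hfg (mem_sw.2 hx))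

lemma step (f : {f : Finset (ℕ × ℕ × Bool) // Good f}) (n : ℕ) :
    ∃ g : {f : Finset (ℕ × ℕ × Bool) // Good f}, f.1 ⊆ g.1 ∧ (∃ b s, (n, b, s) ∈ g.1) ∧
      ∃ a s, (a, n, s) ∈ g.1 := by
  obtain ⟨g, hg, hfg, b, s, h⟩ := forth f.2 n
  obtain ⟨g', hg', hgg', a, t, h'⟩ := back hg n
  exact ⟨⟨g', hg'⟩, hfg.trans hgg', ⟨b, s, hgg' h⟩, ⟨a, t, h'⟩⟩

/-- every finite partial switching isomorphism extends to a switching automorphism -/
theorem extend {f : Finset (ℕ × ℕ × Bool)} (hf : Good f) :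
    ∃ σ : Equiv.Perm ℕ, (∃ S : Set ℕ, ∀ i j : ℕ, i ≠ j →
      (E (σ i) (σ j) ↔ (E i j ↔ (i ∈ S ↔ j ∈ S)))) ∧ ∀ p ∈ f, σ p.1 = p.2.1 := by
  choose nxt h1 h2 h3 using step
  let F : ℕ → {f : Finset (ℕ × ℕ × Bool) // Good f} :=
    fun n => Nat.rec ⟨f, hf⟩ (fun n g => nxt g n) n
  have hF : ∀ n, (F n).1 ⊆ (F (n + 1)).1 := fun n => h1 (F n) n
  have hmono : Monotone (fun n => (F n).1) := monotone_nat_of_le_succ hF
  have hfwd : ∀ a, ∃ b s n, (a, b, s) ∈ (F n).1 := by
    intro a
    obtain ⟨b, s, h⟩ := h2 (F a) a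
    exact ⟨b, s, a + 1, h⟩
  have hbwd : ∀ b, ∃ a s n, (a, b, s) ∈ (F n).1 := by
    intro b
    obtain ⟨a, s, h⟩ := h3 (F b) b
    exact ⟨a, s, b + 1, h⟩
  have key : ∀ {a b s a' b' s' n n'}, (a, b, s) ∈ (F n).1 → (a', b', s') ∈ (F n').1 →
      (a = a' ↔ b = b') ∧ (a = a' → s = s') ∧ (a ≠ a' → (E b b' ↔ (E a a' ↔ s = s'))) := by
    intro a b s a' b' s' n n' h h'
    have e1 := hmono (le_max_left n n') h
    have e2 := hmono (le_max_right n n') h'
    exact (F (max n n')).2 _ e1 _ e2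
  choose σ sg N hσ using hfwd
  choose τ tg N' hτ using hbwd
  refine ⟨⟨σ, τ, fun a => ?_, fun b => ?_⟩, ⟨{a | sg a = true}, ?_⟩, ?_⟩
  · exact (key (hτ (σ a)) (hσ a)).1.2 rfl
  · exact (key (hσ (τ b)) (hτ b)).1.1 rfl
  · intro i j hij
    have := (key (hσ i) (hσ j)).2.2 hij
    simp only [Equiv.coe_fn_mk, Set.mem_ofPred_eq]
    rw [this]
    cases sg i <;> cases sg j <;> simp
  · rintro ⟨a, b, s⟩ hp
    exact (key (n' := 0) (hσ a) hp).1.1 rfl

/-- finite symmetric relations embed -/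
theorem embed {α : Type} [DecidableEq α] (e : α → α → Prop) (he : ∀ a b, e a b ↔ e b a)
    (Z : Finset α) : ∃ j : α → ℕ, Set.InjOn j Z ∧
      ∀ a ∈ Z, ∀ b ∈ Z, a ≠ b → (E (j a) (j b) ↔ e a b) := by
  classical
  induction Z using Finset.induction_on with
  | empty => exact ⟨fun _ => 0, by simp, by simp⟩
  | insert c Z hc ih =>
    obtain ⟨j, hj, hje⟩ := ih
    set U := (Z.filter (fun b => e c b)).image j with hU
    set V := (Z.filter (fun b => ¬ e c b)).image j with hV
    have hUV : Disjoint U V := by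
      rw [Finset.disjoint_left]
      intro x hx hx'
      rw [hU, Finset.mem_image] at hx
      rw [hV, Finset.mem_image] at hx'
      obtain ⟨p, hp, rfl⟩ := hx
      obtain ⟨q, hq, hpq⟩ := hx'
      rw [Finset.mem_filter] at hp hq
      have := hj hq.1 hp.1 hpq
      subst this
      exact hq.2 hp.2
    obtain ⟨z, hz1, hz2, hz3, hz4⟩ := extension U V hUV
    have hzne : ∀ b ∈ Z, j b ≠ z := by
      intro p hp hpz
      by_cases hc : e c p
      · exact hz1 (by rw [← hpz, hU]; exact Finset.mem_image_of_mem _ (Finset.mem_filter.2 ⟨hp, hc⟩))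
      · exact hz2 (by rw [← hpz, hV]; exact Finset.mem_image_of_mem _ (Finset.mem_filter.2 ⟨hp, hc⟩))
    have hE : ∀ p ∈ Z, (E z (j p) ↔ e c p) := by
      intro p hp
      by_cases hc : e c p
      · simp only [hc, iff_true]
        exact hz3 _ (Finset.mem_image_of_mem _ (Finset.mem_filter.2 ⟨hp, hc⟩))
      · simp only [hc, iff_false]
        exact hz4 _ (Finset.mem_image_of_mem _ (Finset.mem_filter.2 ⟨hp, hc⟩))
    have hne : ∀ p ∈ Z, p ≠ c := fun p hp h => hc (h ▸ hp)
    refine ⟨fun a => if a = c then z else j a, ?_, ?_⟩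
    · intro p hp q hq hpq
      simp only [Finset.coe_insert, Set.mem_insert_iff, Finset.mem_coe] at hp hq
      simp only at hpq
      rcases hp with rfl | hp <;> rcases hq with rfl | hq
      · rfl
      · rw [if_pos rfl, if_neg (hne q hq)] at hpq
        exact absurd hpq.symm (hzne q hq)
      · rw [if_pos rfl, if_neg (hne p hp)] at hpq
        exact absurd hpq (hzne p hp)
      · rw [if_neg (hne p hp), if_neg (hne q hq)] at hpq
        exact hj hp hq hpq
    · intro p hp q hq hpq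
      rw [Finset.mem_insert] at hp hq
      dsimp only
      rcases hp with rfl | hp <;> rcases hq with rfl | hq
      · exact absurd rfl hpq
      · rw [if_pos rfl, if_neg (hne q hq)]
        exact hE q hq
      · rw [if_pos rfl, if_neg (hne p hp), E_symm, he]
        exact hE p hp
      · rw [if_neg (hne p hp), if_neg (hne q hq)]
        exact hje p hp q hq hpq

end Pool.Agent.H1.Rado
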