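import Pool.Agent.H1.RadoSlice

set_option autoImplicit false

namespace Pool.Agent.H1.Rado

open Classical in
lemma exists_basis {k V : Type} [Field k] [AddCommGroup V] [Module k V] (D A : Submodule k V) :
    ∃ (I : Type) (x : I → V) (ψ : I → (V →ₗ[k] k)), (∀ i, x i ∈ A) ∧ (∀ i, ∀ c ∈ D, ψ i c = 0) ∧
      (∀ i j, ψ i (x j) = if j = i then 1 else 0) ∧ A ≤ D ⊔ Submodule.span k (Set.range x) := by
  set W : Submodule k (V ⧸ D) := A.map D.mkQ with hW
  let b := Module.Basis.ofVectorSpace k W
  have hx : ∀ i, ∃ x ∈ A, D.mkQ x = b i := by
    intro i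
    exact (Submodule.mem_map).1 (b i).2
  choose x hxA hxb using hx
  have hψ : ∀ i, ∃ g : (V ⧸ D) →ₗ[k] k, g.comp W.subtype = b.coord i := by
    intro i
    exact LinearMap.exists_extend (b.coord i)
  choose g hg using hψ
  refine ⟨_, x, fun i => (g i).comp D.mkQ, hxA, ?_, ?_, ?_⟩
  · intro i c hc
    rw [LinearMap.comp_apply, Submodule.mkQ_apply, (Submodule.Quotient.mk_eq_zero D).2 hc, map_zero]
  · intro i j
    rw [LinearMap.comp_apply, hxb]
    have := congrArg (fun h => h (b j)) (hg i)
    simp only [LinearMap.comp_apply, Submodule.subtype_apply] at this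
    rw [this, Module.Basis.coord_apply, Module.Basis.repr_self, Finsupp.single_apply]
    congr
  · intro a ha
    have h1 : (⟨D.mkQ a, Submodule.mem_map_of_mem ha⟩ : W) ∈ Submodule.span k (Set.range b) := by
      rw [b.span_eq]; trivial
    have h2 : D.mkQ a ∈ (Submodule.span k (Set.range x)).map D.mkQ := by
      have h3 := Submodule.mem_map_of_mem (f := W.subtype) h1
      rw [Submodule.map_span, ← Set.range_comp] at h3
      rw [Submodule.map_span, ← Set.range_comp]
      have h4 : (D.mkQ ∘ x) = (W.subtype ∘ b) := by
        ext i
        simp [hxb]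
      rw [h4]
      exact h3
    obtain ⟨y, hy, hya⟩ := (Submodule.mem_map).1 h2
    have h5 : a - y ∈ D := by
      rw [← Submodule.Quotient.mk_eq_zero, ← Submodule.mkQ_apply, map_sub, hya, sub_self]
    have : a = (a - y) + y := by abel
    rw [this]
    exact Submodule.add_mem_sup h5 hy

section Alg

variable {Q : Type} [CommRing Q] [Algebra ℚ Q] (val : Q ≃ₗ[ℚ] (Finset ℕ → ℚ))
  (hmul : ∀ a b X, val (a * b) X = conv (val a) (val b) X)
  (hone : ∀ X, val 1 X = if X = ∅ then 1 else 0)

/-- homogeneous component -/
noncomputable def comp (n : ℕ) : Q →ₗ[ℚ] Q where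
  toFun a := val.symm (fun X => if X.card = n then val a X else 0)
  map_add' a b := by
    rw [← map_add]
    congr 1
    ext X
    simp only [map_add, Pi.add_apply]
    split_ifs <;> simp
  map_smul' c a := by
    rw [RingHom.id_apply, ← map_smul]
    congr 1
    ext X
    simp only [map_smul, Pi.smul_apply]
    split_ifs <;> simp

lemma val_comp (n : ℕ) (a : Q) (X : Finset ℕ) :
    val (comp val n a) X = if X.card = n then val a X else 0 := by
  simp [comp]

/-- the homogeneous invariants -/
def An (n : ℕ) : Submodule ℚ Q where
  carrier := {a | Inv (val a) ∧ ∀ X : Finset ℕ, X.card ≠ n → val a X = 0}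
  add_mem' := by
    rintro a b ⟨h1, h2⟩ ⟨h3, h4⟩
    refine ⟨fun X j hj => ?_, fun X hX => ?_⟩
    · simp only [map_add, Pi.add_apply, h1 X j hj, h3 X j hj]
    · simp only [map_add, Pi.add_apply, h2 X hX, h4 X hX, add_zero]
  zero_mem' := by
    refine ⟨fun X j hj => ?_, fun X hX => ?_⟩ <;> simp
  smul_mem' := by
    rintro c a ⟨h1, h2⟩
    refine ⟨fun X j hj => ?_, fun X hX => ?_⟩
    · simp only [map_smul, Pi.smul_apply, h1 X j hj]
    · simp only [map_smul, Pi.smul_apply, h2 X hX, smul_zero]

lemma comp_mem {a : Q} (ha : Inv (val a)) (n : ℕ) : comp val n a ∈ An val n := by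
  refine ⟨fun X j hj => ?_, fun X hX => ?_⟩
  · rw [val_comp, val_comp, Finset.card_image_of_injOn hj.1, ha X j hj]
  · rw [val_comp, if_neg hX]

lemma comp_self {a : Q} {n : ℕ} (ha : a ∈ An val n) : comp val n a = a := by
  apply val.injective
  ext X
  rw [val_comp]
  split_ifs with h
  · rfl
  · exact (ha.2 X h).symm

lemma comp_ne {a : Q} {n m : ℕ} (ha : a ∈ An val m) (h : m ≠ n) : comp val n a = 0 := by
  apply val.injective
  ext X
  rw [val_comp, map_zero]
  split_ifs with h1
  · exact ha.2 X (by omega)
  · rfl

/-- decomposable elements -/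
def Dn (n : ℕ) : Submodule ℚ Q :=
  Submodule.span ℚ {c | ∃ p q a b, p + q = n ∧ 1 ≤ p ∧ 1 ≤ q ∧ a ∈ An val p ∧ b ∈ An val q ∧ c = a * b}

include hmul in
lemma comp_mul (n : ℕ) (a b : Q) :
    comp val n (a * b) = ∑ pq ∈ Finset.HasAntidiagonal.antidiagonal n, comp val pq.1 a * comp val pq.2 b := by
  apply val.injective
  ext X
  rw [val_comp, map_sum, Finset.sum_apply, hmul]
  have e : ∀ pq ∈ Finset.HasAntidiagonal.antidiagonal n, val (comp val pq.1 a * comp val pq.2 b) X =
      ∑ L ∈ X.powerset, (if L.card = pq.1 ∧ (X \ L).card = pq.2 then val a L * val b (X \ L) else 0) := by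
    intro pq _
    rw [hmul]
    unfold conv
    apply Finset.sum_congr rfl
    intro L _
    rw [val_comp, val_comp]
    split_ifs <;> simp_all
  rw [Finset.sum_congr rfl e, Finset.sum_comm]
  unfold conv
  split_ifs with h
  · apply Finset.sum_congr rfl
    intro L hL
    rw [Finset.mem_powerset] at hL
    rw [Finset.sum_eq_single (L.card, (X \ L).card)]
    · simp
    · rintro ⟨p, q⟩ _ hne
      rw [if_neg]
      rintro ⟨h1, h2⟩
      exact hne (by rw [h1, h2])
    · intro hcon
      exfalso
      apply hcon
      rw [Finset.HasAntidiagonal.mem_antidiagonal]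
      have := Finset.card_sdiff_add_card_eq_card hL
      dsimp only
      omega
  · symm
    apply Finset.sum_eq_zero
    intro L hL
    rw [Finset.mem_powerset] at hL
    apply Finset.sum_eq_zero
    rintro ⟨p, q⟩ hpq
    rw [Finset.HasAntidiagonal.mem_antidiagonal] at hpq
    rw [if_neg]
    rintro ⟨h1, h2⟩
    have := Finset.card_sdiff_add_card_eq_card hL
    dsimp only at h1 h2 hpq
    omega

include hone in
lemma comp_zero_eq (a : Q) : comp val 0 a = val a ∅ • (1 : Q) := by
  apply val.injective
  ext X
  rw [val_comp, map_smul, Pi.smul_apply, hone]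
  by_cases h : X = ∅
  · subst h; simp
  · have : ¬ X.card = 0 := by rwa [Finset.card_eq_zero]
    simp [h]

include hmul in
lemma mul_mem_An {p q : ℕ} {a b : Q} (ha : a ∈ An val p) (hb : b ∈ An val q) :
    a * b ∈ An val (p + q) := by
  constructor
  · have : val (a * b) = conv (val a) (val b) := by ext X; exact hmul a b X
    rw [this]
    exact inv_conv ha.1 hb.1
  · intro X hX
    rw [hmul]
    unfold conv
    apply Finset.sum_eq_zero
    intro L hL
    rw [Finset.mem_powerset] at hL
    have := Finset.card_sdiff_add_card_eq_card hL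
    by_cases h : L.card = p
    · rw [hb.2 (X \ L) (by omega), mul_zero]
    · rw [ha.2 L h, zero_mul]

include hmul in
lemma Dn_le (n : ℕ) : Dn val n ≤ An val n := by
  unfold Dn
  rw [Submodule.span_le]
  rintro c ⟨p, q, a, b, rfl, -, -, ha, hb, rfl⟩
  exact mul_mem_An val hmul ha hb

/-- slices as elements of `Q` -/
noncomputable def sl (X : Finset ℕ) (a : Q) : Q := val.symm (fun Y => slice (val a) X Y)

lemma val_sl (X : Finset ℕ) (a : Q) : val (sl val X a) = slice (val a) X := by
  unfold sl
  rw [LinearEquiv.apply_symm_apply]

lemma sl_add (X : Finset ℕ) (a b : Q) : sl val X (a + b) = sl val X a + sl val X b := by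
  apply val.injective
  rw [map_add, val_sl, val_sl, val_sl]
  ext Y
  simp only [slice, F, map_add, Pi.add_apply, Finset.sum_add_distrib]

lemma sl_smul (X : Finset ℕ) (c : ℚ) (a : Q) : sl val X (c • a) = c • sl val X a := by
  apply val.injective
  rw [map_smul, val_sl, val_sl]
  ext Y
  simp only [slice, F, map_smul, Pi.smul_apply, Finset.smul_sum]

include hmul in
lemma sl_mul {a b : Q} (ha : Inv (val a)) (hb : Inv (val b)) (X : Finset ℕ) :
    sl val X (a * b) = ∑ X' ∈ X.powerset, sl val X' a * sl val (X \ X') b := by
  apply val.injective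
  ext Y
  rw [val_sl, map_sum, Finset.sum_apply]
  have : val (a * b) = conv (val a) (val b) := by ext X; exact hmul a b X
  rw [this, slice_conv ha hb]
  apply Finset.sum_congr rfl
  intro X' _
  rw [hmul, val_sl, val_sl]

/-- the derivation attached to a functional -/
noncomputable def der (Ψ : Q →ₗ[ℚ] ℚ) : Q →ₗ[ℚ] Q where
  toFun a := val.symm (fun X => Ψ (sl val X a))
  map_add' a b := by
    rw [← map_add]
    congr 1
    ext X
    rw [sl_add, map_add]; rfl
  map_smul' c a := by
    rw [RingHom.id_apply, ← map_smul]
    congr 1
    ext X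
    rw [sl_smul, map_smul]; rfl

lemma val_der (Ψ : Q →ₗ[ℚ] ℚ) (a : Q) (X : Finset ℕ) : val (der val Ψ a) X = Ψ (sl val X a) := by
  simp [der]

include hmul in
lemma der_mul (Ψ : Q →ₗ[ℚ] ℚ)
    (hΨ : ∀ a b, Inv (val a) → Inv (val b) → Ψ (a * b) = val a ∅ * Ψ b + val b ∅ * Ψ a)
    {a b : Q} (ha : Inv (val a)) (hb : Inv (val b)) :
    der val Ψ (a * b) = a * der val Ψ b + der val Ψ a * b := by
  apply val.injective
  ext X
  rw [val_der, sl_mul val hmul ha hb, map_sum, map_add, Pi.add_apply, hmul, hmul]
  unfold conv
  rw [← Finset.sum_add_distrib]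
  apply Finset.sum_congr rfl
  intro X' _
  rw [hΨ _ _ (by rw [val_sl]; exact slice_inv ha _) (by rw [val_sl]; exact slice_inv hb _),
    val_sl, val_sl, slice_empty_right ha, slice_empty_right hb, val_der, val_der]
  ring

include hmul hone in
lemma psi_mul {n : ℕ} (hn : 1 ≤ n) (ψ : Q →ₗ[ℚ] ℚ) (hψ : ∀ c ∈ Dn val n, ψ c = 0)
    {a b : Q} (ha : Inv (val a)) (hb : Inv (val b)) :
    (ψ.comp (comp val n)) (a * b) = val a ∅ * (ψ.comp (comp val n)) b
      + val b ∅ * (ψ.comp (comp val n)) a := by
  simp only [LinearMap.comp_apply]
  rw [comp_mul val hmul, map_sum]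
  have h1 : (0, n) ∈ Finset.HasAntidiagonal.antidiagonal n := by
    rw [Finset.HasAntidiagonal.mem_antidiagonal]; simp
  have h2 : (n, 0) ∈ (Finset.HasAntidiagonal.antidiagonal n).erase (0, n) := by
    rw [Finset.mem_erase, Finset.HasAntidiagonal.mem_antidiagonal]
    refine ⟨?_, by simp⟩
    intro h
    have := congrArg Prod.fst h
    dsimp only at this
    omega
  rw [← Finset.add_sum_erase _ _ h1, ← Finset.add_sum_erase _ _ h2]
  rw [Finset.sum_eq_zero, add_zero]
  · dsimp only
    rw [comp_zero_eq val hone, comp_zero_eq val hone, smul_mul_assoc, one_mul, mul_smul_comm,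
      mul_one, map_smul, map_smul, smul_eq_mul, smul_eq_mul]
  · rintro ⟨p, q⟩ hpq
    rw [Finset.mem_erase, Finset.mem_erase, Finset.HasAntidiagonal.mem_antidiagonal] at hpq
    obtain ⟨h3, h4, h5⟩ := hpq
    dsimp only at h5
    apply hψ
    apply Submodule.subset_span
    refine ⟨p, q, _, _, h5, ?_, ?_, comp_mem val ha p, comp_mem val hb q, rfl⟩
    · by_contra hcon
      apply h4
      have hp : p = 0 := by omega
      have hq : q = n := by omega
      rw [hp, hq]
    · by_contra hcon
      apply h3
      have hq : q = 0 := by omega
      have hp : p = n := by omega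
      rw [hp, hq]

include hone in
lemma der_homog {n m : ℕ} (hmn : m ≤ n) (ψ : Q →ₗ[ℚ] ℚ) {a : Q} (ha : a ∈ An val m) :
    der val (ψ.comp (comp val n)) a = if m = n then (2 ^ n * ψ a) • (1 : Q) else 0 := by
  have hsl : ∀ X, sl val X a = comp val (m - X.card) (sl val X a) := by
    intro X
    apply val.injective
    ext Y
    rw [val_comp, val_sl]
    split_ifs with h
    · rfl
    · by_cases hX : X.card + Y.card = m
      · exact absurd (by omega) h
      · exact slice_deg ha.2 X Y hX
  apply val.injective
  ext X
  rw [val_der]
  simp only [LinearMap.comp_apply]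
  by_cases hX : X = ∅
  · subst hX
    have e : sl val ∅ a = (2 ^ m : ℚ) • a := by
      apply val.injective
      ext Y
      rw [val_sl, map_smul, Pi.smul_apply, slice_empty_left ha.1, smul_eq_mul]
      by_cases hY : Y.card = m
      · rw [hY]
      · rw [ha.2 Y hY, mul_zero, mul_zero]
    rw [e, map_smul, map_smul, smul_eq_mul]
    split_ifs with h
    · subst h
      rw [comp_self val ha, map_smul, Pi.smul_apply, hone]
      simp
    · rw [comp_ne val ha h]
      simp
  · have hc : 1 ≤ X.card := Finset.card_pos.2 (Finset.nonempty_iff_ne_empty.2 hX)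
    have e : comp val n (sl val X a) = 0 := by
      apply val.injective
      ext Y
      rw [val_comp, val_sl, map_zero]
      split_ifs with h
      · exact slice_deg ha.2 X Y (by omega)
      · rfl
    rw [e, map_zero]
    split_ifs with h
    · rw [map_smul, Pi.smul_apply, hone, if_neg hX, smul_zero]
    · rw [map_zero]; rfl

include hmul hone in
theorem main : ∃ (ι : Type) (x : ι → Q) (d : ι → ℕ), (∀ i, x i ∈ An val (d i)) ∧
    AlgebraicIndependent ℚ x ∧
    ∀ a : Q, Inv (val a) → (∃ N, ∀ X : Finset ℕ, N ≤ X.card → val a X = 0) →
      a ∈ Algebra.adjoin ℚ (Set.range x) := by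
  classical
  choose I x ψ hxA hψD hψx hspan using fun n : ℕ => exists_basis (Dn val (n + 1)) (An val (n + 1))
  let xx : (Σ n, I n) → Q := fun i => x i.1 i.2
  let Ψ : (Σ n, I n) → (Q →ₗ[ℚ] ℚ) := fun i => (ψ i.1 i.2).comp (comp val (i.1 + 1))
  refine ⟨Σ n, I n, xx, fun i => i.1 + 1, fun i => hxA i.1 i.2, ?_, ?_⟩
  · -- independence
    have hInvP : ∀ P : MvPolynomial (Σ n, I n) ℚ, Inv (val (MvPolynomial.aeval xx P)) := by
      intro P
      induction P using MvPolynomial.induction_on with
      | C c =>
        rw [MvPolynomial.aeval_C]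
        intro X j hj
        rw [Algebra.algebraMap_eq_smul_one, map_smul, Pi.smul_apply, Pi.smul_apply, hone, hone]
        congr 2
        rw [Finset.image_eq_empty]
      | add p q hp hq =>
        intro X j hj
        simp only [map_add, Pi.add_apply, hp X j hj, hq X j hj]
      | mul_X p i hp =>
        rw [map_mul, MvPolynomial.aeval_X]
        have : val (MvPolynomial.aeval xx p * xx i) = conv (val (MvPolynomial.aeval xx p)) (val (xx i)) := by
          ext X; exact hmul _ _ X
        rw [this]
        exact inv_conv hp (hxA i.1 i.2).1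
    have hder : ∀ i : (Σ n, I n), ∀ P : MvPolynomial (Σ n, I n) ℚ,
        (∀ j ∈ P.vars, j.1 ≤ i.1) →
        der val (Ψ i) (MvPolynomial.aeval xx P)
          = (2 ^ (i.1 + 1) : ℚ) • MvPolynomial.aeval xx (MvPolynomial.pderiv i P) := by
      intro i P hP
      let S : Subalgebra ℚ (MvPolynomial (Σ n, I n) ℚ) :=
        { carrier := {P | der val (Ψ i) (MvPolynomial.aeval xx P)
            = (2 ^ (i.1 + 1) : ℚ) • MvPolynomial.aeval xx (MvPolynomial.pderiv i P)}
          mul_mem' := by
            intro a b ha hb
            simp only [Set.mem_ofPred_eq] at ha hb ⊢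
            rw [map_mul, der_mul val hmul (Ψ i) _ (hInvP a) (hInvP b), ha, hb,
              MvPolynomial.pderiv_mul, map_add, map_mul, map_mul]
            · simp only [smul_add, mul_smul_comm, smul_mul_assoc]
              rw [add_comm]
            · intro a b ha hb
              exact psi_mul val hmul hone (by omega) _ (hψD i.1 i.2) ha hb
          add_mem' := by
            intro a b ha hb
            simp only [Set.mem_ofPred_eq] at ha hb ⊢
            rw [map_add, map_add, ha, hb, map_add, map_add, smul_add]
          algebraMap_mem' := by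
            intro c
            simp only [Set.mem_ofPred_eq, MvPolynomial.algebraMap_eq, MvPolynomial.pderiv_C,
              map_zero, smul_zero]
            have h1 : (MvPolynomial.aeval xx (MvPolynomial.C c) : Q) ∈ An val 0 := by
              rw [MvPolynomial.aeval_C, Algebra.algebraMap_eq_smul_one]
              apply (An val 0).smul_mem
              constructor
              · intro X j hj
                simp only [hone, Finset.image_eq_empty]
              · intro X hX
                rw [hone, if_neg]
                rintro rfl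
                exact hX Finset.card_empty
            rw [der_homog val hone (Nat.zero_le _) (ψ i.1 i.2) h1, if_neg (by omega)] }
      have hPs : P ∈ MvPolynomial.supported ℚ {j : (Σ n, I n) | j.1 ≤ i.1} := by
        rw [MvPolynomial.mem_supported]
        intro j hj
        exact hP j hj
      have hle : MvPolynomial.supported ℚ {j : (Σ n, I n) | j.1 ≤ i.1} ≤ S := by
        unfold MvPolynomial.supported
        apply Algebra.adjoin_le
        rintro _ ⟨j, hj, rfl⟩
        show der val (Ψ i) (MvPolynomial.aeval xx (MvPolynomial.X j))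
            = (2 ^ (i.1 + 1) : ℚ) • MvPolynomial.aeval xx (MvPolynomial.pderiv i (MvPolynomial.X j))
        have hj' : j.1 ≤ i.1 := hj
        rw [MvPolynomial.aeval_X, MvPolynomial.pderiv_X,
          der_homog val hone (Nat.add_le_add_right hj' 1) (ψ i.1 i.2) (hxA j.1 j.2)]
        obtain ⟨n, i⟩ := i
        obtain ⟨m, j⟩ := j
        by_cases hmn : m = n
        · subst hmn
          have e := hψx m i j
          dsimp only
          rw [if_pos rfl, e]
          by_cases hij : j = i
          · subst hij
            simp
          · have hne : (⟨m, j⟩ : Σ n, I n) ≠ ⟨m, i⟩ := by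
              intro h
              apply hij
              simpa using h
            rw [if_neg hij, Pi.single_apply, if_neg hne]
            simp
        · have hne : (⟨m, j⟩ : Σ n, I n) ≠ ⟨n, i⟩ := by
            intro h
            apply hmn
            exact congrArg Sigma.fst h
          rw [if_neg (by dsimp only; omega), Pi.single_apply, if_neg hne]
          simp
      exact hle hPs
    rw [algebraicIndependent_iff]
    have key : ∀ N : ℕ, ∀ P : MvPolynomial (Σ n, I n) ℚ, (∀ m ∈ P.support, m.degree ≤ N) →
        MvPolynomial.aeval xx P = 0 → P = 0 := by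
      intro N
      induction N with
      | zero =>
        intro P hP h0
        have : P = MvPolynomial.C (MvPolynomial.coeff 0 P) := by
          ext m
          rw [MvPolynomial.coeff_C]
          split_ifs with h
          · rw [h]
          · by_contra hcon
            have := hP m (MvPolynomial.mem_support_iff.2 hcon)
            apply h
            symm
            rw [← Finsupp.degree_eq_zero_iff]
            omega
        rw [this, MvPolynomial.aeval_C] at h0
        have h1 : MvPolynomial.coeff 0 P = 0 := by
          have := congrArg (fun a => val a ∅) h0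
          rw [Algebra.algebraMap_eq_smul_one, map_smul, Pi.smul_apply, hone, if_pos rfl, map_zero,
            Pi.zero_apply, smul_eq_mul, mul_one] at this
          exact this
        rw [this, h1, map_zero]
      | succ N ih =>
        intro P hP h0
        by_contra hP0
        by_cases hv : P.vars = ∅
        · apply hP0
          apply ih P _ h0
          intro m hm
          have : m = 0 := by
            ext j
            by_contra hcon
            have : j ∈ P.vars := (MvPolynomial.mem_vars_iff_mem_support j).2 ⟨m, hm, Finsupp.mem_support_iff.2 hcon⟩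
            rw [hv] at this
            simp at this
          rw [this]
          simp
        · obtain ⟨i, hi, hmax⟩ := Finset.exists_max_image P.vars (fun j => j.1)
            (Finset.nonempty_iff_ne_empty.2 hv)
          have h1 := hder i P hmax
          rw [h0, map_zero] at h1
          have h2 : MvPolynomial.aeval xx (MvPolynomial.pderiv i P) = 0 := by
            have h3 : (2 ^ (i.1 + 1) : ℚ) ≠ 0 := by positivity
            exact (smul_eq_zero_iff_right h3).1 h1.symm
          have h3 : MvPolynomial.pderiv i P = 0 := by
            apply ih _ _ h2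
            intro m hm
            rw [MvPolynomial.mem_support_iff, MvPolynomial.coeff_pderiv] at hm
            have h4 : MvPolynomial.coeff (m + Finsupp.single i 1) P ≠ 0 := left_ne_zero_of_mul hm
            have h5 := hP _ (MvPolynomial.mem_support_iff.2 h4)
            rw [map_add, Finsupp.degree_single] at h5
            omega
          obtain ⟨m, hm, hmi⟩ := (MvPolynomial.mem_vars_iff_mem_support i).1 hi
          rw [Finsupp.mem_support_iff] at hmi
          have h4 := congrArg (MvPolynomial.coeff (m - Finsupp.single i 1)) h3
          rw [MvPolynomial.coeff_pderiv, MvPolynomial.coeff_zero] at h4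
          have h5 : m - Finsupp.single i 1 + Finsupp.single i 1 = m := by
            apply tsub_add_cancel_of_le
            rw [Finsupp.single_le_iff]
            omega
          rw [h5] at h4
          rcases mul_eq_zero.1 h4 with h6 | h6
          · exact (MvPolynomial.mem_support_iff.1 hm) h6
          · have : (0 : ℚ) < (((m - Finsupp.single i 1 : (Σ n, I n) →₀ ℕ) i : ℕ) : ℚ) + 1 := by
              positivity
            exact this.ne' (by exact_mod_cast h6)
    intro P hP
    exact key P.totalDegree P (fun m hm => MvPolynomial.le_totalDegree hm) hP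
  · -- generation
    have hAn : ∀ n, An val n ≤ Subalgebra.toSubmodule (Algebra.adjoin ℚ (Set.range xx)) := by
      intro n
      induction n using Nat.strong_induction_on with
      | _ n ih =>
        rcases n with _ | n
        · intro a ha
          have : a = val a ∅ • (1 : Q) := by
            rw [← comp_zero_eq val hone, comp_self val ha]
          rw [this]
          exact Submodule.smul_mem _ _ (Subalgebra.one_mem _)
        · refine (hspan n).trans (sup_le ?_ ?_)
          · unfold Dn
            rw [Submodule.span_le]
            rintro c ⟨p, q, a, b, hpq, hp, hq, ha, hb, rfl⟩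
            exact Subalgebra.mul_mem _ (ih p (by omega) ha) (ih q (by omega) hb)
          · rw [Submodule.span_le]
            rintro _ ⟨i, rfl⟩
            exact Algebra.subset_adjoin ⟨⟨n, i⟩, rfl⟩
    rintro a ha ⟨N, hN⟩
    have : a = ∑ n ∈ Finset.range N, comp val n a := by
      apply val.injective
      ext X
      rw [map_sum, Finset.sum_apply]
      simp only [val_comp]
      rw [Finset.sum_ite_eq (Finset.range N) X.card]
      split_ifs with h
      · rfl
      · rw [Finset.mem_range, not_lt] at h
        exact hN X h
    rw [this]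
    apply Subalgebra.sum_mem
    intro n _
    exact hAn n (comp_mem val ha n)

end Alg

end Pool.Agent.H1.Rado
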