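import Pool.Agent.H1.Rado

set_option autoImplicit false

namespace Pool.Agent.H1.Rado

/-- the product -/
def conv (φ ψ : Finset ℕ → ℚ) (X : Finset ℕ) : ℚ := ∑ L ∈ X.powerset, φ L * ψ (X \ L)

/-- switching embeddings of a finite relational structure into the random graph -/
def SwE {α : Type} (Z : Finset α) (e : α → α → Prop) (j : α → ℕ) : Prop :=
  Set.InjOn j Z ∧ ∃ S : Set α, ∀ a ∈ Z, ∀ b ∈ Z, a ≠ b →
    (E (j a) (j b) ↔ (e a b ↔ (a ∈ S ↔ b ∈ S)))

/-- invariance under finite switching isomorphisms -/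
def Inv (φ : Finset ℕ → ℚ) : Prop :=
  ∀ (X : Finset ℕ) (j : ℕ → ℕ), SwE X E j → φ (X.image j) = φ X

lemma SwE.mono {α : Type} {Z Z' : Finset α} {e e' : α → α → Prop} {j : α → ℕ} (h : SwE Z e j)
    (hZ : Z' ⊆ Z) (he : ∀ a ∈ Z', ∀ b ∈ Z', a ≠ b → (e a b ↔ e' a b)) : SwE Z' e' j := by
  obtain ⟨h1, S, h2⟩ := h
  refine ⟨h1.mono (by exact_mod_cast hZ), S, fun a ha b hb hab => ?_⟩
  rw [h2 a (hZ ha) b (hZ hb) hab, he a ha b hb hab]

lemma inv_eq {α : Type} [DecidableEq α] {φ : Finset ℕ → ℚ} (hφ : Inv φ) {Z : Finset α}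
    {e : α → α → Prop} {j j' : α → ℕ} (h : SwE Z e j) (h' : SwE Z e j') :
    φ (Z.image j) = φ (Z.image j') := by
  classical
  rcases Z.eq_empty_or_nonempty with rfl | hne
  · simp
  obtain ⟨z0, hz0⟩ := hne
  have : Nonempty α := ⟨z0⟩
  set inv := Function.invFunOn j (Z : Set α) with hinv
  have hi : ∀ a ∈ Z, inv (j a) = a := fun a ha => h.1.leftInvOn_invFunOn ha
  have e1 : (Z.image j).image (j' ∘ inv) = Z.image j' := by
    rw [Finset.image_image]
    apply Finset.image_congr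
    intro a ha
    simp only [Function.comp]
    rw [hi a ha]
  rw [← e1]
  symm
  apply hφ
  obtain ⟨h1, S, h2⟩ := h
  obtain ⟨h1', S', h2'⟩ := h'
  refine ⟨?_, {y | (inv y ∈ S ↔ inv y ∈ S')}, ?_⟩
  · intro y hy y' hy' hyy
    simp only [Finset.coe_image, Set.mem_image, Finset.mem_coe] at hy hy'
    obtain ⟨a, ha, rfl⟩ := hy
    obtain ⟨b, hb, rfl⟩ := hy'
    simp only [Function.comp] at hyy
    rw [hi a ha, hi b hb] at hyy
    rw [h1' ha hb hyy]
  · intro y hy y' hy' hyy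
    rw [Finset.mem_image] at hy hy'
    obtain ⟨a, ha, rfl⟩ := hy
    obtain ⟨b, hb, rfl⟩ := hy'
    have hab : a ≠ b := fun e => hyy (by rw [e])
    have k1 := h2 a ha b hb hab
    have k2 := h2' a ha b hb hab
    simp only [Function.comp, Set.mem_ofPred_eq]
    rw [hi a ha, hi b hb, k1, k2]
    by_cases q1 : e a b <;> by_cases q2 : a ∈ S <;> by_cases q3 : a ∈ S' <;>
      by_cases q4 : b ∈ S <;> by_cases q5 : b ∈ S' <;> simp [q1, q2, q3, q4, q5]

lemma sum_powerset_image {α : Type} [DecidableEq α] {Z : Finset α} {j : α → ℕ}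
    (hj : Set.InjOn j Z) (h : Finset ℕ → Finset ℕ → ℚ) :
    ∑ M ∈ (Z.image j).powerset, h M (Z.image j \ M)
      = ∑ L ∈ Z.powerset, h (L.image j) ((Z \ L).image j) := by
  rw [Finset.powerset_image, Finset.sum_image]
  · apply Finset.sum_congr rfl
    intro L hL
    rw [Finset.mem_powerset] at hL
    congr 1
    rw [Finset.image_sdiff_of_injOn hj hL]
  · intro L hL L' hL' he
    simp only [Finset.coe_powerset, Set.mem_preimage, Set.mem_powerset_iff, Finset.coe_subset] at hL hL'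
    dsimp only at he
    ext a
    constructor
    · intro ha
      have : j a ∈ L'.image j := by rw [← he]; exact Finset.mem_image_of_mem _ ha
      obtain ⟨b, hb, hba⟩ := Finset.mem_image.1 this
      have := hj (hL' hb) (hL ha) hba
      rwa [← this]
    · intro ha
      have : j a ∈ L.image j := by rw [he]; exact Finset.mem_image_of_mem _ ha
      obtain ⟨b, hb, hba⟩ := Finset.mem_image.1 this
      have := hj (hL hb) (hL' ha) hba
      rwa [← this]

lemma inv_conv {φ ψ : Finset ℕ → ℚ} (hφ : Inv φ) (hψ : Inv ψ) : Inv (conv φ ψ) := by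
  intro X j hj
  unfold conv
  rw [sum_powerset_image hj.1 (fun M N => φ M * ψ N)]
  apply Finset.sum_congr rfl
  intro L hL
  rw [Finset.mem_powerset] at hL
  rw [hφ L j (hj.mono hL fun _ _ _ _ _ => Iff.rfl),
    hψ (X \ L) j (hj.mono Finset.sdiff_subset fun _ _ _ _ _ => Iff.rfl)]

/-- relation on the disjoint union -/
def er (γ : Finset ℕ) : ℕ ⊕ ℕ → ℕ ⊕ ℕ → Prop
  | Sum.inl a, Sum.inl b => E a b
  | Sum.inr a, Sum.inr b => E a b
  | Sum.inl _, Sum.inr b => b ∈ γ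
  | Sum.inr b, Sum.inl _ => b ∈ γ

lemma er_symm (γ : Finset ℕ) (a b : ℕ ⊕ ℕ) : er γ a b ↔ er γ b a := by
  rcases a with a | a <;> rcases b with b | b <;> simp [er, E_symm (i := a)]

noncomputable def jj (Z : Finset (ℕ ⊕ ℕ)) (γ : Finset ℕ) : ℕ ⊕ ℕ → ℕ :=
  Classical.choose (embed (er γ) (er_symm γ) Z)

lemma jj_swe (Z : Finset (ℕ ⊕ ℕ)) (γ : Finset ℕ) : SwE Z (er γ) (jj Z γ) := by
  obtain ⟨h1, h2⟩ := Classical.choose_spec (embed (er γ) (er_symm γ) Z)
  refine ⟨h1, ∅, fun a ha b hb hab => ?_⟩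
  unfold jj
  rw [h2 a ha b hb hab]
  simp

noncomputable def F (φ : Finset ℕ → ℚ) (Z : Finset (ℕ ⊕ ℕ)) (γ : Finset ℕ) : ℚ :=
  φ (Z.image (jj Z γ))

lemma F_eq {φ : Finset ℕ → ℚ} (hφ : Inv φ) {Z : Finset (ℕ ⊕ ℕ)} {γ : Finset ℕ} {j : ℕ ⊕ ℕ → ℕ}
    (h : SwE Z (er γ) j) : F φ Z γ = φ (Z.image j) :=
  inv_eq hφ (jj_swe Z γ) h

lemma F_conv {φ ψ : Finset ℕ → ℚ} (hφ : Inv φ) (hψ : Inv ψ) (Z : Finset (ℕ ⊕ ℕ)) (γ : Finset ℕ) :
    F (conv φ ψ) Z γ = ∑ L ∈ Z.powerset, F φ L γ * F ψ (Z \ L) γ := by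
  unfold F conv
  rw [sum_powerset_image (jj_swe Z γ).1 (fun M N => φ M * ψ N)]
  apply Finset.sum_congr rfl
  intro L hL
  rw [Finset.mem_powerset] at hL
  congr 1
  · exact (inv_eq hφ (jj_swe L γ) ((jj_swe Z γ).mono hL fun _ _ _ _ _ => Iff.rfl)).symm
  · exact (inv_eq hψ (jj_swe (Z \ L) γ)
      ((jj_swe Z γ).mono Finset.sdiff_subset fun _ _ _ _ _ => Iff.rfl)).symm

/-- slices -/
noncomputable def slice (φ : Finset ℕ → ℚ) (X Y : Finset ℕ) : ℚ :=
  ∑ γ ∈ Y.powerset, F φ (X.disjSum Y) γ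

lemma slice_empty_right {φ : Finset ℕ → ℚ} (hφ : Inv φ) (X : Finset ℕ) : slice φ X ∅ = φ X := by
  unfold slice
  rw [Finset.powerset_empty, Finset.sum_singleton]
  have h : SwE (X.disjSum ∅) (er ∅) (Sum.elim id id) := by
    refine ⟨?_, ∅, ?_⟩
    · rintro (a | a) ha (b | b) hb hab <;> simp at ha hb hab ⊢
      exact hab
    · rintro (a | a) ha (b | b) hb hab <;> simp [er] at ha hb hab ⊢
  rw [F_eq hφ h]
  congr 1
  ext a
  simp

lemma slice_empty_left {φ : Finset ℕ → ℚ} (hφ : Inv φ) (Y : Finset ℕ) :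
    slice φ ∅ Y = 2 ^ Y.card * φ Y := by
  unfold slice
  rw [Finset.sum_congr rfl (g := fun _ => φ Y)]
  · simp
  · intro γ _
    have h : SwE ((∅ : Finset ℕ).disjSum Y) (er γ) (Sum.elim id id) := by
      refine ⟨?_, ∅, ?_⟩
      · rintro (a | a) ha (b | b) hb hab <;> simp at ha hb hab ⊢
        exact hab
      · rintro (a | a) ha (b | b) hb hab <;> simp [er] at ha hb hab ⊢
    rw [F_eq hφ h]
    congr 1
    ext a
    simp

lemma slice_deg {φ : Finset ℕ → ℚ} {n : ℕ} (hn : ∀ X : Finset ℕ, X.card ≠ n → φ X = 0)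
    (X Y : Finset ℕ) (h : X.card + Y.card ≠ n) : slice φ X Y = 0 := by
  unfold slice
  apply Finset.sum_eq_zero
  intro γ _
  unfold F
  apply hn
  rw [Finset.card_image_of_injOn (jj_swe _ _).1, Finset.card_disjSum]
  exact h

lemma mem_symm_of {Y γ A : Finset ℕ} (hγ : γ ⊆ Y) (hA : A ⊆ Y) {y : ℕ}
    (hy : y ∈ symmDiff γ A) : y ∈ Y := by
  rw [Finset.mem_symmDiff] at hy
  rcases hy with ⟨h, -⟩ | ⟨h, -⟩
  · exact hγ h
  · exact hA h

lemma slice_inv_aux {φ : Finset ℕ → ℚ} (hφ : Inv φ) (X Y : Finset ℕ) (j : ℕ → ℕ)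
    (hinj : Set.InjOn j Y) (S : Set ℕ)
    (hS : ∀ a ∈ Y, ∀ b ∈ Y, a ≠ b → (E (j a) (j b) ↔ (E a b ↔ (a ∈ S ↔ b ∈ S))))
    (γ γ' : Finset ℕ) (hmem : ∀ y ∈ Y, (j y ∈ γ' ↔ (y ∈ γ ↔ y ∉ S))) :
    F φ (X.disjSum Y) γ = F φ (X.disjSum (Y.image j)) γ' := by
  classical
  set k := jj (X.disjSum (Y.image j)) γ' with hk
  obtain ⟨k1, T, k2⟩ := jj_swe (X.disjSum (Y.image j)) γ'
  rw [← hk] at k1 k2
  have hm : ∀ a ∈ X.disjSum Y, Sum.map id j a ∈ X.disjSum (Y.image j) := by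
    rintro (a | a) ha
    · simpa using ha
    · simp only [Finset.inr_mem_disjSum, Sum.map_inr] at ha ⊢
      exact Finset.mem_image_of_mem _ ha
  have hne : ∀ a ∈ X.disjSum Y, ∀ b ∈ X.disjSum Y, Sum.map id j a = Sum.map id j b → a = b := by
    rintro (a | a) ha (b | b) hb hab
    · simpa using hab
    · simp at hab
    · simp at hab
    · simp only [Sum.map_inr, Sum.inr.injEq, Finset.inr_mem_disjSum] at hab ha hb
      rw [hinj ha hb hab]
  have hsw : SwE (X.disjSum Y) (er γ) (k ∘ Sum.map id j) := by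
    refine ⟨?_, {a | (Sum.map id j a ∈ T ↔ ¬ Sum.elim (fun _ => False) (fun y => y ∈ S) a)}, ?_⟩
    · intro a ha b hb hab
      exact hne a ha b hb (k1 (hm a ha) (hm b hb) hab)
    · intro a ha b hb hab
      have h1 := k2 _ (hm a ha) _ (hm b hb) (fun e => hab (hne a ha b hb e))
      simp only [Function.comp, Set.mem_ofPred_eq]
      rw [h1]
      rcases a with a | a <;> rcases b with b | b
      · simp only [Sum.map_inl, er, id, Sum.elim_inl, not_false_eq_true, iff_true]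
      · simp only [Finset.inr_mem_disjSum] at hb
        simp only [Sum.map_inl, Sum.map_inr, er, id, Sum.elim_inl, Sum.elim_inr,
          not_false_eq_true, iff_true]
        rw [hmem b hb]
        generalize (Sum.inl a ∈ T) = p1
        generalize (Sum.inr (j b) ∈ T) = p2
        by_cases q1 : b ∈ γ <;> by_cases q2 : b ∈ S <;> by_cases q3 : p1 <;>
          by_cases q4 : p2 <;> simp [q1, q2, q3, q4]
      · simp only [Finset.inr_mem_disjSum] at ha
        simp only [Sum.map_inl, Sum.map_inr, er, id, Sum.elim_inl, Sum.elim_inr,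
          not_false_eq_true, iff_true]
        rw [hmem a ha]
        generalize (Sum.inl b ∈ T) = p1
        generalize (Sum.inr (j a) ∈ T) = p2
        by_cases q1 : a ∈ γ <;> by_cases q2 : a ∈ S <;> by_cases q3 : p1 <;>
          by_cases q4 : p2 <;> simp [q1, q2, q3, q4]
      · simp only [Finset.inr_mem_disjSum] at ha hb
        have h2 := hS a ha b hb (fun e => hab (by rw [e]))
        simp only [Sum.map_inr, er, Sum.elim_inr]
        rw [h2]
        generalize (Sum.inr (j a) ∈ T) = p1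
        generalize (Sum.inr (j b) ∈ T) = p2
        by_cases q1 : E a b <;> by_cases q2 : a ∈ S <;> by_cases q3 : b ∈ S <;>
          by_cases q4 : p1 <;> by_cases q5 : p2 <;>
          simp [q1, q2, q3, q4, q5]
  rw [F_eq hφ hsw]
  unfold F
  congr 1
  rw [← hk]
  ext z
  simp only [Finset.mem_image, Finset.mem_disjSum, Function.comp]
  constructor
  · rintro ⟨a, (⟨x, hx, rfl⟩ | ⟨y, hy, rfl⟩), rfl⟩
    · exact ⟨Sum.inl x, Or.inl ⟨x, hx, rfl⟩, rfl⟩
    · exact ⟨Sum.inr (j y), Or.inr ⟨j y, ⟨y, hy, rfl⟩, rfl⟩, rfl⟩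
  · rintro ⟨a, (⟨x, hx, rfl⟩ | ⟨y, ⟨y', hy', rfl⟩, rfl⟩), rfl⟩
    · exact ⟨Sum.inl x, Or.inl ⟨x, hx, rfl⟩, rfl⟩
    · exact ⟨Sum.inr y', Or.inr ⟨y', hy', rfl⟩, rfl⟩

lemma slice_inv {φ : Finset ℕ → ℚ} (hφ : Inv φ) (X : Finset ℕ) : Inv (slice φ X) := by
  classical
  intro Y j hj
  obtain ⟨hinj, S, hS⟩ := hj
  unfold slice
  set A := Y.filter (fun y => y ∈ S) with hA
  have hAY : A ⊆ Y := Finset.filter_subset _ _
  symm
  refine Finset.sum_bij' (fun γ _ => (symmDiff γ A).image j)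
    (fun γ' _ => symmDiff (Y.filter (fun y => j y ∈ γ')) A) ?_ ?_ ?_ ?_ ?_
  · intro γ hγ
    rw [Finset.mem_powerset] at hγ ⊢
    exact Finset.image_subset_image fun y hy => mem_symm_of hγ hAY hy
  · intro γ' _
    rw [Finset.mem_powerset]
    exact fun y hy => mem_symm_of (Finset.filter_subset _ _) hAY hy
  · intro γ hγ
    rw [Finset.mem_powerset] at hγ
    have e : (Y.filter (fun y => j y ∈ (symmDiff γ A).image j)) = symmDiff γ A := by
      ext y
      rw [Finset.mem_filter, Finset.mem_image]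
      constructor
      · rintro ⟨hy, z, hz, hzy⟩
        have hzY : z ∈ Y := mem_symm_of hγ hAY hz
        rwa [← hinj hzY hy hzy]
      · intro hy
        exact ⟨mem_symm_of hγ hAY hy, y, hy, rfl⟩
    rw [e, symmDiff_assoc, symmDiff_self, symmDiff_bot]
  · intro γ' hγ'
    rw [Finset.mem_powerset] at hγ'
    rw [symmDiff_assoc, symmDiff_self, symmDiff_bot]
    ext y
    rw [Finset.mem_image]
    constructor
    · rintro ⟨z, hz, rfl⟩
      exact (Finset.mem_filter.1 hz).2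
    · intro hy
      obtain ⟨z, hz, rfl⟩ := Finset.mem_image.1 (hγ' hy)
      exact ⟨z, Finset.mem_filter.2 ⟨hz, hy⟩, rfl⟩
  · intro γ hγ
    rw [Finset.mem_powerset] at hγ
    apply slice_inv_aux hφ X Y j hinj S hS
    intro y hy
    rw [Finset.mem_image]
    constructor
    · rintro ⟨z, hz, hzy⟩
      have hzY : z ∈ Y := mem_symm_of hγ hAY hz
      have := hinj hzY hy hzy
      subst this
      rw [Finset.mem_symmDiff, hA, Finset.mem_filter] at hz
      tauto
    · intro h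
      refine ⟨y, ?_, rfl⟩
      rw [Finset.mem_symmDiff, hA, Finset.mem_filter]
      tauto

lemma F_congr {φ : Finset ℕ → ℚ} (hφ : Inv φ) (X Y γ : Finset ℕ) :
    F φ (X.disjSum Y) γ = F φ (X.disjSum Y) (γ ∩ Y) := by
  have h : SwE (X.disjSum Y) (er γ) (jj (X.disjSum Y) (γ ∩ Y)) := by
    refine (jj_swe _ _).mono subset_rfl ?_
    rintro (a | a) ha (b | b) hb hab <;>
      simp only [Finset.inr_mem_disjSum, Finset.inl_mem_disjSum] at ha hb <;>
      simp [er, ha, hb]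
  rw [F_eq hφ h]
  rfl

lemma sum_split {Y Y' : Finset ℕ} (hY : Y' ⊆ Y) (h k : Finset ℕ → ℚ) :
    ∑ γ ∈ Y.powerset, h (γ ∩ Y') * k (γ ∩ (Y \ Y'))
      = (∑ γ ∈ Y'.powerset, h γ) * ∑ γ ∈ (Y \ Y').powerset, k γ := by
  rw [Finset.sum_mul_sum, ← Finset.sum_product']
  refine Finset.sum_bij' (fun γ _ => (γ ∩ Y', γ ∩ (Y \ Y'))) (fun p _ => p.1 ∪ p.2) ?_ ?_ ?_ ?_ ?_
  · intro γ _
    simp only [Finset.mem_product, Finset.mem_powerset]
    exact ⟨Finset.inter_subset_right, Finset.inter_subset_right⟩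
  · rintro ⟨a, b⟩ hab
    simp only [Finset.mem_product, Finset.mem_powerset] at hab ⊢
    exact Finset.union_subset (hab.1.trans hY) (hab.2.trans Finset.sdiff_subset)
  · intro γ hγ
    rw [Finset.mem_powerset] at hγ
    ext y
    simp only [Finset.mem_union, Finset.mem_inter, Finset.mem_sdiff]
    constructor
    · tauto
    · intro hy
      have := hγ hy
      tauto
  · rintro ⟨a, b⟩ hab
    simp only [Finset.mem_product, Finset.mem_powerset] at hab
    obtain ⟨ha, hb⟩ := hab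
    ext y
    · simp only [Finset.mem_union, Finset.mem_inter]
      constructor
      · rintro ⟨h | h, h'⟩
        · exact h
        · exact absurd h' (Finset.mem_sdiff.1 (hb h)).2
      · intro h; exact ⟨Or.inl h, ha h⟩
    · simp only [Finset.mem_union, Finset.mem_inter]
      constructor
      · rintro ⟨h | h, h'⟩
        · exact absurd (ha h) (Finset.mem_sdiff.1 h').2
        · exact h
      · intro h; exact ⟨Or.inr h, hb h⟩
  · intro γ _; rfl

lemma sum_disjSum (X Y : Finset ℕ) (h : Finset (ℕ ⊕ ℕ) → Finset (ℕ ⊕ ℕ) → ℚ) :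
    ∑ L ∈ (X.disjSum Y).powerset, h L (X.disjSum Y \ L)
      = ∑ X' ∈ X.powerset, ∑ Y' ∈ Y.powerset, h (X'.disjSum Y') ((X \ X').disjSum (Y \ Y')) := by
  rw [← Finset.sum_product']
  symm
  refine Finset.sum_bij' (fun p _ => p.1.disjSum p.2) (fun L _ => (L.toLeft, L.toRight))
    ?_ ?_ ?_ ?_ ?_
  · rintro ⟨a, b⟩ hab
    simp only [Finset.mem_product, Finset.mem_powerset] at hab ⊢
    exact Finset.disjSum_mono hab.1 hab.2
  · intro L hL
    simp only [Finset.mem_product, Finset.mem_powerset] at hL ⊢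
    constructor
    · intro x hx
      have := hL (Finset.mem_toLeft.1 hx)
      simpa using this
    · intro x hx
      have := hL (Finset.mem_toRight.1 hx)
      simpa using this
  · rintro ⟨a, b⟩ _
    simp
  · intro L _
    ext (x | x) <;> simp
  · rintro ⟨a, b⟩ _
    dsimp only
    congr 1
    ext (x | x) <;> simp

lemma slice_conv {φ ψ : Finset ℕ → ℚ} (hφ : Inv φ) (hψ : Inv ψ) (X Y : Finset ℕ) :
    slice (conv φ ψ) X Y = ∑ X' ∈ X.powerset, conv (slice φ X') (slice ψ (X \ X')) Y := by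
  unfold slice conv
  have e1 : ∀ γ ∈ Y.powerset, F (conv φ ψ) (X.disjSum Y) γ =
      ∑ X' ∈ X.powerset, ∑ Y' ∈ Y.powerset,
        F φ (X'.disjSum Y') γ * F ψ ((X \ X').disjSum (Y \ Y')) γ := by
    intro γ _
    rw [F_conv hφ hψ, sum_disjSum X Y (fun L M => F φ L γ * F ψ M γ)]
  rw [show (fun X => ∑ L ∈ X.powerset, φ L * ψ (X \ L)) = conv φ ψ from rfl,
    Finset.sum_congr rfl e1, Finset.sum_comm]
  apply Finset.sum_congr rfl
  intro X' _
  rw [Finset.sum_comm]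
  apply Finset.sum_congr rfl
  intro Y' hY'
  rw [Finset.mem_powerset] at hY'
  rw [← sum_split hY' (fun γ => F φ (X'.disjSum Y') γ) (fun γ => F ψ ((X \ X').disjSum (Y \ Y')) γ)]
  apply Finset.sum_congr rfl
  intro γ _
  rw [F_congr hφ, F_congr hψ (X \ X')]

end Pool.Agent.H1.Rado
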